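import Pool.Agent.H279R3.Stmts2

/-!
# Existence of a central vertex (`TaskB0`), by helper662
-/

namespace H279R3

open SimpleGraph

section B0

variable {W : Type} {H : SimpleGraph W}

lemma b0_mem_bdry {Z : Set W} {a b : W} : s(a, b) ∈ bdry H Z ↔
    H.Adj a b ∧ ((a ∈ Z ∧ b ∉ Z) ∨ (a ∉ Z ∧ b ∈ Z)) := by
  constructor
  · rintro ⟨h1, ⟨x, hx, hxZ⟩, ⟨y, hy, hyZ⟩⟩
    refine ⟨h1, ?_⟩
    rw [Sym2.mem_iff] at hx hy
    rcases hx with rfl | rfl <;> rcases hy with rfl | rfl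
    · exact absurd hxZ hyZ
    · exact Or.inl ⟨hxZ, hyZ⟩
    · exact Or.inr ⟨hyZ, hxZ⟩
    · exact absurd hxZ hyZ
  · rintro ⟨h1, ⟨ha, hb⟩ | ⟨ha, hb⟩⟩
    · exact ⟨h1, ⟨a, Sym2.mem_mk_left a b, ha⟩, ⟨b, Sym2.mem_mk_right a b, hb⟩⟩
    · exact ⟨h1, ⟨b, Sym2.mem_mk_right a b, hb⟩, ⟨a, Sym2.mem_mk_left a b, ha⟩⟩

lemma b0_wsum_bdry (Z : Set W) {x y : W} (p : H.Walk x y) :
    wsum (fun e => ind2 (e ∈ bdry H Z)) p = ind2 (x ∈ Z) + ind2 (y ∈ Z) := by
  induction p with
  | nil => rw [wsum_nil, zmod2_add_self]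
  | @cons a b c h p ih =>
    rw [wsum_cons, ih]
    have h1 : ind2 (s(a, b) ∈ bdry H Z) = ind2 (a ∈ Z) + ind2 (b ∈ Z) := by
      by_cases ha : a ∈ Z
      · by_cases hb : b ∈ Z
        · rw [ind2_pos ha, ind2_pos hb, zmod2_add_self, ind2_neg]
          rw [b0_mem_bdry]
          tauto
        · rw [ind2_pos ha, ind2_neg hb, add_zero, ind2_pos]
          exact b0_mem_bdry.2 ⟨h, Or.inl ⟨ha, hb⟩⟩
      · by_cases hb : b ∈ Z
        · rw [ind2_neg ha, ind2_pos hb, zero_add, ind2_pos]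
          exact b0_mem_bdry.2 ⟨h, Or.inr ⟨ha, hb⟩⟩
        · rw [ind2_neg ha, ind2_neg hb, add_zero, ind2_neg]
          rw [b0_mem_bdry]
          tauto
    rw [h1]
    calc _ = ind2 (a ∈ Z) + (ind2 (b ∈ Z) + ind2 (b ∈ Z)) + ind2 (c ∈ Z) := by ring
      _ = _ := by rw [zmod2_add_self, add_zero]

/-- a closed trail that uses an edge of a finite boundary uses at least two -/
lemma b0_two_le (Z : Set W) {v : W} {c : H.Walk v v} (hc : c.IsTrail) (hfin : (bdry H Z).Finite)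
    {g : Sym2 W} (hg : g ∈ c.edges) (hgZ : g ∈ bdry H Z) : 2 ≤ (bdry H Z).ncard := by
  classical
  have h1 := b0_wsum_bdry Z c
  rw [zmod2_add_self] at h1
  unfold wsum at h1
  rw [list_sum_ind, ← ncard_list_inter _ hc.edges_nodup, ← even_iff_zmod] at h1
  have hsub : {e | e ∈ c.edges} ∩ {e | e ∈ bdry H Z} ⊆ bdry H Z := fun e he => he.2
  have hle := Set.ncard_le_ncard hsub hfin
  have hpos : 0 < ({e | e ∈ c.edges} ∩ {e | e ∈ bdry H Z}).ncard :=
    (Set.ncard_pos (hfin.subset hsub)).2 ⟨g, hg, hgZ⟩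
  obtain ⟨k, hk⟩ := h1
  omega

/-- submodularity with a common edge -/
lemma b0_submod {X Y : Set W} (hX : Small2 H X) (hY : Small2 H Y) {g : Sym2 W}
    (h : (g ∈ bdry H X ∧ g ∈ bdry H Y ∧ g ∉ bdry H (X ∪ Y) ∧ g ∉ bdry H (X ∩ Y)) ∨
      2 ≤ (bdry H (X ∩ Y)).ncard) : Small2 H (X ∪ Y) := by
  have hU : (bdry H X ∪ bdry H Y).Finite := hX.1.union hY.1
  have s1 : bdry H (X ∪ Y) ⊆ bdry H X ∪ bdry H Y := by
    intro e
    induction e using Sym2.ind with
    | _ a b =>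
      rw [Set.mem_union, b0_mem_bdry, b0_mem_bdry, b0_mem_bdry]
      simp only [Set.mem_union]
      tauto
  have s2 : bdry H (X ∩ Y) ⊆ bdry H X ∪ bdry H Y := by
    intro e
    induction e using Sym2.ind with
    | _ a b =>
      rw [Set.mem_union, b0_mem_bdry, b0_mem_bdry, b0_mem_bdry]
      simp only [Set.mem_inter_iff]
      tauto
  have s3 : bdry H (X ∪ Y) ∩ bdry H (X ∩ Y) ⊆ bdry H X ∩ bdry H Y := by
    intro e
    induction e using Sym2.ind with
    | _ a b =>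
      rw [Set.mem_inter_iff, Set.mem_inter_iff, b0_mem_bdry, b0_mem_bdry, b0_mem_bdry, b0_mem_bdry]
      simp only [Set.mem_inter_iff, Set.mem_union]
      tauto
  have f1 := hU.subset s1
  have f2 := hU.subset s2
  have c1 := Set.ncard_union_add_ncard_inter (bdry H (X ∪ Y)) (bdry H (X ∩ Y)) f1 f2
  have c2 := Set.ncard_union_add_ncard_inter (bdry H X) (bdry H Y) hX.1 hY.1
  have hX2 := hX.2
  have hY2 := hY.2
  refine ⟨f1, ?_⟩
  rcases h with ⟨g1, g2, g3, g4⟩ | h
  · have t1 : (bdry H (X ∪ Y) ∪ bdry H (X ∩ Y)).ncard < (bdry H X ∪ bdry H Y).ncard := by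
      apply Set.ncard_lt_ncard _ hU
      refine (Set.union_subset s1 s2).ssubset_of_ne ?_
      intro heq
      have : g ∈ bdry H (X ∪ Y) ∪ bdry H (X ∩ Y) := by rw [heq]; exact Or.inl g1
      rcases this with h | h
      · exact g3 h
      · exact g4 h
    have t2 : (bdry H (X ∪ Y) ∩ bdry H (X ∩ Y)).ncard < (bdry H X ∩ bdry H Y).ncard := by
      apply Set.ncard_lt_ncard _ (hX.1.inter_of_left _)
      refine s3.ssubset_of_ne ?_
      intro heq
      have : g ∈ bdry H (X ∪ Y) ∩ bdry H (X ∩ Y) := by rw [heq]; exact ⟨g1, g2⟩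
      exact g3 this.1
    omega
  · have t1 : (bdry H (X ∪ Y) ∪ bdry H (X ∩ Y)).ncard ≤ (bdry H X ∪ bdry H Y).ncard :=
      Set.ncard_le_ncard (Set.union_subset s1 s2) hU
    have t2 : (bdry H (X ∪ Y) ∩ bdry H (X ∩ Y)).ncard ≤ (bdry H X ∩ bdry H Y).ncard :=
      Set.ncard_le_ncard s3 (hX.1.inter_of_left _)
    omega

lemma b0_cross {v : W} (c : H.Walk v v) (X : Set W) {a b : W} (ha : a ∈ c.support)
    (hb : b ∈ c.support) (haX : a ∈ X) (hbX : b ∉ X) :
    ∃ x y, s(x, y) ∈ c.edges ∧ x ∈ X ∧ y ∉ X := by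
  classical
  by_cases hv : v ∈ X
  · obtain ⟨d, hd, h1, h2⟩ := (c.takeUntil b hb).exists_boundary_dart X hv hbX
    exact ⟨d.fst, d.snd, c.edges_takeUntil_subset_edges hb (List.mem_map_of_mem hd), h1, h2⟩
  · obtain ⟨d, hd, h1, h2⟩ := (c.takeUntil a ha).exists_boundary_dart Xᶜ hv (fun h => h haX)
    refine ⟨d.snd, d.fst, ?_, not_not.1 h2, h1⟩
    rw [Sym2.eq_swap]
    exact c.edges_takeUntil_subset_edges ha (List.mem_map_of_mem hd)

lemma b0_support_finite {v : W} (c : H.Walk v v) : {w | w ∈ c.support}.Finite :=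
  List.finite_toSet _

lemma b0_card_support {v : W} {c : H.Walk v v} (hc : c.IsCycle) :
    {w | w ∈ c.support}.ncard = c.length := by
  classical
  have h1 : {w | w ∈ c.support} = (c.support.tail.toFinset : Set W) := by
    ext w
    simp only [Set.mem_ofPred_eq, List.coe_toFinset]
    rw [Walk.mem_support_iff]
    constructor
    · rintro (rfl | h)
      · exact c.end_mem_tail_support hc.not_nil
      · exact h
    · exact Or.inr
  rw [h1, Set.ncard_coe_finset, List.toFinset_card_of_nodup hc.support_nodup, List.length_tail,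
    Walk.length_support]
  rfl

/-- number of vertices in `X` and outside -/
lemma b0_card_add {v : W} {c : H.Walk v v} (hc : c.IsCycle) (X : Set W) :
    {w | w ∈ c.support ∧ w ∈ X}.ncard + {w | w ∈ c.support ∧ w ∉ X}.ncard = c.length := by
  have f1 : {w | w ∈ c.support ∧ w ∈ X}.Finite :=
    (b0_support_finite c).subset fun w hw => hw.1
  have f2 : {w | w ∈ c.support ∧ w ∉ X}.Finite :=
    (b0_support_finite c).subset fun w hw => hw.1
  have hd : Disjoint {w | w ∈ c.support ∧ w ∈ X} {w | w ∈ c.support ∧ w ∉ X} := by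
    rw [Set.disjoint_left]
    rintro w ⟨_, h1⟩ ⟨_, h2⟩
    exact h2 h1
  rw [← b0_card_support hc, ← Set.ncard_union_eq hd f1 f2]
  congr 1
  ext w
  simp only [Set.mem_union, Set.mem_ofPred_eq]
  tauto

end B0

theorem b0 : TaskB0 := by
  classical
  intro W H v c d hc hlen h
  by_contra hcon
  push Not at hcon
  -- every vertex of the cycle lies in a small set
  have hsmall : ∀ b ∈ c.support, ∃ X : Set W, Small2 H X ∧ b ∈ X ∧
      {w | w ∈ c.support ∧ w ∈ X}.ncard ≤ d := by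
    intro b hb
    have h1 := hcon b
    unfold Central at h1
    push Not at h1
    obtain ⟨X, hX, hbX, hX2⟩ := h1 hb
    refine ⟨X, hX, hbX, ?_⟩
    rcases h X hX with h2 | h2
    · exact h2
    · omega
  -- a maximal small set
  let Pm : ℕ → Prop := fun k => ∃ X : Set W, Small2 H X ∧
    {w | w ∈ c.support ∧ w ∈ X}.ncard ≤ d ∧ {w | w ∈ c.support ∧ w ∈ X}.ncard = k
  obtain ⟨X0, hX0, hvX0, hX0d⟩ := hsmall v c.start_mem_support
  have hP0 : Pm {w | w ∈ c.support ∧ w ∈ X0}.ncard := ⟨X0, hX0, hX0d, rfl⟩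
  have hmax := Nat.findGreatest_spec (P := Pm) hX0d hP0
  obtain ⟨X, hX, hXd, hXm⟩ := hmax
  have hpos : 0 < {w | w ∈ c.support ∧ w ∈ X}.ncard := by
    rw [hXm]
    have h1 := Nat.le_findGreatest (P := Pm) hX0d hP0
    have h2 : 0 < {w | w ∈ c.support ∧ w ∈ X0}.ncard :=
      (Set.ncard_pos ((b0_support_finite c).subset fun w hw => hw.1)).2
        ⟨v, c.start_mem_support, hvX0⟩
    omega
  have hmaxX : ∀ Y : Set W, Small2 H Y → {w | w ∈ c.support ∧ w ∈ Y}.ncard ≤ d →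
      {w | w ∈ c.support ∧ w ∈ Y}.ncard ≤ {w | w ∈ c.support ∧ w ∈ X}.ncard := by
    intro Y hY hYd
    rw [hXm]
    exact Nat.le_findGreatest (P := Pm) hYd ⟨Y, hY, hYd, rfl⟩
  have hcX := b0_card_add hc X
  obtain ⟨a, ha, haX⟩ := (Set.ncard_pos ((b0_support_finite c).subset fun w hw => hw.1)).1 hpos
  have hneg : 0 < {w | w ∈ c.support ∧ w ∉ X}.ncard := by omega
  obtain ⟨b, hb, hbX⟩ := (Set.ncard_pos ((b0_support_finite c).subset fun w hw => hw.1)).1 hneg
  obtain ⟨x, y, hxy, hxX, hyX⟩ := b0_cross c X ha hb haX hbX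
  have hadj : H.Adj x y := c.edges_subset_edgeSet hxy
  have hxs : x ∈ c.support := c.fst_mem_support_of_mem_edges hxy
  have hys : y ∈ c.support := c.snd_mem_support_of_mem_edges hxy
  obtain ⟨Y, hY, hyY, hYd⟩ := hsmall y hys
  have hU : Small2 H (X ∪ Y) := by
    by_cases hxY : x ∈ Y
    · apply b0_submod hX hY (g := s(x, y))
      right
      have hfin : (bdry H (X ∩ Y)).Finite := by
        refine (hX.1.union hY.1).subset ?_
        intro e
        induction e using Sym2.ind with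
        | _ a b =>
          rw [Set.mem_union, b0_mem_bdry, b0_mem_bdry, b0_mem_bdry]
          simp only [Set.mem_inter_iff]
          tauto
      refine b0_two_le (X ∩ Y) hc.isTrail hfin hxy ?_
      rw [b0_mem_bdry]
      exact ⟨hadj, Or.inl ⟨⟨hxX, hxY⟩, fun h => hyX h.1⟩⟩
    · apply b0_submod hX hY (g := s(x, y))
      left
      rw [b0_mem_bdry, b0_mem_bdry, b0_mem_bdry, b0_mem_bdry]
      simp only [Set.mem_inter_iff, Set.mem_union]
      tauto
  -- number of vertices in the union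
  have hUle : {w | w ∈ c.support ∧ w ∈ X ∪ Y}.ncard ≤ d + d := by
    have : {w | w ∈ c.support ∧ w ∈ X ∪ Y} =
        {w | w ∈ c.support ∧ w ∈ X} ∪ {w | w ∈ c.support ∧ w ∈ Y} := by
      ext w
      simp only [Set.mem_union, Set.mem_ofPred_eq]
      tauto
    rw [this]
    exact (Set.ncard_union_le _ _).trans (add_le_add hXd hYd)
  have hUd : {w | w ∈ c.support ∧ w ∈ X ∪ Y}.ncard ≤ d := by
    rcases h _ hU with h1 | h1
    · exact h1
    · have := b0_card_add hc (X ∪ Y)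
      omega
  have hfinal := hmaxX _ hU hUd
  have hlt : {w | w ∈ c.support ∧ w ∈ X}.ncard < {w | w ∈ c.support ∧ w ∈ X ∪ Y}.ncard := by
    apply Set.ncard_lt_ncard _ ((b0_support_finite c).subset fun w hw => hw.1)
    refine ⟨fun w hw => ⟨hw.1, Or.inl hw.2⟩, fun hsub => ?_⟩
    have : y ∈ {w | w ∈ c.support ∧ w ∈ X} := hsub ⟨hys, Or.inr hyY⟩
    exact hyX this.2
  omega

end H279R3
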