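import Pool.Agent.H279R3.Stmts2

/-! Task Big of project H279-TW: a long cycle based at a central vertex meets the class of this
vertex in at least three vertices. -/

set_option autoImplicit false

namespace H279R3

open SimpleGraph

theorem bigT_bdry_compl {W : Type} (H : SimpleGraph W) (X : Set W) :
    bdry H Xᶜ = bdry H X := by
  ext e
  simp only [bdry, Set.mem_ofPred_eq, Set.mem_compl_iff, not_not]
  tauto

theorem bigT_bound (hcore : TaskCore) {W : Type} {H : SimpleGraph W} {b : W} {c : H.Walk b b}
    {d : ℕ} (hs : SubCubic H) (hcen : Central H c d b) {x y : W} (q : H.Walk x y)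
    (hq : ∀ v ∈ q.support, ¬ Insep H b v) (hqc : ∀ v ∈ q.support, v ∈ c.support)
    (hp : q.support.Nodup) : q.length + 1 ≤ d := by
  classical
  obtain ⟨X, hX, h1, h2⟩ := hcore W H b x y q hs hq
  have hb : b ∈ Xᶜ := fun h => h2 b h (fun Y _ hy => hy)
  have h3 := hcen.2 Xᶜ ⟨by rw [bigT_bdry_compl]; exact hX.1,
    by rw [bigT_bdry_compl]; exact hX.2⟩ hb
  have h4 : {w | w ∈ q.support} ⊆ {w | w ∈ c.support ∧ w ∉ Xᶜ} :=
    fun w hw => ⟨hqc w hw, not_not.2 (h1 w hw)⟩
  have h5 : {w | w ∈ q.support}.ncard = q.length + 1 := by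
    have h6 : {w | w ∈ q.support} = ((q.support.toFinset : Finset W) : Set W) := by
      ext w
      simp
    rw [h6, Set.ncard_coe_finset, List.toFinset_card_of_nodup hp, Walk.length_support]
  have hfin : {w | w ∈ c.support ∧ w ∉ Xᶜ}.Finite :=
    (c.support.finite_toSet).subset fun w hw => hw.1
  have h7 := Set.ncard_le_ncard h4 hfin
  omega

theorem bigT_path (hcore : TaskCore) {W : Type} {H : SimpleGraph W} {b : W} {c : H.Walk b b}
    {d : ℕ} (hs : SubCubic H) (hcen : Central H c d b) {x y : W} (p : H.Walk y x)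
    (hpath : p.IsPath) (hq : ∀ v ∈ p.support, v ≠ y → ¬ Insep H b v)
    (hqc : ∀ v ∈ p.support, v ∈ c.support) : p.length ≤ d := by
  cases p with
  | nil => exact Nat.zero_le _
  | cons h q =>
    rw [Walk.cons_isPath_iff] at hpath
    have h1 := bigT_bound hcore hs hcen q
      (fun v hv => hq v (by rw [Walk.support_cons]; exact List.mem_cons_of_mem _ hv)
        (fun hvy => hpath.2 (hvy ▸ hv)))
      (fun v hv => hqc v (by rw [Walk.support_cons]; exact List.mem_cons_of_mem _ hv))
      hpath.1.support_nodup
    rw [Walk.length_cons]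
    exact h1

theorem bigT_first (hcore : TaskCore) {W : Type} {H : SimpleGraph W} {b : W} {c : H.Walk b b}
    {d : ℕ} (hs : SubCubic H) (hcen : Central H c d b) {x y : W} (p : H.Walk x y)
    (hpath : p.IsPath) (hq : ∀ v ∈ p.support, v ≠ x → v ≠ y → ¬ Insep H b v)
    (hqc : ∀ v ∈ p.support, v ∈ c.support) : p.length ≤ d + 1 := by
  cases p with
  | nil => exact Nat.zero_le _
  | cons h q =>
    rw [Walk.cons_isPath_iff] at hpath
    have h1 := bigT_path hcore hs hcen q.reverse hpath.1.reverse
      (fun v hv hvy => by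
        rw [Walk.support_reverse, List.mem_reverse] at hv
        exact hq v (by rw [Walk.support_cons]; exact List.mem_cons_of_mem _ hv)
          (fun hvx => hpath.2 (hvx ▸ hv)) hvy)
      (fun v hv => by
        rw [Walk.support_reverse, List.mem_reverse] at hv
        exact hqc v (by rw [Walk.support_cons]; exact List.mem_cons_of_mem _ hv))
    rw [Walk.length_reverse] at h1
    rw [Walk.length_cons]
    omega

theorem bigT : TaskBig := by
  classical
  intro hcore W H b c d hs hcyc hlen hcen
  by_contra hbig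
  have hB : ∀ x y, Insep H b x → Insep H b y → x ≠ b → y ≠ b → x = y := by
    intro x y hx hy hxb hyb
    by_contra hxy
    exact hbig ⟨x, y, hx, hy, hxb, hyb, hxy⟩
  obtain ⟨v, P, hP, hPl, hPc⟩ : ∃ (v : W) (P : H.Walk b v), P.IsPath ∧
      P.length + 1 = c.length ∧ ∀ w ∈ P.support, w ∈ c.support := by
    clear hcen hlen
    cases c with
    | nil => exact absurd hcyc (by simp)
    | cons h p =>
      rw [Walk.cons_isCycle_iff] at hcyc
      refine ⟨_, p.reverse, hcyc.1.reverse, ?_, ?_⟩
      · rw [Walk.length_reverse, Walk.length_cons]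
      · intro w hw
        rw [Walk.support_reverse, List.mem_reverse] at hw
        rw [Walk.support_cons]
        exact List.mem_cons_of_mem _ hw
  by_cases h1 : ∃ b1 ∈ P.support, b1 ≠ b ∧ Insep H b b1
  · obtain ⟨b1, hb1P, hb1b, hb1i⟩ := h1
    have hsp := P.take_spec hb1P
    have hP1 : (P.takeUntil b1 hb1P).IsPath := hP.takeUntil hb1P
    have hP2 : (P.dropUntil b1 hb1P).IsPath := hP.dropUntil hb1P
    have hl : (P.takeUntil b1 hb1P).length + (P.dropUntil b1 hb1P).length = P.length := by
      rw [← Walk.length_append, hsp]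
    have hbP2 : b ∉ (P.dropUntil b1 hb1P).support := by
      intro hb
      have h2 := hP.support_nodup
      rw [← hsp, Walk.support_append] at h2
      have h3 := List.disjoint_of_nodup_append h2
      rw [Walk.mem_support_iff] at hb
      rcases hb with hb | hb
      · exact hb1b hb.symm
      · exact h3 (Walk.start_mem_support _) hb
    have k2 : (P.dropUntil b1 hb1P).length ≤ d := bigT_path hcore hs hcen _ hP2
      (fun w hw hwb1 hi => hwb1 (hB w b1 hi hb1i (fun e => hbP2 (e ▸ hw)) hb1b))
      (fun w hw => hPc w (P.support_dropUntil_subset hb1P hw))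
    have k1 : (P.takeUntil b1 hb1P).length ≤ d + 1 := bigT_first hcore hs hcen _ hP1
      (fun w hw hwb hwb1 hi => hwb1 (hB w b1 hi hb1i hwb hb1b))
      (fun w hw => hPc w (P.support_takeUntil_subset hb1P hw))
    omega
  · have k := bigT_path hcore hs hcen P hP (fun w hw hwb hi => h1 ⟨w, hw, hwb, hi⟩) hPc
    omega

end H279R3
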