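import Mathlib
import Pool.Agent.H279R3.TreeHelly

/-!
# The lamplighter graph (helper279)
-/

namespace H279R3

open SimpleGraph

/-- The lamplighter graph (Cayley graph of `ℤ₂ ≀ ℤ`, the Diestel–Leader graph `DL(2,2)`):
a vertex `(S, i)` is a finite set `S` of lit lamps and a position `i`; a step moves the position
from `i` to `i + 1` (or back) and may switch lamp `i`. -/
def lampGraph : SimpleGraph (Finset ℤ × ℤ) where
  Adj p q := (q.2 = p.2 + 1 ∧ ∀ n, n ≠ p.2 → (n ∈ p.1 ↔ n ∈ q.1)) ∨
    (p.2 = q.2 + 1 ∧ ∀ n, n ≠ q.2 → (n ∈ p.1 ↔ n ∈ q.1))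
  symm := ⟨by
    rintro p q (⟨h1, h2⟩ | ⟨h1, h2⟩)
    · exact Or.inr ⟨h1, fun n hn => (h2 n hn).symm⟩
    · exact Or.inl ⟨h1, fun n hn => (h2 n hn).symm⟩⟩
  loopless := ⟨by
    rintro p (⟨h1, -⟩ | ⟨h1, -⟩) <;> omega⟩

lemma lampGraph_adj (p q : Finset ℤ × ℤ) : lampGraph.Adj p q ↔
    (q.2 = p.2 + 1 ∧ ∀ n, n ≠ p.2 → (n ∈ p.1 ↔ n ∈ q.1)) ∨
    (p.2 = q.2 + 1 ∧ ∀ n, n ≠ q.2 → (n ∈ p.1 ↔ n ∈ q.1)) := Iff.rfl

/-- The graph is locally finite: the neighbours of `(S, i)` are among
`(S ∪ {j}, i ± 1)`, `(S \ {j}, i ± 1)` with `j ∈ {i, i - 1}`. -/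
lemma lampGraph_locallyFinite (p : Finset ℤ × ℤ) : (lampGraph.neighborSet p).Finite := by
  classical
  refine Set.Finite.subset (Set.toFinite
    ({(insert p.2 p.1, p.2 + 1), (p.1.erase p.2, p.2 + 1), (insert (p.2 - 1) p.1, p.2 - 1),
      (p.1.erase (p.2 - 1), p.2 - 1)} : Set (Finset ℤ × ℤ))) ?_
  rintro ⟨T, j⟩ h
  rw [mem_neighborSet, lampGraph_adj] at h
  obtain ⟨S, i⟩ := p
  simp only [Set.mem_insert_iff, Set.mem_singleton_iff, Prod.mk.injEq]
  rcases h with ⟨h1, h2⟩ | ⟨h1, h2⟩
  · simp only at h1 h2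
    subst h1
    by_cases hi : i ∈ T
    · left
      refine ⟨?_, rfl⟩
      ext n
      rw [Finset.mem_insert]
      by_cases hn : n = i
      · subst hn; simp [hi]
      · rw [h2 n hn]; simp [hn]
    · right; left
      refine ⟨?_, rfl⟩
      ext n
      rw [Finset.mem_erase]
      by_cases hn : n = i
      · subst hn; simp [hi]
      · rw [h2 n hn]; simp [hn]
  · simp only at h1 h2
    have hj : j = i - 1 := by omega
    subst hj
    by_cases hi : (i - 1) ∈ T
    · right; right; left
      refine ⟨?_, rfl⟩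
      ext n
      rw [Finset.mem_insert]
      by_cases hn : n = i - 1
      · subst hn; simp [hi]
      · rw [h2 n hn]; simp [hn]
    · right; right; right
      refine ⟨?_, rfl⟩
      ext n
      rw [Finset.mem_erase]
      by_cases hn : n = i - 1
      · subst hn; simp [hi]
      · rw [h2 n hn]; simp [hn]

/-- The translation by `(A, k)`: an automorphism. -/
def lampShift (A : Finset ℤ) (k : ℤ) : lampGraph ≃g lampGraph where
  toFun p := (symmDiff A (p.1.map (Equiv.addRight k).toEmbedding), p.2 + k)
  invFun p := ((symmDiff A p.1).map (Equiv.addRight (-k)).toEmbedding, p.2 - k)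
  left_inv p := by
    ext n
    · simp
    · simp
  right_inv p := by
    ext n
    · simp [Finset.mem_symmDiff]
      tauto
    · simp
  map_rel_iff' := by
    intro p q
    simp only [Equiv.coe_fn_mk, lampGraph_adj]
    have key : ∀ n, (n ∈ symmDiff A (p.1.map (Equiv.addRight k).toEmbedding) ↔
        n ∈ symmDiff A (q.1.map (Equiv.addRight k).toEmbedding)) ↔ (n - k ∈ p.1 ↔ n - k ∈ q.1) := by
      intro n
      simp [Finset.mem_symmDiff, sub_eq_add_neg]
      tauto
    constructor
    · rintro (⟨h1, h2⟩ | ⟨h1, h2⟩)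
      · left
        refine ⟨by omega, fun n hn => ?_⟩
        have := (key (n + k)).mp (h2 (n + k) (by omega))
        simpa using this
      · right
        refine ⟨by omega, fun n hn => ?_⟩
        have := (key (n + k)).mp (h2 (n + k) (by omega))
        simpa using this
    · rintro (⟨h1, h2⟩ | ⟨h1, h2⟩)
      · left
        refine ⟨by omega, fun n hn => ?_⟩
        exact (key n).mpr (h2 (n - k) (by omega))
      · right
        refine ⟨by omega, fun n hn => ?_⟩
        exact (key n).mpr (h2 (n - k) (by omega))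

/-- The lamplighter graph is vertex-transitive. -/
lemma lampGraph_transitive (p q : Finset ℤ × ℤ) : ∃ φ : lampGraph ≃g lampGraph, φ p = q := by
  have h0 : ∀ q : Finset ℤ × ℤ, lampShift q.1 q.2 (∅, 0) = q := by
    intro q
    change (symmDiff q.1 ((∅ : Finset ℤ).map (Equiv.addRight q.2).toEmbedding), 0 + q.2) = q
    ext n
    · simp [Finset.mem_symmDiff]
    · simp
  refine ⟨(lampShift p.1 p.2).symm.trans (lampShift q.1 q.2), ?_⟩
  have : (lampShift p.1 p.2).symm p = (∅, 0) := by
    have h := (lampShift p.1 p.2).symm_apply_apply (∅, 0)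
    rwa [h0 p] at h
  change lampShift q.1 q.2 ((lampShift p.1 p.2).symm p) = q
  rw [this, h0 q]

/-- Rows: high tree with low lamps `u`. -/
def rowSet (m : ℕ) (u : Finset ℤ) : Set (Finset ℤ × ℤ) :=
  {p | 0 ≤ p.2 ∧ p.2 ≤ m ∧ (∀ n, n < 0 → (n ∈ p.1 ↔ n ∈ u)) ∧ (∀ n, 0 ≤ n → n < p.2 → n ∉ p.1) ∧
    (∀ n, (m : ℤ) ≤ n → n ∉ p.1)}

/-- Columns: low tree with high lamps `v`. -/
def colSet (m : ℕ) (v : Finset ℤ) : Set (Finset ℤ × ℤ) :=
  {p | p.2 ≤ 0 ∧ -(m : ℤ) ≤ p.2 ∧ (∀ n, 0 ≤ n → (n ∈ p.1 ↔ n ∈ v)) ∧
    (∀ n, n < 0 → p.2 ≤ n → n ∉ p.1) ∧ (∀ n, n < -(m : ℤ) → n ∉ p.1)}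

lemma rowSet_conn (m : ℕ) (u : Finset ℤ) : WConn lampGraph (rowSet m u) := by
  classical
  -- the apex
  have key : ∀ (d : ℕ) (p : Finset ℤ × ℤ), p ∈ rowSet m u → (m : ℤ) - p.2 = d →
      ∃ q : lampGraph.Walk p (u.filter (· < 0), (m : ℤ)), ∀ x ∈ q.support, x ∈ rowSet m u := by
    intro d
    induction d with
    | zero =>
      rintro ⟨S, i⟩ ⟨h1, h2, h3, h4, h5⟩ hd
      simp only at h1 h2 h3 h4 h5 hd
      have hi : i = m := by simpa using (by omega : i = m)
      subst hi
      have hS : S = u.filter (· < 0) := by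
        ext n
        rw [Finset.mem_filter]
        constructor
        · intro hn
          have hn0 : n < 0 := by
            by_contra hc
            by_cases hnm : n < m
            · exact h4 n (by omega) hnm hn
            · exact h5 n (by omega) hn
          exact ⟨(h3 n hn0).mp hn, hn0⟩
        · rintro ⟨hn, hn0⟩
          exact (h3 n hn0).mpr hn
      subst hS
      refine ⟨Walk.nil, ?_⟩
      intro x hx
      rw [Walk.support_nil, List.mem_singleton] at hx
      subst hx
      exact ⟨h1, h2, h3, h4, h5⟩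
    | succ d ih =>
      rintro ⟨S, i⟩ ⟨h1, h2, h3, h4, h5⟩ hd
      simp only at h1 h2 h3 h4 h5 hd
      have hmem : ((S.erase i, i + 1) : Finset ℤ × ℤ) ∈ rowSet m u := by
        refine ⟨by simp only; omega, by simp only; push_cast at hd; omega, ?_, ?_, ?_⟩
        · intro n hn
          rw [Finset.mem_erase, ← h3 n hn]
          exact ⟨fun h => h.2, fun h => ⟨by omega, h⟩⟩
        · intro n hn hn' hc
          rw [Finset.mem_erase] at hc
          simp only at hn'
          exact h4 n hn (by omega) hc.2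
        · intro n hn hc
          rw [Finset.mem_erase] at hc
          exact h5 n hn hc.2
      obtain ⟨q, hq⟩ := ih (S.erase i, i + 1) hmem (by push_cast at hd ⊢; omega)
      have hadj : lampGraph.Adj (S, i) (S.erase i, i + 1) := by
        rw [lampGraph_adj]
        left
        refine ⟨rfl, fun n hn => ?_⟩
        rw [Finset.mem_erase]
        exact ⟨fun h => ⟨hn, h⟩, fun h => h.2⟩
      refine ⟨Walk.cons hadj q, ?_⟩
      intro x hx
      rw [Walk.support_cons, List.mem_cons] at hx
      rcases hx with rfl | hx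
      · exact ⟨h1, h2, h3, h4, h5⟩
      · exact hq x hx
  intro p hp q hq
  obtain ⟨a, ha⟩ := key (((m : ℤ) - p.2).toNat) p hp (by have := hp.2.1; omega)
  obtain ⟨b, hb⟩ := key (((m : ℤ) - q.2).toNat) q hq (by have := hq.2.1; omega)
  refine ⟨a.append b.reverse, fun x hx => ?_⟩
  rw [Walk.mem_support_append_iff] at hx
  rcases hx with hx | hx
  · exact ha x hx
  · rw [Walk.support_reverse, List.mem_reverse] at hx
    exact hb x hx

lemma colSet_conn (m : ℕ) (v : Finset ℤ) : WConn lampGraph (colSet m v) := by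
  classical
  have key : ∀ (d : ℕ) (p : Finset ℤ × ℤ), p ∈ colSet m v → p.2 + (m : ℤ) = d →
      ∃ q : lampGraph.Walk p (v.filter (0 ≤ ·), -(m : ℤ)), ∀ x ∈ q.support, x ∈ colSet m v := by
    intro d
    induction d with
    | zero =>
      rintro ⟨S, i⟩ ⟨h1, h2, h3, h4, h5⟩ hd
      simp only at h1 h2 h3 h4 h5 hd
      have hi : i = -(m : ℤ) := by push_cast at hd; omega
      subst hi
      have hS : S = v.filter (0 ≤ ·) := by
        ext n
        rw [Finset.mem_filter]
        constructor
        · intro hn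
          have hn0 : 0 ≤ n := by
            by_contra hc
            by_cases hnm : n < -(m : ℤ)
            · exact h5 n hnm hn
            · exact h4 n (by omega) (by omega) hn
          exact ⟨(h3 n hn0).mp hn, hn0⟩
        · rintro ⟨hn, hn0⟩
          exact (h3 n hn0).mpr hn
      subst hS
      refine ⟨Walk.nil, ?_⟩
      intro x hx
      rw [Walk.support_nil, List.mem_singleton] at hx
      subst hx
      exact ⟨h1, h2, h3, h4, h5⟩
    | succ d ih =>
      rintro ⟨S, i⟩ ⟨h1, h2, h3, h4, h5⟩ hd
      simp only at h1 h2 h3 h4 h5 hd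
      push_cast at hd
      have hmem : ((S.erase (i - 1), i - 1) : Finset ℤ × ℤ) ∈ colSet m v := by
        refine ⟨by simp only; omega, by simp only; omega, ?_, ?_, ?_⟩
        · intro n hn
          rw [Finset.mem_erase, ← h3 n hn]
          exact ⟨fun h => h.2, fun h => ⟨by omega, h⟩⟩
        · intro n hn hn' hc
          rw [Finset.mem_erase] at hc
          simp only at hn'
          exact h4 n hn (by omega) hc.2
        · intro n hn hc
          rw [Finset.mem_erase] at hc
          exact h5 n hn hc.2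
      obtain ⟨q, hq⟩ := ih (S.erase (i - 1), i - 1) hmem (by simp only; omega)
      have hadj : lampGraph.Adj (S, i) (S.erase (i - 1), i - 1) := by
        rw [lampGraph_adj]
        right
        refine ⟨by simp, fun n hn => ?_⟩
        simp only at hn
        rw [Finset.mem_erase]
        exact ⟨fun h => ⟨hn, h⟩, fun h => h.2⟩
      refine ⟨Walk.cons hadj q, ?_⟩
      intro x hx
      rw [Walk.support_cons, List.mem_cons] at hx
      rcases hx with rfl | hx
      · exact ⟨h1, h2, h3, h4, h5⟩
      · exact hq x hx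
  intro p hp q hq
  obtain ⟨a, ha⟩ := key ((p.2 + (m : ℤ)).toNat) p hp (by have := hp.2.1; omega)
  obtain ⟨b, hb⟩ := key ((q.2 + (m : ℤ)).toNat) q hq (by have := hq.2.1; omega)
  refine ⟨a.append b.reverse, fun x hx => ?_⟩
  rw [Walk.mem_support_append_iff] at hx
  rcases hx with hx | hx
  · exact ha x hx
  · rw [Walk.support_reverse, List.mem_reverse] at hx
    exact hb x hx

/-- The lamplighter graph has unbounded treewidth. -/
theorem lampGraph_unbounded (k : ℕ) : ¬ HasTreeDecomp lampGraph k := by
  classical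
  intro h
  -- take m = k + 2, rows indexed by subsets of {0..m-1}
  set m : ℕ := k + 1 with hm
  let lo : Finset (Fin m) → Finset ℤ := fun s =>
    s.map ⟨fun i => -(i.val : ℤ) - 1, fun a b h => by
      apply Fin.ext
      simp only at h
      omega⟩
  let hi : Finset (Fin m) → Finset ℤ := fun s =>
    s.map ⟨fun i => (i.val : ℤ), fun a b h => by
      apply Fin.ext
      simp only at h
      omega⟩
  have hlo : ∀ (s : Finset (Fin m)) (n : ℤ), n ∈ lo s → n < 0 ∧ -(m : ℤ) ≤ n := by
    intro s n hn
    simp only [lo, Finset.mem_map] at hn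
    obtain ⟨a, -, rfl⟩ := hn
    have := a.isLt
    change (-(a.val : ℤ) - 1) < 0 ∧ -(m : ℤ) ≤ (-(a.val : ℤ) - 1)
    omega
  have hhi : ∀ (s : Finset (Fin m)) (n : ℤ), n ∈ hi s → 0 ≤ n ∧ n < (m : ℤ) := by
    intro s n hn
    simp only [hi, Finset.mem_map] at hn
    obtain ⟨a, -, rfl⟩ := hn
    have := a.isLt
    change 0 ≤ (a.val : ℤ) ∧ (a.val : ℤ) < (m : ℤ)
    omega
  have hloinj : Function.Injective lo := Finset.map_injective _
  have hhiinj : Function.Injective hi := Finset.map_injective _
  have hcard := treewidth_ge_of_grid (G := lampGraph) (κ := Finset (Fin m))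
    (fun s => rowSet m (lo s)) (fun s => colSet m (hi s))
    (fun s => rowSet_conn m _) (fun s => colSet_conn m _)
    (by
      intro a b hab
      rw [Set.disjoint_left]
      rintro ⟨S, i⟩ ⟨-, -, h3, -, -⟩ ⟨-, -, h3', -, -⟩
      apply hab
      apply hloinj
      ext n
      constructor
      · intro hn
        have hn0 := (hlo a n hn).1
        exact (h3' n hn0).mp ((h3 n hn0).mpr hn)
      · intro hn
        have hn0 := (hlo b n hn).1
        exact (h3 n hn0).mp ((h3' n hn0).mpr hn))
    (by
      intro a b hab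
      rw [Set.disjoint_left]
      rintro ⟨S, i⟩ ⟨-, -, h3, -, -⟩ ⟨-, -, h3', -, -⟩
      apply hab
      apply hhiinj
      ext n
      constructor
      · intro hn
        have hn0 := (hhi a n hn).1
        exact (h3' n hn0).mp ((h3 n hn0).mpr hn)
      · intro hn
        have hn0 := (hhi b n hn).1
        exact (h3 n hn0).mp ((h3' n hn0).mpr hn))
    (by
      intro a b
      refine ⟨(lo a ∪ hi b, 0), ⟨le_rfl, by simp, ?_, ?_, ?_⟩, ⟨le_rfl, by simp, ?_, ?_, ?_⟩⟩
      · intro n hn
        rw [Finset.mem_union]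
        exact ⟨fun h => h.resolve_right (fun h' => by have := (hhi b n h').1; omega), Or.inl⟩
      · intro n hn hn'
        simp only at hn'
        omega
      · intro n hn hc
        rw [Finset.mem_union] at hc
        rcases hc with hc | hc
        · have := hlo a n hc; omega
        · have := hhi b n hc; omega
      · intro n hn
        rw [Finset.mem_union]
        exact ⟨fun h => h.resolve_left (fun h' => by have := (hlo a n h').1; omega), Or.inr⟩
      · intro n hn hn'
        simp only at hn'
        omega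
      · intro n hn hc
        rw [Finset.mem_union] at hc
        rcases hc with hc | hc
        · have := hlo a n hc; omega
        · have := hhi b n hc; omega)
    h
  rw [Fintype.card_finset, Fintype.card_fin] at hcard
  have : m < 2 ^ m := Nat.lt_two_pow_self
  omega

end H279R3
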