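import Mathlib
import Pool.Agent.H279R3.TreeHelly
import Pool.Agent.H279R3.Lamp

/-!
# Subgraphs of the lamplighter graph whose cycle space is generated by short cycles (helper279)
-/

namespace H279R3

open SimpleGraph

/-- The edge vector over `𝔽₂` of a walk: the formal sum of its edges. -/
noncomputable def edgeVec {W : Type} {H : SimpleGraph W} {u v : W} (p : H.Walk u v) :
    Sym2 W →₀ ZMod 2 :=
  (p.edges.map (fun e => Finsupp.single e (1 : ZMod 2))).sum

/-- The (finite, mod 2) cycle space of `H` is generated by the cycles of length at most `r`. -/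
def CycleSpaceGeneratedBelow {W : Type} (H : SimpleGraph W) (r : ℕ) : Prop :=
  ∀ (v : W) (c : H.Walk v v), c.IsCycle →
    edgeVec c ∈ Submodule.span (ZMod 2)
      {x : Sym2 W →₀ ZMod 2 | ∃ (w : W) (d : H.Walk w w), d.IsCycle ∧ d.length ≤ r ∧ edgeVec d = x}

section wsum

variable {W : Type} {H : SimpleGraph W}

/-- sum of an edge function over a walk -/
def wsum (F : Sym2 W → ZMod 2) {u v : W} (p : H.Walk u v) : ZMod 2 := (p.edges.map F).sum

lemma wsum_nil (F : Sym2 W → ZMod 2) (u : W) : wsum F (Walk.nil : H.Walk u u) = 0 := by
  simp [wsum]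

lemma wsum_cons (F : Sym2 W → ZMod 2) {u v w : W} (h : H.Adj u v) (p : H.Walk v w) :
    wsum F (Walk.cons h p) = F s(u, v) + wsum F p := by
  simp [wsum]

lemma wsum_append (F : Sym2 W → ZMod 2) {u v w : W} (p : H.Walk u v) (q : H.Walk v w) :
    wsum F (p.append q) = wsum F p + wsum F q := by
  simp [wsum]

lemma wsum_reverse (F : Sym2 W → ZMod 2) {u v : W} (p : H.Walk u v) :
    wsum F p.reverse = wsum F p := by
  simp [wsum, List.sum_reverse]

lemma zmod2_add_self (a : ZMod 2) : a + a = 0 := CharTwo.add_self_eq_zero a

lemma linearCombination_edgeVec (F : Sym2 W → ZMod 2) {u v : W} (p : H.Walk u v) :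
    Finsupp.linearCombination (ZMod 2) F (edgeVec p) = wsum F p := by
  unfold edgeVec wsum
  rw [map_list_sum, List.map_map]
  congr 1
  apply List.map_congr_left
  intro e _
  simp

/-- If `F` vanishes on all cycles then `wsum F p = wsum F p.bypass`. -/
lemma wsum_bypass [DecidableEq W] (F : Sym2 W → ZMod 2)
    (hF : ∀ (v : W) (c : H.Walk v v), c.IsCycle → wsum F c = 0) {u v : W} (p : H.Walk u v) :
    wsum F p.bypass = wsum F p := by
  induction p with
  | nil => rfl
  | @cons a b c h p ih =>
    rw [wsum_cons, ← ih]
    have hb : (Walk.cons h p).bypass = if hs : a ∈ p.bypass.support then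
      p.bypass.dropUntil a hs else Walk.cons h p.bypass := rfl
    rw [hb]
    split_ifs with hs
    · -- a in support of bypass
      have hspec := p.bypass.take_spec hs
      have hsum : wsum F p.bypass = wsum F (p.bypass.takeUntil a hs) +
          wsum F (p.bypass.dropUntil a hs) := by
        conv_lhs => rw [← hspec]
        rw [wsum_append]
      have hpath : (p.bypass.takeUntil a hs).IsPath := (p.bypass_isPath).takeUntil hs
      have hclosed : F s(a, b) + wsum F (p.bypass.takeUntil a hs) = 0 := by
        by_cases he : s(a, b) ∈ (p.bypass.takeUntil a hs).edges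
        · -- the path from b to a contains the edge ba, so it is that edge
          have : wsum F (p.bypass.takeUntil a hs) = F s(a, b) := by
            generalize p.bypass.takeUntil a hs = q at hpath he
            cases q with
            | nil => simp at he
            | @cons _ x _ hx q' =>
              rw [Walk.cons_isPath_iff] at hpath
              rw [Walk.edges_cons, List.mem_cons] at he
              rcases he with he | he
              · rw [Sym2.eq_iff] at he
                rcases he with ⟨h1, h2⟩ | ⟨h1, h2⟩
                · subst h1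
                  exact absurd rfl h.ne
                · subst h1
                  have : q' = Walk.nil := by
                    have := hpath.1
                    exact Walk.eq_nil_iff_nil.mpr (Walk.isPath_iff_nil.mp this)
                  subst this
                  rw [wsum_cons, wsum_nil, add_zero, Sym2.eq_swap]
              · exact absurd (Walk.snd_mem_support_of_mem_edges _ he) hpath.2
          rw [this]
          exact zmod2_add_self _
        · have hc := hF _ _ ((Walk.cons_isCycle_iff _ h).mpr ⟨hpath, he⟩)
          rw [wsum_cons] at hc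
          exact hc
      rw [hsum, ← add_assoc, hclosed, zero_add]
    · rw [wsum_cons]

lemma wsum_closed_of_cycles (F : Sym2 W → ZMod 2)
    (hF : ∀ (v : W) (c : H.Walk v v), c.IsCycle → wsum F c = 0) {v : W} (c : H.Walk v v) :
    wsum F c = 0 := by
  classical
  rw [← wsum_bypass F hF c]
  have : c.bypass = Walk.nil := Walk.eq_nil_iff_nil.mpr (Walk.isPath_iff_nil.mp c.bypass_isPath)
  rw [this, wsum_nil]

lemma wsum_closed_of_short {r : ℕ} (hgen : CycleSpaceGeneratedBelow H r) (F : Sym2 W → ZMod 2)
    (hF : ∀ (v : W) (c : H.Walk v v), c.length ≤ r → wsum F c = 0) {v : W} (c : H.Walk v v) :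
    wsum F c = 0 := by
  apply wsum_closed_of_cycles
  intro v c hc
  have h := hgen v c hc
  have hle : Submodule.span (ZMod 2)
      {x : Sym2 W →₀ ZMod 2 | ∃ (w : W) (d : H.Walk w w), d.IsCycle ∧ d.length ≤ r ∧ edgeVec d = x}
      ≤ LinearMap.ker (Finsupp.linearCombination (ZMod 2) F) := by
    rw [Submodule.span_le]
    rintro x ⟨w, d, hd, hdr, rfl⟩
    rw [SetLike.mem_coe, LinearMap.mem_ker, linearCombination_edgeVec]
    exact hF w d hdr
  have := hle h
  rwa [LinearMap.mem_ker, linearCombination_edgeVec] at this

lemma subwalk {x y u w : W} (p : H.Walk x y) (hu : u ∈ p.support) (hw : w ∈ p.support) :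
    ∃ q : H.Walk u w, q.length ≤ p.length := by
  classical
  have hspec := p.take_spec hu
  have hlen : p.length = (p.takeUntil u hu).length + (p.dropUntil u hu).length := by
    conv_lhs => rw [← hspec]
    rw [Walk.length_append]
  rw [← hspec, Walk.mem_support_append_iff] at hw
  rcases hw with hw | hw
  · refine ⟨((p.takeUntil u hu).dropUntil w hw).reverse, ?_⟩
    rw [Walk.length_reverse]
    have := (p.takeUntil u hu).length_dropUntil_le_length hw
    omega
  · refine ⟨(p.dropUntil u hu).takeUntil w hw, ?_⟩
    have := (p.dropUntil u hu).length_takeUntil_le_length hw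
    omega

end wsum

end H279R3
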