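import Mathlib
import Pool.Agent.H279R3.BoundedGen

/-!
# Even edge sets (helper279)
-/

namespace H279R3

open SimpleGraph

/-- A set of edges of `H` meeting every vertex star in an even number of edges
(meant for finite `F`). -/
def EvenSet {W : Type} (H : SimpleGraph W) (F : Set (Sym2 W)) : Prop :=
  F ⊆ H.edgeSet ∧ ∀ v : W, Even (F ∩ {e | v ∈ e}).ncard

section

variable {W : Type} {H : SimpleGraph W}

lemma EvenSet.empty : EvenSet H ∅ := ⟨Set.empty_subset _, fun v => by simp⟩

lemma EvenSet.diff {F F1 : Set (Sym2 W)} (hF : EvenSet H F) (h1 : EvenSet H F1) (hfin : F.Finite)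
    (hsub : F1 ⊆ F) : EvenSet H (F \ F1) := by
  refine ⟨fun e he => hF.1 he.1, fun v => ?_⟩
  have h2 : (F \ F1) ∩ {e | v ∈ e} = (F ∩ {e | v ∈ e}) \ (F1 ∩ {e | v ∈ e}) := by
    ext e
    constructor
    · rintro ⟨⟨h1, h2⟩, h3⟩
      exact ⟨⟨h1, h3⟩, fun h => h2 h.1⟩
    · rintro ⟨⟨h1, h2⟩, h3⟩
      exact ⟨⟨h1, fun h => h3 ⟨h, h2⟩⟩, h2⟩
  have hs : F1 ∩ {e | v ∈ e} ⊆ F ∩ {e | v ∈ e} := fun e he => ⟨hsub he.1, he.2⟩
  have hle := Set.ncard_le_ncard hs (hfin.inter_of_left _)
  rw [h2, Set.ncard_sdiff hs ((hfin.subset hsub).inter_of_left _), Nat.even_sub hle]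
  exact iff_of_true (hF.2 v) (h1.2 v)

open Classical in
/-- indicator of a proposition mod 2 -/
noncomputable def ind2 (P : Prop) : ZMod 2 := if P then 1 else 0

lemma ind2_pos {P : Prop} (h : P) : ind2 P = 1 := if_pos h

lemma ind2_neg {P : Prop} (h : ¬ P) : ind2 P = 0 := if_neg h

/-- parity of the number of edges at `v` along a walk -/
lemma walk_parity {x y : W} (v : W) (p : H.Walk x y) :
    wsum (fun e => ind2 (v ∈ e)) p = ind2 (x = v) + ind2 (y = v) := by
  induction p with
  | nil => rw [wsum_nil, zmod2_add_self]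
  | @cons a b c h p ih =>
    rw [wsum_cons, ih]
    have hab : a ≠ b := h.ne
    have h1 : ind2 (v ∈ s(a, b)) = ind2 (a = v) + ind2 (b = v) := by
      by_cases ha : a = v
      · subst ha
        rw [ind2_pos (Sym2.mem_mk_left a b), ind2_pos rfl, ind2_neg hab.symm, add_zero]
      · by_cases hb : b = v
        · subst hb
          rw [ind2_pos (Sym2.mem_mk_right a b), ind2_neg ha, ind2_pos rfl, zero_add]
        · rw [ind2_neg ha, ind2_neg hb, ind2_neg, add_zero]
          rw [Sym2.mem_iff]
          rintro (h | h)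
          · exact ha h.symm
          · exact hb h.symm
    rw [h1]
    calc _ = ind2 (a = v) + (ind2 (b = v) + ind2 (b = v)) + ind2 (c = v) := by ring
      _ = _ := by rw [zmod2_add_self, add_zero]

open Classical in
lemma list_sum_ind {α : Type} (l : List α) (P : α → Prop) :
    (l.map (fun e => ind2 (P e))).sum = (l.countP (fun e => decide (P e)) : ℕ) := by
  induction l with
  | nil => simp
  | cons a l ih =>
    rw [List.map_cons, List.sum_cons, ih, List.countP_cons]
    by_cases h : P a
    · rw [ind2_pos h]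
      simp [h, add_comm]
    · rw [ind2_neg h]
      simp [h]

open Classical in
lemma ncard_list_inter {α : Type} (l : List α) (hl : l.Nodup) (P : α → Prop) :
    ({e | e ∈ l} ∩ {e | P e}).ncard = l.countP (fun e => decide (P e)) := by
  have h : {e | e ∈ l} ∩ {e | P e} = ((l.filter (fun e => decide (P e))).toFinset : Set α) := by
    ext e
    simp
  rw [h, Set.ncard_coe_finset, List.toFinset_card_of_nodup (hl.filter _), List.countP_eq_length_filter]

lemma even_iff_zmod (n : ℕ) : Even n ↔ (n : ZMod 2) = 0 := (ZMod.natCast_eq_zero_iff_even).symm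

/-- The edge set of a closed trail is even. -/
lemma EvenSet.of_trail {v : W} {c : H.Walk v v} (hc : c.IsTrail) :
    EvenSet H {e | e ∈ c.edges} := by
  classical
  refine ⟨fun e he => c.edges_subset_edgeSet he, fun w => ?_⟩
  rw [ncard_list_inter _ hc.edges_nodup, even_iff_zmod, ← list_sum_ind]
  have h := walk_parity w c
  unfold wsum at h
  rw [h, zmod2_add_self]

/-- A nonempty finite even set contains a cycle. -/
lemma EvenSet.exists_cycle {F : Set (Sym2 W)} (hF : EvenSet H F) (hfin : F.Finite)
    (hne : F.Nonempty) : ∃ (v : W) (c : H.Walk v v), c.IsCycle ∧ ∀ e ∈ c.edges, e ∈ F := by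
  classical
  by_contra hcon
  push Not at hcon
  set G' : SimpleGraph W := fromEdgeSet F with hG'
  have hle : G' ≤ H := by
    intro a b hab
    rw [hG', fromEdgeSet_adj] at hab
    exact hF.1 hab.1
  have hedge : ∀ {x y : W} (p : G'.Walk x y), ∀ e ∈ p.edges, e ∈ F := by
    intro x y p e he
    have := p.edges_subset_edgeSet he
    rw [hG', edgeSet_fromEdgeSet] at this
    exact this.1
  have hac : G'.IsAcyclic := by
    intro v c hc
    obtain ⟨e, he, heF⟩ := hcon v (c.mapLe hle) (hc.mapLe hle)
    apply heF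
    rw [Walk.edges_mapLe_eq_edges] at he
    exact hedge c e he
  have hadj : ∀ {a b : W}, s(a, b) ∈ F → G'.Adj a b := by
    intro a b hab
    rw [hG', fromEdgeSet_adj]
    refine ⟨hab, ?_⟩
    have : H.Adj a b := hF.1 hab
    exact this.ne
  obtain ⟨e0, he0⟩ := hne
  obtain ⟨u, w, huw⟩ : ∃ u w, e0 = s(u, w) := by
    induction e0 using Sym2.ind with
    | _ a b => exact ⟨a, b, rfl⟩
  subst huw
  have key : ∀ n : ℕ, ∃ (y : W) (p : G'.Walk u y), p.IsTrail ∧ p.length = n := by
    intro n
    induction n with
    | zero => exact ⟨u, Walk.nil, Walk.IsTrail.nil, rfl⟩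
    | succ n ih =>
      obtain ⟨y, p, hp, hn⟩ := ih
      have hex : ∃ z, s(y, z) ∈ F ∧ s(y, z) ∉ p.edges := by
        by_cases huy : u = y
        · subst huy
          have hpath : p.IsPath := (hac.isPath_iff_isTrail p).mpr hp
          have hnil : p = Walk.nil := Walk.eq_nil_iff_nil.mpr (Walk.isPath_iff_nil.mp hpath)
          subst hnil
          exact ⟨w, he0, by simp⟩
        · -- odd number of edges of p at y
          have hpar := walk_parity y p
          rw [ind2_neg huy, ind2_pos rfl, zero_add] at hpar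
          unfold wsum at hpar
          rw [list_sum_ind, ← ncard_list_inter _ hp.edges_nodup] at hpar
          have hev := hF.2 y
          rw [even_iff_zmod] at hev
          have hneq : {e | e ∈ p.edges} ∩ {e | y ∈ e} ≠ F ∩ {e | y ∈ e} := by
            intro heq
            rw [heq, hev] at hpar
            exact one_ne_zero hpar.symm
          have hss : {e | e ∈ p.edges} ∩ {e | y ∈ e} ⊆ F ∩ {e | y ∈ e} :=
            fun e he => ⟨hedge p e he.1, he.2⟩
          obtain ⟨f, hf, hfn⟩ := Set.exists_of_ssubset (hss.ssubset_of_ne hneq)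
          obtain ⟨z, rfl⟩ := Sym2.mem_iff_exists.mp hf.2
          exact ⟨z, hf.1, fun h => hfn ⟨h, hf.2⟩⟩
      obtain ⟨z, hzF, hzp⟩ := hex
      refine ⟨z, p.concat (hadj hzF), ?_, by rw [Walk.length_concat, hn]⟩
      rw [Walk.isTrail_def, Walk.edges_concat, List.concat_eq_append]
      rw [List.nodup_append]
      refine ⟨hp.edges_nodup, List.nodup_singleton _, ?_⟩
      intro a ha b hb
      rw [List.mem_singleton] at hb
      subst hb
      intro hab
      subst hab
      exact hzp ha
  obtain ⟨y, p, hp, hn⟩ := key (F.ncard + 1)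
  have hlen : p.length ≤ F.ncard := by
    rw [← Walk.length_edges, ← List.toFinset_card_of_nodup hp.edges_nodup,
      ← Set.ncard_coe_finset]
    exact Set.ncard_le_ncard (fun e he => hedge p e (by simpa using he)) hfin
  omega

/-- `x` is the indicator vector of `F`. -/
def Rep (x : Sym2 W →₀ ZMod 2) (F : Set (Sym2 W)) : Prop :=
  (∀ e ∈ F, x e = 1) ∧ ∀ e ∉ F, x e = 0

lemma Rep.unique {x y : Sym2 W →₀ ZMod 2} {F : Set (Sym2 W)} (hx : Rep x F) (hy : Rep y F) :
    x = y := by
  ext e
  by_cases h : e ∈ F
  · rw [hx.1 e h, hy.1 e h]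
  · rw [hx.2 e h, hy.2 e h]

lemma edgeVec_apply {x y : W} (p : H.Walk x y) (e : Sym2 W) [DecidableEq (Sym2 W)] :
    edgeVec p e = (p.edges.count e : ZMod 2) := by
  unfold edgeVec
  generalize p.edges = l
  induction l with
  | nil => simp
  | cons a l ih =>
    rw [List.map_cons, List.sum_cons, Finsupp.add_apply, ih, List.count_cons, Finsupp.single_apply]
    by_cases h : a = e
    · simp [h, add_comm]
    · simp [h]

lemma Rep.of_trail {v w : W} {c : H.Walk v w} (hc : c.IsTrail) :
    Rep (edgeVec c) {e | e ∈ c.edges} := by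
  classical
  constructor
  · intro e he
    have he : e ∈ c.edges := he
    rw [edgeVec_apply, List.count_eq_one_of_mem hc.edges_nodup he, Nat.cast_one]
  · intro e he
    have he : e ∉ c.edges := he
    rw [edgeVec_apply, List.count_eq_zero_of_not_mem he, Nat.cast_zero]

/-- the span of the short cycles -/
noncomputable def shortSpan (H : SimpleGraph W) (r : ℕ) : Submodule (ZMod 2) (Sym2 W →₀ ZMod 2) :=
  Submodule.span (ZMod 2)
      {x : Sym2 W →₀ ZMod 2 | ∃ (w : W) (d : H.Walk w w), d.IsCycle ∧ d.length ≤ r ∧ edgeVec d = x}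

lemma EvenSet.exists_rep {r : ℕ} : ∀ (n : ℕ) (F : Set (Sym2 W)), F.Finite → EvenSet H F →
    F.ncard = n → n ≤ r → ∃ x ∈ shortSpan H r, Rep x F := by
  classical
  intro n
  induction n using Nat.strong_induction_on with
  | _ n ih =>
    intro F hfin hF hn hr
    rcases F.eq_empty_or_nonempty with rfl | hne
    · exact ⟨0, Submodule.zero_mem _, by
        constructor
        · intro e he
          exact absurd he (Set.notMem_empty e)
        · intro e _
          rfl⟩
    · obtain ⟨v, c, hc, hcF⟩ := hF.exists_cycle hfin hne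
      set F1 : Set (Sym2 W) := {e | e ∈ c.edges} with hF1
      have hsub : F1 ⊆ F := hcF
      have hF1fin : F1.Finite := hfin.subset hsub
      have hF1card : F1.ncard = c.length := by
        rw [← Walk.length_edges, ← List.toFinset_card_of_nodup hc.edges_nodup,
          ← Set.ncard_coe_finset]
        congr 1
        ext e
        simp [hF1]
      have hpos : 0 < F1.ncard := by
        rw [hF1card]
        have := hc.three_le_length
        omega
      have hle : F1.ncard ≤ F.ncard := Set.ncard_le_ncard hsub hfin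
      have hd : (F \ F1).ncard = F.ncard - F1.ncard := Set.ncard_sdiff hsub hF1fin
      obtain ⟨x, hx, hxr⟩ := ih (F \ F1).ncard (by omega) (F \ F1) (hfin.subset (fun e he => he.1))
        (hF.diff (EvenSet.of_trail hc.isTrail) hfin hsub) rfl (by omega)
      refine ⟨edgeVec c + x, Submodule.add_mem _ (Submodule.subset_span ⟨v, c, hc, by omega, rfl⟩) hx,
        ?_⟩
      have hcr := Rep.of_trail hc.isTrail
      constructor
      · intro e he
        by_cases h1 : e ∈ F1
        · rw [Finsupp.add_apply, hcr.1 e h1, hxr.2 e (fun h => h.2 h1), add_zero]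
        · rw [Finsupp.add_apply, hcr.2 e h1, hxr.1 e ⟨he, h1⟩, zero_add]
      · intro e he
        rw [Finsupp.add_apply, hcr.2 e (fun h => he (hsub h)), hxr.2 e (fun h => he h.1), add_zero]

/-- sets generated (under symmetric difference) by even sets with fewer than `n` edges -/
inductive Gen (H : SimpleGraph W) (n : ℕ) : Set (Sym2 W) → Prop
  | base (F : Set (Sym2 W)) : F.Finite → EvenSet H F → F.ncard < n → Gen H n F
  | add (F F' : Set (Sym2 W)) : Gen H n F → Gen H n F' → Gen H n (symmDiff F F')

lemma Gen.rep {n : ℕ} {F : Set (Sym2 W)} (h : Gen H n F) : ∃ x ∈ shortSpan H n, Rep x F := by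
  classical
  induction h with
  | base F hfin hF hn => exact EvenSet.exists_rep _ F hfin hF rfl hn.le
  | add F F' _ _ ih1 ih2 =>
    obtain ⟨x, hx, hxr⟩ := ih1
    obtain ⟨y, hy, hyr⟩ := ih2
    refine ⟨x + y, Submodule.add_mem _ hx hy, ?_⟩
    constructor
    · rintro e (⟨h1, h2⟩ | ⟨h1, h2⟩)
      · rw [Finsupp.add_apply, hxr.1 e h1, hyr.2 e h2, add_zero]
      · rw [Finsupp.add_apply, hxr.2 e h2, hyr.1 e h1, zero_add]
    · intro e he
      by_cases h1 : e ∈ F
      · by_cases h2 : e ∈ F'
        · rw [Finsupp.add_apply, hxr.1 e h1, hyr.1 e h2, zmod2_add_self]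
        · exact absurd (Or.inl ⟨h1, h2⟩) he
      · by_cases h2 : e ∈ F'
        · exact absurd (Or.inr ⟨h2, h1⟩) he
        · rw [Finsupp.add_apply, hxr.2 e h1, hyr.2 e h2, add_zero]

lemma Gen.mono {n m : ℕ} (h : n ≤ m) {F : Set (Sym2 W)} (hF : Gen H n F) : Gen H m F := by
  induction hF with
  | base F hfin hF hn => exact Gen.base F hfin hF (by omega)
  | add F F' _ _ ih1 ih2 => exact Gen.add _ _ ih1 ih2

/-- If every even set with at least `N` edges is generated by smaller ones, the cycle space is
generated by short cycles. -/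
lemma generatedBelow_of_gen {N : ℕ} (h : ∀ F : Set (Sym2 W), F.Finite → EvenSet H F →
    N ≤ F.ncard → Gen H F.ncard F) : CycleSpaceGeneratedBelow H N := by
  classical
  have key : ∀ (n : ℕ) (F : Set (Sym2 W)), F.Finite → EvenSet H F → F.ncard = n → Gen H N F := by
    intro n
    induction n using Nat.strong_induction_on with
    | _ n ih =>
      intro F hfin hF hn
      by_cases hN : N ≤ F.ncard
      · have hg := h F hfin hF hN
        rw [hn] at hg
        clear hN hn hF hfin
        induction hg with
        | base F hfin hF hlt => exact ih F.ncard hlt F hfin hF rfl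
        | add F F' _ _ ih1 ih2 => exact Gen.add _ _ ih1 ih2
      · exact Gen.base F hfin hF (by omega)
  intro v c hc
  have hfin : {e | e ∈ c.edges}.Finite := by
    have : {e | e ∈ c.edges} = (c.edges.toFinset : Set (Sym2 W)) := by ext e; simp
    rw [this]
    exact Finset.finite_toSet _
  obtain ⟨x, hx, hxr⟩ := (key _ _ hfin (EvenSet.of_trail hc.isTrail) rfl).rep
  rw [(Rep.of_trail hc.isTrail).unique hxr]
  exact hx

end

end H279R3
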