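import Mathlib
import Pool.Agent.H279R3.EvenSets

/-!
# Cuts of an abstract dual (helper279)
-/

namespace H279R3

open SimpleGraph

/-- The edges of `H` separated by the set `A` of dual vertices. -/
def cut {W K : Type} (H : SimpleGraph W) (ends : Sym2 W → Sym2 K) (A : Set K) : Set (Sym2 W) :=
  {e | e ∈ H.edgeSet ∧ (∃ x ∈ ends e, x ∈ A) ∧ ∃ x ∈ ends e, x ∉ A}

/-- An abstract dual of `H` (in the sense of Whitney and Thomassen): a connected multigraph with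
vertex set `K` and the same edges as `H`, each edge `e` of `H` joining the two dual vertices
`ends e`, such that the finite cuts of the dual are exactly the finite even edge sets of `H`. -/
structure AbstractDual {W : Type} (H : SimpleGraph W) (K : Type) where
  /-- the two dual vertices of an edge -/
  ends : Sym2 W → Sym2 K
  conn : ∀ A : Set K, cut H ends A = ∅ → A = ∅ ∨ A = Set.univ
  cut_even : ∀ A : Set K, (cut H ends A).Finite → EvenSet H (cut H ends A)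
  even_cut : ∀ F : Set (Sym2 W), F.Finite → EvenSet H F → ∃ A : Set K, cut H ends A = F

section

variable {W K : Type} {H : SimpleGraph W}

lemma mem_cut_iff {ends : Sym2 W → Sym2 K} {e : Sym2 W} {x y : K} (h : ends e = s(x, y))
    (A : Set K) : e ∈ cut H ends A ↔ e ∈ H.edgeSet ∧ ((x ∈ A ∧ y ∉ A) ∨ (x ∉ A ∧ y ∈ A)) := by
  unfold cut
  change (e ∈ H.edgeSet ∧ (∃ x ∈ ends e, x ∈ A) ∧ ∃ x ∈ ends e, x ∉ A) ↔ _
  rw [h]
  simp only [Sym2.mem_iff, exists_eq_or_imp, exists_eq_left]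
  tauto

lemma ends_cases (ends : Sym2 W → Sym2 K) (e : Sym2 W) : ∃ x y, ends e = s(x, y) := by
  induction ends e using Sym2.ind with
  | _ a b => exact ⟨a, b, rfl⟩

lemma cut_compl (ends : Sym2 W → Sym2 K) (A : Set K) : cut H ends Aᶜ = cut H ends A := by
  ext e
  obtain ⟨x, y, h⟩ := ends_cases ends e
  rw [mem_cut_iff h, mem_cut_iff h]
  simp only [Set.mem_compl_iff]
  tauto

lemma cut_symmDiff (ends : Sym2 W → Sym2 K) (A B : Set K) :
    cut H ends (symmDiff A B) = symmDiff (cut H ends A) (cut H ends B) := by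
  ext e
  obtain ⟨x, y, h⟩ := ends_cases ends e
  simp only [mem_cut_iff h, Set.mem_symmDiff]
  tauto

lemma cut_inter_subset (ends : Sym2 W → Sym2 K) (A B : Set K) :
    cut H ends (A ∩ B) ⊆ cut H ends A ∪ cut H ends B := by
  intro e
  obtain ⟨x, y, h⟩ := ends_cases ends e
  rw [mem_cut_iff h, Set.mem_union, mem_cut_iff h, mem_cut_iff h, Set.mem_inter_iff,
    Set.mem_inter_iff]
  tauto

lemma cut_split (ends : Sym2 W → Sym2 K) (A B : Set K) :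
    cut H ends A = symmDiff (cut H ends (A ∩ B)) (cut H ends (A ∩ Bᶜ)) := by
  rw [← cut_symmDiff]
  congr 1
  ext x
  rw [Set.mem_symmDiff]
  simp only [Set.mem_inter_iff, Set.mem_compl_iff]
  tauto

lemma cut_corner_card (ends : Sym2 W → Sym2 K) (A B : Set K) (hA : (cut H ends A).Finite)
    (hB : (cut H ends B).Finite) :
    (cut H ends (A ∩ B)).ncard + (cut H ends (Aᶜ ∩ Bᶜ)).ncard ≤
      (cut H ends A).ncard + (cut H ends B).ncard := by
  have h1 : cut H ends (A ∩ B) ⊆ cut H ends A ∪ cut H ends B := cut_inter_subset ends A B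
  have h2 : cut H ends (Aᶜ ∩ Bᶜ) ⊆ cut H ends A ∪ cut H ends B := by
    have := cut_inter_subset (H := H) ends Aᶜ Bᶜ
    rwa [cut_compl, cut_compl] at this
  have h3 : cut H ends (A ∩ B) ∩ cut H ends (Aᶜ ∩ Bᶜ) ⊆ cut H ends A ∩ cut H ends B := by
    intro e
    obtain ⟨x, y, h⟩ := ends_cases ends e
    rw [Set.mem_inter_iff, Set.mem_inter_iff, mem_cut_iff h, mem_cut_iff h, mem_cut_iff h,
      mem_cut_iff h]
    simp only [Set.mem_inter_iff, Set.mem_compl_iff]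
    tauto
  have hfin := hA.union hB
  have e1 := Set.ncard_union_add_ncard_inter (cut H ends (A ∩ B)) (cut H ends (Aᶜ ∩ Bᶜ))
    (hfin.subset h1) (hfin.subset h2)
  have e2 := Set.ncard_union_add_ncard_inter (cut H ends A) (cut H ends B) hA hB
  have e3 := Set.ncard_le_ncard (Set.union_subset h1 h2) hfin
  have e4 := Set.ncard_le_ncard h3 (hA.inter_of_left _)
  omega

/-- crossing sets -/
def Cr (A B : Set K) : Prop :=
  (∃ x, x ∈ A ∧ x ∈ B) ∧ (∃ x, x ∈ A ∧ x ∉ B) ∧ (∃ x, x ∉ A ∧ x ∈ B) ∧ ∃ x, x ∉ A ∧ x ∉ B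

lemma Cr.symm {A B : Set K} (h : Cr A B) : Cr B A := by
  obtain ⟨⟨a, ha⟩, ⟨b, hb⟩, ⟨c, hc⟩, ⟨d, hd⟩⟩ := h
  exact ⟨⟨a, ha.2, ha.1⟩, ⟨c, hc.2, hc.1⟩, ⟨b, hb.2, hb.1⟩, ⟨d, hd.2, hd.1⟩⟩

lemma cr_compl_right {A B : Set K} : Cr A Bᶜ ↔ Cr A B := by
  unfold Cr
  simp only [Set.mem_compl_iff, not_not]
  tauto

lemma cr_compl_left {A B : Set K} : Cr Aᶜ B ↔ Cr A B := by
  unfold Cr
  simp only [Set.mem_compl_iff, not_not]
  tauto

lemma cr_corner {A B D : Set K} (hAB : Cr A B) (h : Cr D (A ∩ B)) : Cr D A ∨ Cr D B := by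
  obtain ⟨⟨p1, h1, h1A, h1B⟩, ⟨p2, h2, h2'⟩, ⟨p3, h3, h3A, h3B⟩, ⟨p4, h4, h4'⟩⟩ := h
  obtain ⟨-, -, -, q, hqA, hqB⟩ := hAB
  by_cases hq : q ∈ D
  · by_cases hA : ∃ x, x ∉ D ∧ x ∉ A
    · obtain ⟨x, hx, hx'⟩ := hA
      exact Or.inl ⟨⟨p1, h1, h1A⟩, ⟨q, hq, hqA⟩, ⟨p3, h3, h3A⟩, ⟨x, hx, hx'⟩⟩
    · by_cases hB : ∃ x, x ∉ D ∧ x ∉ B
      · obtain ⟨x, hx, hx'⟩ := hB
        exact Or.inr ⟨⟨p1, h1, h1B⟩, ⟨q, hq, hqB⟩, ⟨p3, h3, h3B⟩, ⟨x, hx, hx'⟩⟩
      · exfalso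
        push Not at hA hB
        exact h4' ⟨hA p4 h4, hB p4 h4⟩
  · by_cases hA : ∃ x, x ∈ D ∧ x ∉ A
    · obtain ⟨x, hx, hx'⟩ := hA
      exact Or.inl ⟨⟨p1, h1, h1A⟩, ⟨x, hx, hx'⟩, ⟨p3, h3, h3A⟩, ⟨q, hq, hqA⟩⟩
    · by_cases hB : ∃ x, x ∈ D ∧ x ∉ B
      · obtain ⟨x, hx, hx'⟩ := hB
        exact Or.inr ⟨⟨p1, h1, h1B⟩, ⟨x, hx, hx'⟩, ⟨p3, h3, h3B⟩, ⟨q, hq, hqB⟩⟩
      · exfalso
        push Not at hA hB
        exact h2' ⟨hA p2 h2, hB p2 h2⟩

lemma cr_corner' {A B D : Set K} (hAB : Cr A B) (h : Cr D (Aᶜ ∩ Bᶜ)) : Cr D A ∨ Cr D B := by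
  have := cr_corner (A := Aᶜ) (B := Bᶜ) (cr_compl_left.mpr (cr_compl_right.mpr hAB)) h
  rwa [cr_compl_right, cr_compl_right] at this

lemma cr_both {A B D : Set K} (h : Cr D (A ∩ B)) (h' : Cr D (Aᶜ ∩ Bᶜ)) : Cr D A ∧ Cr D B := by
  obtain ⟨⟨p1, h1, h1A, h1B⟩, -, ⟨p3, h3, h3A, h3B⟩, -⟩ := h
  obtain ⟨⟨q1, k1, k1A, k1B⟩, -, ⟨q3, k3, k3A, k3B⟩, -⟩ := h'
  exact ⟨⟨⟨p1, h1, h1A⟩, ⟨q1, k1, k1A⟩, ⟨p3, h3, h3A⟩, ⟨q3, k3, k3A⟩⟩,
    ⟨⟨p1, h1, h1B⟩, ⟨q1, k1, k1B⟩, ⟨p3, h3, h3B⟩, ⟨q3, k3, k3B⟩⟩⟩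

/-- indecomposable of size `n` -/
def Ind (D : AbstractDual H K) (n : ℕ) (A : Set K) : Prop :=
  (cut H D.ends A).Finite ∧ (cut H D.ends A).ncard = n ∧ ¬ Gen H n (cut H D.ends A)

variable (D : AbstractDual H K)

lemma Ind.compl {D : AbstractDual H K} {n : ℕ} {A : Set K} (h : Ind D n A) : Ind D n Aᶜ := by
  unfold Ind at h ⊢
  rwa [cut_compl]

lemma le_of_not_gen {n : ℕ} {A : Set K} (hfin : (cut H D.ends A).Finite)
    (h : ¬ Gen H n (cut H D.ends A)) : n ≤ (cut H D.ends A).ncard := by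
  by_contra hc
  exact h (Gen.base _ hfin (D.cut_even A hfin) (by omega))

/-- The corner lemma. -/
lemma corner_ind {n m : ℕ} (hmn : m ≤ n) {A B : Set K} (hA : Ind D n A) (hB : Ind D m B) :
    ∃ A' B' : Set K, (A' = A ∨ A' = Aᶜ) ∧ (B' = B ∨ B' = Bᶜ) ∧ Ind D n (A' ∩ B') ∧
      Ind D m (A'ᶜ ∩ B'ᶜ) := by
  have fin : ∀ X Y : Set K, (X = A ∨ X = Aᶜ) → (Y = B ∨ Y = Bᶜ) →
      (cut H D.ends (X ∩ Y)).Finite := by
    intro X Y hX hY
    have hX' : cut H D.ends X = cut H D.ends A := by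
      rcases hX with rfl | rfl
      · rfl
      · exact cut_compl _ _
    have hY' : cut H D.ends Y = cut H D.ends B := by
      rcases hY with rfl | rfl
      · rfl
      · exact cut_compl _ _
    refine (hA.1.union hB.1).subset ((cut_inter_subset D.ends X Y).trans ?_)
    rw [hX', hY']
  have hAfin := hA.1
  have hBfin := hB.1
  have c1 := cut_corner_card D.ends A B hAfin hBfin
  have c2 := cut_corner_card D.ends A Bᶜ hAfin (by rwa [cut_compl])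
  rw [cut_compl (H := H) D.ends B, compl_compl] at c2
  rw [hA.2.1, hB.2.1] at c1 c2
  have fP := fin A B (Or.inl rfl) (Or.inl rfl)
  have fQ := fin A Bᶜ (Or.inl rfl) (Or.inr rfl)
  have fR := fin Aᶜ B (Or.inr rfl) (Or.inl rfl)
  have fS := fin Aᶜ Bᶜ (Or.inr rfl) (Or.inr rfl)
  -- splitting
  have sA : Gen H n (cut H D.ends (A ∩ B)) → Gen H n (cut H D.ends (A ∩ Bᶜ)) → False := by
    intro h1 h2
    apply hA.2.2
    rw [cut_split D.ends A B]
    exact Gen.add _ _ h1 h2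
  have sA' : Gen H n (cut H D.ends (Aᶜ ∩ B)) → Gen H n (cut H D.ends (Aᶜ ∩ Bᶜ)) → False := by
    intro h1 h2
    apply hA.2.2
    rw [← cut_compl, cut_split D.ends Aᶜ B]
    exact Gen.add _ _ h1 h2
  have sB : Gen H m (cut H D.ends (A ∩ B)) → Gen H m (cut H D.ends (Aᶜ ∩ B)) → False := by
    intro h1 h2
    apply hB.2.2
    rw [cut_split D.ends B A, Set.inter_comm B A, Set.inter_comm B Aᶜ]
    exact Gen.add _ _ h1 h2
  have sB' : Gen H m (cut H D.ends (A ∩ Bᶜ)) → Gen H m (cut H D.ends (Aᶜ ∩ Bᶜ)) → False := by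
    intro h1 h2
    apply hB.2.2
    rw [← cut_compl, cut_split D.ends Bᶜ A, Set.inter_comm Bᶜ A, Set.inter_comm Bᶜ Aᶜ]
    exact Gen.add _ _ h1 h2
  have conclude : ∀ X Y : Set K, (cut H D.ends X).Finite → (cut H D.ends Y).Finite →
      (cut H D.ends X).ncard + (cut H D.ends Y).ncard ≤ n + m →
      ¬ Gen H n (cut H D.ends X) → ¬ Gen H m (cut H D.ends Y) → Ind D n X ∧ Ind D m Y := by
    intro X Y fX fY hc hX hY
    have h1 := le_of_not_gen D fX hX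
    have h2 := le_of_not_gen D fY hY
    exact ⟨⟨fX, by omega, hX⟩, ⟨fY, by omega, hY⟩⟩
  by_cases hP : Gen H n (cut H D.ends (A ∩ B))
  · have hQ : ¬ Gen H n (cut H D.ends (A ∩ Bᶜ)) := fun h => sA hP h
    by_cases hR : Gen H m (cut H D.ends (Aᶜ ∩ B))
    · have hS : ¬ Gen H n (cut H D.ends (Aᶜ ∩ Bᶜ)) := fun h => sA' (hR.mono hmn) h
      have hP' : ¬ Gen H m (cut H D.ends (A ∩ B)) := fun h => sB h hR
      obtain ⟨h1, h2⟩ := conclude _ _ fS fP (by omega) hS hP'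
      exact ⟨Aᶜ, Bᶜ, Or.inr rfl, Or.inr rfl, h1, by rwa [compl_compl, compl_compl]⟩
    · obtain ⟨h1, h2⟩ := conclude _ _ fQ fR (by omega) hQ hR
      exact ⟨A, Bᶜ, Or.inl rfl, Or.inr rfl, h1, by rwa [compl_compl]⟩
  · by_cases hS : Gen H m (cut H D.ends (Aᶜ ∩ Bᶜ))
    · have hR : ¬ Gen H n (cut H D.ends (Aᶜ ∩ B)) := fun h => sA' h (hS.mono hmn)
      have hQ : ¬ Gen H m (cut H D.ends (A ∩ Bᶜ)) := fun h => sB' h hS
      obtain ⟨h1, h2⟩ := conclude _ _ fR fQ (by omega) hR hQ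
      exact ⟨Aᶜ, B, Or.inr rfl, Or.inl rfl, h1, by rwa [compl_compl]⟩
    · obtain ⟨h1, h2⟩ := conclude _ _ fP fS (by omega) hP hS
      exact ⟨A, B, Or.inl rfl, Or.inl rfl, h1, h2⟩

lemma cut_univ (ends : Sym2 W → Sym2 K) : cut H ends Set.univ = ∅ := by
  ext e
  obtain ⟨x, y, h⟩ := ends_cases ends e
  rw [mem_cut_iff h]
  simp

lemma eq_or_compl_of_cut_eq {A B : Set K} (h : cut H D.ends A = cut H D.ends B) :
    A = B ∨ A = Bᶜ := by
  have h1 : cut H D.ends (symmDiff A B) = ∅ := by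
    rw [cut_symmDiff, h, symmDiff_self]
    rfl
  rcases D.conn _ h1 with h2 | h2
  · left
    exact symmDiff_eq_bot.mp h2
  · right
    ext x
    have : x ∈ symmDiff A B := by rw [h2]; trivial
    rw [Set.mem_symmDiff] at this
    rw [Set.mem_compl_iff]
    tauto

/-- minimality of indecomposable cuts -/
lemma Ind.minimal {D : AbstractDual H K} {n : ℕ} {A : Set K} (h : Ind D n A)
    {F : Set (Sym2 W)} (hF : EvenSet H F) (hsub : F ⊆ cut H D.ends A) (hne : F.Nonempty) :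
    F = cut H D.ends A := by
  by_contra hc
  obtain ⟨hfin, hcard, hgen⟩ := h
  apply hgen
  have hss : F ⊂ cut H D.ends A := hsub.ssubset_of_ne hc
  have h1 : F.ncard < n := by rw [← hcard]; exact Set.ncard_lt_ncard hss hfin
  have h2 : (cut H D.ends A \ F).ncard < n := by
    rw [← hcard]
    apply Set.ncard_lt_ncard _ hfin
    refine ⟨fun e he => he.1, fun hh => ?_⟩
    obtain ⟨e, he⟩ := hne
    exact (hh (hsub he)).2 he
  have heq : cut H D.ends A = symmDiff F (cut H D.ends A \ F) := by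
    ext e
    rw [Set.mem_symmDiff]
    constructor
    · intro he
      by_cases heF : e ∈ F
      · exact Or.inl ⟨heF, fun h => h.2 heF⟩
      · exact Or.inr ⟨⟨he, heF⟩, heF⟩
    · rintro (⟨h1, -⟩ | ⟨h1, -⟩)
      · exact hsub h1
      · exact h1.1
  rw [heq]
  exact Gen.add _ _ (Gen.base _ (hfin.subset hsub) hF h1)
    (Gen.base _ (hfin.subset (fun e he => he.1)) ((D.cut_even A hfin).diff hF hfin hsub) h2)

lemma Ind.nonempty {D : AbstractDual H K} {n : ℕ} (hn : 1 ≤ n) {A : Set K} (h : Ind D n A) :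
    (cut H D.ends A).Nonempty := by
  rw [← Set.ncard_pos h.1, h.2.1]
  omega

end

end H279R3
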