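import Mathlib
import Pool.Agent.H279R3.Cuts

/-!
# Finiteness lemmas (helper279)
-/

namespace H279R3

open SimpleGraph

section

variable {W K : Type} {H : SimpleGraph W}

/-- the vertex `v` lies on an edge of `F` -/
def Touch (v : W) (F : Set (Sym2 W)) : Prop := ∃ e ∈ F, v ∈ e

lemma ball_finite (hlf : ∀ v, (H.neighborSet v).Finite) (v : W) (n : ℕ) :
    {w | ∃ p : H.Walk v w, p.length ≤ n}.Finite := by
  induction n generalizing v with
  | zero =>
    refine (Set.finite_singleton v).subset ?_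
    rintro w ⟨p, hp⟩
    have := Walk.eq_of_length_eq_zero (show p.length = 0 by omega)
    rw [Set.mem_singleton_iff]
    exact this.symm
  | succ n ih =>
    have h : ({v} ∪ ⋃ u ∈ H.neighborSet v, {w | ∃ p : H.Walk u w, p.length ≤ n}).Finite :=
      (Set.finite_singleton v).union ((hlf v).biUnion (fun u _ => ih u))
    refine h.subset ?_
    rintro w ⟨p, hp⟩
    cases p with
    | nil => exact Or.inl rfl
    | @cons _ u _ hadj q =>
      right
      rw [Set.mem_iUnion₂]
      rw [Walk.length_cons] at hp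
      exact ⟨u, hadj, q, by omega⟩

lemma ind_reach {D : AbstractDual H K} {n : ℕ} {A : Set K} (h : Ind D n A) {v : W}
    (hv : Touch v (cut H D.ends A)) {e : Sym2 W} (he : e ∈ cut H D.ends A) {w : W} (hw : w ∈ e) :
    ∃ p : H.Walk v w, p.length ≤ n := by
  classical
  set F := cut H D.ends A with hF
  let R : W → Prop := fun w => ∃ p : H.Walk v w, ∀ f ∈ p.edges, f ∈ F
  have hRv : R v := ⟨Walk.nil, by simp⟩
  have hstep : ∀ x y, R x → s(x, y) ∈ F → R y := by
    rintro x y ⟨p, hp⟩ hxy
    have hadj : H.Adj x y := hxy.1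
    refine ⟨p.concat hadj, fun f hf => ?_⟩
    rw [Walk.edges_concat, List.concat_eq_append, List.mem_append, List.mem_singleton] at hf
    rcases hf with hf | rfl
    · exact hp f hf
    · exact hxy
  have hstep' : ∀ e ∈ F, ∀ x ∈ e, ∀ y ∈ e, R x → R y := by
    intro e he x hx y hy hR
    by_cases hxy : x = y
    · subst hxy; exact hR
    · have : e = s(x, y) := ((Sym2.mem_and_mem_iff hxy).mp ⟨hx, hy⟩)
      subst this
      exact hstep x y hR he
  set F1 : Set (Sym2 W) := {e | e ∈ F ∧ ∃ w ∈ e, R w} with hF1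
  have hsub : F1 ⊆ F := fun e he => he.1
  have hEF : EvenSet H F := D.cut_even A h.1
  have heven : EvenSet H F1 := by
    refine ⟨fun e he => hEF.1 he.1, fun x => ?_⟩
    by_cases hx : R x
    · have : F1 ∩ {e | x ∈ e} = F ∩ {e | x ∈ e} := by
        ext e
        constructor
        · rintro ⟨h1, h2⟩
          exact ⟨h1.1, h2⟩
        · rintro ⟨h1, h2⟩
          exact ⟨⟨h1, x, h2, hx⟩, h2⟩
      rw [this]
      exact hEF.2 x
    · have : F1 ∩ {e | x ∈ e} = ∅ := by
        ext e
        constructor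
        · rintro ⟨⟨h1, w, hwe, hR⟩, h2⟩
          exact absurd (hstep' e h1 w hwe x h2 hR) hx
        · intro h
          exact absurd h (Set.notMem_empty e)
      rw [this]
      simp
  obtain ⟨e1, he1, hve1⟩ := hv
  have hne : F1.Nonempty := ⟨e1, he1, v, hve1, hRv⟩
  have hall := h.minimal heven hsub hne
  have he' : e ∈ F1 := by rw [hall]; exact he
  obtain ⟨-, x, hxe, hRx⟩ := he'
  obtain ⟨p, hp⟩ := hstep' e he x hxe w hw hRx
  refine ⟨p.bypass, ?_⟩
  have hnd : p.bypass.edges.Nodup := (p.bypass_isPath).isTrail.edges_nodup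
  have hb : ∀ f ∈ p.bypass.edges, f ∈ F := fun f hf => hp f (p.edges_bypass_subset_edges hf)
  rw [← Walk.length_edges, ← List.toFinset_card_of_nodup hnd, ← Set.ncard_coe_finset, ← h.2.1]
  exact Set.ncard_le_ncard (fun f hf => hb f (by simpa using hf)) h.1

lemma fibre_finite (D : AbstractDual H K) (F : Set (Sym2 W)) :
    {A : Set K | cut H D.ends A = F}.Finite := by
  rcases Set.eq_empty_or_nonempty {A : Set K | cut H D.ends A = F} with h | ⟨A0, hA0⟩
  · rw [h]; exact Set.finite_empty
  · refine (Set.toFinite {A0, A0ᶜ}).subset ?_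
    intro A hA
    have hA0 : cut H D.ends A0 = F := hA0
    have hA : cut H D.ends A = F := hA
    exact eq_or_compl_of_cut_eq D (hA.trans hA0.symm)

/-- Only finitely many indecomposable cuts of bounded size touch a given vertex. -/
lemma touch_finite (hlf : ∀ v, (H.neighborSet v).Finite) (D : AbstractDual H K) (n : ℕ) (v : W) :
    {A : Set K | (∃ m < n, Ind D m A) ∧ Touch v (cut H D.ends A)}.Finite := by
  classical
  set Bl := {w | ∃ p : H.Walk v w, p.length ≤ n} with hBl
  have hBfin : Bl.Finite := ball_finite hlf v n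
  set T : Set (Sym2 W) := (fun q : W × W => s(q.1, q.2)) '' (Bl ×ˢ Bl) with hT
  have hTfin : T.Finite := (hBfin.prod hBfin).image _
  have h1 : (⋃ F ∈ 𝒫 T, {A : Set K | cut H D.ends A = F}).Finite :=
    (hTfin.finite_subsets).biUnion (fun F _ => fibre_finite D F)
  refine h1.subset ?_
  rintro A ⟨⟨m, hm, hA⟩, hv⟩
  rw [Set.mem_iUnion₂]
  refine ⟨cut H D.ends A, ?_, rfl⟩
  intro e he
  have hr : ∀ w ∈ e, w ∈ Bl := by
    intro w hw
    obtain ⟨p, hp⟩ := ind_reach hA hv he hw
    exact ⟨p, by omega⟩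
  induction e using Sym2.ind with
  | _ a b => exact ⟨(a, b), ⟨hr a (Sym2.mem_mk_left a b), hr b (Sym2.mem_mk_right a b)⟩, rfl⟩

/-- Crossing indecomposable cuts share a vertex. -/
lemma cross_touch {D : AbstractDual H K} {n m : ℕ} (hn : 1 ≤ n) (hm : 1 ≤ m) {A B : Set K}
    (hA : Ind D n A) (hB : Ind D m B) (hc : Cr A B) :
    ∃ v, Touch v (cut H D.ends A) ∧ Touch v (cut H D.ends B) := by
  by_contra hcon
  push Not at hcon
  have hX : (cut H D.ends (A ∩ B)).Finite :=
    (hA.1.union hB.1).subset (cut_inter_subset D.ends A B)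
  have hXe := D.cut_even _ hX
  have hdisj : ∀ e, e ∈ cut H D.ends A → e ∈ cut H D.ends B → False := by
    intro e h1 h2
    induction e using Sym2.ind with
    | _ a b =>
      exact hcon a ⟨_, h1, Sym2.mem_mk_left a b⟩ ⟨_, h2, Sym2.mem_mk_left a b⟩
  -- general: the trace on one of the two cuts is even
  have trace : ∀ C C' : Set K, (∀ v, Touch v (cut H D.ends C) → ¬ Touch v (cut H D.ends C')) →
      cut H D.ends (A ∩ B) ⊆ cut H D.ends C ∪ cut H D.ends C' →
      EvenSet H (cut H D.ends (A ∩ B) ∩ cut H D.ends C) := by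
    intro C C' hCC hsub
    refine ⟨fun e he => hXe.1 he.1, fun v => ?_⟩
    by_cases hv : Touch v (cut H D.ends C)
    · have : cut H D.ends (A ∩ B) ∩ cut H D.ends C ∩ {e | v ∈ e} =
          cut H D.ends (A ∩ B) ∩ {e | v ∈ e} := by
        ext e
        constructor
        · rintro ⟨⟨h1, h2⟩, h3⟩
          exact ⟨h1, h3⟩
        · rintro ⟨h1, h3⟩
          refine ⟨⟨h1, ?_⟩, h3⟩
          rcases hsub h1 with h | h
          · exact h
          · exact absurd ⟨e, h, h3⟩ (hCC v hv)
      rw [this]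
      exact hXe.2 v
    · have : cut H D.ends (A ∩ B) ∩ cut H D.ends C ∩ {e | v ∈ e} = ∅ := by
        ext e
        constructor
        · rintro ⟨⟨h1, h2⟩, h3⟩
          exact absurd ⟨e, h2, h3⟩ hv
        · intro h
          exact absurd h (Set.notMem_empty e)
      rw [this]
      simp
  have hdA := trace A B hcon (cut_inter_subset D.ends A B)
  have hdB := trace B A (fun v h1 h2 => hcon v h2 h1)
    ((cut_inter_subset D.ends A B).trans (by rw [Set.union_comm]))
  have dich : ∀ {k : ℕ} {C : Set K}, Ind D k C →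
      EvenSet H (cut H D.ends (A ∩ B) ∩ cut H D.ends C) →
      (∀ e ∈ cut H D.ends C, e ∉ cut H D.ends (A ∩ B)) ∨
      (∀ e ∈ cut H D.ends C, e ∈ cut H D.ends (A ∩ B)) := by
    intro k C hC hE
    rcases Set.eq_empty_or_nonempty (cut H D.ends (A ∩ B) ∩ cut H D.ends C) with h | h
    · left
      intro e he he'
      have : e ∈ cut H D.ends (A ∩ B) ∩ cut H D.ends C := ⟨he', he⟩
      rw [h] at this
      exact this
    · right
      have := hC.minimal hE (fun e he => he.2) h
      intro e he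
      rw [← this] at he
      exact he.1
  obtain ⟨⟨p1, h1A, h1B⟩, ⟨p2, h2A, h2B⟩, ⟨p3, h3A, h3B⟩, ⟨p4, h4A, h4B⟩⟩ := hc
  -- contradiction from an empty corner cut
  have nocut : ∀ (C : Set K) (p q : K), p ∈ C → q ∉ C → cut H D.ends C = ∅ → False := by
    intro C p q hp hq h
    rcases D.conn C h with h | h
    · rw [h] at hp; exact hp
    · rw [h] at hq; exact hq trivial
  rcases dich hA hdA with h1 | h1 <;> rcases dich hB hdB with h2 | h2
  · apply nocut (A ∩ B) p1 p2 ⟨h1A, h1B⟩ (fun h => h2B h.2)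
    rw [Set.eq_empty_iff_forall_notMem]
    intro e he
    rcases cut_inter_subset D.ends A B he with h | h
    · exact h1 e h he
    · exact h2 e h he
  · -- cut B inside A, cut A inside Bᶜ : corner Aᶜ ∩ B
    apply nocut (Aᶜ ∩ B) p3 p1 ⟨h3A, h3B⟩ (fun h => h.1 h1A)
    rw [Set.eq_empty_iff_forall_notMem]
    intro e he
    have hor : e ∈ cut H D.ends A ∨ e ∈ cut H D.ends B := by
      have := cut_inter_subset D.ends Aᶜ B he
      rwa [cut_compl] at this
    have k1 := h1 e
    have k2 := h2 e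
    have k3 := hdisj e
    obtain ⟨x, y, hxy⟩ := ends_cases D.ends e
    rw [mem_cut_iff hxy, mem_cut_iff hxy] at hor k1 k2 k3
    rw [mem_cut_iff hxy] at he
    simp only [Set.mem_inter_iff, Set.mem_compl_iff] at hor k1 k2 k3 he
    clear hdA hdB dich trace hcon hXe hX hdisj h1 h2 hA hB nocut
    by_cases hxA : x ∈ A <;> by_cases hyA : y ∈ A <;> by_cases hxB : x ∈ B <;>
      by_cases hyB : y ∈ B <;> simp_all
  · apply nocut (A ∩ Bᶜ) p2 p1 ⟨h2A, h2B⟩ (fun h => h.2 h1B)
    rw [Set.eq_empty_iff_forall_notMem]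
    intro e he
    have hor : e ∈ cut H D.ends A ∨ e ∈ cut H D.ends B := by
      have := cut_inter_subset D.ends A Bᶜ he
      rwa [cut_compl D.ends B] at this
    have k1 := h1 e
    have k2 := h2 e
    have k3 := hdisj e
    obtain ⟨x, y, hxy⟩ := ends_cases D.ends e
    rw [mem_cut_iff hxy, mem_cut_iff hxy] at hor k1 k2 k3
    rw [mem_cut_iff hxy] at he
    simp only [Set.mem_inter_iff, Set.mem_compl_iff] at hor k1 k2 k3 he
    clear hdA hdB dich trace hcon hXe hX hdisj h1 h2 hA hB nocut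
    by_cases hxA : x ∈ A <;> by_cases hyA : y ∈ A <;> by_cases hxB : x ∈ B <;>
      by_cases hyB : y ∈ B <;> simp_all
  · apply nocut (Aᶜ ∩ Bᶜ) p4 p1 ⟨h4A, h4B⟩ (fun h => h.1 h1A)
    rw [Set.eq_empty_iff_forall_notMem]
    intro e he
    have hor : e ∈ cut H D.ends A ∨ e ∈ cut H D.ends B := by
      have := cut_inter_subset D.ends Aᶜ Bᶜ he
      rwa [cut_compl, cut_compl] at this
    have k1 := h1 e
    have k2 := h2 e
    have k3 := hdisj e
    obtain ⟨x, y, hxy⟩ := ends_cases D.ends e
    rw [mem_cut_iff hxy, mem_cut_iff hxy] at hor k1 k2 k3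
    rw [mem_cut_iff hxy] at he
    simp only [Set.mem_inter_iff, Set.mem_compl_iff] at hor k1 k2 k3 he
    clear hdA hdB dich trace hcon hXe hX hdisj h1 h2 hA hB nocut
    by_cases hxA : x ∈ A <;> by_cases hyA : y ∈ A <;> by_cases hxB : x ∈ B <;>
      by_cases hyB : y ∈ B <;> simp_all

/-- finitely many indecomposable cuts of bounded size cross a given one -/
lemma cross_finite (hlf : ∀ v, (H.neighborSet v).Finite) (D : AbstractDual H K) (n : ℕ)
    {m : ℕ} (hm : 1 ≤ m) {A : Set K} (hA : Ind D m A) :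
    {B : Set K | (∃ k < n, 1 ≤ k ∧ Ind D k B) ∧ Cr B A}.Finite := by
  have hV : {v | Touch v (cut H D.ends A)}.Finite := by
    have : {v | Touch v (cut H D.ends A)} = ⋃ e ∈ cut H D.ends A, {v | v ∈ e} := by
      ext v
      rw [Set.mem_iUnion₂]
      constructor
      · rintro ⟨e, he, hv⟩
        exact ⟨e, he, hv⟩
      · rintro ⟨e, he, hv⟩
        exact ⟨e, he, hv⟩
    rw [this]
    refine hA.1.biUnion (fun e _ => ?_)
    induction e using Sym2.ind with
    | _ a b =>
      refine (Set.toFinite {a, b}).subset ?_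
      intro v hv
      have hv : v ∈ s(a, b) := hv
      rw [Sym2.mem_iff] at hv
      exact hv
  refine (hV.biUnion (fun v _ => touch_finite hlf D n v)).subset ?_
  rintro B ⟨⟨k, hk, hk1, hB⟩, hc⟩
  obtain ⟨v, hv1, hv2⟩ := cross_touch hk1 hm hB hA hc
  rw [Set.mem_iUnion₂]
  exact ⟨v, hv2, ⟨⟨k, hk, hB⟩, hv1⟩⟩

end

end H279R3
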