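import Mathlib
import Pool.Agent.H279R3.FinCuts

/-!
# Nested families of indecomposable cuts (helper279)
-/

namespace H279R3

open SimpleGraph

section

variable {W K : Type} {H : SimpleGraph W}

/-- A compatible pair: an automorphism `g` of `H` and a permutation `h` of the dual vertices that
carries the dual ends of each edge `e` to the dual ends of `g e`. -/
def IsMapAut (D : AbstractDual H K) (g : H ≃g H) (h : K ≃ K) : Prop :=
  ∀ e ∈ H.edgeSet, D.ends (e.map g) = (D.ends e).map h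

lemma map_mem_edgeSet (g : H ≃g H) {e : Sym2 W} : e.map g ∈ H.edgeSet ↔ e ∈ H.edgeSet := by
  induction e using Sym2.ind with
  | _ a b =>
    rw [Sym2.map_mk]
    exact g.map_adj_iff

lemma map_symm_map (g : H ≃g H) (e : Sym2 W) : (e.map g.symm).map g = e := by
  rw [Sym2.map_map]
  have : (g : W → W) ∘ (g.symm : W → W) = id := by
    ext x
    exact g.apply_symm_apply x
  rw [this, Sym2.map_id]
  rfl

lemma map_map_symm (g : H ≃g H) (e : Sym2 W) : (e.map g).map g.symm = e := by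
  rw [Sym2.map_map]
  have : (g.symm : W → W) ∘ (g : W → W) = id := by
    ext x
    exact g.symm_apply_apply x
  rw [this, Sym2.map_id]
  rfl

lemma IsMapAut.symm {D : AbstractDual H K} {g : H ≃g H} {h : K ≃ K} (hgh : IsMapAut D g h) :
    IsMapAut D g.symm h.symm := by
  intro e he
  have h1 : e.map g.symm ∈ H.edgeSet := (map_mem_edgeSet g.symm).mpr he
  have h2 := hgh _ h1
  rw [map_symm_map] at h2
  rw [h2, Sym2.map_map]
  have : (h.symm : K → K) ∘ (h : K → K) = id := by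
    ext x
    exact h.symm_apply_apply x
  rw [this, Sym2.map_id]
  rfl

lemma map_mem_cut {D : AbstractDual H K} {g : H ≃g H} {h : K ≃ K} (hgh : IsMapAut D g h)
    (A : Set K) (e : Sym2 W) : e.map g ∈ cut H D.ends (h.symm ⁻¹' A) ↔ e ∈ cut H D.ends A := by
  by_cases he : e ∈ H.edgeSet
  · obtain ⟨x, y, hxy⟩ := ends_cases D.ends e
    have h2 := hgh e he
    rw [hxy, Sym2.map_mk] at h2
    rw [mem_cut_iff hxy, mem_cut_iff h2, map_mem_edgeSet]
    simp only [Set.mem_preimage, Equiv.symm_apply_apply]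
  · constructor
    · intro h
      exact absurd ((map_mem_edgeSet g).mp h.1) he
    · intro h
      exact absurd h.1 he

lemma mem_cut_act {D : AbstractDual H K} {g : H ≃g H} {h : K ≃ K} (hgh : IsMapAut D g h)
    (A : Set K) (e : Sym2 W) :
    e ∈ cut H D.ends (h.symm ⁻¹' A) ↔ e.map g.symm ∈ cut H D.ends A := by
  rw [← map_mem_cut hgh A (e.map g.symm), map_symm_map]

lemma cut_act {D : AbstractDual H K} {g : H ≃g H} {h : K ≃ K} (hgh : IsMapAut D g h)
    (A : Set K) : cut H D.ends (h.symm ⁻¹' A) = Sym2.map g '' cut H D.ends A := by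
  ext e
  rw [mem_cut_act hgh]
  constructor
  · intro he
    exact ⟨_, he, map_symm_map g e⟩
  · rintro ⟨f, hf, rfl⟩
    rw [map_map_symm]
    exact hf

lemma sym2_map_inj (g : H ≃g H) : Function.Injective (Sym2.map (g : W → W)) := by
  intro a b hab
  rw [← map_map_symm g a, ← map_map_symm g b]
  exact congrArg _ hab

lemma EvenSet.image {F : Set (Sym2 W)} (hF : EvenSet H F) (g : H ≃g H) :
    EvenSet H (Sym2.map g '' F) := by
  refine ⟨?_, fun v => ?_⟩
  · rintro e ⟨f, hf, rfl⟩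
    exact (map_mem_edgeSet g).mpr (hF.1 hf)
  · have : Sym2.map g '' F ∩ {e | v ∈ e} = Sym2.map g '' (F ∩ {e | g.symm v ∈ e}) := by
      ext e
      constructor
      · rintro ⟨⟨f, hf, rfl⟩, hv⟩
        refine ⟨f, ⟨hf, ?_⟩, rfl⟩
        have hv : v ∈ Sym2.map g f := hv
        rw [Sym2.mem_map] at hv
        obtain ⟨a, ha, rfl⟩ := hv
        change g.symm (g a) ∈ f
        rw [g.symm_apply_apply]
        exact ha
      · rintro ⟨f, ⟨hf, hv⟩, rfl⟩
        refine ⟨⟨f, hf, rfl⟩, ?_⟩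
        change v ∈ Sym2.map g f
        rw [Sym2.mem_map]
        exact ⟨g.symm v, hv, g.apply_symm_apply v⟩
    rw [this, Set.ncard_image_of_injective _ (sym2_map_inj g)]
    exact hF.2 _

lemma Gen.image {n : ℕ} {F : Set (Sym2 W)} (hF : Gen H n F) (g : H ≃g H) :
    Gen H n (Sym2.map g '' F) := by
  induction hF with
  | base F hfin hF hn =>
    exact Gen.base _ (hfin.image _) (hF.image g) (by
      rwa [Set.ncard_image_of_injective _ (sym2_map_inj g)])
  | add F F' _ _ ih1 ih2 =>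
    rw [Set.image_symmDiff (sym2_map_inj g)]
    exact Gen.add _ _ ih1 ih2

lemma Ind.act {D : AbstractDual H K} {n : ℕ} {A : Set K} (hA : Ind D n A) {g : H ≃g H} {h : K ≃ K}
    (hgh : IsMapAut D g h) : Ind D n (h.symm ⁻¹' A) := by
  unfold Ind at hA ⊢
  rw [cut_act hgh]
  refine ⟨hA.1.image _, by rw [Set.ncard_image_of_injective _ (sym2_map_inj g)]; exact hA.2.1, ?_⟩
  intro hg
  apply hA.2.2
  have := hg.image g.symm
  rw [Set.image_image] at this
  simp only [map_map_symm, Set.image_id'] at this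
  exact this

lemma cr_act {A B : Set K} (h : K ≃ K) : Cr (h.symm ⁻¹' A) (h.symm ⁻¹' B) ↔ Cr A B := by
  unfold Cr
  constructor
  · rintro ⟨⟨a, ha⟩, ⟨b, hb⟩, ⟨c, hc⟩, ⟨d, hd⟩⟩
    exact ⟨⟨_, ha⟩, ⟨_, hb⟩, ⟨_, hc⟩, ⟨_, hd⟩⟩
  · rintro ⟨⟨a, ha⟩, ⟨b, hb⟩, ⟨c, hc⟩, ⟨d, hd⟩⟩
    refine ⟨⟨h a, ?_⟩, ⟨h b, ?_⟩, ⟨h c, ?_⟩, ⟨h d, ?_⟩⟩ <;>
      simpa only [Set.mem_preimage, Equiv.symm_apply_apply]

/-- Good families. -/
structure Good (D : AbstractDual H K) (n : ℕ) (M : Set (Set K)) : Prop where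
  compl : ∀ A ∈ M, Aᶜ ∈ M
  inv : ∀ (g : H ≃g H) (h : K ≃ K), IsMapAut D g h → ∀ A ∈ M, h.symm ⁻¹' A ∈ M
  nested : ∀ A ∈ M, ∀ B ∈ M, ¬ Cr A B
  ind : ∀ A ∈ M, ∃ m, 1 ≤ m ∧ m < n ∧ Ind D m A

lemma cr_of_or_compl_left {A A' B : Set K} (h : A' = A ∨ A' = Aᶜ) : Cr A' B ↔ Cr A B := by
  rcases h with rfl | rfl
  · exact Iff.rfl
  · exact cr_compl_left

lemma cr_of_or_compl_right {A A' B : Set K} (h : A' = A ∨ A' = Aᶜ) : Cr B A' ↔ Cr B A := by
  rcases h with rfl | rfl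
  · exact Iff.rfl
  · exact cr_compl_right

lemma exists_min_nat {α : Type} (P : α → Prop) (f : α → ℕ) (h : ∃ a, P a) :
    ∃ a, P a ∧ ∀ b, P b → f a ≤ f b := by
  classical
  have hex : ∃ n, ∃ a, P a ∧ f a = n := by
    obtain ⟨a, ha⟩ := h
    exact ⟨_, a, ha, rfl⟩
  obtain ⟨a, ha, hn⟩ := Nat.find_spec hex
  refine ⟨a, ha, fun b hb => ?_⟩
  rw [hn]
  exact Nat.find_min' hex ⟨b, hb, rfl⟩

lemma Good.step {D : AbstractDual H K} (hlf : ∀ v, (H.neighborSet v).Finite) {n : ℕ}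
    {M : Set (Set K)} (hM : Good D n M) (hn : 1 ≤ n) (hex : ∃ A, Ind D n A) :
    ∃ M', M ⊆ M' ∧ Good D (n + 1) M' ∧ ∃ A ∈ M', Ind D n A := by
  classical
  -- first minimisation
  have h1 : ∃ A, Ind D n A ∧ ∀ B ∈ M, ¬ Cr B A := by
    obtain ⟨A, hA, hmin⟩ := exists_min_nat (fun A => Ind D n A)
      (fun A => {B | B ∈ M ∧ Cr B A}.ncard) hex
    refine ⟨A, hA, fun B hB hBA => ?_⟩
    obtain ⟨m, hm1, hmn, hBi⟩ := hM.ind B hB
    obtain ⟨A', B', hA', hB', hE, -⟩ := corner_ind D hmn.le hA hBi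
    have hlt : {C | C ∈ M ∧ Cr C (A' ∩ B')}.ncard < {C | C ∈ M ∧ Cr C A}.ncard := by
      apply Set.ncard_lt_ncard
      · constructor
        · rintro C ⟨hC, hCr⟩
          refine ⟨hC, ?_⟩
          have hAB' : Cr A' B' :=
            (cr_of_or_compl_left hA').mpr ((cr_of_or_compl_right hB').mpr hBA.symm)
          rcases cr_corner hAB' hCr with h | h
          · exact (cr_of_or_compl_right hA').mp h
          · exact absurd ((cr_of_or_compl_right hB').mp h) (hM.nested C hC B hB)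
        · intro hsub
          have hB'M : B' ∈ M := by
            rcases hB' with rfl | rfl
            · exact hB
            · exact hM.compl B hB
          have := hsub ⟨hB'M, (cr_of_or_compl_left hB').mpr hBA⟩
          obtain ⟨-, -, ⟨x, hx, hx'⟩, -⟩ := this.2
          exact hx hx'.2
      · refine (cross_finite hlf D n hn hA).subset ?_
        rintro C ⟨hC, hCr⟩
        obtain ⟨k, hk1, hkn, hCi⟩ := hM.ind C hC
        exact ⟨⟨k, hkn, hk1, hCi⟩, hCr⟩
    exact absurd (hmin _ hE) (not_le.mpr hlt)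
  set I : Set (Set K) := {A | Ind D n A ∧ ∀ B ∈ M, ¬ Cr B A} with hI
  have hIcompl : ∀ A ∈ I, Aᶜ ∈ I := by
    rintro A ⟨hA, hB⟩
    exact ⟨hA.compl, fun B hBM h => hB B hBM (cr_compl_right.mp h)⟩
  have hIinv : ∀ (g : H ≃g H) (h : K ≃ K), IsMapAut D g h → ∀ A ∈ I, h.symm ⁻¹' A ∈ I := by
    rintro g h hgh A ⟨hA, hB⟩
    refine ⟨hA.act hgh, fun B hBM hc => ?_⟩
    have h2 := hM.inv _ _ hgh.symm B hBM
    apply hB _ h2
    rw [← cr_act h]
    have : (h.symm : K → K) ⁻¹' ((h.symm.symm : K → K) ⁻¹' B) = B := by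
      ext x
      simp
    rw [this]
    exact hc
  have hIfin : ∀ A ∈ I, {C | C ∈ I ∧ Cr C A}.Finite := by
    rintro A ⟨hA, -⟩
    refine (cross_finite hlf D (n + 1) hn hA).subset ?_
    rintro C ⟨⟨hC, -⟩, hCr⟩
    exact ⟨⟨n, by omega, hn, hC⟩, hCr⟩
  set cn : Set K → ℕ := fun A => {C | C ∈ I ∧ Cr C A}.ncard with hcn
  set N : Set (Set K) := {A | A ∈ I ∧ ∀ A' ∈ I, cn A ≤ cn A'} with hN
  have hNne : ∃ A, A ∈ N := by
    obtain ⟨A, hA, hmin⟩ := exists_min_nat (fun A => A ∈ I) cn h1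
    exact ⟨A, hA, hmin⟩
  have hNnest : ∀ A ∈ N, ∀ B ∈ N, ¬ Cr A B := by
    rintro A ⟨hAI, hAmin⟩ B ⟨hBI, hBmin⟩ hAB
    obtain ⟨A', B', hA', hB', hE, hE'⟩ := corner_ind D le_rfl hAI.1 hBI.1
    have hAB' : Cr A' B' :=
      (cr_of_or_compl_left hA').mpr ((cr_of_or_compl_right hB').mpr hAB)
    have hEI : A' ∩ B' ∈ I := by
      refine ⟨hE, fun C hC hCr => ?_⟩
      rcases cr_corner hAB' hCr with h | h
      · exact hAI.2 C hC ((cr_of_or_compl_right hA').mp h)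
      · exact hBI.2 C hC ((cr_of_or_compl_right hB').mp h)
    have hEI' : A'ᶜ ∩ B'ᶜ ∈ I := by
      refine ⟨hE', fun C hC hCr => ?_⟩
      rcases cr_corner' hAB' hCr with h | h
      · exact hAI.2 C hC ((cr_of_or_compl_right hA').mp h)
      · exact hBI.2 C hC ((cr_of_or_compl_right hB').mp h)
    have hA'I : A' ∈ I := by
      rcases hA' with rfl | rfl
      · exact hAI
      · exact hIcompl A hAI
    have c1 := hAmin _ hEI
    have c2 := hBmin _ hEI'
    have e1 := Set.ncard_union_add_ncard_inter {C | C ∈ I ∧ Cr C (A' ∩ B')}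
      {C | C ∈ I ∧ Cr C (A'ᶜ ∩ B'ᶜ)} (hIfin _ hEI) (hIfin _ hEI')
    have e2 := Set.ncard_union_add_ncard_inter {C | C ∈ I ∧ Cr C A}
      {C | C ∈ I ∧ Cr C B} (hIfin _ hAI) (hIfin _ hBI)
    have e3 : ({C | C ∈ I ∧ Cr C (A' ∩ B')} ∪ {C | C ∈ I ∧ Cr C (A'ᶜ ∩ B'ᶜ)}).ncard <
        ({C | C ∈ I ∧ Cr C A} ∪ {C | C ∈ I ∧ Cr C B}).ncard := by
      apply Set.ncard_lt_ncard _ ((hIfin _ hAI).union (hIfin _ hBI))
      constructor
      · rintro C (⟨hC, hCr⟩ | ⟨hC, hCr⟩)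
        · rcases cr_corner hAB' hCr with h | h
          · exact Or.inl ⟨hC, (cr_of_or_compl_right hA').mp h⟩
          · exact Or.inr ⟨hC, (cr_of_or_compl_right hB').mp h⟩
        · rcases cr_corner' hAB' hCr with h | h
          · exact Or.inl ⟨hC, (cr_of_or_compl_right hA').mp h⟩
          · exact Or.inr ⟨hC, (cr_of_or_compl_right hB').mp h⟩
      · intro hsub
        have hmem : A' ∈ {C | C ∈ I ∧ Cr C A} ∪ {C | C ∈ I ∧ Cr C B} :=
          Or.inr ⟨hA'I, (cr_of_or_compl_left hA').mpr hAB⟩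
        rcases hsub hmem with ⟨-, h⟩ | ⟨-, h⟩
        · obtain ⟨-, -, ⟨x, hx, hx'⟩, -⟩ := h
          exact hx hx'.1
        · obtain ⟨⟨x, hx, hx'⟩, -, -, -⟩ := h
          exact hx'.1 hx
    have e4 : ({C | C ∈ I ∧ Cr C (A' ∩ B')} ∩ {C | C ∈ I ∧ Cr C (A'ᶜ ∩ B'ᶜ)}).ncard ≤
        ({C | C ∈ I ∧ Cr C A} ∩ {C | C ∈ I ∧ Cr C B}).ncard := by
      apply Set.ncard_le_ncard _ ((hIfin _ hAI).inter_of_left _)
      rintro C ⟨⟨hC, hCr⟩, ⟨-, hCr'⟩⟩
      obtain ⟨k1, k2⟩ := cr_both hCr hCr'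
      exact ⟨⟨hC, (cr_of_or_compl_right hA').mp k1⟩, ⟨hC, (cr_of_or_compl_right hB').mp k2⟩⟩
    simp only [hcn] at c1 c2
    omega
  refine ⟨M ∪ N, Set.subset_union_left, ⟨?_, ?_, ?_, ?_⟩, ?_⟩
  · rintro A (hA | ⟨hA, hmin⟩)
    · exact Or.inl (hM.compl A hA)
    · right
      refine ⟨hIcompl A hA, fun A' hA' => ?_⟩
      have : cn Aᶜ = cn A := by
        simp only [hcn]
        congr 1
        ext C
        constructor
        · rintro ⟨h1, h2⟩
          exact ⟨h1, cr_compl_right.mp h2⟩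
        · rintro ⟨h1, h2⟩
          exact ⟨h1, cr_compl_right.mpr h2⟩
      rw [this]
      exact hmin A' hA'
  · rintro g h hgh A (hA | ⟨hA, hmin⟩)
    · exact Or.inl (hM.inv g h hgh A hA)
    · right
      refine ⟨hIinv g h hgh A hA, fun A' hA' => le_trans ?_ (hmin A' hA')⟩
      simp only [hcn]
      apply Set.ncard_le_ncard_of_injOn (fun C => (h.symm.symm : K → K) ⁻¹' C) _ _ (hIfin A hA)
      · rintro C ⟨hC, hCr⟩
        refine ⟨hIinv _ _ hgh.symm C hC, ?_⟩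
        rw [← cr_act h]
        have : (h.symm : K → K) ⁻¹' ((h.symm.symm : K → K) ⁻¹' C) = C := by
          ext x
          simp
        rw [this]
        exact hCr
      · intro C _ C' _ hCC
        have hCC : (h.symm.symm : K → K) ⁻¹' C = (h.symm.symm : K → K) ⁻¹' C' := hCC
        ext x
        have := Set.ext_iff.mp hCC (h.symm x)
        simpa using this
  · rintro A (hA | hA) B (hB | hB)
    · exact hM.nested A hA B hB
    · exact hB.1.2 A hA
    · exact fun h => hA.1.2 B hB h.symm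
    · exact hNnest A hA B hB
  · rintro A (hA | hA)
    · obtain ⟨m, h1, h2, h3⟩ := hM.ind A hA
      exact ⟨m, h1, by omega, h3⟩
    · exact ⟨n, hn, by omega, hA.1.1⟩
  · obtain ⟨A, hA⟩ := hNne
    exact ⟨A, Or.inr hA, hA.1.1⟩

end

end H279R3
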