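import Mathlib
import Pool.Agent.H279R3.Nested

/-!
# Bounding the sizes of indecomposable cuts (helper279)
-/

namespace H279R3

open SimpleGraph

section

variable {W K : Type} {H : SimpleGraph W}

lemma comparable {A B : Set K} (h : ¬ Cr A B) {x y : K} (hxA : x ∈ A) (hxB : x ∈ B)
    (hyA : y ∉ A) (hyB : y ∉ B) : A ⊆ B ∨ B ⊆ A := by
  by_contra hc
  push Not at hc
  obtain ⟨h1, h2⟩ := hc
  rw [Set.not_subset] at h1 h2
  obtain ⟨a, ha, ha'⟩ := h1
  obtain ⟨b, hb, hb'⟩ := h2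
  exact h ⟨⟨x, hxA, hxB⟩, ⟨a, ha, ha'⟩, ⟨b, hb', hb⟩, ⟨y, hyA, hyB⟩⟩

/-- Every member of a good family is extremal at some vertex. -/
lemma Good.extremal {D : AbstractDual H K} (hlf : ∀ v, (H.neighborSet v).Finite) {n : ℕ}
    {M : Set (Set K)} (hM : Good D n M) {A : Set K} (hA : A ∈ M) :
    ∃ v, Touch v (cut H D.ends A) ∧ ∀ A' ∈ M, A' ⊂ A →
      ¬ ∀ e ∈ cut H D.ends A, v ∈ e → e ∈ cut H D.ends A' := by
  classical
  by_contra hcon
  push Not at hcon
  obtain ⟨m, hm1, hmn, hAi⟩ := hM.ind A hA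
  have hne := hAi.nonempty hm1
  set Cand : W → Set (Set K) := fun v =>
    {A' | A' ∈ M ∧ A' ⊂ A ∧ ∀ e ∈ cut H D.ends A, v ∈ e → e ∈ cut H D.ends A'} with hCand
  have hfin : ∀ v, Touch v (cut H D.ends A) → (Cand v).Finite := by
    rintro v ⟨e, he, hv⟩
    refine (touch_finite hlf D n v).subset ?_
    rintro A' ⟨hA', -, h3⟩
    obtain ⟨k, hk1, hkn, hki⟩ := hM.ind A' hA'
    exact ⟨⟨k, hkn, hki⟩, e, h3 e he hv, hv⟩
  have hmax : ∀ v, ∃ A', Touch v (cut H D.ends A) → Maximal (fun X => X ∈ Cand v) A' := by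
    intro v
    by_cases hv : Touch v (cut H D.ends A)
    · obtain ⟨A', h1, h2, h3⟩ := hcon v hv
      have hne : (Cand v).Nonempty := ⟨A', h1, h2, h3⟩
      obtain ⟨X, hX⟩ := (hfin v hv).exists_maximal hne
      exact ⟨X, fun _ => hX⟩
    · exact ⟨∅, fun h => absurd h hv⟩
  choose mx hmx using hmax
  -- ends of an edge of the cut
  have split : ∀ e ∈ cut H D.ends A, ∃ x y, D.ends e = s(x, y) ∧ x ∈ A ∧ y ∉ A := by
    intro e he
    obtain ⟨x, y, hxy⟩ := ends_cases D.ends e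
    have he' := (mem_cut_iff hxy A).mp he
    rcases he'.2 with ⟨h1, h2⟩ | ⟨h1, h2⟩
    · exact ⟨x, y, hxy, h1, h2⟩
    · exact ⟨y, x, by rw [hxy, Sym2.eq_swap], h2, h1⟩
  -- a subset of A whose cut contains e contains the inner end
  have inner : ∀ e ∈ cut H D.ends A, ∀ x y, D.ends e = s(x, y) → x ∈ A → y ∉ A → ∀ A' ⊆ A,
      e ∈ cut H D.ends A' → x ∈ A' := by
    intro e _ x y hxy hx hy A' hsub he
    have := (mem_cut_iff hxy A').mp he
    rcases this.2 with ⟨h1, h2⟩ | ⟨h1, h2⟩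
    · exact h1
    · exact absurd (hsub h2) hy
  have hle : ∀ e ∈ cut H D.ends A, ∀ v ∈ e, ∀ w ∈ e, mx v ⊆ mx w → mx v = mx w := by
    intro e he v hv w hw hsub
    have hv' := hmx v ⟨e, he, hv⟩
    have hw' := hmx w ⟨e, he, hw⟩
    obtain ⟨hv1, hv2, hv3⟩ := hv'.prop
    obtain ⟨hw1, hw2, hw3⟩ := hw'.prop
    have hcand : mx w ∈ Cand v := by
      refine ⟨hw1, hw2, fun f hf hvf => ?_⟩
      obtain ⟨x, y, hxy, hx, hy⟩ := split f hf
      have hx' := inner f hf x y hxy hx hy _ hv2.subset (hv3 f hf hvf)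
      rw [mem_cut_iff hxy]
      exact ⟨hf.1, Or.inl ⟨hsub hx', fun h => hy (hw2.subset h)⟩⟩
    exact le_antisymm hsub (hv'.le_of_ge hcand hsub)
  have heq : ∀ e ∈ cut H D.ends A, ∀ v ∈ e, ∀ w ∈ e, mx v = mx w := by
    intro e he v hv w hw
    obtain ⟨hv1, hv2, hv3⟩ := (hmx v ⟨e, he, hv⟩).prop
    obtain ⟨hw1, hw2, hw3⟩ := (hmx w ⟨e, he, hw⟩).prop
    obtain ⟨x, y, hxy, hx, hy⟩ := split e he
    have hxv := inner e he x y hxy hx hy _ hv2.subset (hv3 e he hv)
    have hxw := inner e he x y hxy hx hy _ hw2.subset (hw3 e he hw)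
    rcases comparable (hM.nested _ hv1 _ hw1) hxv hxw (fun h => hy (hv2.subset h))
      (fun h => hy (hw2.subset h)) with h | h
    · exact hle e he v hv w hw h
    · exact (hle e he w hw v hv h).symm
  -- the constant value
  obtain ⟨e0, he0⟩ := hne
  obtain ⟨v0, hv0⟩ : ∃ v0, v0 ∈ e0 := by
    induction e0 using Sym2.ind with
    | _ a b => exact ⟨a, Sym2.mem_mk_left a b⟩
  set F1 : Set (Sym2 W) := {e | e ∈ cut H D.ends A ∧ ∃ v ∈ e, mx v = mx v0} with hF1
  have hEF : EvenSet H (cut H D.ends A) := D.cut_even A hAi.1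
  have heven : EvenSet H F1 := by
    refine ⟨fun e he => hEF.1 he.1, fun x => ?_⟩
    by_cases hx : mx x = mx v0
    · have : F1 ∩ {e | x ∈ e} = cut H D.ends A ∩ {e | x ∈ e} := by
        ext e
        constructor
        · rintro ⟨h1, h2⟩
          exact ⟨h1.1, h2⟩
        · rintro ⟨h1, h2⟩
          exact ⟨⟨h1, x, h2, hx⟩, h2⟩
      rw [this]
      exact hEF.2 x
    · have : F1 ∩ {e | x ∈ e} = ∅ := by
        ext e
        constructor
        · rintro ⟨⟨h1, w, hwe, hR⟩, h2⟩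
          exact absurd ((heq e h1 x h2 w hwe).trans hR) hx
        · intro h
          exact absurd h (Set.notMem_empty e)
      rw [this]
      simp
  have hall := hAi.minimal heven (fun e he => he.1) ⟨e0, he0, v0, hv0, rfl⟩
  obtain ⟨h01, h02, h03⟩ := (hmx v0 ⟨e0, he0, hv0⟩).prop
  have hsub : cut H D.ends A ⊆ cut H D.ends (mx v0) := by
    intro e he
    have he1 : e ∈ F1 := by rw [hall]; exact he
    obtain ⟨-, v, hv, hvx⟩ := he1
    rw [← hvx]
    exact (hmx v ⟨e, he, hv⟩).prop.2.2 e he hv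
  obtain ⟨k, hk1, hkn, hki⟩ := hM.ind _ h01
  have hcut := hki.minimal hEF hsub ⟨e0, he0⟩
  obtain ⟨x, y, hxy, hx, hy⟩ := split e0 he0
  rcases eq_or_compl_of_cut_eq D hcut with h | h
  · exact h02.ne h.symm
  · -- A = (mx v0)ᶜ and mx v0 ⊂ A
    have hx' := inner e0 he0 x y hxy hx hy _ h02.subset (h03 e0 he0 hv0)
    rw [h] at hx
    exact hx hx'

/-- The automorphism pairs of the dual pair act with finitely many orbits on the vertices. -/
def MapQuasiTransitive (D : AbstractDual H K) : Prop :=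
  ∃ S : Set W, S.Finite ∧ ∀ v, ∃ s ∈ S, ∃ (g : H ≃g H) (h : K ≃ K), IsMapAut D g h ∧ g s = v

lemma exists_good {D : AbstractDual H K} (hlf : ∀ v, (H.neighborSet v).Finite)
    (hinf : ∀ N, ∃ n ≥ N, ∃ A, Ind D n A) (k : ℕ) :
    ∃ (n : ℕ) (M : Set (Set K)) (L : Finset ℕ), 1 ≤ n ∧ Good D n M ∧ L.card = k ∧
      ∀ m ∈ L, m < n ∧ ∃ A ∈ M, Ind D m A := by
  induction k with
  | zero =>
    exact ⟨1, ∅, ∅, le_rfl, ⟨fun A hA => absurd hA (Set.notMem_empty A),
      fun _ _ _ A hA => absurd hA (Set.notMem_empty A),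
      fun A hA => absurd hA (Set.notMem_empty A),
      fun A hA => absurd hA (Set.notMem_empty A)⟩, rfl, fun m hm => absurd hm (Finset.notMem_empty m)⟩
  | succ k ih =>
    obtain ⟨n, M, L, hn, hM, hL, hLM⟩ := ih
    obtain ⟨n', hn', hex⟩ := hinf n
    have hM' : Good D n' M := ⟨hM.compl, hM.inv, hM.nested, fun A hA => by
      obtain ⟨m, h1, h2, h3⟩ := hM.ind A hA
      exact ⟨m, h1, by omega, h3⟩⟩
    obtain ⟨M', hMM', hgood, A, hA, hAi⟩ := hM'.step hlf (by omega) hex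
    refine ⟨n' + 1, M', insert n' L, by omega, hgood, ?_, ?_⟩
    · rw [Finset.card_insert_of_notMem, hL]
      intro h
      have := (hLM n' h).1
      omega
    · intro m hm
      rw [Finset.mem_insert] at hm
      rcases hm with rfl | hm
      · exact ⟨by omega, A, hA, hAi⟩
      · obtain ⟨h1, B, hB, hBi⟩ := hLM m hm
        exact ⟨by omega, B, hMM' hB, hBi⟩

lemma incident_finite (hlf : ∀ v, (H.neighborSet v).Finite) (s : W) :
    {e | e ∈ H.edgeSet ∧ s ∈ e}.Finite := by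
  refine ((hlf s).image (fun w => s(s, w))).subset ?_
  rintro e ⟨he, hs⟩
  obtain ⟨w, rfl⟩ := Sym2.mem_iff_exists.mp hs
  exact ⟨w, he, rfl⟩

/-- In a locally finite graph with an abstract dual, on which the automorphisms of the pair act
with finitely many vertex orbits, the sizes of indecomposable cuts are bounded. -/
theorem ind_bounded (D : AbstractDual H K) (hlf : ∀ v, (H.neighborSet v).Finite)
    (hqt : MapQuasiTransitive D) : ∃ N, ∀ n ≥ N, ∀ A, ¬ Ind D n A := by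
  classical
  by_contra hcon
  push Not at hcon
  obtain ⟨S, hS, hrep⟩ := hqt
  set E : Set (Sym2 W) := ⋃ s ∈ S, {e | e ∈ H.edgeSet ∧ s ∈ e} with hE
  have hEfin : E.Finite := hS.biUnion (fun s _ => incident_finite hlf s)
  set Y : Set K := ⋃ e ∈ E, {x | x ∈ D.ends e} with hY
  have hYfin : Y.Finite := by
    refine hEfin.biUnion (fun e _ => ?_)
    obtain ⟨x, y, hxy⟩ := ends_cases D.ends e
    refine (Set.toFinite {x, y}).subset ?_
    intro z hz
    have hz : z ∈ D.ends e := hz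
    rw [hxy, Sym2.mem_iff] at hz
    exact hz
  set T0 : Set (W × Set (Sym2 W) × Set K) := S ×ˢ (𝒫 E ×ˢ 𝒫 Y) with hT0
  have hT0fin : T0.Finite := hS.prod ((hEfin.finite_subsets).prod (hYfin.finite_subsets))
  obtain ⟨n, M, L, hn, hM, hL, hLM⟩ := exists_good hlf hcon (T0.ncard + 1)
  -- pulled back extremal members
  have key : ∀ m : ℕ, ∃ (s : W) (B : Set K), m ∈ L → s ∈ S ∧ B ∈ M ∧ Ind D m B ∧
      Touch s (cut H D.ends B) ∧ ∀ B' ∈ M, B' ⊂ B →
        ¬ ∀ e ∈ cut H D.ends B, s ∈ e → e ∈ cut H D.ends B' := by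
    intro m
    by_cases hm : m ∈ L
    · obtain ⟨-, A, hA, hAi⟩ := hLM m hm
      obtain ⟨v, hv, hext⟩ := hM.extremal hlf hA
      obtain ⟨s, hs, g, h, hgh, rfl⟩ := hrep v
      have hback : (h.symm : K → K) ⁻¹' ((h.symm.symm : K → K) ⁻¹' A) = A := by
        ext x
        simp
      refine ⟨s, (h.symm.symm : K → K) ⁻¹' A, fun _ => ⟨hs, hM.inv _ _ hgh.symm A hA,
        hAi.act hgh.symm, ?_, ?_⟩⟩
      · obtain ⟨e, he, hve⟩ := hv
        refine ⟨e.map g.symm, ?_, ?_⟩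
        · rw [map_mem_cut hgh.symm]
          exact he
        · rw [Sym2.mem_map]
          exact ⟨g s, hve, g.symm_apply_apply s⟩
      · intro B' hB' hss hall
        apply hext _ (hM.inv g h hgh B' hB')
        · constructor
          · intro x hx
            have := hss.1 hx
            change h.symm.symm (h.symm x) ∈ A at this
            simpa using this
          · intro hsub
            apply hss.2
            intro x hx
            have hx : h.symm.symm x ∈ A := hx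
            have := hsub hx
            change h.symm (h.symm.symm x) ∈ B' at this
            simpa using this
        · intro e he hve
          rw [mem_cut_act hgh]
          apply hall
          · rw [map_mem_cut hgh.symm]
            exact he
          · rw [Sym2.mem_map]
            exact ⟨g s, hve, g.symm_apply_apply s⟩
    · exact ⟨hS.toFinset.toList.headD ((hrep · |>.choose) |> fun f => f (by
        exact (Classical.choice ⟨(Classical.choice (by
          obtain ⟨m0, hm0⟩ := Finset.card_pos.mp (by rw [hL]; omega : 0 < L.card)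
          obtain ⟨-, A, hA, -⟩ := hLM m0 hm0
          obtain ⟨v, -⟩ := hM.extremal hlf hA
          exact ⟨v⟩))⟩))), ∅, fun h => absurd h hm⟩
  choose s B hsB using key
  set φ : ℕ → W × Set (Sym2 W) × Set K := fun m =>
    (s m, {e | e ∈ cut H D.ends (B m) ∧ s m ∈ e},
      {x | x ∈ B m ∧ ∃ e, e ∈ H.edgeSet ∧ s m ∈ e ∧ x ∈ D.ends e}) with hφ
  have hmaps : ∀ m ∈ L, φ m ∈ hT0fin.toFinset := by
    intro m hm
    obtain ⟨h1, h2, h3, h4, h5⟩ := hsB m hm
    rw [Set.Finite.mem_toFinset]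
    refine ⟨h1, ?_, ?_⟩
    · rintro e ⟨he, hse⟩
      rw [hE, Set.mem_iUnion₂]
      exact ⟨s m, h1, he.1, hse⟩
    · rintro x ⟨hx, e, he, hse, hxe⟩
      rw [hY, Set.mem_iUnion₂]
      refine ⟨e, ?_, hxe⟩
      rw [hE, Set.mem_iUnion₂]
      exact ⟨s m, h1, he, hse⟩
  have hcard : hT0fin.toFinset.card < L.card := by
    rw [hL, ← Set.ncard_eq_toFinset_card _ hT0fin]
    omega
  obtain ⟨m1, hm1, m2, hm2, hne, heq⟩ := Finset.exists_ne_map_eq_of_card_lt_of_maps_to hcard hmaps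
  obtain ⟨a1, a2, a3, a4, a5⟩ := hsB m1 hm1
  obtain ⟨b1, b2, b3, b4, b5⟩ := hsB m2 hm2
  simp only [hφ, Prod.mk.injEq] at heq
  obtain ⟨hs, hcuts, hfaces⟩ := heq
  -- common edge
  obtain ⟨e, he, hse⟩ := a4
  have he2 : e ∈ cut H D.ends (B m2) := by
    have : e ∈ {e | e ∈ cut H D.ends (B m1) ∧ s m1 ∈ e} := ⟨he, hse⟩
    rw [hcuts] at this
    exact this.1
  obtain ⟨x, y, hxy, hx1, hy1⟩ : ∃ x y, D.ends e = s(x, y) ∧ x ∈ B m1 ∧ y ∉ B m1 := by
    obtain ⟨x, y, hxy⟩ := ends_cases D.ends e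
    rcases ((mem_cut_iff hxy _).mp he).2 with ⟨h1, h2⟩ | ⟨h1, h2⟩
    · exact ⟨x, y, hxy, h1, h2⟩
    · exact ⟨y, x, by rw [hxy, Sym2.eq_swap], h2, h1⟩
  have hx2 : x ∈ B m2 := by
    have : x ∈ {x | x ∈ B m1 ∧ ∃ e, e ∈ H.edgeSet ∧ s m1 ∈ e ∧ x ∈ D.ends e} :=
      ⟨hx1, e, he.1, hse, by rw [hxy]; exact Sym2.mem_mk_left x y⟩
    rw [hfaces] at this
    exact this.1
  have hy2 : y ∉ B m2 := by
    intro hy
    have : y ∈ {x | x ∈ B m2 ∧ ∃ e, e ∈ H.edgeSet ∧ s m2 ∈ e ∧ x ∈ D.ends e} :=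
      ⟨hy, e, he.1, by rw [← hs]; exact hse, by rw [hxy]; exact Sym2.mem_mk_right x y⟩
    rw [← hfaces] at this
    exact hy1 this.1
  have hBB : B m1 = B m2 := by
    by_contra hneq
    rcases comparable (hM.nested _ a2 _ b2) hx1 hx2 hy1 hy2 with h | h
    · apply b5 (B m1) a2 (h.ssubset_of_ne hneq)
      intro f hf hsf
      have : f ∈ {e | e ∈ cut H D.ends (B m2) ∧ s m2 ∈ e} := ⟨hf, hsf⟩
      rw [← hcuts] at this
      exact this.1
    · apply a5 (B m2) b2 (h.ssubset_of_ne (Ne.symm hneq))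
      intro f hf hsf
      have : f ∈ {e | e ∈ cut H D.ends (B m1) ∧ s m1 ∈ e} := ⟨hf, hsf⟩
      rw [hcuts] at this
      exact this.1
  apply hne
  rw [← a3.2.1, ← b3.2.1, hBB]

/-- Hamann's theorem for quasi-transitive planar maps, in terms of abstract duals: the cycle space
is generated by cycles of bounded length. -/
theorem generated_of_dual (D : AbstractDual H K) (hlf : ∀ v, (H.neighborSet v).Finite)
    (hqt : MapQuasiTransitive D) : ∃ r, CycleSpaceGeneratedBelow H r := by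
  obtain ⟨N, hN⟩ := ind_bounded D hlf hqt
  refine ⟨N, generatedBelow_of_gen ?_⟩
  intro F hfin hF hcard
  obtain ⟨A, rfl⟩ := D.even_cut F hfin hF
  by_contra hg
  exact hN _ hcard A ⟨hfin, rfl, hg⟩

end

end H279R3
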