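import Mathlib
import Pool.Agent.H279R3.BoundedGen

/-!
# Slab decomposition (helper279)
-/

namespace H279R3

open SimpleGraph

section slab

variable {W : Type} {H : SimpleGraph W} (f : H →g lampGraph) (r : ℕ)

/-- width of slabs -/
def wid (r : ℕ) : ℤ := (r : ℤ) + 1

/-- slab index -/
def slab (x : W) : ℤ := (f x).2 / wid r

lemma wid_pos : 0 < wid r := by unfold wid; omega

lemma slab_le (x : W) : wid r * slab f r x ≤ (f x).2 := by
  unfold slab
  have := Int.ediv_mul_le (f x).2 (ne_of_gt (wid_pos r))
  rwa [mul_comm] at this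

lemma lt_slab (x : W) : (f x).2 < wid r * slab f r x + wid r := by
  unfold slab
  have := Int.lt_ediv_add_one_mul_self (f x).2 (wid_pos r)
  nlinarith

lemma wid_mul {s t : ℤ} (h : s + 1 ≤ t) : wid r * s + wid r ≤ wid r * t := by
  have := wid_pos r
  nlinarith

lemma lamp_walk {x y : W} (p : H.Walk x y) :
    ((f y).2 ≤ (f x).2 + p.length) ∧ ((f x).2 ≤ (f y).2 + p.length) ∧
    ∀ n : ℤ, (n < (f x).2 - p.length ∨ (f x).2 + p.length ≤ n) →
      (n ∈ (f x).1 ↔ n ∈ (f y).1) := by
  induction p with
  | nil => simp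
  | @cons a b c h p ih =>
    obtain ⟨h1, h2, h3⟩ := ih
    have hadj := f.map_rel h
    rw [lampGraph_adj] at hadj
    rw [Walk.length_cons]
    push_cast
    rcases hadj with ⟨ha, hb⟩ | ⟨ha, hb⟩
    · refine ⟨by omega, by omega, fun n hn => ?_⟩
      rw [hb n (by omega)]
      exact h3 n (by omega)
    · refine ⟨by omega, by omega, fun n hn => ?_⟩
      rw [hb n (by omega)]
      exact h3 n (by omega)

/-- the basic relation: same slab and joined by a walk of length at most `r` -/
def near (x y : W) : Prop := slab f r x = slab f r y ∧ ∃ p : H.Walk x y, p.length ≤ r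

/-- the nodes -/
abbrev Node : Type := Quot (near f r)

/-- class of a vertex -/
def cls (x : W) : Node f r := Quot.mk _ x

lemma cls_eq_of_walk {x y : W} (h : slab f r x = slab f r y) (p : H.Walk x y)
    (hp : p.length ≤ r) : cls f r x = cls f r y := Quot.sound ⟨h, p, hp⟩

lemma near_inv {x y : W} (h : cls f r x = cls f r y) :
    slab f r x = slab f r y ∧ ∀ n : ℤ, (n < wid r * slab f r x - r ∨
      wid r * slab f r x + wid r + r ≤ n) → (n ∈ (f x).1 ↔ n ∈ (f y).1) := by
  have h' := Quot.eqvGen_exact h
  clear h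
  induction h' with
  | rel x y h =>
    obtain ⟨hs, p, hp⟩ := h
    refine ⟨hs, fun n hn => ?_⟩
    have h1 := slab_le f r x
    have h2 := lt_slab f r x
    exact (lamp_walk f p).2.2 n (by
      have : (p.length : ℤ) ≤ r := by exact_mod_cast hp
      omega)
  | refl x => exact ⟨rfl, fun n _ => Iff.rfl⟩
  | symm x y _ ih => exact ⟨ih.1.symm, fun n hn => (ih.2 n (by rw [ih.1]; exact hn)).symm⟩
  | trans x y z _ _ ih1 ih2 =>
    refine ⟨ih1.1.trans ih2.1, fun n hn => (ih1.2 n hn).trans (ih2.2 n (by rw [← ih1.1]; exact hn))⟩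

/-- the node graph -/
def nodeGraph : SimpleGraph (Node f r) where
  Adj A B := A ≠ B ∧ ∃ x y, cls f r x = A ∧ cls f r y = B ∧ H.Adj x y
  symm := ⟨by
    rintro A B ⟨hne, x, y, hx, hy, h⟩
    exact ⟨hne.symm, y, x, hy, hx, h.symm⟩⟩
  loopless := ⟨by
    rintro A ⟨h, -⟩
    exact h rfl⟩

lemma nodeGraph_adj {A B : Node f r} : (nodeGraph f r).Adj A B ↔
    A ≠ B ∧ ∃ x y, cls f r x = A ∧ cls f r y = B ∧ H.Adj x y := Iff.rfl

open Classical in
/-- crossing function of a pair of nodes -/
noncomputable def crossFn (A B : Node f r) : Sym2 W → ZMod 2 :=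
  Sym2.lift ⟨fun x y => if (cls f r x = A ∧ cls f r y = B) ∨ (cls f r x = B ∧ cls f r y = A)
    then 1 else 0, by
      intro x y
      exact if_congr (by tauto) rfl rfl⟩

open Classical in
lemma crossFn_mk (A B : Node f r) (x y : W) : crossFn f r A B s(x, y) =
    if (cls f r x = A ∧ cls f r y = B) ∨ (cls f r x = B ∧ cls f r y = A) then 1 else 0 := rfl

/-- A walk all of whose vertices lie in `A ∪ B` and with ends in a common class crosses evenly. -/
lemma wsum_two_classes {A B : Node f r} (hAB : A ≠ B) {x y : W} (p : H.Walk x y)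
    (hp : ∀ w ∈ p.support, cls f r w = A ∨ cls f r w = B) (hxy : cls f r x = cls f r y) :
    wsum (crossFn f r A B) p = 0 := by
  classical
  let g : W → ZMod 2 := fun w => if cls f r w = A then 1 else 0
  have key : ∀ {x y : W} (p : H.Walk x y), (∀ w ∈ p.support, cls f r w = A ∨ cls f r w = B) →
      wsum (crossFn f r A B) p = g x + g y := by
    intro x y p
    induction p with
    | nil => intro _; rw [wsum_nil, zmod2_add_self]
    | @cons a b c h p ih =>
      intro hp
      rw [wsum_cons, ih (fun w hw => hp w (by simp [hw]))]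
      have ha := hp a (by simp)
      have hb := hp b (by simp)
      have hab : crossFn f r A B s(a, b) = g a + g b := by
        rw [crossFn_mk]
        rcases ha with ha | ha <;> rcases hb with hb | hb <;>
          simp [g, ha, hb, hAB, hAB.symm, zmod2_add_self]
      rw [hab]
      calc g a + g b + (g b + g c) = g a + (g b + g b) + g c := by ring
        _ = g a + g c := by rw [zmod2_add_self, add_zero]
  rw [key p hp]
  have : g x = g y := by simp [g, hxy]
  rw [this, zmod2_add_self]

/-- Geometry: if an `H`-edge `uv` joins different slabs, then any vertex within distance `r` of both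
lies in the slab of `u` or of `v`. -/
lemma slab_two {u v w : W} (huv : H.Adj u v) (hs : slab f r u ≠ slab f r v)
    (p : H.Walk u w) (hp : p.length ≤ r) :
    slab f r w = slab f r u ∨ slab f r w = slab f r v := by
  have hM := wid_pos r
  have hM' : wid r = (r : ℤ) + 1 := rfl
  have hpl : (p.length : ℤ) ≤ r := by exact_mod_cast hp
  have hadj := f.map_rel huv
  rw [lampGraph_adj] at hadj
  have hu1 := slab_le f r u
  have hu2 := lt_slab f r u
  have hv1 := slab_le f r v
  have hv2 := lt_slab f r v
  have hw1 := slab_le f r w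
  have hw2 := lt_slab f r w
  obtain ⟨hd1, hd2, -⟩ := lamp_walk f p
  have hpos : (f v).2 = (f u).2 + 1 ∨ (f u).2 = (f v).2 + 1 := by
    rcases hadj with ⟨h, -⟩ | ⟨h, -⟩
    · exact Or.inl h
    · exact Or.inr h
  rcases lt_or_gt_of_ne hs with hlt | hgt
  · -- slab u < slab v
    have h1 := wid_mul r (show slab f r u + 1 ≤ slab f r v by omega)
    -- so slab v = slab u + 1
    have hv : slab f r v = slab f r u + 1 := by
      by_contra hne
      have h2 := wid_mul r (show slab f r u + 1 + 1 ≤ slab f r v by omega)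
      have h3 : wid r * (slab f r u + 1) = wid r * slab f r u + wid r := by ring
      omega
    rw [hv] at hv1 hv2 ⊢
    have h3 : wid r * (slab f r u + 1) = wid r * slab f r u + wid r := by ring
    by_contra hc
    push Not at hc
    rcases lt_or_gt_of_ne hc.1 with hl | hg
    · have h2 := wid_mul r (show slab f r w + 1 ≤ slab f r u by omega)
      omega
    · have h2 := wid_mul r (show slab f r u + 1 + 1 ≤ slab f r w by omega)
      omega
  · -- slab v < slab u
    have h1 := wid_mul r (show slab f r v + 1 ≤ slab f r u by omega)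
    have hv : slab f r u = slab f r v + 1 := by
      by_contra hne
      have h2 := wid_mul r (show slab f r v + 1 + 1 ≤ slab f r u by omega)
      have h3 : wid r * (slab f r v + 1) = wid r * slab f r v + wid r := by ring
      omega
    rw [hv] at hu1 hu2 ⊢
    have h3 : wid r * (slab f r v + 1) = wid r * slab f r v + wid r := by ring
    by_contra hc
    push Not at hc
    rcases lt_or_gt_of_ne hc.2 with hl | hg
    · have h2 := wid_mul r (show slab f r w + 1 ≤ slab f r v by omega)
      omega
    · have h2 := wid_mul r (show slab f r v + 1 + 1 ≤ slab f r w by omega)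
      omega

/-- A walk of length at most `r` whose ends are in the same class crosses `A`-`B` evenly. -/
lemma wsum_short (hr : 1 ≤ r) {A B : Node f r} (hAB : A ≠ B) {x y : W} (p : H.Walk x y)
    (hp : p.length ≤ r) (hxy : cls f r x = cls f r y) :
    wsum (crossFn f r A B) p = 0 := by
  classical
  by_cases hall : ∀ e ∈ p.edges, crossFn f r A B e = 0
  · unfold wsum
    apply List.sum_eq_zero
    intro t ht
    rw [List.mem_map] at ht
    obtain ⟨e, he, rfl⟩ := ht
    exact hall e he
  · push Not at hall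
    obtain ⟨e, he, hne⟩ := hall
    -- get an oriented crossing edge
    have hex : ∃ u v, H.Adj u v ∧ u ∈ p.support ∧ v ∈ p.support ∧ cls f r u = A ∧
        cls f r v = B := by
      induction e using Sym2.ind with
      | _ u v =>
        have hadj : H.Adj u v := p.adj_of_mem_edges he
        have hu := p.fst_mem_support_of_mem_edges he
        have hv := p.snd_mem_support_of_mem_edges he
        rw [crossFn_mk] at hne
        split_ifs at hne with hc
        · rcases hc with ⟨h1, h2⟩ | ⟨h1, h2⟩
          · exact ⟨u, v, hadj, hu, hv, h1, h2⟩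
          · exact ⟨v, u, hadj.symm, hv, hu, h2, h1⟩
        · exact absurd rfl hne
    obtain ⟨u, v, hadj, hu, hv, huA, hvB⟩ := hex
    have hs : slab f r u ≠ slab f r v := by
      intro hs
      apply hAB
      rw [← huA, ← hvB]
      exact cls_eq_of_walk f r hs (Walk.cons hadj Walk.nil) (by simpa using hr)
    refine wsum_two_classes f r hAB p ?_ hxy
    intro w hw
    obtain ⟨q, hq⟩ := subwalk p hu hw
    obtain ⟨q', hq'⟩ := subwalk p hv hw
    rcases slab_two f r hadj hs q (hq.trans hp) with h | h
    · left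
      rw [← huA]
      exact (cls_eq_of_walk f r h.symm q (hq.trans hp)).symm
    · right
      rw [← hvB]
      exact (cls_eq_of_walk f r h.symm q' (hq'.trans hp)).symm

/-- Inside a class any two vertices are joined by an evenly crossing walk. -/
lemma exists_even_walk (hr : 1 ≤ r) {A B : Node f r} (hAB : A ≠ B) {x y : W}
    (hxy : cls f r x = cls f r y) : ∃ p : H.Walk x y, wsum (crossFn f r A B) p = 0 := by
  have h' := Quot.eqvGen_exact hxy
  clear hxy
  induction h' with
  | rel x y h =>
    have hc : cls f r x = cls f r y := Quot.sound h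
    obtain ⟨hs, p, hp⟩ := h
    exact ⟨p, wsum_short f r hr hAB p hp hc⟩
  | refl x => exact ⟨Walk.nil, wsum_nil _ _⟩
  | symm x y _ ih =>
    obtain ⟨p, hp⟩ := ih
    exact ⟨p.reverse, by rw [wsum_reverse, hp]⟩
  | trans x y z _ _ ih1 ih2 =>
    obtain ⟨p, hp⟩ := ih1
    obtain ⟨q, hq⟩ := ih2
    exact ⟨p.append q, by rw [wsum_append, hp, hq, add_zero]⟩

/-- Lifting walks avoiding the edge `AB` of the node graph. -/
lemma lift_walk (hr : 1 ≤ r) {A B : Node f r} (hAB : A ≠ B) {C D : Node f r}
    (q : ((nodeGraph f r).deleteEdges {s(A, B)}).Walk C D) :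
    ∀ x y, cls f r x = C → cls f r y = D →
      ∃ p : H.Walk x y, wsum (crossFn f r A B) p = 0 := by
  classical
  induction q with
  | nil =>
    intro x y hx hy
    exact exists_even_walk f r hr hAB (hx.trans hy.symm)
  | @cons C C' D h q ih =>
    intro x y hx hy
    rw [deleteEdges_adj] at h
    obtain ⟨hadj, hne⟩ := h
    obtain ⟨-, x0, y0, hx0, hy0, h0⟩ := (nodeGraph_adj f r).mp hadj
    obtain ⟨p1, hp1⟩ := exists_even_walk f r hr hAB (hx.trans hx0.symm)
    obtain ⟨p2, hp2⟩ := ih y0 y hy0 hy
    refine ⟨p1.append (Walk.cons h0 p2), ?_⟩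
    rw [wsum_append, wsum_cons, hp1, hp2, add_zero, zero_add, crossFn_mk, if_neg]
    intro hc
    apply hne
    rw [Set.mem_singleton_iff, Sym2.eq_iff, ← hx0, ← hy0]
    exact hc

/-- The node graph is acyclic. -/
lemma nodeGraph_acyclic (hr : 1 ≤ r)
    (hH : ∀ F : Sym2 W → ZMod 2, (∀ (v : W) (c : H.Walk v v), c.length ≤ r → wsum F c = 0) →
      ∀ (v : W) (c : H.Walk v v), wsum F c = 0) : (nodeGraph f r).IsAcyclic := by
  classical
  rw [isAcyclic_iff_forall_adj_isBridge]
  intro A B hAB
  rw [isBridge_iff]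
  rintro ⟨q⟩
  obtain ⟨hne, x, y, hx, hy, hxy⟩ := (nodeGraph_adj f r).mp hAB
  obtain ⟨p, hp⟩ := lift_walk f r hr hne q x y hx hy
  have h0 := hH (crossFn f r A B) (fun v c hc => wsum_short f r hr hne c hc rfl) x
    (p.append (Walk.cons hxy.symm Walk.nil))
  rw [wsum_append, wsum_cons, wsum_nil, hp, zero_add, add_zero, crossFn_mk, if_pos (by tauto)] at h0
  exact one_ne_zero h0

/-- The bag of a node: its vertices and their neighbours. -/
def bagSet (A : Node f r) : Set W := {v | cls f r v = A ∨ ∃ u, cls f r u = A ∧ H.Adj u v}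

/-- bound for the bags -/
def bagBound (r : ℕ) : ℕ := 2 ^ (3 * r + 3) * (r + 3)

lemma bag_inj (hf : Function.Injective f) (x0 : W) :
    ∃ (Φ : W → Finset ℤ × ℤ) (box : Finset (Finset ℤ × ℤ)), Function.Injective Φ ∧
      (∀ v ∈ bagSet f r (cls f r x0), Φ v ∈ box) ∧ box.card ≤ bagBound r := by
  classical
  set a := wid r * slab f r x0 with ha
  refine ⟨fun v => (symmDiff (f v).1 (f x0).1, (f v).2),
    (Finset.Ico (a - r - 1) (a + wid r + r + 1)).powerset ×ˢ (Finset.Ico (a - 1) (a + wid r + 1)),
    ?_, ?_, ?_⟩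
  · intro v w hvw
    simp only [Prod.mk.injEq] at hvw
    apply hf
    exact Prod.ext (symmDiff_left_injective _ hvw.1) hvw.2
  · -- vertices of the class
    have hcl : ∀ u, cls f r u = cls f r x0 → a ≤ (f u).2 ∧ (f u).2 < a + wid r ∧
        ∀ n : ℤ, (n < a - r ∨ a + wid r + r ≤ n) → (n ∈ (f u).1 ↔ n ∈ (f x0).1) := by
      intro u hu
      obtain ⟨h1, h2⟩ := near_inv f r hu.symm
      have h3 := slab_le f r u
      have h4 := lt_slab f r u
      rw [← h1] at h3 h4
      exact ⟨h3, h4, fun n hn => (h2 n hn).symm⟩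
    intro v hv
    rw [Finset.mem_product, Finset.mem_powerset, Finset.mem_Ico]
    have hgoal : (a - 1 ≤ (f v).2 ∧ (f v).2 < a + wid r + 1) ∧
        ∀ n : ℤ, (n < a - r - 1 ∨ a + wid r + r + 1 ≤ n) → (n ∈ (f v).1 ↔ n ∈ (f x0).1) := by
      rcases hv with hv | ⟨u, hu, huv⟩
      · obtain ⟨h1, h2, h3⟩ := hcl v hv
        exact ⟨⟨by omega, by omega⟩, fun n hn => h3 n (by omega)⟩
      · obtain ⟨h1, h2, h3⟩ := hcl u hu
        have hadj := f.map_rel huv
        rw [lampGraph_adj] at hadj
        rcases hadj with ⟨hA, hB⟩ | ⟨hA, hB⟩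
        · refine ⟨⟨by omega, by omega⟩, fun n hn => ?_⟩
          rw [← hB n (by omega)]
          exact h3 n (by omega)
        · refine ⟨⟨by omega, by omega⟩, fun n hn => ?_⟩
          rw [← hB n (by omega)]
          exact h3 n (by omega)
    refine ⟨?_, hgoal.1⟩
    intro n hn
    rw [Finset.mem_Ico]
    by_contra hc
    have := hgoal.2 n (by omega)
    rw [Finset.mem_symmDiff] at hn
    tauto
  · rw [Finset.card_product, Finset.card_powerset, Int.card_Ico, Int.card_Ico]
    unfold bagBound wid
    have h1 : (a + ((r : ℤ) + 1) + r + 1 - (a - r - 1)).toNat = 3 * r + 3 := by omega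
    have h2 : (a + ((r : ℤ) + 1) + 1 - (a - 1)).toNat = r + 3 := by omega
    rw [h1, h2]

/-- Bounded treewidth, dual form. -/
theorem hasTreeDecomp_of_dual (hf : Function.Injective f) (hr : 1 ≤ r)
    (hH : ∀ F : Sym2 W → ZMod 2, (∀ (v : W) (c : H.Walk v v), c.length ≤ r → wsum F c = 0) →
      ∀ (v : W) (c : H.Walk v v), wsum F c = 0) : HasTreeDecomp H (bagBound r) := by
  classical
  rcases isEmpty_or_nonempty W with hW | hW
  · refine ⟨Unit, ⊥, fun _ => ∅, IsTree.of_subsingleton, by simp, fun v => hW.elim v,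
      fun u => hW.elim u, fun v => hW.elim v⟩
  obtain ⟨w0⟩ := hW
  have : Nonempty (Node f r) := ⟨cls f r w0⟩
  obtain ⟨T, hNT, -, hT⟩ := Connected.exists_isTree_le_of_le_of_isAcyclic
    (G := (⊤ : SimpleGraph (Node f r))) connected_top (le_top : nodeGraph f r ≤ ⊤)
    (nodeGraph_acyclic f r hr hH)
  have hfin : ∀ A : Node f r, (bagSet f r A).Finite ∧ (bagSet f r A).ncard ≤ bagBound r := by
    intro A
    obtain ⟨x0, rfl⟩ := Quot.exists_rep A
    obtain ⟨Φ, box, hinj, hmaps, hcard⟩ := bag_inj f r hf x0
    have h1 : (bagSet f r (cls f r x0)).Finite :=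
      Set.Finite.of_injOn (f := Φ) (t := (box : Set (Finset ℤ × ℤ))) (fun v hv => hmaps v hv)
        hinj.injOn box.finite_toSet
    refine ⟨h1, le_trans ?_ hcard⟩
    rw [← Set.ncard_coe_finset box]
    exact Set.ncard_le_ncard_of_injOn Φ (fun v hv => hmaps v hv) hinj.injOn box.finite_toSet
  refine ⟨Node f r, T, fun A => (hfin A).1.toFinset, hT, ?_, ?_, ?_, ?_⟩
  · intro A
    rw [← Set.ncard_eq_toFinset_card _ (hfin A).1]
    exact (hfin A).2.trans (Nat.le_succ _)
  · intro v
    refine ⟨cls f r v, ?_⟩
    rw [Set.Finite.mem_toFinset]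
    exact Or.inl rfl
  · intro u v huv
    refine ⟨cls f r u, ?_, ?_⟩
    · rw [Set.Finite.mem_toFinset]
      exact Or.inl rfl
    · rw [Set.Finite.mem_toFinset]
      exact Or.inr ⟨u, rfl, huv⟩
  · -- connectivity
    have hv0 : ∀ v : W, v ∈ bagSet f r (cls f r v) := fun v => Or.inl rfl
    have key : ∀ (v : W) (A : Node f r), v ∈ bagSet f r A →
        ∃ q : T.Walk A (cls f r v), ∀ x ∈ q.support, v ∈ bagSet f r x := by
      intro v A hA
      by_cases hcl : cls f r v = A
      · subst hcl
        exact ⟨Walk.nil, fun x hx => by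
          rw [Walk.support_nil, List.mem_singleton] at hx
          subst hx
          exact hA⟩
      · rcases hA with h | ⟨u, hu, huv⟩
        · exact absurd h hcl
        · have hadj : T.Adj A (cls f r v) := hNT ((nodeGraph_adj f r).mpr
            ⟨fun h => hcl h.symm, u, v, hu, rfl, huv⟩)
          refine ⟨Walk.cons hadj Walk.nil, fun x hx => ?_⟩
          rw [Walk.support_cons, Walk.support_nil, List.mem_cons, List.mem_singleton] at hx
          rcases hx with rfl | rfl
          · exact Or.inr ⟨u, hu, huv⟩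
          · exact hv0 v
    intro v A B hA hB
    rw [Set.Finite.mem_toFinset] at hA hB
    obtain ⟨q, hq⟩ := key v A hA
    obtain ⟨q', hq'⟩ := key v B hB
    refine ⟨q.append q'.reverse, fun x hx => ?_⟩
    rw [Set.Finite.mem_toFinset]
    rw [Walk.mem_support_append_iff] at hx
    rcases hx with hx | hx
    · exact hq x hx
    · rw [Walk.support_reverse, List.mem_reverse] at hx
      exact hq' x hx

end slab

lemma CycleSpaceGeneratedBelow.mono {W : Type} {H : SimpleGraph W} {r s : ℕ} (h : r ≤ s)
    (hH : CycleSpaceGeneratedBelow H r) : CycleSpaceGeneratedBelow H s := by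
  intro v c hc
  refine Submodule.span_mono ?_ (hH v c hc)
  rintro x ⟨w, d, hd, hdr, rfl⟩
  exact ⟨w, d, hd, hdr.trans h, rfl⟩

/-- Every graph that embeds in the lamplighter graph and whose cycle space is generated by cycles
of bounded length has bounded treewidth. -/
theorem hasTreeDecomp_of_generated {W : Type} {H : SimpleGraph W} (f : H →g lampGraph)
    (hf : Function.Injective f) {r : ℕ} (hH : CycleSpaceGeneratedBelow H r) :
    HasTreeDecomp H (bagBound (r + 1)) :=
  hasTreeDecomp_of_dual f (r + 1) hf (by omega) (fun F hF v c =>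
    wsum_closed_of_short (hH.mono (Nat.le_succ r)) F hF c)

end H279R3
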