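import Mathlib
import Pool.Agent.H279R3.Slab
import Pool.Agent.H279R3.Count

/-!
# Statements of tasks (helper279), MP_57dfd7_co
-/

namespace H279R3

open SimpleGraph

/-- edge boundary of a set of vertices -/
def bdry {W : Type} (H : SimpleGraph W) (X : Set W) : Set (Sym2 W) :=
  {e | e ∈ H.edgeSet ∧ (∃ x ∈ e, x ∈ X) ∧ ∃ y ∈ e, y ∉ X}

/-- The cubic lamplighter graph: lamp `n` sits at position `2 * n`; stepping from `i` to `i + 1`
may switch lamp `n` if `i = 2 * n`. -/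
def cubicLamp : SimpleGraph (Finset ℤ × ℤ) where
  Adj p q := (q.2 = p.2 + 1 ∧ ∀ n, 2 * n ≠ p.2 → (n ∈ p.1 ↔ n ∈ q.1)) ∨
    (p.2 = q.2 + 1 ∧ ∀ n, 2 * n ≠ q.2 → (n ∈ p.1 ↔ n ∈ q.1))
  symm := ⟨by
    rintro p q (⟨h1, h2⟩ | ⟨h1, h2⟩)
    · exact Or.inr ⟨h1, fun n hn => (h2 n hn).symm⟩
    · exact Or.inl ⟨h1, fun n hn => (h2 n hn).symm⟩⟩
  loopless := ⟨by
    rintro p (⟨h1, -⟩ | ⟨h1, -⟩) <;> omega⟩

/-- M1: the cubic lamplighter graph is locally finite with degrees at most 3, quasi-transitive, of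
unbounded treewidth, and embeds in the lamplighter graph. -/
def TaskM1 : Prop :=
  (∀ p, (cubicLamp.neighborSet p).Finite ∧ (cubicLamp.neighborSet p).ncard ≤ 3) ∧
  (∃ S : Set (Finset ℤ × ℤ), S.Finite ∧ ∀ p, ∃ s ∈ S, ∃ φ : cubicLamp ≃g cubicLamp, φ s = p) ∧
  (∀ k, ¬ HasTreeDecomp cubicLamp k) ∧
  ∃ f : cubicLamp →g lampGraph, Function.Injective f

/-- A cubic graph: every vertex has exactly three neighbours. -/
def IsCubic {U : Type} (τ : SimpleGraph U) : Prop := ∀ v, (τ.neighborSet v).ncard = 3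

/-- No nontrivial edge cut with at most two edges. -/
def NoSmallCut {U : Type} (τ : SimpleGraph U) : Prop :=
  ∀ X : Set U, X.Nonempty → Xᶜ.Nonempty → (bdry τ X).Finite → 3 ≤ (bdry τ X).ncard

/-- A reduced dual of a cubic graph in which the three edges at a vertex form a triangle.
`pt d` is the corner of that triangle opposite to the edge of the dart `d`. -/
structure TriDual {U : Type} (τ : SimpleGraph U) (Q : Type) extends AbstractDual τ Q where
  pt : τ.Dart → Q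
  tri : ∀ d d' d'' : τ.Dart, d.fst = d'.fst → d.fst = d''.fst → d ≠ d' → d ≠ d'' → d' ≠ d'' →
    ends d.edge = s(pt d', pt d'') ∧ pt d ≠ pt d' ∧ pt d ≠ pt d'' ∧ pt d' ≠ pt d''
  nopar : ∀ e ∈ τ.edgeSet, ∀ f ∈ τ.edgeSet, ends e = ends f → e = f
  red : ∀ x y : Q, x ≠ y → ∃ A : Set Q, (cut τ ends A).Finite ∧ x ∈ A ∧ y ∉ A

/-- M2a: a dual of a cubic graph without small cuts can be made triangular. -/
def TaskM2a : Prop :=
  ∀ (U K : Type) (τ : SimpleGraph U) (_ : AbstractDual τ K),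
    IsCubic τ → τ.Connected → NoSmallCut τ → ∃ Q : Type, Nonempty (TriDual τ Q)

/-- M2b: the pairing of corners across an edge does not depend on the triangular dual.
Here `d` and `d'` are darts at the two ends of the edge `e`, both different from `e`. -/
def TaskM2b : Prop :=
  ∀ (U Q1 Q2 : Type) (τ : SimpleGraph U) (D1 : TriDual τ Q1) (D2 : TriDual τ Q2),
    IsCubic τ → τ.Connected → NoSmallCut τ →
    ∀ d d' : τ.Dart, τ.Adj d.fst d'.fst → d.snd ≠ d'.fst → d'.snd ≠ d.fst →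
      D1.pt d = D1.pt d' → D2.pt d = D2.pt d'

/-- M2c: a cubic graph without small cuts and with a triangular dual has an abstract dual which
is respected by all automorphisms (given M2b). -/
def TaskM2c : Prop :=
  TaskM2b → ∀ (U Q : Type) (τ : SimpleGraph U) (_ : TriDual τ Q),
    IsCubic τ → τ.Connected → NoSmallCut τ →
    ∃ (K' : Type) (D' : AbstractDual τ K'), ∀ g : τ ≃g τ, ∃ h : K' ≃ K', IsMapAut D' g h

/-- M3: duals pass to topological minors. -/
def TaskM3 : Prop :=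
  ∀ (W U K : Type) (H : SimpleGraph W) (_ : AbstractDual H K) (τ : SimpleGraph U)
    (P : Sym2 U → Set (Sym2 W)),
    (∀ e ∈ τ.edgeSet, (P e).Finite ∧ (P e).Nonempty ∧ P e ⊆ H.edgeSet) →
    (∀ e ∈ τ.edgeSet, ∀ e' ∈ τ.edgeSet, e ≠ e' → Disjoint (P e) (P e')) →
    (∀ F : Set (Sym2 U), F.Finite → F ⊆ τ.edgeSet →
      (EvenSet τ F ↔ EvenSet H (⋃ e ∈ F, P e))) →
    (∀ F' : Set (Sym2 W), F'.Finite → EvenSet H F' → F' ⊆ (⋃ e ∈ τ.edgeSet, P e) →
      ∀ e ∈ τ.edgeSet, (∀ f ∈ P e, f ∉ F') ∨ P e ⊆ F') →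
    ∃ K' : Type, Nonempty (AbstractDual τ K')

end H279R3
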