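import Mathlib
import Pool.Agent.H279R3.Stmts

/-!
# Statements of tasks, part 2 (helper279), MP_57dfd7_co
-/

namespace H279R3

open SimpleGraph

/-- degrees at most three -/
def SubCubic {W : Type} (H : SimpleGraph W) : Prop :=
  ∀ v, (H.neighborSet v).Finite ∧ (H.neighborSet v).ncard ≤ 3

/-- a set of vertices with at most two boundary edges -/
def Small2 {W : Type} (H : SimpleGraph W) (X : Set W) : Prop :=
  (bdry H X).Finite ∧ (bdry H X).ncard ≤ 2

/-- `x` and `y` are not separated by a cut with at most two edges -/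
def Insep {W : Type} (H : SimpleGraph W) (x y : W) : Prop :=
  ∀ X : Set W, Small2 H X → x ∈ X → y ∈ X

/-- the class of `b` has at least three elements -/
def Big {W : Type} (H : SimpleGraph W) (b : W) : Prop :=
  ∃ x y, Insep H b x ∧ Insep H b y ∧ x ≠ b ∧ y ≠ b ∧ x ≠ y

/-- the torso of the class of `b`: two members of the class are adjacent if some walk joins them
without meeting other members of the class -/
def torso {W : Type} (H : SimpleGraph W) (b : W) : SimpleGraph {y : W // Insep H b y} where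
  Adj x y := x ≠ y ∧ ∃ p : H.Walk x.1 y.1, ∀ v ∈ p.support, Insep H b v → v = x.1 ∨ v = y.1
  symm := ⟨by
    rintro x y ⟨hne, p, hp⟩
    refine ⟨hne.symm, p.reverse, fun v hv hi => ?_⟩
    rw [Walk.support_reverse, List.mem_reverse] at hv
    exact (hp v hv hi).symm⟩
  loopless := ⟨by
    rintro x ⟨h, -⟩
    exact h rfl⟩

/-- T_core: a walk avoiding the class of `b` lies in a set with at most two boundary edges avoiding
the class. -/
def TaskCore : Prop :=
  ∀ (W : Type) (H : SimpleGraph W) (b x y : W) (p : H.Walk x y), SubCubic H →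
    (∀ v ∈ p.support, ¬ Insep H b v) →
    ∃ X : Set W, Small2 H X ∧ (∀ v ∈ p.support, v ∈ X) ∧ ∀ v ∈ X, ¬ Insep H b v

/-- T_cubic -/
def TaskCubic : Prop :=
  TaskCore → ∀ (W : Type) (H : SimpleGraph W) (b : W), SubCubic H → Big H b →
    IsCubic (torso H b)

/-- T_nosmall -/
def TaskNoSmall : Prop :=
  TaskCore → ∀ (W : Type) (H : SimpleGraph W) (b : W), SubCubic H → Big H b →
    (torso H b).Connected ∧ NoSmallCut (torso H b)

/-- T_P: the torso is a topological minor -/
def TaskP : Prop :=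
  TaskCore → ∀ (W : Type) (H : SimpleGraph W) (b : W), SubCubic H → Big H b →
    ∃ P : Sym2 {y : W // Insep H b y} → Set (Sym2 W),
      (∀ e ∈ (torso H b).edgeSet, (P e).Finite ∧ (P e).Nonempty ∧ P e ⊆ H.edgeSet) ∧
      (∀ e ∈ (torso H b).edgeSet, ∀ e' ∈ (torso H b).edgeSet, e ≠ e' → Disjoint (P e) (P e')) ∧
      (∀ F : Set (Sym2 {y : W // Insep H b y}), F.Finite → F ⊆ (torso H b).edgeSet →
        (EvenSet (torso H b) F ↔ EvenSet H (⋃ e ∈ F, P e))) ∧
      (∀ F' : Set (Sym2 W), F'.Finite → EvenSet H F' → F' ⊆ (⋃ e ∈ (torso H b).edgeSet, P e) →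
        ∀ e ∈ (torso H b).edgeSet, (∀ f ∈ P e, f ∉ F') ∨ P e ⊆ F')

/-- every edge lying on a cycle lies on a cycle of length at most `d` -/
def ShortCycles {W : Type} (H : SimpleGraph W) (d : ℕ) : Prop :=
  ∀ e : Sym2 W, (∃ (v : W) (c : H.Walk v v), c.IsCycle ∧ e ∈ c.edges) →
    ∃ (v : W) (c : H.Walk v v), c.IsCycle ∧ c.length ≤ d ∧ e ∈ c.edges

/-- T_short: adjacent vertices of the torso are joined by a short walk of `H` -/
def TaskShort : Prop :=
  TaskCore → ∀ (W : Type) (H : SimpleGraph W) (b : W) (d : ℕ), 1 ≤ d → SubCubic H →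
    ShortCycles H d → ∀ x y, (torso H b).Adj x y → ∃ p : H.Walk x.1 y.1, p.length ≤ d

/-- `ShortCycles` holds for locally finite quasi-transitive graphs -/
def TaskShortCycles : Prop :=
  ∀ (W : Type) (H : SimpleGraph W), SubCubic H →
    (∃ S : Set W, S.Finite ∧ ∀ v, ∃ s ∈ S, ∃ g : H ≃g H, g s = v) → ∃ d, ShortCycles H d

/-- Situation: a cycle `c` of length `n` on which `F` does not vanish while `F` vanishes on all
shorter closed walks. -/
def Critical {W : Type} (H : SimpleGraph W) (F : Sym2 W → ZMod 2) {v : W} (c : H.Walk v v) :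
    Prop :=
  c.IsCycle ∧ wsum F c ≠ 0 ∧ ∀ (w : W) (p : H.Walk w w), p.length < c.length → wsum F p = 0

/-- Dich: a critical long cycle has a short part on one side of each cut with at most two edges -/
def TaskDich : Prop :=
  ∀ (W : Type) (H : SimpleGraph W) (F : Sym2 W → ZMod 2) (v : W) (c : H.Walk v v) (d : ℕ),
    ShortCycles H d → Critical H F c → 3 * d + 3 ≤ c.length →
    ∀ X : Set W, Small2 H X → {w | w ∈ c.support ∧ w ∈ X}.ncard ≤ d ∨
      {w | w ∈ c.support ∧ w ∉ X}.ncard ≤ d

/-- a vertex on no short side -/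
def Central {W : Type} (H : SimpleGraph W) {v : W} (c : H.Walk v v) (d : ℕ) (b : W) : Prop :=
  b ∈ c.support ∧ ∀ X : Set W, Small2 H X → b ∈ X → {w | w ∈ c.support ∧ w ∉ X}.ncard ≤ d

/-- B0: existence of a central vertex -/
def TaskB0 : Prop :=
  ∀ (W : Type) (H : SimpleGraph W) (v : W) (c : H.Walk v v) (d : ℕ), c.IsCycle →
    3 * d + 3 ≤ c.length →
    (∀ X : Set W, Small2 H X → {w | w ∈ c.support ∧ w ∈ X}.ncard ≤ d ∨
      {w | w ∈ c.support ∧ w ∉ X}.ncard ≤ d) →
    ∃ b, Central H c d b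

/-- Big class: a cycle based at a central vertex meets its class in at least three vertices -/
def TaskBig : Prop :=
  TaskCore → ∀ (W : Type) (H : SimpleGraph W) (b : W) (c : H.Walk b b) (d : ℕ), SubCubic H →
    c.IsCycle → 3 * d + 3 ≤ c.length → Central H c d b → Big H b

end H279R3
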