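import Mathlib
import Pool.Agent.H279R3.Stmts2

/-!
# T_core (project H279-TW, helper643)
-/

namespace H279R3

open SimpleGraph

theorem mem_bdry' {W : Type} (H : SimpleGraph W) (X : Set W) (u v : W) :
    s(u, v) ∈ bdry H X ↔ H.Adj u v ∧ (u ∈ X ∨ v ∈ X) ∧ (u ∉ X ∨ v ∉ X) := by
  unfold bdry
  simp only [Set.mem_ofPred_eq, mem_edgeSet, Sym2.mem_iff]
  constructor
  · rintro ⟨h, ⟨x, hx, hxX⟩, y, hy, hyX⟩
    refine ⟨h, ?_, ?_⟩
    · rcases hx with rfl | rfl
      · exact Or.inl hxX
      · exact Or.inr hxX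
    · rcases hy with rfl | rfl
      · exact Or.inl hyX
      · exact Or.inr hyX
  · rintro ⟨h, h1, h2⟩
    refine ⟨h, ?_, ?_⟩
    · rcases h1 with h1 | h1
      · exact ⟨u, Or.inl rfl, h1⟩
      · exact ⟨v, Or.inr rfl, h1⟩
    · rcases h2 with h2 | h2
      · exact ⟨u, Or.inl rfl, h2⟩
      · exact ⟨v, Or.inr rfl, h2⟩

theorem bdry_compl' {W : Type} (H : SimpleGraph W) (X : Set W) : bdry H Xᶜ = bdry H X := by
  ext e
  induction e using Sym2.ind with
  | _ u v =>
    simp only [mem_bdry', Set.mem_compl_iff]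
    tauto

theorem small2_compl {W : Type} {H : SimpleGraph W} {X : Set W} (h : Small2 H X) :
    Small2 H Xᶜ := by
  unfold Small2
  rw [bdry_compl']
  exact h

theorem core_avoid {W : Type} {H : SimpleGraph W} {b : W} {X : Set W} (h : Small2 H X)
    (hb : b ∉ X) : ∀ v ∈ X, ¬ Insep H b v := by
  intro v hv hi
  exact hi Xᶜ (small2_compl h) hb hv

theorem core_exists {W : Type} {H : SimpleGraph W} {b v : W} (h : ¬ Insep H b v) :
    ∃ X : Set W, Small2 H X ∧ v ∈ X ∧ b ∉ X := by
  unfold Insep at h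
  push Not at h
  obtain ⟨Z, hZ, hb, hv⟩ := h
  exact ⟨Zᶜ, small2_compl hZ, hv, fun h => h hb⟩

/-- submodularity -/
theorem bdry_sub {W : Type} (H : SimpleGraph W) (X Y : Set W) (hX : (bdry H X).Finite)
    (hY : (bdry H Y).Finite) :
    (bdry H (X ∪ Y)).Finite ∧ (bdry H (X ∩ Y)).Finite ∧
    (bdry H (X ∪ Y)).ncard + (bdry H (X ∩ Y)).ncard ≤ (bdry H X).ncard + (bdry H Y).ncard ∧
    ∀ u v, H.Adj u v → u ∈ X → u ∉ Y → v ∈ Y → v ∉ X →
      (bdry H (X ∪ Y)).ncard + (bdry H (X ∩ Y)).ncard + 2 ≤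
        (bdry H X).ncard + (bdry H Y).ncard := by
  have h1 : bdry H (X ∪ Y) ∪ bdry H (X ∩ Y) ⊆ bdry H X ∪ bdry H Y := by
    intro e
    induction e using Sym2.ind with
    | _ u v =>
      simp only [Set.mem_union, mem_bdry', Set.mem_inter_iff]
      tauto
  have h2 : bdry H (X ∪ Y) ∩ bdry H (X ∩ Y) ⊆ bdry H X ∩ bdry H Y := by
    intro e
    induction e using Sym2.ind with
    | _ u v =>
      simp only [Set.mem_union, mem_bdry', Set.mem_inter_iff]
      tauto
  have hf : (bdry H X ∪ bdry H Y).Finite := hX.union hY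
  have hC : (bdry H (X ∪ Y)).Finite := hf.subset (Set.subset_union_left.trans h1)
  have hD : (bdry H (X ∩ Y)).Finite := hf.subset (Set.subset_union_right.trans h1)
  have e1 := Set.ncard_union_add_ncard_inter (bdry H (X ∪ Y)) (bdry H (X ∩ Y)) hC hD
  have e2 := Set.ncard_union_add_ncard_inter (bdry H X) (bdry H Y) hX hY
  have hf2 : (bdry H X ∩ bdry H Y).Finite := hX.inter_of_left _
  refine ⟨hC, hD, ?_, ?_⟩
  · have a1 := Set.ncard_le_ncard h1 hf
    have a2 := Set.ncard_le_ncard h2 hf2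
    omega
  · intro u v huv hu1 hu2 hv1 hv2
    have m1 : s(u, v) ∈ bdry H X ∩ bdry H Y := by
      simp only [Set.mem_inter_iff, mem_bdry']
      exact ⟨⟨huv, Or.inl hu1, Or.inr hv2⟩, huv, Or.inr hv1, Or.inl hu2⟩
    have m2 : s(u, v) ∉ bdry H (X ∪ Y) := by
      simp only [mem_bdry', Set.mem_union]
      tauto
    have m3 : s(u, v) ∉ bdry H (X ∩ Y) := by
      simp only [mem_bdry', Set.mem_inter_iff]
      tauto
    have a1 : (bdry H (X ∪ Y) ∪ bdry H (X ∩ Y)).ncard < (bdry H X ∪ bdry H Y).ncard := by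
      refine Set.ncard_lt_ncard ⟨h1, fun h => ?_⟩ hf
      rcases h (Or.inl m1.1) with h | h
      · exact m2 h
      · exact m3 h
    have a2 : (bdry H (X ∪ Y) ∩ bdry H (X ∩ Y)).ncard < (bdry H X ∩ bdry H Y).ncard := by
      refine Set.ncard_lt_ncard ⟨h2, fun h => ?_⟩ hf2
      exact m2 (h m1).1
    omega

theorem walk_stay {W : Type} {H : SimpleGraph W} {Z X : Set W}
    (h : ∀ u v, H.Adj u v → u ∈ Z → v ∉ Z → v ∉ X) {w y : W} (p : H.Walk w y) :
    w ∈ Z → (∀ v ∈ p.support, v ∈ X) → ∀ v ∈ p.support, v ∈ Z := by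
  induction p with
  | nil =>
    intro hw _ v hv
    rw [Walk.support_nil, List.mem_singleton] at hv
    rw [hv]
    exact hw
  | cons hadj p ih =>
    intro hw hX v hv
    rw [Walk.support_cons, List.mem_cons] at hv
    rcases hv with rfl | hv
    · exact hw
    · refine ih ?_ (fun v hv => hX v (by rw [Walk.support_cons]; exact List.mem_cons_of_mem _ hv))
        v hv
      by_contra hcon
      refine h _ _ hadj hw hcon (hX _ ?_)
      rw [Walk.support_cons]
      exact List.mem_cons_of_mem _ p.start_mem_support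

theorem core_aux {W : Type} (H : SimpleGraph W) (b : W) {x y : W} (p : H.Walk x y) :
    (∀ v ∈ p.support, ¬ Insep H b v) →
    ∃ X : Set W, Small2 H X ∧ (∀ v ∈ p.support, v ∈ X) ∧ b ∉ X := by
  induction p with
  | nil =>
    intro hp
    rename_i u
    obtain ⟨X, hX, hv, hb⟩ := core_exists (hp u (by simp))
    refine ⟨X, hX, ?_, hb⟩
    intro v hv'
    rw [Walk.support_nil, List.mem_singleton] at hv'
    rw [hv']
    exact hv
  | cons hadj p ih =>
    rename_i x w y
    intro hp
    have hpx : ¬ Insep H b x := hp x (Walk.start_mem_support _)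
    obtain ⟨X, hX, hpX, hbX⟩ := ih fun v hv =>
      hp v (by rw [Walk.support_cons]; exact List.mem_cons_of_mem _ hv)
    have hwX : w ∈ X := hpX w p.start_mem_support
    by_cases hxX : x ∈ X
    · refine ⟨X, hX, ?_, hbX⟩
      intro v hv
      rw [Walk.support_cons, List.mem_cons] at hv
      rcases hv with rfl | hv
      · exact hxX
      · exact hpX v hv
    obtain ⟨X', hX', hx', hbX'⟩ := core_exists hpx
    obtain ⟨f1, f2, f3, f4⟩ := bdry_sub H X X' hX.1 hX'.1
    have hunion : (bdry H (X ∪ X')).ncard ≤ 2 →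
        ∃ X : Set W, Small2 H X ∧ (∀ v ∈ (Walk.cons hadj p).support, v ∈ X) ∧ b ∉ X := by
      intro h
      refine ⟨X ∪ X', ⟨f1, h⟩, ?_, fun hb => hb.elim hbX hbX'⟩
      intro v hv
      rw [Walk.support_cons, List.mem_cons] at hv
      rcases hv with rfl | hv
      · exact Or.inr hx'
      · exact Or.inl (hpX v hv)
    have hs1 := hX.2
    have hs2 := hX'.2
    by_cases hwX' : w ∈ X'
    · have hmem : s(x, w) ∈ bdry H (X ∩ X') := by
        rw [mem_bdry']
        exact ⟨hadj, Or.inr ⟨hwX, hwX'⟩, Or.inl fun h => hxX h.1⟩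
      by_cases h2 : 2 ≤ (bdry H (X ∩ X')).ncard
      · exact hunion (by omega)
      · have h1 : (bdry H (X ∩ X')).ncard ≤ 1 := by omega
        refine ⟨X', hX', ?_, hbX'⟩
        have hstay := walk_stay (Z := X ∩ X') (X := X) (fun u v huv hu hv => by
          have hm : s(u, v) ∈ bdry H (X ∩ X') := by
            rw [mem_bdry']
            exact ⟨huv, Or.inl hu, Or.inr hv⟩
          have heq := (Set.ncard_le_one f2).1 h1 _ hm _ hmem
          rw [Sym2.eq_iff] at heq
          rcases heq with ⟨rfl, rfl⟩ | ⟨rfl, rfl⟩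
          · exact absurd hu.1 hxX
          · exact hxX) p ⟨hwX, hwX'⟩ hpX
        intro v hv
        rw [Walk.support_cons, List.mem_cons] at hv
        rcases hv with rfl | hv
        · exact hx'
        · exact (hstay v hv).2
    · have := f4 w x hadj.symm hwX hwX' hx' hxX
      exact hunion (by omega)

/-- T_core -/
theorem core : TaskCore := by
  intro W H b x y p _ hp
  obtain ⟨X, hX, h1, h2⟩ := core_aux H b p hp
  exact ⟨X, hX, h1, core_avoid hX h2⟩

end H279R3
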