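import Pool.Agent.H279R3.NoSmall

/-!
# The torso of a big class is cubic (helper211 for helper279)
-/

namespace H279R3

open SimpleGraph

namespace CubicT

variable {W : Type} {H : SimpleGraph W} {b : W}

/-- every neighbour of a member reaches another member -/
lemma exists_reach (hs : SubCubic H) {x z y0 : W} (hx : Insep H b x) (hy0 : Insep H b y0)
    (hy0x : y0 ≠ x) (hz : H.Adj x z) :
    ∃ y : {y : W // Insep H b y}, y.1 ≠ x ∧ NS.Rch H b z y.1 := by
  by_cases hzB : Insep H b z
  · exact ⟨⟨z, hzB⟩, hz.ne', Walk.nil, by simp⟩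
  · by_contra hno
    have hno' : ∀ y : {y : W // Insep H b y}, y.1 ≠ x → ¬ NS.Rch H b z y.1 :=
      fun y h1 h2 => hno ⟨y, h1, h2⟩
    set Z : Set W := {w | ∃ p : H.Walk z w, ∀ v ∈ p.support, ¬ Insep H b v} with hZ
    have hzZ : z ∈ Z := ⟨Walk.nil, by simpa using hzB⟩
    have hZB : ∀ w ∈ Z, ¬ Insep H b w := by
      rintro w ⟨p, hp⟩
      exact hp w (Walk.end_mem_support p)
    have hout : ∀ u ∈ Z, ∀ v, v ∉ Z → H.Adj u v → v = x := by
      rintro u ⟨p, hp⟩ v hv huv
      by_contra hvx
      by_cases hvB : Insep H b v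
      · refine hno' ⟨v, hvB⟩ hvx ⟨p.concat huv, ?_⟩
        intro t ht hbt
        rw [Walk.support_concat, List.mem_append, List.mem_singleton] at ht
        rcases ht with ht | ht
        · exact absurd hbt (hp t ht)
        · exact ht
      · refine hv ⟨p.concat huv, ?_⟩
        intro t ht
        rw [Walk.support_concat, List.mem_append, List.mem_singleton] at ht
        rcases ht with ht | rfl
        · exact hp t ht
        · exact hvB
    have key : ∀ u ∈ insert x Z, ∀ v, v ∉ insert x Z → H.Adj u v →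
        s(u, v) ∈ (fun t => s(x, t)) '' (H.neighborSet x \ {z}) := by
      rintro u (rfl | hu) v hv huv
      · refine ⟨v, ⟨huv, ?_⟩, rfl⟩
        rintro rfl
        exact hv (Or.inr hzZ)
      · exfalso
        exact hv (Or.inl (hout u hu v (fun h => hv (Or.inr h)) huv))
    have hsub : bdry H (insert x Z) ⊆ (fun t => s(x, t)) '' (H.neighborSet x \ {z}) := by
      intro e he
      induction e using Sym2.ind with
      | _ u v =>
        rw [NS.mem_bdry] at he
        obtain ⟨hadj, ⟨h1, h2⟩ | ⟨h1, h2⟩⟩ := he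
        · exact key u h1 v h2 hadj
        · rw [Sym2.eq_swap]
          exact key v h2 u h1 hadj.symm
    have hf : (H.neighborSet x \ {z}).Finite := (hs x).1.subset (fun t ht => ht.1)
    have hn : (H.neighborSet x \ {z}).ncard ≤ 2 := by
      have h1 := Set.ncard_sdiff_singleton_add_one (s := H.neighborSet x) hz (hs x).1
      have h2 := (hs x).2
      omega
    have hsm : Small2 H (insert x Z) :=
      ⟨(hf.image _).subset hsub,
        (Set.ncard_le_ncard hsub (hf.image _)).trans ((Set.ncard_image_le hf).trans hn)⟩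
    rcases NS.insep_trans (NS.insep_symm hx) hy0 _ hsm (Or.inl rfl) with h | h
    · exact hy0x h
    · exact hZB y0 h hy0

/-- the member reached from a neighbour is unique -/
lemma reach_unique (hc : TaskCore) (hs : SubCubic H) {x z y y' : W} (hx : Insep H b x)
    (hz : H.Adj x z) (hy : Insep H b y) (hy' : Insep H b y') (hyx : y ≠ x) (hyx' : y' ≠ x)
    (hr : NS.Rch H b z y) (hr' : NS.Rch H b z y') : y = y' := by
  obtain ⟨w, hw⟩ := hr
  obtain ⟨w', hw'⟩ := hr'
  by_cases hzB : Insep H b z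
  · rw [← hw z (Walk.start_mem_support w) hzB, ← hw' z (Walk.start_mem_support w') hzB]
  · by_contra hne
    obtain ⟨u, huy, p, hp⟩ := NS.exc w hw hy hzB
    obtain ⟨u', huy', p', hp'⟩ := NS.exc w' hw' hy' hzB
    have hav : ∀ v ∈ (p.reverse.append p').support, ¬ Insep H b v := by
      intro v hv
      rw [Walk.mem_support_append_iff, Walk.support_reverse, List.mem_reverse] at hv
      rcases hv with hv | hv
      · exact hp v hv
      · exact hp' v hv
    obtain ⟨Z, hZ, hZs, hZB⟩ := hc W H b u u' _ hs hav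
    have huZ : u ∈ Z := hZs u (Walk.start_mem_support _)
    have huZ' : u' ∈ Z := hZs u' (Walk.end_mem_support _)
    have hzZ : z ∈ Z := hZs z (by
      rw [Walk.mem_support_append_iff]
      exact Or.inr (Walk.start_mem_support _))
    have hxZ : x ∉ Z := fun h => hZB x h hx
    have hyZ : y ∉ Z := fun h => hZB y h hy
    have hyZ' : y' ∉ Z := fun h => hZB y' h hy'
    have e1 : s(x, z) ∈ bdry H Z := NS.mem_bdry.mpr ⟨hz, Or.inr ⟨hxZ, hzZ⟩⟩
    have e2 : s(y, u) ∈ bdry H Z := NS.mem_bdry.mpr ⟨huy.symm, Or.inr ⟨hyZ, huZ⟩⟩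
    have e3 : s(y', u') ∈ bdry H Z := NS.mem_bdry.mpr ⟨huy'.symm, Or.inr ⟨hyZ', huZ'⟩⟩
    have n12 : s(x, z) ≠ s(y, u) := by
      intro h
      rw [Sym2.eq_iff] at h
      rcases h with ⟨h, -⟩ | ⟨h, -⟩
      · exact hyx h.symm
      · exact hxZ (h ▸ huZ)
    have n13 : s(x, z) ≠ s(y', u') := by
      intro h
      rw [Sym2.eq_iff] at h
      rcases h with ⟨h, -⟩ | ⟨h, -⟩
      · exact hyx' h.symm
      · exact hxZ (h ▸ huZ')
    have n23 : s(y, u) ≠ s(y', u') := by
      intro h
      rw [Sym2.eq_iff] at h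
      rcases h with ⟨h, -⟩ | ⟨h, -⟩
      · exact hne h
      · exact hyZ (h ▸ huZ')
    have hsub : ({s(x, z), s(y, u), s(y', u')} : Set (Sym2 W)) ⊆ bdry H Z := by
      rintro e (rfl | rfl | rfl)
      · exact e1
      · exact e2
      · exact e3
    have h3 := Set.ncard_le_ncard hsub hZ.1
    have h4 : ({s(x, z), s(y, u), s(y', u')} : Set (Sym2 W)).ncard = 3 :=
      Set.ncard_eq_three.mpr ⟨_, _, _, n12, n13, n23, rfl⟩
    have := hZ.2
    omega

lemma path_split {x y : W} (q : H.Walk x y) (hpath : q.IsPath) (hne : x ≠ y)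
    (hq : ∀ v ∈ q.support, Insep H b v → v = x ∨ v = y) :
    ∃ z, H.Adj x z ∧ NS.Rch H b z y := by
  cases q with
  | nil => exact absurd rfl hne
  | @cons _ z _ h q =>
    rw [Walk.cons_isPath_iff] at hpath
    refine ⟨z, h, q, ?_⟩
    intro v hv hbv
    rcases hq v (by rw [Walk.support_cons]; exact List.mem_cons_of_mem _ hv) hbv with rfl | h1
    · exact absurd hv hpath.2
    · exact h1

/-- torso neighbours are reached through a neighbour -/
lemma exists_nbr {x y : {y : W // Insep H b y}} (h : (torso H b).Adj x y) :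
    ∃ z, H.Adj x.1 z ∧ NS.Rch H b z y.1 := by
  classical
  obtain ⟨hne, p, hp⟩ := h
  exact path_split p.bypass p.bypass_isPath (fun h => hne (Subtype.ext h)) fun v hv =>
    hp v (Walk.support_bypass_subset_support p hv)

end CubicT

open CubicT in
/-- T_cubic -/
theorem cubic : TaskCubic := by
  intro hc W H b hs hB x
  have hx := x.2
  have hmem : ∃ y, Insep H b y ∧ y ≠ x.1 := by
    obtain ⟨u, v, hu, hv, hub, hvb, huv⟩ := hB
    by_cases h : u = x.1
    · exact ⟨v, hv, fun h' => huv (h.trans h'.symm)⟩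
    · exact ⟨u, hu, h⟩
  obtain ⟨y0, hy0, hy0x⟩ := hmem
  have h0 : (H.neighborSet x.1).ncard = 3 := by
    by_contra hne
    have h2 : (H.neighborSet x.1).ncard ≤ 2 := by
      have := (hs x.1).2
      omega
    have hsub : bdry H {x.1} ⊆ (fun z => s(x.1, z)) '' (H.neighborSet x.1) := by
      intro e he
      induction e using Sym2.ind with
      | _ u v =>
        rw [NS.mem_bdry] at he
        obtain ⟨hadj, ⟨h1, -⟩ | ⟨-, h2⟩⟩ := he
        · rw [Set.mem_singleton_iff] at h1
          subst h1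
          exact ⟨v, hadj, rfl⟩
        · rw [Set.mem_singleton_iff] at h2
          subst h2
          exact ⟨u, hadj.symm, Sym2.eq_swap⟩
    have hsm : Small2 H {x.1} :=
      ⟨((hs x.1).1.image _).subset hsub,
        (Set.ncard_le_ncard hsub ((hs x.1).1.image _)).trans
          ((Set.ncard_image_le (hs x.1).1).trans h2)⟩
    exact hy0x (NS.insep_trans (NS.insep_symm hx) hy0 _ hsm rfl)
  have hex : ∀ z ∈ H.neighborSet x.1, ∃ y : {y : W // Insep H b y}, y.1 ≠ x.1 ∧
      NS.Rch H b z y.1 := fun z hz => exists_reach hs hx hy0 hy0x hz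
  choose f hf1 hf2 using hex
  rw [← h0]
  symm
  refine Set.ncard_congr f ?_ ?_ ?_
  · intro z hz
    obtain ⟨w, hw⟩ := hf2 z hz
    have hz' : H.Adj x.1 z := hz
    refine ⟨fun h => hf1 z hz (congrArg Subtype.val h).symm, Walk.cons hz' w, ?_⟩
    intro v hv hbv
    rw [Walk.support_cons, List.mem_cons] at hv
    rcases hv with rfl | hv
    · exact Or.inl rfl
    · exact Or.inr (hw v hv hbv)
  · intro z z' hz hz' hzz
    refine NS.inj hc hs hB (f z hz).2 hx (hf1 z hz).symm hz hz' (hf2 z hz) ?_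
    rw [hzz]
    exact hf2 z' hz'
  · intro y hy
    have hyx : y.1 ≠ x.1 := fun h => hy.1 (Subtype.ext h.symm)
    obtain ⟨z, hz, hr⟩ := exists_nbr hy
    exact ⟨z, hz, Subtype.ext (reach_unique hc hs hx hz (f z hz).2 y.2 (hf1 z hz) hyx
      (hf2 z hz) hr)⟩

end H279R3
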