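import Mathlib
import Pool.Agent.H279R3.Stmts2
import Pool.Agent.H279R3.BoundedGen

/-!
# Task Dich (helper5), MP_57dfd7_co
-/

namespace H279R3

open SimpleGraph

namespace DichAux

variable {W : Type} {H : SimpleGraph W} {X : Set W}

lemma mk_mem_bdry {a b : W} :
    s(a, b) ∈ bdry H X ↔ H.Adj a b ∧ ¬ (a ∈ X ↔ b ∈ X) := by
  unfold bdry
  simp only [Set.mem_ofPred_eq, mem_edgeSet, Sym2.mem_iff, exists_eq_or_imp, exists_eq_left]
  tauto

lemma same_side {u v : W} (p : H.Walk u v) (hp : ∀ e ∈ p.edges, e ∉ bdry H X) :
    ∀ w ∈ p.support, (w ∈ X ↔ u ∈ X) := by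
  induction p with
  | nil => intro w hw; rw [Walk.support_nil, List.mem_singleton] at hw; rw [hw]
  | @cons a b c h p ih =>
    intro w hw
    rw [Walk.support_cons, List.mem_cons] at hw
    rcases hw with rfl | hw
    · rfl
    · have h1 := ih (fun e he => hp e (by rw [Walk.edges_cons]; exact List.mem_cons_of_mem _ he))
        w hw
      have h2 := hp s(a, b) (by rw [Walk.edges_cons]; exact List.mem_cons_self)
      rw [mk_mem_bdry] at h2
      tauto

lemma first_pred (P : Sym2 W → Prop) {u v : W} (p : H.Walk u v) (hp : ∃ e ∈ p.edges, P e) :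
    ∃ (a b : W) (p1 : H.Walk u a) (h : H.Adj a b) (p2 : H.Walk b v),
      p = p1.append (Walk.cons h p2) ∧ (∀ e ∈ p1.edges, ¬ P e) ∧ P s(a, b) := by
  induction p with
  | nil => obtain ⟨e, he, -⟩ := hp; simp at he
  | @cons a b c h p ih =>
    by_cases h1 : P s(a, b)
    · exact ⟨a, b, Walk.nil, h, p, rfl, by simp, h1⟩
    · obtain ⟨e, he, hPe⟩ := hp
      rw [Walk.edges_cons, List.mem_cons] at he
      rcases he with rfl | he
      · exact absurd hPe h1
      · obtain ⟨a', b', p1, h', p2, hq, hn, hP⟩ := ih ⟨e, he, hPe⟩
        refine ⟨a', b', Walk.cons h p1, h', p2, by rw [hq]; rfl, ?_, hP⟩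
        intro e' he'
        rw [Walk.edges_cons, List.mem_cons] at he'
        rcases he' with rfl | he'
        · exact h1
        · exact hn e' he'

lemma ncard_support {u v : W} (p : H.Walk u v) : {w | w ∈ p.support}.ncard ≤ p.length + 1 := by
  classical
  have h1 : {w | w ∈ p.support} = (p.support.toFinset : Set W) := by ext w; simp
  rw [h1, Set.ncard_coe_finset, ← Walk.length_support]
  exact List.toFinset_card_le _

lemma finite_support {u v : W} (p : H.Walk u v) : {w | w ∈ p.support}.Finite := by
  classical
  have h1 : {w | w ∈ p.support} = (p.support.toFinset : Set W) := by ext w; simp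
  rw [h1]; exact Finset.finite_toSet _

end DichAux

open DichAux

theorem dich : TaskDich := by
  intro W H F v c d hS hC hn X hX
  classical
  obtain ⟨hcyc, hne, hmin⟩ := hC
  by_cases hcr : ∃ e ∈ c.edges, e ∈ bdry H X
  swap
  · push Not at hcr
    have hs := same_side c hcr
    by_cases hv : v ∈ X
    · right
      have : {w | w ∈ c.support ∧ w ∉ X} = ∅ := by
        ext w
        simp only [Set.mem_ofPred_eq, Set.mem_empty_iff_false, iff_false, not_and, not_not]
        intro hw
        exact (hs w hw).2 hv
      rw [this]; simp
    · left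
      have : {w | w ∈ c.support ∧ w ∈ X} = ∅ := by
        ext w
        simp only [Set.mem_ofPred_eq, Set.mem_empty_iff_false, iff_false, not_and]
        intro hw hx
        exact hv ((hs w hw).1 hx)
      rw [this]; simp
  · obtain ⟨a, b, p1, hab, p2, hc, hp1, hE1⟩ := first_pred (· ∈ bdry H X) c hcr
    obtain ⟨q, hqdef⟩ : ∃ q : H.Walk b a, q = p2.append p1 := ⟨_, rfl⟩
    have hperm : (s(a, b) :: q.edges).Perm c.edges := by
      rw [hc, hqdef, Walk.edges_append, Walk.edges_append, Walk.edges_cons]
      refine (List.Perm.cons _ List.perm_append_comm).trans ?_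
      exact List.perm_middle.symm
    have hnd : (s(a, b) :: q.edges).Nodup := hperm.nodup_iff.2 hcyc.isTrail.edges_nodup
    have hlen : c.length = q.length + 1 := by
      rw [hc, hqdef, Walk.length_append, Walk.length_append, Walk.length_cons]
      omega
    have hsup : ∀ w, w ∈ c.support → w ∈ q.support := by
      intro w hw
      rw [hc, Walk.mem_support_append_iff, Walk.support_cons, List.mem_cons] at hw
      rw [hqdef, Walk.mem_support_append_iff]
      rcases hw with hw | rfl | hw
      · exact Or.inr hw
      · exact Or.inr p1.end_mem_support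
      · exact Or.inl hw
    have hwc : wsum F c = F s(a, b) + wsum F q := by
      unfold wsum
      rw [← (hperm.map F).sum_eq, List.map_cons, List.sum_cons]
    have hside := (mk_mem_bdry.1 hE1).2
    have cross : ∀ (r : H.Walk b a), ∃ e ∈ r.edges, e ∈ bdry H X := by
      intro r
      by_contra h
      push Not at h
      exact hside (same_side r h a r.end_mem_support)
    obtain ⟨e, f, q1, hef, q2, hq, hq1, hE2⟩ := first_pred (· ∈ bdry H X) q (cross q)
    have hnd2 : (s(a, b) :: (q1.edges ++ s(e, f) :: q2.edges)).Nodup := by
      rw [hq, Walk.edges_append, Walk.edges_cons] at hnd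
      exact hnd
    have hdist : s(a, b) ≠ s(e, f) := by
      intro h
      have := (List.nodup_cons.1 hnd2).1
      apply this
      rw [h]
      simp
    have hbd : ∀ g ∈ bdry H X, g = s(a, b) ∨ g = s(e, f) := by
      intro g hg
      by_contra hcon
      push Not at hcon
      have hsub : (({s(a, b), s(e, f), g} : Finset (Sym2 W)) : Set (Sym2 W)) ⊆ bdry H X := by
        intro x hx
        simp only [Finset.coe_insert, Finset.coe_singleton, Set.mem_insert_iff,
          Set.mem_singleton_iff] at hx
        rcases hx with rfl | rfl | rfl
        · exact hE1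
        · exact hE2
        · exact hg
      have h3 := Set.ncard_le_ncard hsub hX.1
      rw [Set.ncard_coe_finset, Finset.card_insert_of_notMem, Finset.card_insert_of_notMem,
        Finset.card_singleton] at h3
      · have := hX.2; omega
      · simp only [Finset.mem_singleton]; exact Ne.symm hcon.2
      · simp only [Finset.mem_insert, Finset.mem_singleton, not_or]
        exact ⟨hdist, Ne.symm hcon.1⟩
    have hq2 : ∀ g ∈ q2.edges, g ∉ bdry H X := by
      intro g hg hgb
      obtain ⟨n1, n2⟩ := List.nodup_cons.1 hnd2
      rcases hbd g hgb with rfl | rfl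
      · apply n1; simp [hg]
      · have n3 := (List.nodup_append.1 n2).2.1
        exact (List.nodup_cons.1 n3).1 hg
    have s1 := same_side q1 hq1
    have s2 := same_side q2 hq2
    have haf : (a ∈ X ↔ f ∈ X) := s2 a q2.end_mem_support
    have hqlen : q.length = q1.length + (q2.length + 1) := by
      rw [hq, Walk.length_append, Walk.length_cons]
    have hwq : wsum F q = wsum F q1 + (F s(e, f) + wsum F q2) := by
      rw [hq, wsum_append, wsum_cons]
    have hqs : ∀ w ∈ c.support, w ∈ q1.support ∨ w ∈ q2.support := by
      intro w hw
      have := hsup w hw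
      rw [hq, Walk.mem_support_append_iff, Walk.support_cons, List.mem_cons] at this
      rcases this with h | rfl | h
      · exact Or.inl h
      · exact Or.inl q1.end_mem_support
      · exact Or.inr h
    -- the short cycle
    have hmem : s(a, b) ∈ c.edges := hperm.subset List.mem_cons_self
    obtain ⟨v', c', hc', hlen', hmem'⟩ := hS s(a, b) ⟨v, c, hcyc, hmem⟩
    obtain ⟨a', b', p1', hab', p2', hcc, hp1', hE'⟩ :=
      first_pred (fun x => x = s(a, b)) c' ⟨_, hmem', rfl⟩
    have hnd' : (s(a', b') :: (p2'.append p1').edges).Nodup := by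
      have : (s(a', b') :: (p2'.append p1').edges).Perm c'.edges := by
        rw [hcc, Walk.edges_append, Walk.edges_append, Walk.edges_cons]
        refine (List.Perm.cons _ List.perm_append_comm).trans ?_
        exact List.perm_middle.symm
      exact this.nodup_iff.2 hc'.isTrail.edges_nodup
    have hlc' : c'.length = (p2'.append p1').length + 1 := by
      rw [hcc, Walk.length_append, Walk.length_append, Walk.length_cons]
      omega
    obtain ⟨r, hrl, hrn⟩ : ∃ r : H.Walk b a, r.length + 1 ≤ d ∧ s(a, b) ∉ r.edges := by
      have h4 := (List.nodup_cons.1 hnd').1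
      rw [hE'] at h4
      rcases Sym2.eq_iff.1 hE' with ⟨h1, h2⟩ | ⟨h1, h2⟩
      · subst h1; subst h2
        exact ⟨p2'.append p1', by omega, h4⟩
      · subst h1; subst h2
        refine ⟨(p2'.append p1').reverse, by rw [Walk.length_reverse]; omega, ?_⟩
        rw [Walk.edges_reverse, List.mem_reverse]
        exact h4
    obtain ⟨e', f', r1, hef', r2, hr, hr1, hE3⟩ := first_pred (· ∈ bdry H X) r (cross r)
    have hee : s(e', f') = s(e, f) := by
      refine (hbd _ hE3).resolve_left ?_
      intro h
      apply hrn
      rw [hr, Walk.edges_append, Walk.edges_cons, h]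
      simp
    have s3 := same_side r1 hr1 e' r1.end_mem_support
    have hrlen : r.length = r1.length + (r2.length + 1) := by
      rw [hr, Walk.length_append, Walk.length_cons]
    rcases Sym2.eq_iff.1 hee with ⟨h1, h2⟩ | ⟨h1, h2⟩
    swap
    · exfalso
      subst h1
      exact hside (haf.trans s3)
    subst h1; subst h2
    have hC0 : wsum F (Walk.cons hab (r1.append (Walk.cons hef r2))) = 0 := by
      apply hmin
      rw [Walk.length_cons, Walk.length_append, Walk.length_cons]
      omega
    rw [wsum_cons, wsum_append, wsum_cons] at hC0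
    have hbs : {w | w ∈ q1.support}.ncard ≤ q1.length + 1 := ncard_support q1
    have has : {w | w ∈ q2.support}.ncard ≤ q2.length + 1 := ncard_support q2
    have short_b : q1.length + 1 ≤ d → {w | w ∈ c.support ∧ w ∈ X}.ncard ≤ d ∨
        {w | w ∈ c.support ∧ w ∉ X}.ncard ≤ d := by
      intro hd
      by_cases hb : b ∈ X
      · left
        refine (Set.ncard_le_ncard ?_ (finite_support q1)).trans (hbs.trans hd)
        rintro w ⟨hw, hwX⟩
        rcases hqs w hw with h | h
        · exact h
        · exfalso
          have h5 := s2 w h
          exact hside ⟨fun _ => hb, fun _ => haf.2 (h5.1 hwX)⟩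
      · right
        refine (Set.ncard_le_ncard ?_ (finite_support q1)).trans (hbs.trans hd)
        rintro w ⟨hw, hwX⟩
        rcases hqs w hw with h | h
        · exact h
        · exfalso
          have h5 := s2 w h
          exact hside ⟨fun h => absurd (h5.2 (haf.1 h)) hwX, fun h => absurd h hb⟩
    have short_a : q2.length + 1 ≤ d → {w | w ∈ c.support ∧ w ∈ X}.ncard ≤ d ∨
        {w | w ∈ c.support ∧ w ∉ X}.ncard ≤ d := by
      intro hd
      by_cases ha : a ∈ X
      · left
        refine (Set.ncard_le_ncard ?_ (finite_support q2)).trans (has.trans hd)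
        rintro w ⟨hw, hwX⟩
        rcases hqs w hw with h | h
        · exfalso
          have h5 := s1 w h
          exact hside ⟨fun _ => h5.1 hwX, fun _ => ha⟩
        · exact h
      · right
        refine (Set.ncard_le_ncard ?_ (finite_support q2)).trans (has.trans hd)
        rintro w ⟨hw, hwX⟩
        rcases hqs w hw with h | h
        · exfalso
          have h5 := s1 w h
          exact hside ⟨fun h => absurd h ha, fun h => absurd (h5.2 h) hwX⟩
        · exact h
    rcases lt_or_ge (q1.length + r1.length) c.length with h1 | h1
    · rcases lt_or_ge (q2.length + r2.length) c.length with h2 | h2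
      · exfalso
        have hA := hmin b (q1.append r1.reverse) (by
          rw [Walk.length_append, Walk.length_reverse]; exact h1)
        have hB := hmin _ (q2.append r2.reverse) (by
          rw [Walk.length_append, Walk.length_reverse]; exact h2)
        rw [wsum_append, wsum_reverse] at hA hB
        apply hne
        rw [hwc, hwq]
        have z1 := zmod2_add_self (wsum F r1)
        have z2 := zmod2_add_self (wsum F r2)
        linear_combination hA + hB + hC0 - z1 - z2
      · exact short_b (by omega)
    · exact short_a (by omega)

end H279R3
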