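import Mathlib

/-!
# Straight-line drawings (helper279), MP_57dfd7_co
-/

namespace H279R3

open SimpleGraph

/-- a crossing-free drawing with straight edges -/
def IsStraightDrawing {W : Type} (H : SimpleGraph W) (pos : W → ℝ × ℝ) : Prop :=
  Set.InjOn pos H.support ∧ ∀ u v u' v', H.Adj u v → H.Adj u' v' → s(u, v) ≠ s(u', v') →
    ∀ p ∈ segment ℝ (pos u) (pos v), p ∈ segment ℝ (pos u') (pos v') →
      ∃ z, z ∈ s(u, v) ∧ z ∈ s(u', v') ∧ p = pos z

/-- the shear map -/
noncomputable def shearMap (t : ℝ) : (ℝ × ℝ) →ₗ[ℝ] (ℝ × ℝ) where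
  toFun p := (p.1 + t * p.2, p.2)
  map_add' p q := by
    ext
    · simp only [Prod.fst_add, Prod.snd_add]; ring
    · rfl
  map_smul' c p := by
    ext
    · simp only [Prod.smul_fst, Prod.smul_snd, smul_eq_mul, RingHom.id_apply]; ring
    · rfl

lemma shearMap_inj (t : ℝ) : Function.Injective (shearMap t) := by
  intro p q h
  have h1 : (shearMap t p).1 = (shearMap t q).1 := congrArg Prod.fst h
  have h2 : (shearMap t p).2 = (shearMap t q).2 := congrArg Prod.snd h
  change p.1 + t * p.2 = q.1 + t * q.2 at h1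
  change p.2 = q.2 at h2
  ext
  · rw [h2] at h1; linarith
  · exact h2

lemma drawing_shear {W : Type} {H : SimpleGraph W} {pos : W → ℝ × ℝ} (t : ℝ)
    (h : IsStraightDrawing H pos) : IsStraightDrawing H (fun w => shearMap t (pos w)) := by
  refine ⟨fun u hu v hv huv => h.1 hu hv (shearMap_inj t huv), ?_⟩
  intro u v u' v' h1 h2 h3 p hp hq
  have e1 := image_segment ℝ (shearMap t).toAffineMap (pos u) (pos v)
  have e2 := image_segment ℝ (shearMap t).toAffineMap (pos u') (pos v')
  have hp' : p ∈ (shearMap t).toAffineMap '' segment ℝ (pos u) (pos v) := by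
    rw [e1]; exact hp
  have hq' : p ∈ (shearMap t).toAffineMap '' segment ℝ (pos u') (pos v') := by
    rw [e2]; exact hq
  obtain ⟨p0, hp0, hp1⟩ := hp'
  obtain ⟨q0, hq0, hq1⟩ := hq'
  have hpq : p0 = q0 := shearMap_inj t (hp1.trans hq1.symm)
  obtain ⟨z, hz1, hz2, hz3⟩ := h.2 u v u' v' h1 h2 h3 p0 hp0 (hpq ▸ hq0)
  exact ⟨z, hz1, hz2, by rw [← hp1, hz3]; rfl⟩

/-- a generic shear separates the abscissas of finitely many points -/
lemma exists_shear {W : Type} (S : Set W) (hS : S.Finite) (pos : W → ℝ × ℝ)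
    (hinj : Set.InjOn pos S) : ∃ t : ℝ, Set.InjOn (fun w => (shearMap t (pos w)).1) S := by
  classical
  let bad : Set ℝ := ⋃ u ∈ S, ⋃ v ∈ S, {t | pos u ≠ pos v ∧
    (pos u).1 + t * (pos u).2 = (pos v).1 + t * (pos v).2}
  have hbad : bad.Finite := by
    refine hS.biUnion (fun u _ => hS.biUnion (fun v _ => ?_))
    refine Set.Subsingleton.finite ?_
    rintro s ⟨hs1, hs2⟩ t ⟨ht1, ht2⟩
    by_contra hst
    have h1 : (s - t) * ((pos u).2 - (pos v).2) = 0 := by linarith
    rcases mul_eq_zero.1 h1 with h | h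
    · exact hst (sub_eq_zero.1 h)
    · apply hs1
      have h2 : (pos u).2 = (pos v).2 := sub_eq_zero.1 h
      ext
      · rw [h2] at hs2; linarith
      · exact h2
  obtain ⟨t, ht⟩ := hbad.infinite_compl.nonempty
  refine ⟨t, fun u hu v hv huv => hinj hu hv ?_⟩
  by_contra hne
  apply ht
  simp only [bad, Set.mem_iUnion]
  exact ⟨u, hu, v, hv, hne, huv⟩

theorem exists_generic {W : Type} {H : SimpleGraph W} (hfin : H.edgeSet.Finite)
    (pos : W → ℝ × ℝ) (h : IsStraightDrawing H pos) :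
    ∃ pos' : W → ℝ × ℝ, IsStraightDrawing H pos' ∧
      Set.InjOn (fun w => (pos' w).1) H.support := by
  classical
  have hS : H.support.Finite := by
    have : H.support ⊆ ⋃ e ∈ H.edgeSet, {v | v ∈ e} := by
      rintro v ⟨w, hw⟩
      simp only [Set.mem_iUnion]
      exact ⟨s(v, w), hw, Sym2.mem_mk_left v w⟩
    refine (hfin.biUnion (fun e _ => ?_)).subset this
    induction e using Sym2.ind with
    | _ a b =>
      refine (Set.toFinite ({a, b} : Set W)).subset ?_
      intro v hv
      exact Sym2.mem_iff.1 hv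
  obtain ⟨t, ht⟩ := exists_shear H.support hS pos h.1
  exact ⟨_, drawing_shear t h, ht⟩

end H279R3
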