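import Mathlib
import Pool.Agent.H279R3.Cuts

/-!
# Sweep structures and duals (helper279), MP_57dfd7_co
-/

namespace H279R3

open SimpleGraph

open Classical in
/-- indicator mod 2 -/
noncomputable def ind (p : Prop) : ZMod 2 := if p then 1 else 0

lemma ind_congr {p q : Prop} (h : p ↔ q) : ind p = ind q := by
  rw [propext h]

lemma ind_true {p : Prop} (h : p) : ind p = 1 := by unfold ind; simp [h]

lemma ind_false {p : Prop} (h : ¬ p) : ind p = 0 := by unfold ind; simp [h]

lemma ind_add_self (p : Prop) : ind p + ind p = 0 := CharTwo.add_self_eq_zero _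

lemma ind_eq_one {p : Prop} : ind p = 1 ↔ p := by
  unfold ind; by_cases h : p <;> simp [h]

lemma ind_eq_zero {p : Prop} : ind p = 0 ↔ ¬ p := by
  unfold ind; by_cases h : p <;> simp [h]

/-- telescoping -/
lemma telescope {α M : Type*} [AddCommGroup M] (ρ : α → ℝ) (c : α → M) (T : M) (a : M → ZMod 2)
    (R : Finset α) (hinj : Set.InjOn ρ R) :
    ∑ e ∈ R, (a (T + ∑ f ∈ R.filter (fun f => ρ e < ρ f), c f) +
      a (T + ∑ f ∈ R.filter (fun f => ρ e < ρ f), c f + c e)) =
      a T + a (T + ∑ f ∈ R, c f) := by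
  classical
  induction R using Finset.induction_on_min_value ρ with
  | empty => simp [CharTwo.add_self_eq_zero]
  | insert e0 S he0 hmin ih =>
    have hinj' : Set.InjOn ρ S := hinj.mono (by simp)
    have hlt : ∀ x ∈ S, ρ e0 < ρ x := by
      intro x hx
      refine lt_of_le_of_ne (hmin x hx) ?_
      intro h
      have := hinj (by simp) (by simp [hx]) h
      exact he0 (this ▸ hx)
    rw [Finset.sum_insert he0]
    have h1 : (insert e0 S).filter (fun f => ρ e0 < ρ f) = S := by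
      ext f
      simp only [Finset.mem_filter, Finset.mem_insert]
      constructor
      · rintro ⟨rfl | h, h2⟩
        · exact absurd h2 (lt_irrefl _)
        · exact h
      · intro h
        exact ⟨Or.inr h, hlt f h⟩
    have h2 : ∀ e ∈ S, (insert e0 S).filter (fun f => ρ e < ρ f) = S.filter (fun f => ρ e < ρ f) := by
      intro e he
      ext f
      simp only [Finset.mem_filter, Finset.mem_insert]
      constructor
      · rintro ⟨rfl | h, h2⟩
        · exact absurd h2 (not_lt.2 (hlt e he).le)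
        · exact ⟨h, h2⟩
      · rintro ⟨h, h2⟩
        exact ⟨Or.inr h, h2⟩
    have h3 : ∑ e ∈ S, (a (T + ∑ f ∈ (insert e0 S).filter (fun f => ρ e < ρ f), c f) +
        a (T + ∑ f ∈ (insert e0 S).filter (fun f => ρ e < ρ f), c f + c e)) =
        a T + a (T + ∑ f ∈ S, c f) := by
      rw [← ih hinj']
      exact Finset.sum_congr rfl (fun e he => by rw [h2 e he])
    rw [h3, h1, Finset.sum_insert he0]
    have h4 : T + (c e0 + ∑ f ∈ S, c f) = T + ∑ f ∈ S, c f + c e0 := by
      rw [add_comm (c e0), add_assoc]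
    rw [h4]
    have h5 : a (T + ∑ f ∈ S, c f) + a (T + ∑ f ∈ S, c f) = 0 := CharTwo.add_self_eq_zero _
    calc a (T + ∑ f ∈ S, c f) + a (T + ∑ f ∈ S, c f + c e0) + (a T + a (T + ∑ f ∈ S, c f))
        = (a (T + ∑ f ∈ S, c f) + a (T + ∑ f ∈ S, c f)) +
          (a T + a (T + ∑ f ∈ S, c f + c e0)) := by ring
      _ = _ := by rw [h5, zero_add]

/-- A sweep structure: the combinatorial data of a straight-line drawing swept from left to
right. -/
structure Sweep {W : Type} (H : SimpleGraph W) where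
  x : W → ℝ
  l : Sym2 W → W
  r : Sym2 W → W
  eq : ∀ e ∈ H.edgeSet, e = s(l e, r e)
  lt : ∀ e ∈ H.edgeSet, x (l e) < x (r e)
  inj : Set.InjOn x H.support
  Over : Sym2 W → W → Prop
  Und : Sym2 W → W → Prop
  Above : Sym2 W → Sym2 W → Prop
  over_range : ∀ f v, Over f v → x (l f) < x v ∧ x v < x (r f)
  und_range : ∀ e w, Und e w → x (l e) < x w ∧ x w < x (r e)
  irrefl : ∀ e ∈ H.edgeSet, ¬ Above e e
  over_l : ∀ e ∈ H.edgeSet, ∀ f ∈ H.edgeSet, e ≠ f → x (l f) < x (l e) → x (l e) < x (r f) →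
    (Over f (l e) ↔ Above f e)
  over_r : ∀ e ∈ H.edgeSet, ∀ f ∈ H.edgeSet, e ≠ f → x (l f) < x (r e) → x (r e) < x (r f) →
    (Over f (r e) ↔ Above f e)
  und_l : ∀ e ∈ H.edgeSet, ∀ f ∈ H.edgeSet, e ≠ f → x (l e) < x (l f) → x (l f) < x (r e) →
    (Und e (l f) ↔ Above f e)
  und_r : ∀ e ∈ H.edgeSet, ∀ f ∈ H.edgeSet, e ≠ f → x (l e) < x (r f) → x (r f) < x (r e) →
    (Und e (r f) ↔ Above f e)
  right_order : ∀ v, ∃ ρ : Sym2 W → ℝ, Set.InjOn ρ {e | e ∈ H.edgeSet ∧ l e = v} ∧
    ∀ e f, e ∈ H.edgeSet → f ∈ H.edgeSet → l e = v → l f = v → (Above f e ↔ ρ e < ρ f)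
  left_order : ∀ v, ∃ ρ : Sym2 W → ℝ, Set.InjOn ρ {e | e ∈ H.edgeSet ∧ r e = v} ∧
    ∀ e f, e ∈ H.edgeSet → f ∈ H.edgeSet → r e = v → r f = v → (Above f e ↔ ρ e < ρ f)

namespace Sweep

variable {W : Type} {H : SimpleGraph W} (S : Sweep H)

include S in
lemma mem_supp_l {e : Sym2 W} (he : e ∈ H.edgeSet) : S.l e ∈ H.support := by
  have h := he
  rw [S.eq e he, mem_edgeSet] at h
  exact ⟨_, h⟩

include S in
lemma mem_supp_r {e : Sym2 W} (he : e ∈ H.edgeSet) : S.r e ∈ H.support := by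
  have h := he
  rw [S.eq e he, mem_edgeSet] at h
  exact ⟨_, h.symm⟩

lemma claimL {e f : Sym2 W} (he : e ∈ H.edgeSet) (hf : f ∈ H.edgeSet) :
    ind (S.Over f (S.l e)) + ind (S.l f = S.l e ∧ S.Above f e) + ind (S.Und e (S.l f)) =
      ind ((S.x (S.l f) < S.x (S.r e) ∧ S.x (S.l e) < S.x (S.r f)) ∧ S.Above f e) := by
  have hle := S.lt e he
  have hlf := S.lt f hf
  by_cases hef : e = f
  · subst hef
    rw [ind_false, ind_false, ind_false, ind_false]
    · simp
    · rintro ⟨-, h⟩; exact S.irrefl e he h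
    · intro h; exact absurd (S.und_range _ _ h).1 (lt_irrefl _)
    · rintro ⟨-, h⟩; exact S.irrefl e he h
    · intro h; exact absurd (S.over_range _ _ h).1 (lt_irrefl _)
  rcases lt_trichotomy (S.x (S.l f)) (S.x (S.l e)) with h | h | h
  · rw [ind_false (p := _ ∧ _) (by rintro ⟨h1, -⟩; rw [h1] at h; exact lt_irrefl _ h),
      ind_false (p := S.Und e (S.l f)) (fun h1 => lt_asymm h (S.und_range _ _ h1).1),
      add_zero, add_zero]
    by_cases h2 : S.x (S.l e) < S.x (S.r f)
    · apply ind_congr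
      rw [S.over_l e he f hf hef h h2]
      exact ⟨fun h3 => ⟨⟨h.trans hle, h2⟩, h3⟩, fun h3 => h3.2⟩
    · rw [ind_false (fun h3 => h2 (S.over_range _ _ h3).2), ind_false (fun h3 => h2 h3.1.2)]
  · have hll : S.l f = S.l e := S.inj (S.mem_supp_l hf) (S.mem_supp_l he) h
    rw [ind_false (p := S.Over f (S.l e)) (fun h1 => absurd (S.over_range _ _ h1).1 (by
        rw [h]; exact lt_irrefl _)),
      ind_false (p := S.Und e (S.l f)) (fun h1 => absurd (S.und_range _ _ h1).1 (by
        rw [h]; exact lt_irrefl _)), add_zero, zero_add]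
    apply ind_congr
    exact ⟨fun h3 => ⟨⟨by rw [h]; exact hle, by rw [← h]; exact hlf⟩, h3.2⟩,
      fun h3 => ⟨hll, h3.2⟩⟩
  · rw [ind_false (p := S.Over f (S.l e)) (fun h1 => lt_asymm h (S.over_range _ _ h1).1),
      ind_false (p := _ ∧ _) (by rintro ⟨h1, -⟩; rw [h1] at h; exact lt_irrefl _ h),
      zero_add, zero_add]
    by_cases h2 : S.x (S.l f) < S.x (S.r e)
    · apply ind_congr
      rw [S.und_l e he f hf hef h h2]
      exact ⟨fun h3 => ⟨⟨h2, h.trans hlf⟩, h3⟩, fun h3 => h3.2⟩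
    · rw [ind_false (fun h3 => h2 (S.und_range _ _ h3).2), ind_false (fun h3 => h2 h3.1.1)]

lemma claimR {e f : Sym2 W} (he : e ∈ H.edgeSet) (hf : f ∈ H.edgeSet) :
    ind (S.Over f (S.r e)) + ind (S.r f = S.r e ∧ S.Above f e) + ind (S.Und e (S.r f)) =
      ind ((S.x (S.l f) < S.x (S.r e) ∧ S.x (S.l e) < S.x (S.r f)) ∧ S.Above f e) := by
  have hle := S.lt e he
  have hlf := S.lt f hf
  by_cases hef : e = f
  · subst hef
    rw [ind_false, ind_false, ind_false, ind_false]
    · simp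
    · rintro ⟨-, h⟩; exact S.irrefl e he h
    · intro h; exact absurd (S.und_range _ _ h).2 (lt_irrefl _)
    · rintro ⟨-, h⟩; exact S.irrefl e he h
    · intro h; exact absurd (S.over_range _ _ h).2 (lt_irrefl _)
  rcases lt_trichotomy (S.x (S.r f)) (S.x (S.r e)) with h | h | h
  · rw [ind_false (p := S.Over f (S.r e)) (fun h1 => lt_asymm h (S.over_range _ _ h1).2),
      ind_false (p := _ ∧ _) (by rintro ⟨h1, -⟩; rw [h1] at h; exact lt_irrefl _ h),
      zero_add, zero_add]
    by_cases h2 : S.x (S.l e) < S.x (S.r f)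
    · apply ind_congr
      rw [S.und_r e he f hf hef h2 h]
      exact ⟨fun h3 => ⟨⟨hlf.trans h, h2⟩, h3⟩, fun h3 => h3.2⟩
    · rw [ind_false (fun h3 => h2 (S.und_range _ _ h3).1), ind_false (fun h3 => h2 h3.1.2)]
  · have hll : S.r f = S.r e := S.inj (S.mem_supp_r hf) (S.mem_supp_r he) h
    rw [ind_false (p := S.Over f (S.r e)) (fun h1 => absurd (S.over_range _ _ h1).2 (by
        rw [h]; exact lt_irrefl _)),
      ind_false (p := S.Und e (S.r f)) (fun h1 => absurd (S.und_range _ _ h1).2 (by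
        rw [h]; exact lt_irrefl _)), add_zero, zero_add]
    apply ind_congr
    exact ⟨fun h3 => ⟨⟨by rw [← h]; exact hlf, by rw [h]; exact hle⟩, h3.2⟩,
      fun h3 => ⟨hll, h3.2⟩⟩
  · rw [ind_false (p := _ ∧ _) (by rintro ⟨h1, -⟩; rw [h1] at h; exact lt_irrefl _ h),
      ind_false (p := S.Und e (S.r f)) (fun h1 => lt_asymm h (S.und_range _ _ h1).2),
      add_zero, add_zero]
    by_cases h2 : S.x (S.l f) < S.x (S.r e)
    · apply ind_congr
      rw [S.over_r e he f hf hef h2 h]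
      exact ⟨fun h3 => ⟨⟨h2, hle.trans h⟩, h3⟩, fun h3 => h3.2⟩
    · rw [ind_false (fun h3 => h2 (S.over_range _ _ h3).1), ind_false (fun h3 => h2 h3.1.1)]

/-- parity of the edges of `F` passing over the vertex `v` -/
noncomputable def T (E : Finset (Sym2 W)) (v : W) (F : Set (Sym2 W)) : ZMod 2 :=
  ∑ f ∈ E, ind (f ∈ F) * ind (S.Over f v)

/-- parity above the edge `e` just right of its left end -/
noncomputable def Sl (E : Finset (Sym2 W)) (e : Sym2 W) (F : Set (Sym2 W)) : ZMod 2 :=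
  S.T E (S.l e) F + ∑ f ∈ E, ind (f ∈ F) * ind (S.l f = S.l e ∧ S.Above f e)

/-- parity above the edge `e` just left of its right end -/
noncomputable def Sr (E : Finset (Sym2 W)) (e : Sym2 W) (F : Set (Sym2 W)) : ZMod 2 :=
  S.T E (S.r e) F + ∑ f ∈ E, ind (f ∈ F) * ind (S.r f = S.r e ∧ S.Above f e)

lemma ind_mul_ind (p q : Prop) : ind p * ind q = ind (p ∧ q) := by
  unfold ind; by_cases hp : p <;> by_cases hq : q <;> simp [hp, hq]

/-- degree mod 2 -/
lemma deg_zero {E : Finset (Sym2 W)} (hE : ∀ e, e ∈ E ↔ e ∈ H.edgeSet) {F : Set (Sym2 W)}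
    (hF : EvenSet H F) (v : W) : ∑ f ∈ E, ind (f ∈ F) * ind (v ∈ f) = 0 := by
  classical
  have h := hF.2 v
  have h1 : (F ∩ {e | v ∈ e}) = ((E.filter (fun f => f ∈ F ∧ v ∈ f) : Finset (Sym2 W)) :
      Set (Sym2 W)) := by
    ext f
    simp only [Set.mem_inter_iff, Finset.coe_filter, Set.mem_ofPred_eq]
    exact ⟨fun h => ⟨(hE f).2 (hF.1 h.1), h⟩, fun h => h.2⟩
  rw [h1, Set.ncard_coe_finset] at h
  have h2 : ∑ f ∈ E, ind (f ∈ F) * ind (v ∈ f) =
      ((E.filter (fun f => f ∈ F ∧ v ∈ f)).card : ZMod 2) := by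
    rw [Finset.card_filter]
    push_cast
    refine Finset.sum_congr rfl (fun f _ => ?_)
    rw [ind_mul_ind]
    unfold ind
    split_ifs <;> rfl
  rw [h2]
  exact (ZMod.natCast_eq_zero_iff_even).2 h

lemma Sl_eq_Sr {E : Finset (Sym2 W)} (hE : ∀ e, e ∈ E ↔ e ∈ H.edgeSet) {F : Set (Sym2 W)}
    (hF : EvenSet H F) {e : Sym2 W} (he : e ∈ H.edgeSet) : S.Sl E e F = S.Sr E e F := by
  classical
  set V0 : Finset W := E.image S.l ∪ E.image S.r with hV0
  have h0 : ∑ w ∈ V0, ind (S.Und e w) * ∑ f ∈ E, ind (f ∈ F) * ind (w ∈ f) = 0 := by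
    refine Finset.sum_eq_zero (fun w _ => ?_)
    rw [deg_zero hE hF w, mul_zero]
  have h1 : ∑ w ∈ V0, ind (S.Und e w) * ∑ f ∈ E, ind (f ∈ F) * ind (w ∈ f) =
      ∑ f ∈ E, ind (f ∈ F) * (ind (S.Und e (S.l f)) + ind (S.Und e (S.r f))) := by
    simp only [Finset.mul_sum]
    rw [Finset.sum_comm]
    refine Finset.sum_congr rfl (fun f hf => ?_)
    have hfE := (hE f).1 hf
    have hne : S.l f ≠ S.r f := fun h => by
      have := S.lt f hfE
      rw [h] at this
      exact lt_irrefl _ this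
    have hsub : ({S.l f, S.r f} : Finset W) ⊆ V0 := by
      intro w hw
      simp only [Finset.mem_insert, Finset.mem_singleton] at hw
      rw [hV0, Finset.mem_union, Finset.mem_image, Finset.mem_image]
      rcases hw with rfl | rfl
      · exact Or.inl ⟨f, hf, rfl⟩
      · exact Or.inr ⟨f, hf, rfl⟩
    rw [← Finset.sum_subset hsub, Finset.sum_pair hne]
    · rw [ind_true (p := S.l f ∈ f) (by
        have := Sym2.mem_mk_left (S.l f) (S.r f); rwa [← S.eq f hfE] at this),
        ind_true (p := S.r f ∈ f) (by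
        have := Sym2.mem_mk_right (S.l f) (S.r f); rwa [← S.eq f hfE] at this)]
      ring
    · intro w _ hw
      have : ¬ w ∈ f := by
        intro h
        rw [S.eq f hfE, Sym2.mem_iff] at h
        apply hw
        simpa using h
      rw [ind_false this, mul_zero, mul_zero]
  rw [h1] at h0
  have h2 : S.Sl E e F + S.Sr E e F +
      ∑ f ∈ E, ind (f ∈ F) * (ind (S.Und e (S.l f)) + ind (S.Und e (S.r f))) = 0 := by
    unfold Sl Sr T
    rw [← Finset.sum_add_distrib, ← Finset.sum_add_distrib, ← Finset.sum_add_distrib,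
      ← Finset.sum_add_distrib]
    refine Finset.sum_eq_zero (fun f hf => ?_)
    have hfE := (hE f).1 hf
    have hL := S.claimL he hfE
    have hR := S.claimR he hfE
    have : ind (f ∈ F) * ind (S.Over f (S.l e)) +
        ind (f ∈ F) * ind (S.l f = S.l e ∧ S.Above f e) +
        (ind (f ∈ F) * ind (S.Over f (S.r e)) +
          ind (f ∈ F) * ind (S.r f = S.r e ∧ S.Above f e)) +
        ind (f ∈ F) * (ind (S.Und e (S.l f)) + ind (S.Und e (S.r f))) =
        ind (f ∈ F) * ((ind (S.Over f (S.l e)) + ind (S.l f = S.l e ∧ S.Above f e) +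
          ind (S.Und e (S.l f))) + (ind (S.Over f (S.r e)) + ind (S.r f = S.r e ∧ S.Above f e) +
          ind (S.Und e (S.r f)))) := by ring
    rw [this, hL, hR, ind_add_self, mul_zero]
  rw [h0, add_zero] at h2
  have := CharTwo.add_eq_zero.1 h2
  exact this

/-- the characteristic vector of an edge on even sets -/
noncomputable def cvec (H : SimpleGraph W) (e : Sym2 W) : {F : Set (Sym2 W) // EvenSet H F} → ZMod 2 :=
  fun F => ind (e ∈ F.1)

/-- the parity vector of the upper side of an edge -/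
noncomputable def pvec (E : Finset (Sym2 W)) (e : Sym2 W) :
    {F : Set (Sym2 W) // EvenSet H F} → ZMod 2 := fun F => S.Sl E e F.1

/-- the parity vector above a vertex -/
noncomputable def tvec (E : Finset (Sym2 W)) (v : W) :
    {F : Set (Sym2 W) // EvenSet H F} → ZMod 2 := fun F => S.T E v F.1

/-- the two ends of an edge in the dual -/
noncomputable def ends (E : Finset (Sym2 W)) (e : Sym2 W) :
    Sym2 ({F : Set (Sym2 W) // EvenSet H F} → ZMod 2) :=
  s(S.pvec E e, S.pvec E e + cvec H e)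

lemma sum_right {E : Finset (Sym2 W)} (hE : ∀ e, e ∈ E ↔ e ∈ H.edgeSet) (v : W)
    (a : ({F : Set (Sym2 W) // EvenSet H F} → ZMod 2) → ZMod 2) :
    ∑ e ∈ E, ind (S.l e = v) * (a (S.pvec E e) + a (S.pvec E e + cvec H e)) =
      a (S.tvec E v) + a (S.tvec E v + fun F => ∑ f ∈ E, ind (S.l f = v) * ind (f ∈ F.1)) := by
  classical
  obtain ⟨ρ, hinj, hρ⟩ := S.right_order v
  set R := E.filter (fun e => S.l e = v) with hR
  have hRinj : Set.InjOn ρ R := by
    intro e he f hf h
    simp only [hR, Finset.coe_filter] at he hf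
    exact hinj ⟨(hE e).1 he.1, he.2⟩ ⟨(hE f).1 hf.1, hf.2⟩ h
  have htel := telescope ρ (cvec H) (S.tvec E v) a R hRinj
  have h1 : ∀ e ∈ R, S.pvec E e = S.tvec E v + ∑ f ∈ R.filter (fun f => ρ e < ρ f), cvec H f := by
    intro e he
    rw [hR, Finset.mem_filter] at he
    funext F
    simp only [pvec, tvec, Pi.add_apply, Finset.sum_apply, cvec]
    unfold Sl
    rw [he.2]
    congr 1
    rw [hR, Finset.filter_filter, Finset.sum_filter]
    refine Finset.sum_congr rfl (fun f hf => ?_)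
    rw [ind_mul_ind]
    by_cases hl : S.l f = v
    · by_cases hab : ρ e < ρ f
      · rw [if_pos ⟨hl, hab⟩]
        apply ind_congr
        exact ⟨fun h => h.1, fun h => ⟨h, hl, (hρ e f ((hE e).1 he.1) ((hE f).1 hf) he.2 hl).2 hab⟩⟩
      · rw [if_neg (fun h => hab h.2), ind_false]
        rintro ⟨-, -, h⟩
        exact hab ((hρ e f ((hE e).1 he.1) ((hE f).1 hf) he.2 hl).1 h)
    · rw [if_neg (fun h => hl h.1), ind_false]
      rintro ⟨-, h, -⟩
      exact hl h
  have h2 : ∑ e ∈ E, ind (S.l e = v) * (a (S.pvec E e) + a (S.pvec E e + cvec H e)) =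
      ∑ e ∈ R, (a (S.pvec E e) + a (S.pvec E e + cvec H e)) := by
    rw [hR, Finset.sum_filter]
    refine Finset.sum_congr rfl (fun e _ => ?_)
    unfold ind
    split_ifs <;> simp
  rw [h2]
  have h3 : ∑ e ∈ R, (a (S.pvec E e) + a (S.pvec E e + cvec H e)) =
      ∑ e ∈ R, (a (S.tvec E v + ∑ f ∈ R.filter (fun f => ρ e < ρ f), cvec H f) +
        a (S.tvec E v + ∑ f ∈ R.filter (fun f => ρ e < ρ f), cvec H f + cvec H e)) :=
    Finset.sum_congr rfl (fun e he => by rw [← h1 e he])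
  rw [h3, htel]
  congr 3
  funext F
  rw [Finset.sum_apply, hR, Finset.sum_filter]
  refine Finset.sum_congr rfl (fun e _ => ?_)
  unfold cvec ind
  split_ifs <;> simp

lemma sum_left {E : Finset (Sym2 W)} (hE : ∀ e, e ∈ E ↔ e ∈ H.edgeSet) (v : W)
    (a : ({F : Set (Sym2 W) // EvenSet H F} → ZMod 2) → ZMod 2) :
    ∑ e ∈ E, ind (S.r e = v) * (a (S.pvec E e) + a (S.pvec E e + cvec H e)) =
      a (S.tvec E v) + a (S.tvec E v + fun F => ∑ f ∈ E, ind (S.r f = v) * ind (f ∈ F.1)) := by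
  classical
  obtain ⟨ρ, hinj, hρ⟩ := S.left_order v
  set R := E.filter (fun e => S.r e = v) with hR
  have hRinj : Set.InjOn ρ R := by
    intro e he f hf h
    simp only [hR, Finset.coe_filter] at he hf
    exact hinj ⟨(hE e).1 he.1, he.2⟩ ⟨(hE f).1 hf.1, hf.2⟩ h
  have htel := telescope ρ (cvec H) (S.tvec E v) a R hRinj
  have h1 : ∀ e ∈ R, S.pvec E e = S.tvec E v + ∑ f ∈ R.filter (fun f => ρ e < ρ f), cvec H f := by
    intro e he
    rw [hR, Finset.mem_filter] at he
    funext F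
    simp only [pvec, tvec, Pi.add_apply, Finset.sum_apply, cvec]
    rw [S.Sl_eq_Sr hE F.2 ((hE e).1 he.1)]
    unfold Sr
    rw [he.2]
    congr 1
    rw [hR, Finset.filter_filter, Finset.sum_filter]
    refine Finset.sum_congr rfl (fun f hf => ?_)
    rw [ind_mul_ind]
    by_cases hl : S.r f = v
    · by_cases hab : ρ e < ρ f
      · rw [if_pos ⟨hl, hab⟩]
        apply ind_congr
        exact ⟨fun h => h.1, fun h => ⟨h, hl, (hρ e f ((hE e).1 he.1) ((hE f).1 hf) he.2 hl).2 hab⟩⟩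
      · rw [if_neg (fun h => hab h.2), ind_false]
        rintro ⟨-, -, h⟩
        exact hab ((hρ e f ((hE e).1 he.1) ((hE f).1 hf) he.2 hl).1 h)
    · rw [if_neg (fun h => hl h.1), ind_false]
      rintro ⟨-, h, -⟩
      exact hl h
  have h2 : ∑ e ∈ E, ind (S.r e = v) * (a (S.pvec E e) + a (S.pvec E e + cvec H e)) =
      ∑ e ∈ R, (a (S.pvec E e) + a (S.pvec E e + cvec H e)) := by
    rw [hR, Finset.sum_filter]
    refine Finset.sum_congr rfl (fun e _ => ?_)
    unfold ind
    split_ifs <;> simp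
  rw [h2]
  have h3 : ∑ e ∈ R, (a (S.pvec E e) + a (S.pvec E e + cvec H e)) =
      ∑ e ∈ R, (a (S.tvec E v + ∑ f ∈ R.filter (fun f => ρ e < ρ f), cvec H f) +
        a (S.tvec E v + ∑ f ∈ R.filter (fun f => ρ e < ρ f), cvec H f + cvec H e)) :=
    Finset.sum_congr rfl (fun e he => by rw [← h1 e he])
  rw [h3, htel]
  congr 3
  funext F
  rw [Finset.sum_apply, hR, Finset.sum_filter]
  refine Finset.sum_congr rfl (fun e _ => ?_)
  unfold cvec ind
  split_ifs <;> simp

lemma ind_mem_edge {e : Sym2 W} (he : e ∈ H.edgeSet) (v : W) :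
    ind (v ∈ e) = ind (S.l e = v) + ind (S.r e = v) := by
  have hne : S.l e ≠ S.r e := fun h => by
    have := S.lt e he
    rw [h] at this
    exact lt_irrefl _ this
  by_cases hl : S.l e = v
  · have hr : ¬ S.r e = v := fun h => hne (hl.trans h.symm)
    rw [ind_true hl, ind_false hr, add_zero, ind_true]
    rw [S.eq e he, Sym2.mem_iff]
    exact Or.inl hl.symm
  · rw [ind_false hl, zero_add]
    apply ind_congr
    constructor
    · intro h
      rw [S.eq e he, Sym2.mem_iff] at h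
      rcases h with h | h
      · exact absurd h.symm hl
      · exact h.symm
    · intro h
      rw [S.eq e he, Sym2.mem_iff]
      exact Or.inr h.symm

/-- the cuts of the dual are even -/
lemma vertex_sum {E : Finset (Sym2 W)} (hE : ∀ e, e ∈ E ↔ e ∈ H.edgeSet) (v : W)
    (a : ({F : Set (Sym2 W) // EvenSet H F} → ZMod 2) → ZMod 2) :
    ∑ e ∈ E, ind (v ∈ e) * (a (S.pvec E e) + a (S.pvec E e + cvec H e)) = 0 := by
  have h1 : ∑ e ∈ E, ind (v ∈ e) * (a (S.pvec E e) + a (S.pvec E e + cvec H e)) =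
      ∑ e ∈ E, ind (S.l e = v) * (a (S.pvec E e) + a (S.pvec E e + cvec H e)) +
      ∑ e ∈ E, ind (S.r e = v) * (a (S.pvec E e) + a (S.pvec E e + cvec H e)) := by
    rw [← Finset.sum_add_distrib]
    refine Finset.sum_congr rfl (fun e he => ?_)
    rw [S.ind_mem_edge ((hE e).1 he)]
    ring
  rw [h1, S.sum_right hE v a, S.sum_left hE v a]
  have h2 : (fun F : {F : Set (Sym2 W) // EvenSet H F} =>
      ∑ f ∈ E, ind (S.l f = v) * ind (f ∈ F.1)) =
      (fun F : {F : Set (Sym2 W) // EvenSet H F} => ∑ f ∈ E, ind (S.r f = v) * ind (f ∈ F.1)) := by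
    funext F
    rw [← CharTwo.add_eq_zero, ← Finset.sum_add_distrib, ← deg_zero hE F.2 v]
    refine Finset.sum_congr rfl (fun e he => ?_)
    rw [S.ind_mem_edge ((hE e).1 he)]
    ring
  rw [h2]
  exact CharTwo.add_self_eq_zero _

lemma mem_cut_ends {E : Finset (Sym2 W)}
    (A : Set ({F : Set (Sym2 W) // EvenSet H F} → ZMod 2)) {e : Sym2 W} (he : e ∈ H.edgeSet) :
    ind (e ∈ cut H (S.ends E) A) =
      ind (S.pvec E e ∈ A) + ind (S.pvec E e + cvec H e ∈ A) := by
  have h : S.ends E e = s(S.pvec E e, S.pvec E e + cvec H e) := rfl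
  rw [ind_congr (mem_cut_iff h A)]
  unfold ind
  by_cases h1 : S.pvec E e ∈ A <;> by_cases h2 : S.pvec E e + cvec H e ∈ A <;>
    simp [h1, h2, he, CharTwo.add_self_eq_zero]

include S in
/-- A graph with finitely many edges and a sweep structure has an abstract dual, up to
connectedness of the dual. -/
theorem exists_ends (hfin : H.edgeSet.Finite) :
    ∃ (K : Type) (ends : Sym2 W → Sym2 K),
      (∀ A : Set K, (cut H ends A).Finite → EvenSet H (cut H ends A)) ∧
      (∀ F : Set (Sym2 W), F.Finite → EvenSet H F → ∃ A : Set K, cut H ends A = F) := by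
  classical
  set E := hfin.toFinset with hEdef
  have hE : ∀ e, e ∈ E ↔ e ∈ H.edgeSet := fun e => hfin.mem_toFinset
  refine ⟨{F : Set (Sym2 W) // EvenSet H F} → ZMod 2, S.ends E, ?_, ?_⟩
  · intro A _
    refine ⟨fun e he => he.1, fun v => ?_⟩
    have h1 : (cut H (S.ends E) A ∩ {e | v ∈ e}) =
        ((E.filter (fun f => f ∈ cut H (S.ends E) A ∧ v ∈ f) : Finset (Sym2 W)) :
        Set (Sym2 W)) := by
      ext f
      simp only [Set.mem_inter_iff, Finset.coe_filter]
      exact ⟨fun h => ⟨(hE f).2 h.1.1, h⟩, fun h => h.2⟩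
    rw [h1, Set.ncard_coe_finset, ← ZMod.natCast_eq_zero_iff_even, Finset.card_filter]
    push_cast
    refine Eq.trans ?_ (S.vertex_sum hE v (fun p => ind (p ∈ A)))
    refine Finset.sum_congr rfl (fun e he => ?_)
    rw [← S.mem_cut_ends A ((hE e).1 he)]
    unfold ind
    by_cases h2 : v ∈ e <;> by_cases h3 : e ∈ cut H (S.ends E) A <;> simp [h2, h3]
  · intro F _ hF
    refine ⟨{p | p ⟨F, hF⟩ = 1}, ?_⟩
    ext e
    by_cases he : e ∈ H.edgeSet
    · have h := S.mem_cut_ends (E := E) {p | p ⟨F, hF⟩ = 1} he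
      have h1 : ∀ z : ZMod 2, ind (z = 1) = z := by
        intro z
        rcases (by decide : ∀ z : ZMod 2, z = 0 ∨ z = 1) z with rfl | rfl
        · exact ind_false (by decide)
        · exact ind_true rfl
      have h2 : ∀ z w : ZMod 2, ind (z = 1) + ind (z + w = 1) = w := by
        intro z w
        rw [h1, h1, ← add_assoc, CharTwo.add_self_eq_zero, zero_add]
      have h3 : ind (e ∈ cut H (S.ends E) {p | p ⟨F, hF⟩ = 1}) = ind (e ∈ F) := by
        rw [h]
        exact h2 (S.pvec E e ⟨F, hF⟩) (cvec H e ⟨F, hF⟩)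
      exact ⟨fun h5 => ind_eq_one.1 (h3.symm.trans (ind_true h5)),
        fun h5 => ind_eq_one.1 (h3.trans (ind_true h5))⟩
    · exact ⟨fun h => absurd h.1 he, fun h => absurd (hF.1 h) he⟩

end Sweep

end H279R3
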