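import Mathlib
import Pool.Agent.H279R3.Sweep
import Pool.Agent.H279R3.Shear

/-!
# Straight-line drawings give sweep structures (helper279), MP_57dfd7_co
-/

namespace H279R3

open SimpleGraph

lemma affine_root (α β t t' : ℝ) (h1 : 0 < α + β * t) (h2 : α + β * t' ≤ 0) :
    ∃ s, α + β * s = 0 ∧ ((t < s ∧ s ≤ t') ∨ (t' ≤ s ∧ s < t)) := by
  have hβ : β ≠ 0 := by
    rintro rfl
    linarith
  refine ⟨-α / β, by field_simp; ring, ?_⟩
  rcases lt_or_gt_of_ne hβ with hb | hb
  · left
    constructor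
    · rw [lt_div_iff_of_neg hb]; linarith
    · rw [div_le_iff_of_neg hb]; linarith
  · right
    constructor
    · rw [le_div_iff₀ hb]; linarith
    · rw [div_lt_iff₀ hb]; linarith

lemma mem_segment_of (p q : ℝ × ℝ) (h : p.1 < q.1) (t : ℝ) (h1 : p.1 ≤ t) (h2 : t ≤ q.1) :
    ((t, p.2 + (t - p.1) * ((q.2 - p.2) / (q.1 - p.1))) : ℝ × ℝ) ∈ segment ℝ p q := by
  have hd : 0 < q.1 - p.1 := sub_pos.2 h
  refine ⟨1 - (t - p.1) / (q.1 - p.1), (t - p.1) / (q.1 - p.1), ?_, ?_, by ring, ?_⟩
  · rw [sub_nonneg, div_le_one hd]; linarith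
  · exact div_nonneg (by linarith) hd.le
  · ext
    · simp only [Prod.fst_add, Prod.smul_fst, smul_eq_mul]
      field_simp
      ring
    · simp only [Prod.snd_add, Prod.smul_snd, smul_eq_mul]
      field_simp
      ring

section

variable {W : Type} {H : SimpleGraph W} {pos : W → ℝ × ℝ}

theorem sweep_of_drawing (hd : IsStraightDrawing H pos)
    (hx : Set.InjOn (fun w => (pos w).1) H.support) : Nonempty (Sweep H) := by
  classical
  obtain ⟨-, hd⟩ := hd
  set x : W → ℝ := fun w => (pos w).1 with hxdef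
  set y : W → ℝ := fun w => (pos w).2 with hydef
  have hex : ∀ e : Sym2 W, ∃ p : W × W, e ∈ H.edgeSet → e = s(p.1, p.2) ∧ x p.1 < x p.2 := by
    intro e
    induction e using Sym2.ind with
    | _ u v =>
      by_cases he : s(u, v) ∈ H.edgeSet
      · rw [mem_edgeSet] at he
        rcases lt_trichotomy (x u) (x v) with h | h | h
        · exact ⟨(u, v), fun _ => ⟨rfl, h⟩⟩
        · exact absurd (hx ⟨v, he⟩ ⟨u, he.symm⟩ h) he.ne
        · exact ⟨(v, u), fun _ => ⟨Sym2.eq_swap, h⟩⟩
      · exact ⟨(u, v), fun h => absurd h he⟩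
  choose lr hlr using hex
  set l : Sym2 W → W := fun e => (lr e).1 with hl
  set r : Sym2 W → W := fun e => (lr e).2 with hr
  have heq : ∀ e ∈ H.edgeSet, e = s(l e, r e) := fun e he => (hlr e he).1
  have hlt : ∀ e ∈ H.edgeSet, x (l e) < x (r e) := fun e he => (hlr e he).2
  set m : Sym2 W → ℝ := fun e => (y (r e) - y (l e)) / (x (r e) - x (l e)) with hm
  set h : Sym2 W → ℝ → ℝ := fun e t => y (l e) + (t - x (l e)) * m e with hh
  have hhl : ∀ e, h e (x (l e)) = y (l e) := by
    intro e
    simp [hh]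
  have hhr : ∀ e ∈ H.edgeSet, h e (x (r e)) = y (r e) := by
    intro e he
    have : x (r e) - x (l e) ≠ 0 := (sub_pos.2 (hlt e he)).ne'
    change y (l e) + (x (r e) - x (l e)) * ((y (r e) - y (l e)) / (x (r e) - x (l e))) = y (r e)
    rw [mul_div_cancel₀ _ this]
    ring
  -- heights relative to the right end
  have hhr2 : ∀ e ∈ H.edgeSet, ∀ t, h e t = y (r e) + (t - x (r e)) * m e := by
    intro e he t
    rw [← hhr e he]
    simp only [hh]
    ring
  have hmem : ∀ e ∈ H.edgeSet, ∀ z, z ∈ e ↔ z = l e ∨ z = r e := by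
    intro e he z
    conv_lhs => rw [heq e he]
    exact Sym2.mem_iff
  have G0 : ∀ e ∈ H.edgeSet, ∀ f ∈ H.edgeSet, e ≠ f → ∀ t, x (l e) ≤ t → t ≤ x (r e) →
      x (l f) ≤ t → t ≤ x (r f) → h e t = h f t →
      ∃ z, (z = l e ∨ z = r e) ∧ (z = l f ∨ z = r f) ∧ x z = t := by
    intro e he f hf hef t h1 h2 h3 h4 h5
    have hae : H.Adj (l e) (r e) := by rw [← mem_edgeSet, ← heq e he]; exact he
    have haf : H.Adj (l f) (r f) := by rw [← mem_edgeSet, ← heq f hf]; exact hf
    have hne : s(l e, r e) ≠ s(l f, r f) := by rw [← heq e he, ← heq f hf]; exact hef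
    have hp : ((t, h e t) : ℝ × ℝ) ∈ segment ℝ (pos (l e)) (pos (r e)) :=
      mem_segment_of _ _ (hlt e he) t h1 h2
    have hq : ((t, h e t) : ℝ × ℝ) ∈ segment ℝ (pos (l f)) (pos (r f)) := by
      rw [h5]
      exact mem_segment_of _ _ (hlt f hf) t h3 h4
    obtain ⟨z, hz1, hz2, hz3⟩ := hd _ _ _ _ hae haf hne _ hp hq
    exact ⟨z, Sym2.mem_iff.1 hz1, Sym2.mem_iff.1 hz2, (congrArg Prod.fst hz3).symm⟩
  have G1 : ∀ e ∈ H.edgeSet, ∀ f ∈ H.edgeSet, e ≠ f → ∀ t, x (l e) ≤ t → t ≤ x (r e) →
      x (l f) ≤ t → t ≤ x (r f) → h e t < h f t →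
      ∀ t', x (l e) ≤ t' → t' ≤ x (r e) → x (l f) ≤ t' → t' ≤ x (r f) →
      (¬ ∃ z, (z = l e ∨ z = r e) ∧ (z = l f ∨ z = r f) ∧ x z = t') → h e t' < h f t' := by
    intro e he f hf hef t h1 h2 h3 h4 h5 t' h1' h2' h3' h4' hno
    by_contra hcon
    push Not at hcon
    have hg : ∀ s, h f s - h e s = (y (l f) - x (l f) * m f - (y (l e) - x (l e) * m e)) +
        (m f - m e) * s := by
      intro s
      simp only [hh]
      ring
    obtain ⟨s, hs, hb⟩ := affine_root _ _ t t' (by rw [← hg]; linarith) (by rw [← hg]; linarith)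
    rw [← hg] at hs
    have hs' : h e s = h f s := by linarith
    have hr1 : x (l e) ≤ s ∧ s ≤ x (r e) ∧ x (l f) ≤ s ∧ s ≤ x (r f) := by
      rcases hb with ⟨hb1, hb2⟩ | ⟨hb1, hb2⟩
      · exact ⟨by linarith, by linarith, by linarith, by linarith⟩
      · exact ⟨by linarith, by linarith, by linarith, by linarith⟩
    obtain ⟨z, hz1, hz2, hz3⟩ := G0 e he f hf hef s hr1.1 hr1.2.1 hr1.2.2.1 hr1.2.2.2 hs'
    by_cases hst : s = t'
    · exact hno ⟨z, hz1, hz2, hz3.trans hst⟩
    · have hstrict : x (l e) < s ∧ s < x (r e) := by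
        rcases hb with ⟨hb1, hb2⟩ | ⟨hb1, hb2⟩
        · have := lt_of_le_of_ne hb2 hst
          exact ⟨by linarith, by linarith⟩
        · have := lt_of_le_of_ne hb1 (Ne.symm hst)
          exact ⟨by linarith, by linarith⟩
      rcases hz1 with rfl | rfl
      · linarith [hstrict.1]
      · linarith [hstrict.2]
  refine ⟨{
    x := x
    l := l
    r := r
    eq := heq
    lt := hlt
    inj := hx
    Over := fun f v => x (l f) < x v ∧ x v < x (r f) ∧ y v < h f (x v)
    Und := fun e w => x (l e) < x w ∧ x w < x (r e) ∧ h e (x w) < y w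
    Above := fun f e => ∃ t, x (l e) ≤ t ∧ t ≤ x (r e) ∧ x (l f) ≤ t ∧ t ≤ x (r f) ∧ h e t < h f t
    over_range := fun f v hv => ⟨hv.1, hv.2.1⟩
    und_range := fun e w hw => ⟨hw.1, hw.2.1⟩
    irrefl := ?_
    over_l := ?_
    over_r := ?_
    und_l := ?_
    und_r := ?_
    right_order := ?_
    left_order := ?_ }⟩
  · rintro e he ⟨t, -, -, -, -, ht⟩
    exact lt_irrefl _ ht
  · intro e he f hf hef h1 h2
    constructor
    · rintro ⟨-, -, h3⟩
      exact ⟨x (l e), le_refl _, (hlt e he).le, h1.le, h2.le, by rw [hhl]; exact h3⟩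
    · rintro ⟨t, t1, t2, t3, t4, t5⟩
      refine ⟨h1, h2, ?_⟩
      have := G1 e he f hf hef t t1 t2 t3 t4 t5 (x (l e)) le_rfl (hlt e he).le h1.le h2.le ?_
      · rwa [hhl] at this
      · rintro ⟨z, -, rfl | rfl, hz⟩
        · exact absurd h1 (by rw [hz]; exact lt_irrefl _)
        · exact absurd h2 (by rw [hz]; exact lt_irrefl _)
  · intro e he f hf hef h1 h2
    constructor
    · rintro ⟨-, -, h3⟩
      exact ⟨x (r e), (hlt e he).le, le_rfl, h1.le, h2.le, by rw [hhr e he]; exact h3⟩
    · rintro ⟨t, t1, t2, t3, t4, t5⟩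
      refine ⟨h1, h2, ?_⟩
      have := G1 e he f hf hef t t1 t2 t3 t4 t5 (x (r e)) (hlt e he).le le_rfl h1.le h2.le ?_
      · rwa [hhr e he] at this
      · rintro ⟨z, -, rfl | rfl, hz⟩
        · exact absurd h1 (by rw [hz]; exact lt_irrefl _)
        · exact absurd h2 (by rw [hz]; exact lt_irrefl _)
  · intro e he f hf hef h1 h2
    constructor
    · rintro ⟨-, -, h3⟩
      exact ⟨x (l f), h1.le, h2.le, le_rfl, (hlt f hf).le, by rw [hhl f]; exact h3⟩
    · rintro ⟨t, t1, t2, t3, t4, t5⟩
      refine ⟨h1, h2, ?_⟩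
      have := G1 e he f hf hef t t1 t2 t3 t4 t5 (x (l f)) h1.le h2.le le_rfl (hlt f hf).le ?_
      · rwa [hhl f] at this
      · rintro ⟨z, rfl | rfl, -, hz⟩
        · exact absurd h1 (by rw [hz]; exact lt_irrefl _)
        · exact absurd h2 (by rw [hz]; exact lt_irrefl _)
  · intro e he f hf hef h1 h2
    constructor
    · rintro ⟨-, -, h3⟩
      exact ⟨x (r f), h1.le, h2.le, (hlt f hf).le, le_rfl, by rw [hhr f hf]; exact h3⟩
    · rintro ⟨t, t1, t2, t3, t4, t5⟩
      refine ⟨h1, h2, ?_⟩
      have := G1 e he f hf hef t t1 t2 t3 t4 t5 (x (r f)) h1.le h2.le (hlt f hf).le le_rfl ?_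
      · rwa [hhr f hf] at this
      · rintro ⟨z, rfl | rfl, -, hz⟩
        · exact absurd h1 (by rw [hz]; exact lt_irrefl _)
        · exact absurd h2 (by rw [hz]; exact lt_irrefl _)
  · intro v
    refine ⟨m, ?_, ?_⟩
    · rintro e ⟨he, hev⟩ f ⟨hf, hfv⟩ hmm
      by_contra hef
      have hev' : l e = v := hev
      have hfv' : l f = v := hfv
      have hxe := hlt e he
      have hxf := hlt f hf
      rw [hev'] at hxe
      rw [hfv'] at hxf
      have hmin : x v < min (x (r e)) (x (r f)) := lt_min hxe hxf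
      obtain ⟨z, hz1, hz2, hz3⟩ := G0 e he f hf hef (min (x (r e)) (x (r f)))
        (by rw [hev']; exact hmin.le) (min_le_left _ _) (by rw [hfv']; exact hmin.le)
        (min_le_right _ _) (by simp only [hh]; rw [hmm, hev', hfv'])
      have hzv : z ≠ v := by
        rintro rfl
        rw [hz3] at hmin
        exact lt_irrefl _ hmin
      have h1 : z = r e := hz1.resolve_left (by rw [hev']; exact hzv)
      have h2 : z = r f := hz2.resolve_left (by rw [hfv']; exact hzv)
      apply hef
      rw [heq e he, heq f hf, hev', hfv', ← h1, ← h2]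
    · intro e f he hf hev hfv
      have hxe := hlt e he
      have hxf := hlt f hf
      rw [hev] at hxe
      rw [hfv] at hxf
      constructor
      · rintro ⟨t, t1, t2, t3, t4, t5⟩
        simp only [hh] at t5
        rw [hev, hfv] at t5
        rw [hev] at t1
        by_contra hcon
        push Not at hcon
        nlinarith
      · intro hmm
        have hmin : x v < min (x (r e)) (x (r f)) := lt_min hxe hxf
        refine ⟨min (x (r e)) (x (r f)), by rw [hev]; exact hmin.le, min_le_left _ _,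
          by rw [hfv]; exact hmin.le, min_le_right _ _, ?_⟩
        simp only [hh]
        rw [hev, hfv]
        have := mul_lt_mul_of_pos_left hmm (sub_pos.2 hmin)
        linarith
  · intro v
    refine ⟨fun e => - m e, ?_, ?_⟩
    · rintro e ⟨he, hev⟩ f ⟨hf, hfv⟩ hmm
      by_contra hef
      have hmm' : m e = m f := neg_injective hmm
      have hev' : r e = v := hev
      have hfv' : r f = v := hfv
      have hxe := hlt e he
      have hxf := hlt f hf
      rw [hev'] at hxe
      rw [hfv'] at hxf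
      have hmax : max (x (l e)) (x (l f)) < x v := max_lt hxe hxf
      obtain ⟨z, hz1, hz2, hz3⟩ := G0 e he f hf hef (max (x (l e)) (x (l f)))
        (le_max_left _ _) (by rw [hev']; exact hmax.le) (le_max_right _ _)
        (by rw [hfv']; exact hmax.le)
        (by rw [hhr2 e he, hhr2 f hf, hmm', hev', hfv'])
      have hzv : z ≠ v := by
        rintro rfl
        rw [hz3] at hmax
        exact lt_irrefl _ hmax
      have h1 : z = l e := hz1.resolve_right (by rw [hev']; exact hzv)
      have h2 : z = l f := hz2.resolve_right (by rw [hfv']; exact hzv)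
      apply hef
      rw [heq e he, heq f hf, hev', hfv', ← h1, ← h2]
    · intro e f he hf hev hfv
      have hxe := hlt e he
      have hxf := hlt f hf
      rw [hev] at hxe
      rw [hfv] at hxf
      constructor
      · rintro ⟨t, t1, t2, t3, t4, t5⟩
        rw [hhr2 e he, hhr2 f hf, hev, hfv] at t5
        rw [hev] at t2
        by_contra hcon
        push Not at hcon
        nlinarith
      · intro hmm
        have hmax : max (x (l e)) (x (l f)) < x v := max_lt hxe hxf
        refine ⟨max (x (l e)) (x (l f)), le_max_left _ _, by rw [hev]; exact hmax.le,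
          le_max_right _ _, by rw [hfv]; exact hmax.le, ?_⟩
        rw [hhr2 e he, hhr2 f hf, hev, hfv]
        have := mul_lt_mul_of_pos_left hmm (sub_pos.2 hmax)
        linarith

end

end H279R3
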