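import Mathlib
import Pool.Agent.H279R3.Stmts2

/-!
# Final assembly, part 1 (helper279)
-/

namespace H279R3

open SimpleGraph

section

variable {W : Type} {H : SimpleGraph W}

lemma bdry_compl (H : SimpleGraph W) (X : Set W) : bdry H Xᶜ = bdry H X := by
  ext e
  induction e using Sym2.ind with
  | _ a b =>
    change (_ ∧ (∃ x ∈ s(a, b), x ∈ Xᶜ) ∧ ∃ y ∈ s(a, b), y ∉ Xᶜ) ↔
      (_ ∧ (∃ x ∈ s(a, b), x ∈ X) ∧ ∃ y ∈ s(a, b), y ∉ X)
    simp only [Sym2.mem_iff, exists_eq_or_imp, exists_eq_left, Set.mem_compl_iff, not_not]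
    tauto

lemma Small2.compl {X : Set W} (h : Small2 H X) : Small2 H Xᶜ := by
  unfold Small2 at h ⊢
  rwa [bdry_compl]

lemma Insep.rfl' (x : W) : Insep H x x := fun _ _ h => h

lemma Insep.symm {x y : W} (h : Insep H x y) : Insep H y x := by
  intro X hX hy
  by_contra hx
  exact h Xᶜ hX.compl hx hy

lemma Insep.trans {x y z : W} (h : Insep H x y) (h' : Insep H y z) : Insep H x z :=
  fun X hX hx => h' X hX (h X hX hx)

lemma bdry_preimage (g : H ≃g H) (X : Set W) :
    bdry H (g.symm ⁻¹' X) = Sym2.map g '' bdry H X := by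
  have key : ∀ e : Sym2 W, e.map g ∈ bdry H (g.symm ⁻¹' X) ↔ e ∈ bdry H X := by
    intro e
    induction e using Sym2.ind with
    | _ a b =>
      rw [Sym2.map_mk]
      change (s(g a, g b) ∈ H.edgeSet ∧ (∃ x ∈ s(g a, g b), g.symm x ∈ X) ∧
          ∃ y ∈ s(g a, g b), g.symm y ∉ X) ↔
        (s(a, b) ∈ H.edgeSet ∧ (∃ x ∈ s(a, b), x ∈ X) ∧ ∃ y ∈ s(a, b), y ∉ X)
      simp only [Sym2.mem_iff, exists_eq_or_imp, exists_eq_left, mem_edgeSet, g.map_adj_iff,
        g.symm_apply_apply]
  ext e
  constructor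
  · intro he
    refine ⟨e.map g.symm, ?_, map_symm_map g e⟩
    rw [← key, map_symm_map]
    exact he
  · rintro ⟨f, hf, rfl⟩
    exact (key f).mpr hf

lemma Small2.image {X : Set W} (h : Small2 H X) (g : H ≃g H) : Small2 H (g.symm ⁻¹' X) := by
  unfold Small2 at h ⊢
  rw [bdry_preimage, Set.ncard_image_of_injective _ (sym2_map_inj g)]
  exact ⟨h.1.image _, h.2⟩

lemma Insep.map {x y : W} (h : Insep H x y) (g : H ≃g H) : Insep H (g x) (g y) := by
  intro X hX hx
  have h2 := h (g.symm.symm ⁻¹' X) (hX.image g.symm) hx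
  exact h2

/-- automorphisms of `H` give isomorphisms of torsos -/
def torsoIso (g : H ≃g H) {b b' : W} (h : Insep H b' (g b)) : torso H b ≃g torso H b' where
  toFun y := ⟨g y.1, h.trans (y.2.map g)⟩
  invFun y := ⟨g.symm y.1, by
    have h1 : Insep H (g b) y.1 := h.symm.trans y.2
    have h2 := h1.map g.symm
    rwa [g.symm_apply_apply] at h2⟩
  left_inv y := by
    apply Subtype.ext
    exact g.symm_apply_apply y.1
  right_inv y := by
    apply Subtype.ext
    exact g.apply_symm_apply y.1
  map_rel_iff' := by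
    intro x y
    have aux : ∀ (g : H ≃g H) {b b' : W} (_ : Insep H b' (g b)) (x y : W) (p : H.Walk x y),
        (∀ v ∈ p.support, Insep H b v → v = x ∨ v = y) →
        ∃ p' : H.Walk (g x) (g y), ∀ v ∈ p'.support, Insep H b' v → v = g x ∨ v = g y := by
      intro g b b' hb x y p hp
      refine ⟨p.map g.toHom, fun v hv hi => ?_⟩
      rw [Walk.support_map, List.mem_map] at hv
      obtain ⟨w, hw, rfl⟩ := hv
      have hi2 : Insep H b w := by
        have h1 : Insep H (g b) (g w) := hb.symm.trans hi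
        have h2 := h1.map g.symm
        rwa [g.symm_apply_apply, g.symm_apply_apply] at h2
      rcases hp w hw hi2 with h | h
      · exact Or.inl (congrArg g h)
      · exact Or.inr (congrArg g h)
    constructor
    · rintro ⟨hne, p, hp⟩
      refine ⟨fun h => hne (by rw [h]), ?_⟩
      have hb : Insep H b (g.symm b') := by
        have h2 := h.map g.symm
        rw [g.symm_apply_apply] at h2
        exact h2.symm
      obtain ⟨p', hp'⟩ := aux g.symm hb _ _ p hp
      have e1 : g.symm (g x.1) = x.1 := g.symm_apply_apply x.1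
      have e2 : g.symm (g y.1) = y.1 := g.symm_apply_apply y.1
      refine ⟨p'.copy e1 e2, fun v hv hi => ?_⟩
      rw [Walk.support_copy] at hv
      have := hp' v hv hi
      change v = g.symm (g x.1) ∨ v = g.symm (g y.1) at this
      rwa [e1, e2] at this
    · rintro ⟨hne, p, hp⟩
      refine ⟨fun h => hne ?_, aux g h _ _ p hp⟩
      apply Subtype.ext
      exact g.injective (congrArg Subtype.val h)

/-- dual form of bounded generation -/
def GenDual {U : Type} (τ : SimpleGraph U) (L : ℕ) : Prop :=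
  ∀ F : Sym2 U → ZMod 2, (∀ (v : U) (c : τ.Walk v v), c.length ≤ L → wsum F c = 0) →
    ∀ (v : U) (c : τ.Walk v v), wsum F c = 0

lemma GenDual.mono {U : Type} {τ : SimpleGraph U} {L L' : ℕ} (h : L ≤ L') (hL : GenDual τ L) :
    GenDual τ L' := fun F hF => hL F (fun v c hc => hF v c (hc.trans h))

lemma genDual_of_generated {U : Type} {τ : SimpleGraph U} {L : ℕ}
    (h : CycleSpaceGeneratedBelow τ L) : GenDual τ L :=
  fun F hF _ c => wsum_closed_of_short h F hF c

lemma wsum_map {U U' : Type} {τ : SimpleGraph U} {τ' : SimpleGraph U'} (f : τ →g τ')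
    (F : Sym2 U' → ZMod 2) {x y : U} (p : τ.Walk x y) :
    wsum F (p.map f) = wsum (fun e => F (e.map f)) p := by
  induction p with
  | nil => rw [Walk.map_nil, wsum_nil, wsum_nil]
  | cons h p ih =>
    rw [Walk.map_cons, wsum_cons, wsum_cons, ih]
    rfl

lemma GenDual.iso {U U' : Type} {τ : SimpleGraph U} {τ' : SimpleGraph U'} (e : τ ≃g τ') {L : ℕ}
    (h : GenDual τ L) : GenDual τ' L := by
  intro F hF v c
  have h1 := h (fun f => F (f.map e)) (fun w d hd => by
    have := hF (e w) (d.map e.toHom) (by rw [Walk.length_map]; exact hd)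
    rw [wsum_map] at this
    exact this) (e.symm v) (c.map e.symm.toHom)
  rw [wsum_map] at h1
  have : (fun f : Sym2 U' => F ((f.map e.symm.toHom).map e)) = F := by
    funext f
    congr 1
    rw [Sym2.map_map]
    have : (e : U → U') ∘ (e.symm.toHom : U' → U) = id := by
      ext x
      exact e.apply_symm_apply x
    rw [this, Sym2.map_id]
    rfl
  rw [this] at h1
  exact h1

end

end H279R3
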