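import Mathlib
import Pool.Agent.H279R3.Final1

/-!
# Final assembly, part 2 (helper279)
-/

namespace H279R3

open SimpleGraph

section

variable {W : Type} {H : SimpleGraph W}

/-- bounded version of `wsum_bypass` -/
lemma wsum_bypass_bdd [DecidableEq W] (F : Sym2 W → ZMod 2) (m : ℕ)
    (hF : ∀ (v : W) (c : H.Walk v v), c.IsCycle → c.length ≤ m → wsum F c = 0) {u v : W}
    (p : H.Walk u v) (hp : p.length ≤ m) : wsum F p.bypass = wsum F p := by
  induction p with
  | nil => rfl
  | @cons a b c h p ih =>
    rw [Walk.length_cons] at hp
    rw [wsum_cons, ← ih (by omega)]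
    have hb : (Walk.cons h p).bypass = if hs : a ∈ p.bypass.support then
      p.bypass.dropUntil a hs else Walk.cons h p.bypass := rfl
    rw [hb]
    split_ifs with hs
    · have hspec := p.bypass.take_spec hs
      have hsum : wsum F p.bypass = wsum F (p.bypass.takeUntil a hs) +
          wsum F (p.bypass.dropUntil a hs) := by
        conv_lhs => rw [← hspec]
        rw [wsum_append]
      have hpath : (p.bypass.takeUntil a hs).IsPath := (p.bypass_isPath).takeUntil hs
      have hlen1 : (p.bypass.takeUntil a hs).length ≤ p.bypass.length :=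
        p.bypass.length_takeUntil_le_length hs
      have hlen2 : p.bypass.length ≤ p.length := p.length_bypass_le_length
      have hclosed : F s(a, b) + wsum F (p.bypass.takeUntil a hs) = 0 := by
        by_cases he : s(a, b) ∈ (p.bypass.takeUntil a hs).edges
        · have : wsum F (p.bypass.takeUntil a hs) = F s(a, b) := by
            generalize p.bypass.takeUntil a hs = q at hpath he
            cases q with
            | nil => simp at he
            | @cons _ x _ hx q' =>
              rw [Walk.cons_isPath_iff] at hpath
              rw [Walk.edges_cons, List.mem_cons] at he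
              rcases he with he | he
              · rw [Sym2.eq_iff] at he
                rcases he with ⟨h1, h2⟩ | ⟨h1, h2⟩
                · subst h1
                  exact absurd rfl h.ne
                · subst h1
                  have : q' = Walk.nil := Walk.eq_nil_iff_nil.mpr (Walk.isPath_iff_nil.mp hpath.1)
                  subst this
                  rw [wsum_cons, wsum_nil, add_zero, Sym2.eq_swap]
              · exact absurd (Walk.snd_mem_support_of_mem_edges _ he) hpath.2
          rw [this]
          exact zmod2_add_self _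
        · have hc := hF _ _ ((Walk.cons_isCycle_iff _ h).mpr ⟨hpath, he⟩)
            (by rw [Walk.length_cons]; omega)
          rw [wsum_cons] at hc
          exact hc
      rw [hsum, ← add_assoc, hclosed, zero_add]
    · rw [wsum_cons]

lemma wsum_closed_bdd (F : Sym2 W → ZMod 2) (m : ℕ)
    (hF : ∀ (v : W) (c : H.Walk v v), c.IsCycle → c.length ≤ m → wsum F c = 0) {v : W}
    (c : H.Walk v v) (hc : c.length ≤ m) : wsum F c = 0 := by
  classical
  rw [← wsum_bypass_bdd F m hF c hc]
  have : c.bypass = Walk.nil := Walk.eq_nil_iff_nil.mpr (Walk.isPath_iff_nil.mp c.bypass_isPath)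
  rw [this, wsum_nil]

/-- If the cycle space is not generated by cycles of length `≤ N`, there is a critical cycle of
length `> N`. -/
lemma exists_critical {N : ℕ} (h : ¬ CycleSpaceGeneratedBelow H N) :
    ∃ (F : Sym2 W → ZMod 2) (v : W) (c : H.Walk v v), Critical H F c ∧ N < c.length := by
  classical
  unfold CycleSpaceGeneratedBelow at h
  push Not at h
  have hex : ∃ n, ∃ (v : W) (c : H.Walk v v), c.IsCycle ∧ edgeVec c ∉ shortSpan H N ∧
      c.length = n := by
    obtain ⟨v, c, hc, hn⟩ := h
    exact ⟨_, v, c, hc, hn, rfl⟩
  obtain ⟨v, c, hc, hn, hlen⟩ := Nat.find_spec hex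
  have hmin : ∀ (w : W) (d : H.Walk w w), d.IsCycle → d.length < c.length →
      edgeVec d ∈ shortSpan H N := by
    intro w d hd hlt
    by_contra hcon
    have := Nat.find_min' hex ⟨w, d, hd, hcon, rfl⟩
    omega
  obtain ⟨f, hf, hker⟩ := Submodule.exists_le_ker_of_notMem hn
  set F : Sym2 W → ZMod 2 := fun e => f (Finsupp.single e 1) with hFdef
  have hfF : ∀ {x y : W} (p : H.Walk x y), f (edgeVec p) = wsum F p := by
    intro x y p
    unfold edgeVec wsum
    rw [map_list_sum, List.map_map]
    rfl
  refine ⟨F, v, c, ⟨hc, by rw [← hfF]; exact hf, ?_⟩, ?_⟩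
  · intro w p hp
    refine wsum_closed_bdd F (c.length - 1) ?_ p (by omega)
    intro w d hd hdl
    rw [← hfF]
    have h3 := hd.three_le_length
    exact hker (hmin w d hd (by omega))
  · by_contra hle
    apply hn
    exact Submodule.subset_span ⟨v, c, hc, by omega, rfl⟩

/-- lifting torso walks -/
lemma lift_torso {b : W} {d : ℕ}
    (hshort : ∀ x y, (torso H b).Adj x y → ∃ p : H.Walk x.1 y.1, p.length ≤ d)
    (F : Sym2 W → ZMod 2) (φ : Sym2 {y : W // Insep H b y} → ZMod 2)
    (hφ : ∀ (x y : {y : W // Insep H b y}) (p : H.Walk x.1 y.1), p.length ≤ d →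
      φ s(x, y) = wsum F p)
    {x y : {y : W // Insep H b y}} (q : (torso H b).Walk x y) :
    ∃ p : H.Walk x.1 y.1, p.length ≤ q.length * d ∧ wsum F p = wsum φ q := by
  induction q with
  | nil => exact ⟨Walk.nil, by simp, by rw [wsum_nil, wsum_nil]⟩
  | @cons x y z h q ih =>
    obtain ⟨p, hp, hs⟩ := ih
    obtain ⟨p0, hp0⟩ := hshort x y h
    refine ⟨p0.append p, ?_, ?_⟩
    · rw [Walk.length_append, Walk.length_cons]
      nlinarith
    · rw [wsum_append, wsum_cons, hs, hφ x y p0 hp0]

/-- tracing a walk in the torso -/
lemma trace_torso {b : W} {d : ℕ} (S : Set W)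
    (hrun : ∀ (u w : W) (m : H.Walk u w), (∀ v ∈ m.support, ¬ Insep H b v) → m.support.Nodup →
      (∀ v ∈ m.support, v ∈ S) → m.length + 1 ≤ d)
    (F : Sym2 W → ZMod 2) (φ : Sym2 {y : W // Insep H b y} → ZMod 2)
    (hφ : ∀ (x y : {y : W // Insep H b y}) (p : H.Walk x.1 y.1), p.length ≤ d + 1 →
      φ s(x, y) = wsum F p)
    (hclosed : ∀ (x : W) (p : H.Walk x x), p.length ≤ d + 1 → wsum F p = 0)
    (y : {y : W // Insep H b y}) :
    ∀ (u : W) (p : H.Walk u y.1) (x : {y : W // Insep H b y}) (r : H.Walk x.1 u),
      (∀ v ∈ r.support.tail, ¬ Insep H b v) → (r.append p).support.tail.Nodup →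
      (∀ v ∈ (r.append p).support, v ∈ S) →
      ∃ q : (torso H b).Walk x y, wsum φ q = wsum F r + wsum F p := by
  classical
  intro u p
  -- generalise the end vertex
  obtain ⟨y0, hy0⟩ := y
  change H.Walk u y0 at p
  -- bound on lengths of r
  have hbound : ∀ (x u : W) (r : H.Walk x u), (∀ v ∈ r.support.tail, ¬ Insep H b v) →
      r.support.tail.Nodup → (∀ v ∈ r.support, v ∈ S) → r.length ≤ d := by
    intro x u r hr hnd hS
    cases r with
    | nil => simp
    | cons h r0 =>
      rw [Walk.length_cons]
      rw [Walk.support_cons, List.tail_cons] at hr hnd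
      exact hrun _ _ r0 hr hnd (fun v hv => hS v (by rw [Walk.support_cons]; simp [hv]))
  induction p with
  | @nil u0 =>
    intro x r hr _ _
    have hrnil : ∃ h : x.1 = u0, r = (Walk.nil : H.Walk u0 u0).copy h.symm rfl := by
      cases r with
      | nil => exact ⟨rfl, rfl⟩
      | cons h r0 =>
        exfalso
        apply hr u0 _ hy0
        rw [Walk.support_cons, List.tail_cons]
        exact r0.end_mem_support
    obtain ⟨h, hr'⟩ := hrnil
    obtain ⟨x0, hx0⟩ := x
    have h : x0 = u0 := h
    subst h
    refine ⟨Walk.nil, ?_⟩
    rw [hr', wsum_nil, wsum_nil]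
    simp [wsum]
  | @cons u u' y0 h p ih =>
    intro x r hr hnd hS
    have happ : (r.concat h).append p = r.append (Walk.cons h p) := by
      rw [Walk.concat_append]
    have hlen : (r.concat h).length ≤ d + 1 := by
      rw [Walk.length_concat]
      have := hbound x.1 u r hr ?_ ?_
      · omega
      · have h1 : (r.append (Walk.cons h p)).support.tail =
            r.support.tail ++ (Walk.cons h p).support.tail := by
          rw [Walk.tail_support_append]
        rw [h1] at hnd
        exact (List.nodup_append.mp hnd).1
      · intro v hv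
        exact hS v (by rw [Walk.mem_support_append_iff]; exact Or.inl hv)
    by_cases hu' : Insep H b u'
    · -- reset
      have hnd' : ((Walk.nil : H.Walk u' u').append p).support.tail.Nodup := by
        rw [Walk.nil_append]
        rw [← happ, Walk.tail_support_append] at hnd
        exact (List.nodup_append.mp hnd).2.1
      have hS' : ∀ v ∈ ((Walk.nil : H.Walk u' u').append p).support, v ∈ S := by
        intro v hv
        rw [Walk.nil_append] at hv
        apply hS v
        rw [Walk.mem_support_append_iff]
        right
        rw [Walk.support_cons]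
        simp [hv]
      obtain ⟨q, hq⟩ := ih hy0 ⟨u', hu'⟩ Walk.nil (by simp) hnd' hS'
      rw [wsum_nil, zero_add] at hq
      by_cases hxu : x.1 = u'
      · obtain ⟨x0, hx0⟩ := x
        have hxu : x0 = u' := hxu
        subst hxu
        refine ⟨q, ?_⟩
        have h0 := hclosed _ (r.concat h) hlen
        rw [Walk.concat_eq_append, wsum_append, wsum_cons, wsum_nil, add_zero] at h0
        rw [hq, wsum_cons, ← add_assoc, h0, zero_add]
      · have hadj : (torso H b).Adj x ⟨u', hu'⟩ := by
          refine ⟨fun hh => hxu (congrArg Subtype.val hh), r.concat h, fun v hv hi => ?_⟩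
          rw [Walk.support_concat, List.mem_append, List.mem_singleton] at hv
          rcases hv with hv | hv
          · left
            rw [← Walk.cons_tail_support] at hv
            rw [List.mem_cons] at hv
            rcases hv with hv | hv
            · exact hv
            · exact absurd hi (hr v hv)
          · exact Or.inr hv
        refine ⟨Walk.cons hadj q, ?_⟩
        rw [wsum_cons, hq, hφ x ⟨u', hu'⟩ (r.concat h) hlen, Walk.concat_eq_append, wsum_append,
          wsum_cons, wsum_nil, add_zero, wsum_cons, add_assoc]
    · have hr' : ∀ v ∈ (r.concat h).support.tail, ¬ Insep H b v := by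
        intro v hv
        rw [Walk.concat_eq_append, Walk.tail_support_append, List.mem_append] at hv
        rcases hv with hv | hv
        · exact hr v hv
        · simp at hv
          rw [hv]
          exact hu'
      obtain ⟨q, hq⟩ := ih hy0 x (r.concat h) hr' (by rw [happ]; exact hnd)
        (by rw [happ]; exact hS)
      refine ⟨q, ?_⟩
      rw [hq, Walk.concat_eq_append, wsum_append, wsum_cons, wsum_nil, add_zero, wsum_cons,
        add_assoc]

end

end H279R3
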