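import Mathlib
import Pool.Agent.H279R3.Final2

/-!
# Final assembly, part 3 (helper279)
-/

namespace H279R3

open SimpleGraph

section

variable {W : Type} {H : SimpleGraph W}

/-- the function on pairs of torso vertices induced by `F` -/
noncomputable def torsoFn {b : W} (F : Sym2 W → ZMod 2) (d : ℕ)
    (hclosed : ∀ (x : W) (p : H.Walk x x), p.length ≤ 2 * (d + 1) → wsum F p = 0) :
    Sym2 {y : W // Insep H b y} → ZMod 2 := by
  classical
  exact Sym2.lift ⟨fun x y => if h : ∃ p : H.Walk x.1 y.1, p.length ≤ d + 1 then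
    wsum F h.choose else 0, by
      intro x y
      beta_reduce
      by_cases h : ∃ p : H.Walk x.1 y.1, p.length ≤ d + 1
      · have h' : ∃ p : H.Walk y.1 x.1, p.length ≤ d + 1 := by
          obtain ⟨p, hp⟩ := h
          exact ⟨p.reverse, by rwa [Walk.length_reverse]⟩
        rw [dif_pos h, dif_pos h']
        have h1 := h.choose_spec
        have h2 := h'.choose_spec
        have h3 := hclosed x.1 (h.choose.append h'.choose) (by rw [Walk.length_append]; omega)
        rw [wsum_append] at h3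
        exact CharTwo.add_eq_zero.mp h3
      · have h' : ¬ ∃ p : H.Walk y.1 x.1, p.length ≤ d + 1 := by
          rintro ⟨p, hp⟩
          exact h ⟨p.reverse, by rwa [Walk.length_reverse]⟩
        rw [dif_neg h, dif_neg h']⟩

lemma torsoFn_eq {b : W} (F : Sym2 W → ZMod 2) (d : ℕ)
    (hclosed : ∀ (x : W) (p : H.Walk x x), p.length ≤ 2 * (d + 1) → wsum F p = 0)
    (x y : {y : W // Insep H b y}) (p : H.Walk x.1 y.1) (hp : p.length ≤ d + 1) :
    torsoFn F d hclosed s(x, y) = wsum F p := by
  classical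
  have h : ∃ p : H.Walk x.1 y.1, p.length ≤ d + 1 := ⟨p, hp⟩
  have h0 : torsoFn F d hclosed s(x, y) = if h : ∃ p : H.Walk x.1 y.1, p.length ≤ d + 1 then
    wsum F h.choose else 0 := rfl
  rw [h0, dif_pos h]
  have h1 := h.choose_spec
  have h3 := hclosed x.1 (h.choose.append p.reverse) (by
    rw [Walk.length_append, Walk.length_reverse]; omega)
  rw [wsum_append, wsum_reverse] at h3
  exact CharTwo.add_eq_zero.mp h3

/-- No critical cycle based at a central vertex is long. -/
lemma no_long_critical (hcore : TaskCore) (hshort : TaskShort) {b : W} {d L : ℕ} (hd : 1 ≤ d)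
    (hcub : SubCubic H) (hsc : ShortCycles H d) (hgen : GenDual (torso H b) L)
    {F : Sym2 W → ZMod 2} {c : H.Walk b b} (hcrit : Critical H F c) (hcen : Central H c d b)
    (h1 : 2 * (d + 1) < c.length) (h2 : L * d < c.length) : False := by
  classical
  obtain ⟨hcyc, hne, hlt⟩ := hcrit
  have hclosed : ∀ (x : W) (p : H.Walk x x), p.length ≤ 2 * (d + 1) → wsum F p = 0 :=
    fun x p hp => hlt x p (by omega)
  set φ := torsoFn (b := b) F d hclosed with hφdef
  have hφ := torsoFn_eq (b := b) F d hclosed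
  have hsh := hshort hcore W H b d hd hcub hsc
  -- closed torso walks vanish
  have hvan : ∀ (v : {y : W // Insep H b y}) (q : (torso H b).Walk v v), wsum φ q = 0 := by
    apply hgen
    intro v q hq
    obtain ⟨p, hp, hps⟩ := lift_torso hsh F φ (fun x y p hp => hφ x y p (by omega)) q
    rw [← hps]
    refine hlt v.1 p (lt_of_le_of_lt hp (lt_of_le_of_lt ?_ h2))
    exact Nat.mul_le_mul_right d hq
  -- runs are short
  have hrun : ∀ (u w : W) (m : H.Walk u w), (∀ v ∈ m.support, ¬ Insep H b v) →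
      m.support.Nodup → (∀ v ∈ m.support, v ∈ {w | w ∈ c.support}) → m.length + 1 ≤ d := by
    intro u w m hm hnd hS
    obtain ⟨X, hX, hmX, hXB⟩ := hcore W H b u w m hcub hm
    have hbX : b ∈ Xᶜ := fun h => hXB b h (Insep.rfl' b)
    have h3 := hcen.2 Xᶜ hX.compl hbX
    have h4 : m.length + 1 = m.support.toFinset.card := by
      rw [List.toFinset_card_of_nodup hnd, Walk.length_support]
    rw [h4, ← Set.ncard_coe_finset]
    refine le_trans (Set.ncard_le_ncard ?_ ?_) h3
    · intro v hv
      have hv : v ∈ m.support := by simpa using hv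
      exact ⟨hS v hv, fun h => h (hmX v hv)⟩
    · refine Set.Finite.subset (c.support.toFinset.finite_toSet) ?_
      intro v hv
      simpa using hv.1
  obtain ⟨q, hq⟩ := trace_torso {w | w ∈ c.support} hrun F φ hφ
    (fun x p hp => hclosed x p (by omega)) ⟨b, Insep.rfl' b⟩ b c ⟨b, Insep.rfl' b⟩ Walk.nil
    (by simp) (by rw [Walk.nil_append]; exact hcyc.support_nodup)
    (by intro v hv; rw [Walk.nil_append] at hv; exact hv)
  rw [wsum_nil, zero_add, hvan] at hq
  exact hne hq.symm

/-- q.t. and dual give bounded generation of the torso. -/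
lemma torso_genDual (hcore : TaskCore) (hcubic : TaskCubic) (hns : TaskNoSmall) (hP : TaskP)
    (m2a : TaskM2a) (m2b : TaskM2b) (m2c : TaskM2c) (m3 : TaskM3) {K : Type}
    (D : AbstractDual H K) (hcub : SubCubic H)
    (hqt : ∃ S : Set W, S.Finite ∧ ∀ v, ∃ s ∈ S, ∃ g : H ≃g H, g s = v) {b : W}
    (hbig : Big H b) : ∃ L, GenDual (torso H b) L := by
  classical
  obtain ⟨P, hP1, hP2, hP3, hP4⟩ := hP hcore W H b hcub hbig
  obtain ⟨K1, ⟨D1⟩⟩ := m3 W _ K H D (torso H b) P hP1 hP2 hP3 hP4
  have hcubT := hcubic hcore W H b hcub hbig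
  obtain ⟨hconn, hnosm⟩ := hns hcore W H b hcub hbig
  obtain ⟨Q, ⟨D2⟩⟩ := m2a _ K1 (torso H b) D1 hcubT hconn hnosm
  obtain ⟨K3, D3, hD3⟩ := m2c m2b _ Q (torso H b) D2 hcubT hconn hnosm
  have hlf : ∀ v, ((torso H b).neighborSet v).Finite := by
    intro v
    apply Set.finite_of_ncard_ne_zero
    rw [hcubT v]
    norm_num
  -- quasi-transitivity
  obtain ⟨S, hS, hrep⟩ := hqt
  have hchoice : ∀ s : W, ∃ y : {y : W // Insep H b y},
      (∃ y' : {y : W // Insep H b y}, ∃ g : H ≃g H, g s = y'.1) → ∃ g : H ≃g H, g s = y.1 := by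
    intro s
    by_cases h : ∃ y' : {y : W // Insep H b y}, ∃ g : H ≃g H, g s = y'.1
    · obtain ⟨y', hy'⟩ := h
      exact ⟨y', fun _ => hy'⟩
    · exact ⟨⟨b, Insep.rfl' b⟩, fun h' => absurd h' h⟩
  choose ys hys using hchoice
  have hmqt : MapQuasiTransitive D3 := by
    refine ⟨ys '' S, hS.image _, fun v => ?_⟩
    obtain ⟨s, hs, g, hg⟩ := hrep v.1
    obtain ⟨g', hg'⟩ := hys s ⟨v, g, hg⟩
    have hmap : (g'.symm.trans g) (ys s).1 = v.1 := by
      change g (g'.symm (ys s).1) = v.1
      rw [← hg', g'.symm_apply_apply, hg]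
    have hb : Insep H b ((g'.symm.trans g) b) := by
      have h1 : Insep H ((g'.symm.trans g) b) ((g'.symm.trans g) (ys s).1) :=
        (ys s).2.map (g'.symm.trans g)
      rw [hmap] at h1
      exact v.2.trans h1.symm
    obtain ⟨h, hh⟩ := hD3 (torsoIso (g'.symm.trans g) hb)
    exact ⟨ys s, ⟨s, hs, rfl⟩, torsoIso (g'.symm.trans g) hb, h, hh, Subtype.ext hmap⟩
  obtain ⟨r, hr⟩ := generated_of_dual D3 hlf hmqt
  exact ⟨r, genDual_of_generated hr⟩

/-- Hamann's theorem for subcubic graphs with an abstract dual. -/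
theorem generated_of_planar (hcore : TaskCore) (hcubic : TaskCubic) (hns : TaskNoSmall)
    (hP : TaskP) (hshort : TaskShort) (hsc : TaskShortCycles) (hdich : TaskDich)
    (hb0 : TaskB0) (hbig : TaskBig)
    (m2a : TaskM2a) (m2b : TaskM2b) (m2c : TaskM2c) (m3 : TaskM3) {K : Type}
    (D : AbstractDual H K) (hcub : SubCubic H)
    (hqt : ∃ S : Set W, S.Finite ∧ ∀ v, ∃ s ∈ S, ∃ g : H ≃g H, g s = v) :
    ∃ r, CycleSpaceGeneratedBelow H r := by
  classical
  obtain ⟨d0, hd0⟩ := hsc W H hcub hqt
  set d := max d0 1 with hd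
  have hd1 : 1 ≤ d := le_max_right _ _
  have hscd : ShortCycles H d := by
    intro e he
    obtain ⟨v, c, h1, h2, h3⟩ := hd0 e he
    exact ⟨v, c, h1, h2.trans (le_max_left _ _), h3⟩
  -- uniform L
  obtain ⟨S, hS, hrep⟩ := id hqt
  have hL : ∃ L, ∀ s ∈ S, Big H s → GenDual (torso H s) L := by
    refine Set.Finite.induction_on (motive := fun S _ => ∃ L, ∀ s ∈ S, Big H s →
      GenDual (torso H s) L) S hS ?_ ?_
    · exact ⟨0, fun s hs => absurd hs (Set.notMem_empty s)⟩
    · rintro a T _ _ ⟨L, hLT⟩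
      by_cases ha : Big H a
      · obtain ⟨L', hL'⟩ := torso_genDual hcore hcubic hns hP m2a m2b m2c m3 D hcub hqt ha
        refine ⟨max L L', ?_⟩
        intro s hs hbs
        rcases hs with rfl | hs
        · exact hL'.mono (le_max_right _ _)
        · exact (hLT s hs hbs).mono (le_max_left _ _)
      · refine ⟨L, ?_⟩
        intro s hs hbs
        rcases hs with rfl | hs
        · exact absurd hbs ha
        · exact hLT s hs hbs
  obtain ⟨L, hL⟩ := hL
  refine ⟨3 * d + 3 + L * d, ?_⟩
  by_contra hcon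
  obtain ⟨F, v, c, hcrit, hlen⟩ := exists_critical hcon
  have hlen3 : 3 * d + 3 ≤ c.length := by omega
  obtain ⟨b, hb⟩ := hb0 W H v c d hcrit.1 hlen3
    (hdich W H F v c d hscd hcrit hlen3)
  -- rotate
  set c' := c.rotate b hb.1 with hc'
  have hc'len : c'.length = c.length := by rw [hc', Walk.length_rotate]
  have hmem : ∀ w, w ∈ c'.support ↔ w ∈ c.support := fun w => by
    rw [hc', Walk.mem_support_rotate_iff]
  have hcyc' : c'.IsCycle := hcrit.1.rotate hb.1
  have hsum : wsum F c' = wsum F c := by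
    unfold wsum
    exact ((c.rotate_edges b hb.1).perm.map F).sum_eq
  have hcrit' : Critical H F c' := by
    refine ⟨hcyc', by rw [hsum]; exact hcrit.2.1, fun w p hp => hcrit.2.2 w p (by omega)⟩
  have hcen' : Central H c' d b := by
    refine ⟨(hmem b).mpr hb.1, fun X hX hbX => ?_⟩
    have : {w | w ∈ c'.support ∧ w ∉ X} = {w | w ∈ c.support ∧ w ∉ X} := by
      ext w
      constructor
      · rintro ⟨h1, h2⟩
        exact ⟨(hmem w).mp h1, h2⟩
      · rintro ⟨h1, h2⟩
        exact ⟨(hmem w).mpr h1, h2⟩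
    rw [this]
    exact hb.2 X hX hbX
  have hbigb : Big H b := hbig hcore W H b c' d hcub hcyc' (by omega) hcen'
  -- transport of the constant
  obtain ⟨s, hs, g, hg⟩ := hrep b
  have hbs : Big H s := by
    obtain ⟨x, y, h1, h2, h3, h4, h5⟩ := hbigb
    have e0 : g.symm b = s := by rw [← hg, g.symm_apply_apply]
    refine ⟨g.symm x, g.symm y, ?_, ?_, ?_, ?_, ?_⟩
    · have := h1.map g.symm
      rwa [e0] at this
    · have := h2.map g.symm
      rwa [e0] at this
    · intro h
      apply h3
      rw [← g.apply_symm_apply x, h, hg]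
    · intro h
      apply h4
      rw [← g.apply_symm_apply y, h, hg]
    · intro h
      exact h5 (g.symm.injective h)
  have hgenb : GenDual (torso H b) L := by
    have hsb : Insep H b (g s) := by
      rw [hg]
      exact Insep.rfl' b
    exact (hL s hs hbs).iso (torsoIso g hsb)
  exact no_long_critical hcore hshort hd1 hcub hscd hgenb hcrit' hcen' (by omega) (by omega)

end

end H279R3
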