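import Mathlib
import Pool.Agent.H279R3.Stmts

/-!
# The cubic lamplighter graph (task M1, helper18 for helper279)
-/

namespace H279R3

open SimpleGraph

lemma cubicLamp_adj (p q : Finset ℤ × ℤ) : cubicLamp.Adj p q ↔
    (q.2 = p.2 + 1 ∧ ∀ n, 2 * n ≠ p.2 → (n ∈ p.1 ↔ n ∈ q.1)) ∨
    (p.2 = q.2 + 1 ∧ ∀ n, 2 * n ≠ q.2 → (n ∈ p.1 ↔ n ∈ q.1)) := Iff.rfl

lemma insert_or_erase {S T : Finset ℤ} {m : ℤ} (h : ∀ n, n ≠ m → (n ∈ S ↔ n ∈ T)) :
    T = insert m S ∨ T = S.erase m := by
  classical
  by_cases hm : m ∈ T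
  · left
    ext n
    rw [Finset.mem_insert]
    by_cases hn : n = m
    · subst hn; simp [hm]
    · rw [h n hn]; simp [hn]
  · right
    ext n
    rw [Finset.mem_erase]
    by_cases hn : n = m
    · subst hn; simp [hm]
    · rw [h n hn]; simp [hn]

lemma cubicLamp_nbrs (p : Finset ℤ × ℤ) : ∃ A : Finset (Finset ℤ × ℤ), A.card ≤ 3 ∧
    cubicLamp.neighborSet p ⊆ (A : Set (Finset ℤ × ℤ)) := by
  classical
  obtain ⟨S, i⟩ := p
  obtain ⟨m, hm | hm⟩ := Int.even_or_odd' i
  · refine ⟨{(insert m S, i + 1), (S.erase m, i + 1), (S, i - 1)}, Finset.card_le_three, ?_⟩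
    rintro ⟨T, j⟩ h
    rw [mem_neighborSet, cubicLamp_adj] at h
    simp only [Finset.coe_insert, Finset.coe_singleton, Set.mem_insert_iff, Set.mem_singleton_iff,
      Prod.mk.injEq]
    rcases h with ⟨h1, h2⟩ | ⟨h1, h2⟩
    · simp only at h1 h2
      rcases insert_or_erase (m := m) (fun n hn => h2 n (by omega)) with h | h
      · exact Or.inl ⟨h, h1⟩
      · exact Or.inr (Or.inl ⟨h, h1⟩)
    · simp only at h1 h2
      refine Or.inr (Or.inr ⟨?_, by omega⟩)
      ext n
      exact (h2 n (by omega)).symm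
  · refine ⟨{(insert m S, i - 1), (S.erase m, i - 1), (S, i + 1)}, Finset.card_le_three, ?_⟩
    rintro ⟨T, j⟩ h
    rw [mem_neighborSet, cubicLamp_adj] at h
    simp only [Finset.coe_insert, Finset.coe_singleton, Set.mem_insert_iff, Set.mem_singleton_iff,
      Prod.mk.injEq]
    rcases h with ⟨h1, h2⟩ | ⟨h1, h2⟩
    · simp only at h1 h2
      refine Or.inr (Or.inr ⟨?_, by omega⟩)
      ext n
      exact (h2 n (by omega)).symm
    · simp only at h1 h2
      rcases insert_or_erase (m := m) (fun n hn => h2 n (by omega)) with h | h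
      · exact Or.inl ⟨h, by omega⟩
      · exact Or.inr (Or.inl ⟨h, by omega⟩)

lemma cubicLamp_deg (p : Finset ℤ × ℤ) :
    (cubicLamp.neighborSet p).Finite ∧ (cubicLamp.neighborSet p).ncard ≤ 3 := by
  obtain ⟨A, hA, hs⟩ := cubicLamp_nbrs p
  refine ⟨A.finite_toSet.subset hs, ?_⟩
  exact (Set.ncard_le_ncard hs A.finite_toSet).trans (by rw [Set.ncard_coe_finset]; exact hA)

/-- The translation by `(A, 2 * k)`: an automorphism. -/
def cubicShift (A : Finset ℤ) (k : ℤ) : cubicLamp ≃g cubicLamp where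
  toFun p := (symmDiff A (p.1.map (Equiv.addRight k).toEmbedding), p.2 + 2 * k)
  invFun p := ((symmDiff A p.1).map (Equiv.addRight (-k)).toEmbedding, p.2 - 2 * k)
  left_inv p := by
    ext n
    · simp
    · simp
  right_inv p := by
    ext n
    · simp [Finset.mem_symmDiff]
      tauto
    · simp
  map_rel_iff' := by
    intro p q
    simp only [Equiv.coe_fn_mk, cubicLamp_adj]
    have key : ∀ n, (n ∈ symmDiff A (p.1.map (Equiv.addRight k).toEmbedding) ↔
        n ∈ symmDiff A (q.1.map (Equiv.addRight k).toEmbedding)) ↔ (n - k ∈ p.1 ↔ n - k ∈ q.1) := by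
      intro n
      simp [Finset.mem_symmDiff, sub_eq_add_neg]
      tauto
    constructor
    · rintro (⟨h1, h2⟩ | ⟨h1, h2⟩)
      · left
        refine ⟨by omega, fun n hn => ?_⟩
        have := (key (n + k)).mp (h2 (n + k) (by omega))
        simpa using this
      · right
        refine ⟨by omega, fun n hn => ?_⟩
        have := (key (n + k)).mp (h2 (n + k) (by omega))
        simpa using this
    · rintro (⟨h1, h2⟩ | ⟨h1, h2⟩)
      · left
        refine ⟨by omega, fun n hn => ?_⟩
        exact (key n).mpr (h2 (n - k) (by omega))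
      · right
        refine ⟨by omega, fun n hn => ?_⟩
        exact (key n).mpr (h2 (n - k) (by omega))

lemma cubicLamp_quasi : ∃ S : Set (Finset ℤ × ℤ), S.Finite ∧
    ∀ p, ∃ s ∈ S, ∃ φ : cubicLamp ≃g cubicLamp, φ s = p := by
  refine ⟨{(∅, 0), (∅, 1)}, Set.toFinite _, ?_⟩
  rintro ⟨A, i⟩
  have h0 : ∀ (r k : ℤ), cubicShift A k (∅, r) = (A, r + 2 * k) := by
    intro r k
    change (symmDiff A ((∅ : Finset ℤ).map (Equiv.addRight k).toEmbedding), r + 2 * k) = _
    ext n
    · simp [Finset.mem_symmDiff]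
    · simp
  obtain ⟨k, hk | hk⟩ := Int.even_or_odd' i
  · refine ⟨(∅, 0), by simp, cubicShift A k, ?_⟩
    rw [h0, hk, zero_add]
  · refine ⟨(∅, 1), by simp, cubicShift A k, ?_⟩
    rw [h0, hk, add_comm]

/-- Rows: high tree with low lamps `u`. -/
def rowSetC (m : ℕ) (u : Finset ℤ) : Set (Finset ℤ × ℤ) :=
  {p | 0 ≤ p.2 ∧ p.2 ≤ 2 * (m : ℤ) ∧ (∀ n, n < 0 → (n ∈ p.1 ↔ n ∈ u)) ∧
    (∀ n, 0 ≤ n → 2 * n < p.2 → n ∉ p.1) ∧ (∀ n, (m : ℤ) ≤ n → n ∉ p.1)}

/-- Columns: low tree with high lamps `v`. -/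
def colSetC (m : ℕ) (v : Finset ℤ) : Set (Finset ℤ × ℤ) :=
  {p | p.2 ≤ 0 ∧ -(2 * (m : ℤ)) ≤ p.2 ∧ (∀ n, 0 ≤ n → (n ∈ p.1 ↔ n ∈ v)) ∧
    (∀ n, n < 0 → p.2 ≤ 2 * n → n ∉ p.1) ∧ (∀ n, n < -(m : ℤ) → n ∉ p.1)}

lemma rowSetC_conn (m : ℕ) (u : Finset ℤ) : WConn cubicLamp (rowSetC m u) := by
  classical
  have key : ∀ (d : ℕ) (p : Finset ℤ × ℤ), p ∈ rowSetC m u → 2 * (m : ℤ) - p.2 = d →
      ∃ q : cubicLamp.Walk p (u.filter (· < 0), 2 * (m : ℤ)), ∀ x ∈ q.support, x ∈ rowSetC m u := by
    intro d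
    induction d with
    | zero =>
      rintro ⟨S, i⟩ ⟨h1, h2, h3, h4, h5⟩ hd
      simp only at h1 h2 h3 h4 h5 hd
      have hi : i = 2 * (m : ℤ) := by push_cast at hd; omega
      subst hi
      have hS : S = u.filter (· < 0) := by
        ext n
        rw [Finset.mem_filter]
        constructor
        · intro hn
          have hn0 : n < 0 := by
            by_contra hc
            by_cases hnm : n < m
            · exact h4 n (by omega) (by omega) hn
            · exact h5 n (by omega) hn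
          exact ⟨(h3 n hn0).mp hn, hn0⟩
        · rintro ⟨hn, hn0⟩
          exact (h3 n hn0).mpr hn
      subst hS
      refine ⟨Walk.nil, ?_⟩
      intro x hx
      rw [Walk.support_nil, List.mem_singleton] at hx
      subst hx
      exact ⟨h1, h2, h3, h4, h5⟩
    | succ d ih =>
      rintro ⟨S, i⟩ ⟨h1, h2, h3, h4, h5⟩ hd
      simp only at h1 h2 h3 h4 h5 hd
      push_cast at hd
      have hmem : ((S.filter (fun n => 2 * n ≠ i), i + 1) : Finset ℤ × ℤ) ∈ rowSetC m u := by
        refine ⟨by simp only; omega, by simp only; omega, ?_, ?_, ?_⟩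
        · intro n hn
          rw [Finset.mem_filter, ← h3 n hn]
          exact ⟨fun h => h.1, fun h => ⟨h, by omega⟩⟩
        · intro n hn hn' hc
          rw [Finset.mem_filter] at hc
          simp only at hn'
          exact h4 n hn (by have := hc.2; omega) hc.1
        · intro n hn hc
          rw [Finset.mem_filter] at hc
          exact h5 n hn hc.1
      obtain ⟨q, hq⟩ := ih (S.filter (fun n => 2 * n ≠ i), i + 1) hmem (by simp only; omega)
      have hadj : cubicLamp.Adj (S, i) (S.filter (fun n => 2 * n ≠ i), i + 1) := by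
        rw [cubicLamp_adj]
        left
        refine ⟨rfl, fun n hn => ?_⟩
        rw [Finset.mem_filter]
        exact ⟨fun h => ⟨h, hn⟩, fun h => h.1⟩
      refine ⟨Walk.cons hadj q, ?_⟩
      intro x hx
      rw [Walk.support_cons, List.mem_cons] at hx
      rcases hx with rfl | hx
      · exact ⟨h1, h2, h3, h4, h5⟩
      · exact hq x hx
  intro p hp q hq
  obtain ⟨a, ha⟩ := key ((2 * (m : ℤ) - p.2).toNat) p hp (by have := hp.2.1; omega)
  obtain ⟨b, hb⟩ := key ((2 * (m : ℤ) - q.2).toNat) q hq (by have := hq.2.1; omega)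
  refine ⟨a.append b.reverse, fun x hx => ?_⟩
  rw [Walk.mem_support_append_iff] at hx
  rcases hx with hx | hx
  · exact ha x hx
  · rw [Walk.support_reverse, List.mem_reverse] at hx
    exact hb x hx

lemma colSetC_conn (m : ℕ) (v : Finset ℤ) : WConn cubicLamp (colSetC m v) := by
  classical
  have key : ∀ (d : ℕ) (p : Finset ℤ × ℤ), p ∈ colSetC m v → p.2 + 2 * (m : ℤ) = d →
      ∃ q : cubicLamp.Walk p (v.filter (0 ≤ ·), -(2 * (m : ℤ))),
        ∀ x ∈ q.support, x ∈ colSetC m v := by
    intro d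
    induction d with
    | zero =>
      rintro ⟨S, i⟩ ⟨h1, h2, h3, h4, h5⟩ hd
      simp only at h1 h2 h3 h4 h5 hd
      have hi : i = -(2 * (m : ℤ)) := by push_cast at hd; omega
      subst hi
      have hS : S = v.filter (0 ≤ ·) := by
        ext n
        rw [Finset.mem_filter]
        constructor
        · intro hn
          have hn0 : 0 ≤ n := by
            by_contra hc
            by_cases hnm : n < -(m : ℤ)
            · exact h5 n hnm hn
            · exact h4 n (by omega) (by omega) hn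
          exact ⟨(h3 n hn0).mp hn, hn0⟩
        · rintro ⟨hn, hn0⟩
          exact (h3 n hn0).mpr hn
      subst hS
      refine ⟨Walk.nil, ?_⟩
      intro x hx
      rw [Walk.support_nil, List.mem_singleton] at hx
      subst hx
      exact ⟨h1, h2, h3, h4, h5⟩
    | succ d ih =>
      rintro ⟨S, i⟩ ⟨h1, h2, h3, h4, h5⟩ hd
      simp only at h1 h2 h3 h4 h5 hd
      push_cast at hd
      have hmem : ((S.filter (fun n => 2 * n ≠ i - 1), i - 1) : Finset ℤ × ℤ) ∈ colSetC m v := by
        refine ⟨by simp only; omega, by simp only; omega, ?_, ?_, ?_⟩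
        · intro n hn
          rw [Finset.mem_filter, ← h3 n hn]
          exact ⟨fun h => h.1, fun h => ⟨h, by omega⟩⟩
        · intro n hn hn' hc
          rw [Finset.mem_filter] at hc
          simp only at hn'
          exact h4 n hn (by have := hc.2; omega) hc.1
        · intro n hn hc
          rw [Finset.mem_filter] at hc
          exact h5 n hn hc.1
      obtain ⟨q, hq⟩ := ih (S.filter (fun n => 2 * n ≠ i - 1), i - 1) hmem (by simp only; omega)
      have hadj : cubicLamp.Adj (S, i) (S.filter (fun n => 2 * n ≠ i - 1), i - 1) := by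
        rw [cubicLamp_adj]
        right
        refine ⟨by simp, fun n hn => ?_⟩
        simp only at hn
        rw [Finset.mem_filter]
        exact ⟨fun h => ⟨h, hn⟩, fun h => h.1⟩
      refine ⟨Walk.cons hadj q, ?_⟩
      intro x hx
      rw [Walk.support_cons, List.mem_cons] at hx
      rcases hx with rfl | hx
      · exact ⟨h1, h2, h3, h4, h5⟩
      · exact hq x hx
  intro p hp q hq
  obtain ⟨a, ha⟩ := key ((p.2 + 2 * (m : ℤ)).toNat) p hp (by have := hp.2.1; omega)
  obtain ⟨b, hb⟩ := key ((q.2 + 2 * (m : ℤ)).toNat) q hq (by have := hq.2.1; omega)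
  refine ⟨a.append b.reverse, fun x hx => ?_⟩
  rw [Walk.mem_support_append_iff] at hx
  rcases hx with hx | hx
  · exact ha x hx
  · rw [Walk.support_reverse, List.mem_reverse] at hx
    exact hb x hx

/-- The cubic lamplighter graph has unbounded treewidth. -/
theorem cubicLamp_unbounded (k : ℕ) : ¬ HasTreeDecomp cubicLamp k := by
  classical
  intro h
  set m : ℕ := k + 1 with hm
  let lo : Finset (Fin m) → Finset ℤ := fun s =>
    s.map ⟨fun i => -(i.val : ℤ) - 1, fun a b h => by
      apply Fin.ext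
      simp only at h
      omega⟩
  let hi : Finset (Fin m) → Finset ℤ := fun s =>
    s.map ⟨fun i => (i.val : ℤ), fun a b h => by
      apply Fin.ext
      simp only at h
      omega⟩
  have hlo : ∀ (s : Finset (Fin m)) (n : ℤ), n ∈ lo s → n < 0 ∧ -(m : ℤ) ≤ n := by
    intro s n hn
    simp only [lo, Finset.mem_map] at hn
    obtain ⟨a, -, rfl⟩ := hn
    have := a.isLt
    change (-(a.val : ℤ) - 1) < 0 ∧ -(m : ℤ) ≤ (-(a.val : ℤ) - 1)
    omega
  have hhi : ∀ (s : Finset (Fin m)) (n : ℤ), n ∈ hi s → 0 ≤ n ∧ n < (m : ℤ) := by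
    intro s n hn
    simp only [hi, Finset.mem_map] at hn
    obtain ⟨a, -, rfl⟩ := hn
    have := a.isLt
    change 0 ≤ (a.val : ℤ) ∧ (a.val : ℤ) < (m : ℤ)
    omega
  have hloinj : Function.Injective lo := Finset.map_injective _
  have hhiinj : Function.Injective hi := Finset.map_injective _
  have hcard := treewidth_ge_of_grid (G := cubicLamp) (κ := Finset (Fin m))
    (fun s => rowSetC m (lo s)) (fun s => colSetC m (hi s))
    (fun s => rowSetC_conn m _) (fun s => colSetC_conn m _)
    (by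
      intro a b hab
      rw [Set.disjoint_left]
      rintro ⟨S, i⟩ ⟨-, -, h3, -, -⟩ ⟨-, -, h3', -, -⟩
      apply hab
      apply hloinj
      ext n
      constructor
      · intro hn
        have hn0 := (hlo a n hn).1
        exact (h3' n hn0).mp ((h3 n hn0).mpr hn)
      · intro hn
        have hn0 := (hlo b n hn).1
        exact (h3 n hn0).mp ((h3' n hn0).mpr hn))
    (by
      intro a b hab
      rw [Set.disjoint_left]
      rintro ⟨S, i⟩ ⟨-, -, h3, -, -⟩ ⟨-, -, h3', -, -⟩
      apply hab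
      apply hhiinj
      ext n
      constructor
      · intro hn
        have hn0 := (hhi a n hn).1
        exact (h3' n hn0).mp ((h3 n hn0).mpr hn)
      · intro hn
        have hn0 := (hhi b n hn).1
        exact (h3 n hn0).mp ((h3' n hn0).mpr hn))
    (by
      intro a b
      refine ⟨(lo a ∪ hi b, 0), ⟨le_rfl, by simp, ?_, ?_, ?_⟩, ⟨le_rfl, by simp, ?_, ?_, ?_⟩⟩
      · intro n hn
        rw [Finset.mem_union]
        exact ⟨fun h => h.resolve_right (fun h' => by have := (hhi b n h').1; omega), Or.inl⟩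
      · intro n hn hn'
        simp only at hn'
        omega
      · intro n hn hc
        rw [Finset.mem_union] at hc
        rcases hc with hc | hc
        · have := hlo a n hc; omega
        · have := hhi b n hc; omega
      · intro n hn
        rw [Finset.mem_union]
        exact ⟨fun h => h.resolve_left (fun h' => by have := (hlo a n h').1; omega), Or.inr⟩
      · intro n hn hn'
        simp only at hn'
        omega
      · intro n hn hc
        rw [Finset.mem_union] at hc
        rcases hc with hc | hc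
        · have := hlo a n hc; omega
        · have := hhi b n hc; omega)
    h
  rw [Fintype.card_finset, Fintype.card_fin] at hcard
  have : m < 2 ^ m := Nat.lt_two_pow_self
  omega

/-- doubling -/
def dbl : ℤ ↪ ℤ := ⟨fun n => 2 * n, fun a b h => by simp only at h; omega⟩

lemma mem_map_dbl (S : Finset ℤ) (n : ℤ) : n ∈ S.map dbl ↔ ∃ a ∈ S, 2 * a = n := by
  simp [dbl]

/-- the embedding into the lamplighter graph -/
def cubicEmb : cubicLamp →g lampGraph where
  toFun p := (p.1.map dbl, p.2)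
  map_rel' := by
    intro p q h
    rw [cubicLamp_adj] at h
    rw [lampGraph_adj]
    simp only [mem_map_dbl]
    rcases h with ⟨h1, h2⟩ | ⟨h1, h2⟩
    · left
      refine ⟨h1, fun n hn => ?_⟩
      constructor
      · rintro ⟨a, ha, rfl⟩
        exact ⟨a, (h2 a hn).1 ha, rfl⟩
      · rintro ⟨a, ha, rfl⟩
        exact ⟨a, (h2 a hn).2 ha, rfl⟩
    · right
      refine ⟨h1, fun n hn => ?_⟩
      constructor
      · rintro ⟨a, ha, rfl⟩
        exact ⟨a, (h2 a hn).1 ha, rfl⟩
      · rintro ⟨a, ha, rfl⟩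
        exact ⟨a, (h2 a hn).2 ha, rfl⟩

lemma cubicEmb_inj : Function.Injective cubicEmb := by
  rintro ⟨S, i⟩ ⟨T, j⟩ h
  have h' : ((S.map dbl, i) : Finset ℤ × ℤ) = (T.map dbl, j) := h
  rw [Prod.mk.injEq] at h'
  rw [Prod.mk.injEq]
  exact ⟨Finset.map_injective _ h'.1, h'.2⟩

theorem m1 : TaskM1 :=
  ⟨cubicLamp_deg, cubicLamp_quasi, cubicLamp_unbounded, cubicEmb, cubicEmb_inj⟩

end H279R3
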