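import Mathlib
import Pool.Agent.H279R3.Stmts

/-!
# Task M2a: a dual of a cubic graph without small cuts can be made triangular (helper276)
-/

namespace H279R3

open SimpleGraph

section M2a

variable {U Q : Type} {τ : SimpleGraph U}

lemma reach_of_nosmall (hns : NoSmallCut τ) (S : Set (Sym2 U)) (hS : S.Finite)
    (hS2 : S.ncard ≤ 2) (u v : U) : (τ.deleteEdges S).Reachable u v := by
  by_contra hcon
  set X : Set U := {w | (τ.deleteEdges S).Reachable u w} with hX
  have hsub : bdry τ X ⊆ S := by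
    rintro e ⟨he, ⟨x, hxe, hx⟩, y, hye, hy⟩
    by_contra heS
    apply hy
    have hxy : x ≠ y := by
      rintro rfl
      exact hy hx
    have hxye : e = s(x, y) := (Sym2.mem_and_mem_iff hxy).1 ⟨hxe, hye⟩
    subst hxye
    have hadj : (τ.deleteEdges S).Adj x y := by
      rw [deleteEdges_adj]
      exact ⟨he, heS⟩
    exact Reachable.trans hx hadj.reachable
  have h3 := hns X ⟨u, Reachable.refl u⟩ ⟨v, hcon⟩ (hS.subset hsub)
  have h4 := Set.ncard_le_ncard hsub hS
  omega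

lemma exists_even (hns : NoSmallCut τ) {e : Sym2 U} (he : e ∈ τ.edgeSet) (S : Set (Sym2 U))
    (hS : S.Finite) (hS2 : S.ncard ≤ 2) (heS : e ∈ S) :
    ∃ F : Set (Sym2 U), F.Finite ∧ EvenSet τ F ∧ e ∈ F ∧ ∀ f ∈ S, f ≠ e → f ∉ F := by
  classical
  induction e using Sym2.ind with
  | _ u v =>
    have hadj : τ.Adj u v := he
    obtain ⟨p, hp⟩ := (reach_of_nosmall hns S hS hS2 v u).exists_isPath
    have hle : τ.deleteEdges S ≤ τ := deleteEdges_le S
    have hqe : (p.mapLe hle).edges = p.edges := Walk.edges_mapLe_eq_edges hle p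
    have hqt : (p.mapLe hle).IsTrail := (hp.mapLe hle).isTrail
    have hnot : ∀ f ∈ p.edges, f ∉ S := by
      intro f hf hfS
      have := p.edges_subset_edgeSet hf
      rw [edgeSet_deleteEdges] at this
      exact this.2 hfS
    have hct : (Walk.cons hadj (p.mapLe hle)).IsTrail := by
      rw [Walk.isTrail_cons]
      refine ⟨hqt, fun h => ?_⟩
      rw [hqe] at h
      exact hnot _ h heS
    refine ⟨{f | f ∈ (Walk.cons hadj (p.mapLe hle)).edges}, List.finite_toSet _,
      EvenSet.of_trail hct, ?_, ?_⟩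
    · simp
    · intro f hf hfe hfc
      have hfc : f ∈ (Walk.cons hadj (p.mapLe hle)).edges := hfc
      rw [Walk.edges_cons, List.mem_cons] at hfc
      rcases hfc with h | h
      · exact hfe h
      · rw [hqe] at h
        exact hnot _ h hf

lemma noloop (D : AbstractDual τ Q) (hns : NoSmallCut τ) {e : Sym2 U} (he : e ∈ τ.edgeSet)
    {x : Q} (hx : D.ends e = s(x, x)) : False := by
  obtain ⟨F, hF, hFe, heF, -⟩ := exists_even hns he {e} (Set.finite_singleton e) (by simp) rfl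
  obtain ⟨A, hA⟩ := D.even_cut F hF hFe
  rw [← hA, mem_cut_iff hx] at heF
  tauto

lemma nopar_of (D : AbstractDual τ Q) (hns : NoSmallCut τ) {e f : Sym2 U} (he : e ∈ τ.edgeSet)
    (hf : f ∈ τ.edgeSet) (h : D.ends e = D.ends f) : e = f := by
  by_contra hne
  obtain ⟨F, hF, hFe, heF, hfF⟩ := exists_even hns he {e, f} (Set.toFinite _)
    (by rw [Set.ncard_pair hne]) (by simp)
  have hfF := hfF f (by simp) (Ne.symm hne)
  obtain ⟨A, rfl⟩ := D.even_cut F hF hFe
  apply hfF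
  obtain ⟨h1, h2, h3⟩ := heF
  exact ⟨hf, by rw [← h]; exact h2, by rw [← h]; exact h3⟩

lemma snd_ne {d d' : τ.Dart} (h : d.fst = d'.fst) (hne : d ≠ d') : d.snd ≠ d'.snd := by
  intro h2
  apply hne
  apply Dart.ext
  exact Prod.ext h h2

lemma edge_eq (d : τ.Dart) : d.edge = s(d.fst, d.snd) := rfl

lemma edge_ne {d d' : τ.Dart} (h : d.fst = d'.fst) (hne : d ≠ d') : d.edge ≠ d'.edge := by
  intro h2
  rw [edge_eq, edge_eq, h] at h2
  exact snd_ne h hne (Sym2.congr_right.1 h2)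

lemma cubic_nbr (hc : IsCubic τ) {d1 d2 d3 : τ.Dart} (h12 : d1.fst = d2.fst)
    (h13 : d1.fst = d3.fst) (n12 : d1 ≠ d2) (n13 : d1 ≠ d3) (n23 : d2 ≠ d3) (e : Sym2 U)
    (he : e ∈ τ.edgeSet) (hv : d1.fst ∈ e) : e = d1.edge ∨ e = d2.edge ∨ e = d3.edge := by
  have s12 := snd_ne h12 n12
  have s13 := snd_ne h13 n13
  have s23 := snd_ne (h12.symm.trans h13) n23
  have hfin : (τ.neighborSet d1.fst).Finite := Set.finite_of_ncard_pos (by rw [hc]; norm_num)
  have hsub : ({d1.snd, d2.snd, d3.snd} : Set U) ⊆ τ.neighborSet d1.fst := by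
    intro w hw
    simp only [Set.mem_insert_iff, Set.mem_singleton_iff] at hw
    rw [mem_neighborSet]
    rcases hw with rfl | rfl | rfl
    · exact d1.adj
    · rw [h12]; exact d2.adj
    · rw [h13]; exact d3.adj
  have hcard : ({d1.snd, d2.snd, d3.snd} : Set U).ncard = 3 :=
    Set.ncard_eq_three.2 ⟨_, _, _, s12, s13, s23, rfl⟩
  have heq := Set.eq_of_subset_of_ncard_le hsub (by rw [hc, hcard]) hfin
  obtain ⟨w, rfl⟩ := Sym2.mem_iff_exists.1 hv
  have hw : w ∈ τ.neighborSet d1.fst := he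
  rw [← heq] at hw
  simp only [Set.mem_insert_iff, Set.mem_singleton_iff] at hw
  rcases hw with rfl | rfl | rfl
  · left; rfl
  · right; left; rw [edge_eq, ← h12]
  · right; right; rw [edge_eq, ← h13]

lemma par3 (hc : IsCubic τ) (D : AbstractDual τ Q) {d1 d2 d3 : τ.Dart} (h12 : d1.fst = d2.fst)
    (h13 : d1.fst = d3.fst) (n12 : d1 ≠ d2) (n13 : d1 ≠ d3) (n23 : d2 ≠ d3) {A : Set Q}
    (hA : (cut τ D.ends A).Finite) :
    (d1.edge ∈ cut τ D.ends A ∧ d2.edge ∈ cut τ D.ends A ∧ d3.edge ∉ cut τ D.ends A) ∨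
    (d1.edge ∈ cut τ D.ends A ∧ d2.edge ∉ cut τ D.ends A ∧ d3.edge ∈ cut τ D.ends A) ∨
    (d1.edge ∉ cut τ D.ends A ∧ d2.edge ∈ cut τ D.ends A ∧ d3.edge ∈ cut τ D.ends A) ∨
    (d1.edge ∉ cut τ D.ends A ∧ d2.edge ∉ cut τ D.ends A ∧ d3.edge ∉ cut τ D.ends A) := by
  classical
  have hev := (D.cut_even A hA).2 d1.fst
  set C := cut τ D.ends A with hC
  have v1 : d1.fst ∈ d1.edge := Sym2.mem_mk_left _ _
  have v2 : d1.fst ∈ d2.edge := by rw [h12]; exact Sym2.mem_mk_left _ _
  have v3 : d1.fst ∈ d3.edge := by rw [h13]; exact Sym2.mem_mk_left _ _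
  have e12 := edge_ne h12 n12
  have e13 := edge_ne h13 n13
  have e23 := edge_ne (h12.symm.trans h13) n23
  have key : ∀ e, e ∈ C ∩ {e | d1.fst ∈ e} → e = d1.edge ∨ e = d2.edge ∨ e = d3.edge := by
    rintro e ⟨h1, h2⟩
    exact cubic_nbr hc h12 h13 n12 n13 n23 e ((D.cut_even A hA).1 h1) h2
  by_cases p1 : d1.edge ∈ C <;> by_cases p2 : d2.edge ∈ C <;> by_cases p3 : d3.edge ∈ C
  · exfalso
    have : C ∩ {e | d1.fst ∈ e} = {d1.edge, d2.edge, d3.edge} := by
      ext e
      constructor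
      · intro h; simpa using key e h
      · intro h
        simp only [Set.mem_insert_iff, Set.mem_singleton_iff] at h
        rcases h with rfl | rfl | rfl
        exacts [⟨p1, v1⟩, ⟨p2, v2⟩, ⟨p3, v3⟩]
    rw [this, Set.ncard_eq_three.2 ⟨_, _, _, e12, e13, e23, rfl⟩] at hev
    revert hev; decide
  · exact Or.inl ⟨p1, p2, p3⟩
  · exact Or.inr (Or.inl ⟨p1, p2, p3⟩)
  · exfalso
    have : C ∩ {e | d1.fst ∈ e} = {d1.edge} := by
      ext e
      constructor
      · intro h
        rcases key e h with rfl | rfl | rfl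
        exacts [rfl, absurd h.1 p2, absurd h.1 p3]
      · rintro rfl; exact ⟨p1, v1⟩
    rw [this, Set.ncard_singleton] at hev
    revert hev; decide
  · exact Or.inr (Or.inr (Or.inl ⟨p1, p2, p3⟩))
  · exfalso
    have : C ∩ {e | d1.fst ∈ e} = {d2.edge} := by
      ext e
      constructor
      · intro h
        rcases key e h with rfl | rfl | rfl
        exacts [absurd h.1 p1, rfl, absurd h.1 p3]
      · rintro rfl; exact ⟨p2, v2⟩
    rw [this, Set.ncard_singleton] at hev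
    revert hev; decide
  · exfalso
    have : C ∩ {e | d1.fst ∈ e} = {d3.edge} := by
      ext e
      constructor
      · intro h
        rcases key e h with rfl | rfl | rfl
        exacts [absurd h.1 p1, absurd h.1 p2, rfl]
      · rintro rfl; exact ⟨p3, v3⟩
    rw [this, Set.ncard_singleton] at hev
    revert hev; decide
  · exact Or.inr (Or.inr (Or.inr ⟨p1, p2, p3⟩))

/-- separation of a point from a finite set -/
lemma sep (D : AbstractDual τ Q)
    (red : ∀ x y : Q, x ≠ y → ∃ A : Set Q, (cut τ D.ends A).Finite ∧ x ∈ A ∧ y ∉ A) (x : Q)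
    (S : Set Q) (hS : S.Finite) (hx : x ∉ S) :
    ∃ A : Set Q, (cut τ D.ends A).Finite ∧ x ∈ A ∧ ∀ y ∈ S, y ∉ A := by
  induction S, hS using Set.Finite.induction_on with
  | empty =>
    exact ⟨Set.univ, by rw [cut_univ]; exact Set.finite_empty, trivial,
      fun y hy => absurd hy (Set.notMem_empty y)⟩
  | @insert a S _ _ ih =>
    obtain ⟨A, h1, h2, h3⟩ := ih (fun h => hx (Set.mem_insert_of_mem _ h))
    obtain ⟨B, k1, k2, k3⟩ := red x a (fun h => hx (by rw [h]; exact Set.mem_insert _ _))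
    refine ⟨A ∩ B, (h1.union k1).subset (cut_inter_subset _ _ _), ⟨h2, k2⟩, ?_⟩
    intro y hy
    rcases Set.mem_insert_iff.1 hy with rfl | hy
    · exact fun h => k3 h.2
    · exact fun h => h3 y hy h.1

lemma ends_finite (D : AbstractDual τ Q) (e : Sym2 U) : {y | y ∈ D.ends e}.Finite := by
  obtain ⟨x, y, h⟩ := ends_cases D.ends e
  refine (Set.toFinite {x, y}).subset ?_
  intro z hz
  have hz : z ∈ D.ends e := hz
  rw [h, Sym2.mem_iff] at hz
  exact hz

lemma sep_mem (D : AbstractDual τ Q) (hns : NoSmallCut τ)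
    (red : ∀ x y : Q, x ≠ y → ∃ A : Set Q, (cut τ D.ends A).Finite ∧ x ∈ A ∧ y ∉ A) (x : Q)
    (e1 e2 e3 : Sym2 U) : ∃ A : Set Q, (cut τ D.ends A).Finite ∧
      ∀ e ∈ τ.edgeSet, (e = e1 ∨ e = e2 ∨ e = e3) → (e ∈ cut τ D.ends A ↔ x ∈ D.ends e) := by
  set S : Set Q := ({y | y ∈ D.ends e1} ∪ {y | y ∈ D.ends e2} ∪ {y | y ∈ D.ends e3}) \ {x} with hS
  have hSf : S.Finite := (((ends_finite D e1).union (ends_finite D e2)).union
    (ends_finite D e3)).subset Set.sdiff_subset
  obtain ⟨A, h1, h2, h3⟩ := sep D red x S hSf (fun h => h.2 rfl)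
  refine ⟨A, h1, fun e he hee => ?_⟩
  have hno : ∀ y ∈ D.ends e, y ≠ x → y ∉ A := by
    intro y hy hyx
    apply h3
    refine ⟨?_, hyx⟩
    rcases hee with rfl | rfl | rfl
    · exact Or.inl (Or.inl hy)
    · exact Or.inl (Or.inr hy)
    · exact Or.inr hy
  obtain ⟨p, q, hpq⟩ := ends_cases D.ends e
  have hne : p ≠ q := by
    rintro rfl
    exact noloop D hns he hpq
  have hp : p ∈ D.ends e := by rw [hpq]; exact Sym2.mem_mk_left _ _
  have hq : q ∈ D.ends e := by rw [hpq]; exact Sym2.mem_mk_right _ _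
  constructor
  · rintro ⟨-, ⟨y, hy, hyA⟩, -⟩
    by_cases hyx : y = x
    · rw [← hyx]; exact hy
    · exact absurd hyA (hno y hy hyx)
  · intro hx
    refine ⟨he, ⟨x, hx, h2⟩, ?_⟩
    by_cases hpx : p = x
    · exact ⟨q, hq, hno q hq (fun h => hne (hpx.trans h.symm))⟩
    · exact ⟨p, hp, hno p hp hpx⟩

/-- two of the three edges at a vertex have a common end -/
lemma common (hc : IsCubic τ) (D : AbstractDual τ Q) (hns : NoSmallCut τ)
    (red : ∀ x y : Q, x ≠ y → ∃ A : Set Q, (cut τ D.ends A).Finite ∧ x ∈ A ∧ y ∉ A)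
    {d1 d2 d3 : τ.Dart} (h12 : d1.fst = d2.fst) (h13 : d1.fst = d3.fst) (n12 : d1 ≠ d2)
    (n13 : d1 ≠ d3) (n23 : d2 ≠ d3) :
    (∃ c, c ∈ D.ends d1.edge ∧ c ∈ D.ends d2.edge) ∧
      ∀ x, x ∈ D.ends d1.edge → x ∈ D.ends d2.edge → x ∉ D.ends d3.edge := by
  have E1 : d1.edge ∈ τ.edgeSet := d1.adj
  have E2 : d2.edge ∈ τ.edgeSet := d2.adj
  have E3 : d3.edge ∈ τ.edgeSet := d3.adj
  have par : ∀ x : Q,
      (x ∈ D.ends d1.edge ∧ x ∈ D.ends d2.edge ∧ x ∉ D.ends d3.edge) ∨
      (x ∈ D.ends d1.edge ∧ x ∉ D.ends d2.edge ∧ x ∈ D.ends d3.edge) ∨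
      (x ∉ D.ends d1.edge ∧ x ∈ D.ends d2.edge ∧ x ∈ D.ends d3.edge) ∨
      (x ∉ D.ends d1.edge ∧ x ∉ D.ends d2.edge ∧ x ∉ D.ends d3.edge) := by
    intro x
    obtain ⟨A, hA, hiff⟩ := sep_mem D hns red x d1.edge d2.edge d3.edge
    have i1 := hiff d1.edge E1 (Or.inl rfl)
    have i2 := hiff d2.edge E2 (Or.inr (Or.inl rfl))
    have i3 := hiff d3.edge E3 (Or.inr (Or.inr rfl))
    have := par3 hc D h12 h13 n12 n13 n23 hA
    rw [i1, i2, i3] at this
    exact this
  refine ⟨?_, ?_⟩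
  · by_contra hcon
    push Not at hcon
    obtain ⟨p, q, hpq⟩ := ends_cases D.ends d1.edge
    have hne : p ≠ q := by
      rintro rfl
      exact noloop D hns E1 hpq
    have hp : p ∈ D.ends d1.edge := by rw [hpq]; exact Sym2.mem_mk_left _ _
    have hq : q ∈ D.ends d1.edge := by rw [hpq]; exact Sym2.mem_mk_right _ _
    have hp3 : p ∈ D.ends d3.edge := by
      have h1 := par p
      have h2 := hcon p hp
      tauto
    have hq3 : q ∈ D.ends d3.edge := by
      have h1 := par q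
      have h2 := hcon q hq
      tauto
    have h3 : D.ends d3.edge = s(p, q) := (Sym2.mem_and_mem_iff hne).1 ⟨hp3, hq3⟩
    have h4 := nopar_of D hns E1 E3 (hpq.trans h3.symm)
    exact edge_ne h13 n13 h4
  · intro x h1 h2 h3
    have := par x
    tauto

/-- the three edges at a vertex form a triangle in the dual -/
lemma triangle (hc : IsCubic τ) (D : AbstractDual τ Q) (hns : NoSmallCut τ)
    (red : ∀ x y : Q, x ≠ y → ∃ A : Set Q, (cut τ D.ends A).Finite ∧ x ∈ A ∧ y ∉ A)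
    {d1 d2 d3 : τ.Dart} (h12 : d1.fst = d2.fst) (h13 : d1.fst = d3.fst) (n12 : d1 ≠ d2)
    (n13 : d1 ≠ d3) (n23 : d2 ≠ d3) :
    ∃ a b c : Q, a ≠ b ∧ a ≠ c ∧ b ≠ c ∧ D.ends d1.edge = s(b, c) ∧ D.ends d2.edge = s(a, c) ∧
      D.ends d3.edge = s(a, b) := by
  obtain ⟨⟨c, c1, c2⟩, hall⟩ := common hc D hns red h12 h13 n12 n13 n23
  obtain ⟨⟨b, b1, b3⟩, -⟩ := common hc D hns red h13 h12 n13 n12 n23.symm
  obtain ⟨⟨a, a2, a3⟩, -⟩ := common hc D hns red (h12.symm.trans h13) h12.symm n23 n12.symm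
    n13.symm
  have c3 := hall c c1 c2
  have b2 : b ∉ D.ends d2.edge := fun h => hall b b1 h b3
  have a1 : a ∉ D.ends d1.edge := fun h => hall a h a2 a3
  have hab : a ≠ b := by rintro rfl; exact a1 b1
  have hac : a ≠ c := by rintro rfl; exact a1 c1
  have hbc : b ≠ c := by rintro rfl; exact b2 c2
  exact ⟨a, b, c, hab, hac, hbc, (Sym2.mem_and_mem_iff hbc).1 ⟨b1, c1⟩,
    (Sym2.mem_and_mem_iff hac).1 ⟨a2, c2⟩, (Sym2.mem_and_mem_iff hab).1 ⟨a3, b3⟩⟩

lemma exists_others (hc : IsCubic τ) (d : τ.Dart) : ∃ d2 d3 : τ.Dart, d.fst = d2.fst ∧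
    d.fst = d3.fst ∧ d ≠ d2 ∧ d ≠ d3 ∧ d2 ≠ d3 := by
  obtain ⟨x, y, z, hxy, hxz, hyz, h⟩ := Set.ncard_eq_three.1 (hc d.fst)
  have key : ∀ a b : U, a ∈ τ.neighborSet d.fst → b ∈ τ.neighborSet d.fst → a ≠ b →
      a ≠ d.snd → b ≠ d.snd → ∃ d2 d3 : τ.Dart, d.fst = d2.fst ∧
      d.fst = d3.fst ∧ d ≠ d2 ∧ d ≠ d3 ∧ d2 ≠ d3 := by
    intro a b ha hb hab had hbd
    refine ⟨⟨(d.fst, a), ha⟩, ⟨(d.fst, b), hb⟩, rfl, rfl, ?_, ?_, ?_⟩
    · intro hh
      exact had (by rw [hh])
    · intro hh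
      exact hbd (by rw [hh])
    · intro hh
      have := congrArg (fun t : τ.Dart => t.snd) hh
      exact hab this
  have hx : x ∈ τ.neighborSet d.fst := by rw [h]; simp
  have hy : y ∈ τ.neighborSet d.fst := by rw [h]; simp
  have hz : z ∈ τ.neighborSet d.fst := by rw [h]; simp
  have hd : d.snd ∈ τ.neighborSet d.fst := d.adj
  rw [h] at hd
  simp only [Set.mem_insert_iff, Set.mem_singleton_iff] at hd
  rcases hd with hd | hd | hd
  · exact key y z hy hz hyz (by rw [hd]; exact hxy.symm) (by rw [hd]; exact hxz.symm)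
  · exact key x z hx hz hxz (by rw [hd]; exact hxy) (by rw [hd]; exact hyz.symm)
  · exact key x y hx hy hxy (by rw [hd]; exact hxz) (by rw [hd]; exact hyz)

lemma exists_tri (hc : IsCubic τ) (D : AbstractDual τ Q) (hns : NoSmallCut τ)
    (red : ∀ x y : Q, x ≠ y → ∃ A : Set Q, (cut τ D.ends A).Finite ∧ x ∈ A ∧ y ∉ A) :
    Nonempty (TriDual τ Q) := by
  have hpt : ∀ d : τ.Dart, ∃ x : Q, ∀ d' : τ.Dart, d.fst = d'.fst → d ≠ d' →
      x ∈ D.ends d'.edge := by
    intro d
    obtain ⟨d2, d3, h2, h3, n2, n3, n23⟩ := exists_others hc d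
    obtain ⟨a, b, c, hab, hac, hbc, e1, e2, e3⟩ := triangle hc D hns red h2 h3 n2 n3 n23
    refine ⟨a, fun d' hd' hne => ?_⟩
    have hv : d.fst ∈ d'.edge := by rw [hd']; exact Sym2.mem_mk_left _ _
    rcases cubic_nbr hc h2 h3 n2 n3 n23 d'.edge d'.adj hv with h | h | h
    · exact absurd h.symm (edge_ne hd' hne)
    · rw [h, e2]; exact Sym2.mem_mk_left _ _
    · rw [h, e3]; exact Sym2.mem_mk_left _ _
  choose pt hpt using hpt
  refine ⟨{ toAbstractDual := D, pt := pt, tri := ?_, nopar := ?_, red := red }⟩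
  · intro d d' d'' h1 h2 n1 n2 n12
    obtain ⟨a, b, c, hab, hac, hbc, e1, e2, e3⟩ := triangle hc D hns red h1 h2 n1 n2 n12
    have pa : pt d = a := by
      have k1 := hpt d d' h1 n1
      have k2 := hpt d d'' h2 n2
      rw [e2, Sym2.mem_iff] at k1
      rw [e3, Sym2.mem_iff] at k2
      rcases k1 with k1 | k1
      · exact k1
      · rcases k2 with k2 | k2
        · exact k2
        · exact absurd (k2.symm.trans k1) hbc
    have pb : pt d' = b := by
      have k1 := hpt d' d h1.symm n1.symm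
      have k2 := hpt d' d'' (h1.symm.trans h2) n12
      rw [e1, Sym2.mem_iff] at k1
      rw [e3, Sym2.mem_iff] at k2
      rcases k1 with k1 | k1
      · exact k1
      · rcases k2 with k2 | k2
        · exact absurd (k2.symm.trans k1) hac
        · exact k2
    have pc : pt d'' = c := by
      have k1 := hpt d'' d h2.symm n2.symm
      have k2 := hpt d'' d' (h2.symm.trans h1) n12.symm
      rw [e1, Sym2.mem_iff] at k1
      rw [e2, Sym2.mem_iff] at k2
      rcases k1 with k1 | k1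
      · rcases k2 with k2 | k2
        · exact absurd (k2.symm.trans k1) hab
        · exact k2
      · exact k1
    rw [pa, pb, pc]
    exact ⟨e1, hab, hac, hbc⟩
  · intro e he f hf h
    exact nopar_of D hns he hf h

/-- dual vertices not separated by a finite cut -/
def sdSetoid {K : Type} (D : AbstractDual τ K) : Setoid K where
  r x y := ∀ A : Set K, (cut τ D.ends A).Finite → (x ∈ A ↔ y ∈ A)
  iseqv := ⟨fun _ _ _ => Iff.rfl, fun h A hA => (h A hA).symm,
    fun h1 h2 A hA => (h1 A hA).trans (h2 A hA)⟩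

theorem m2a : TaskM2a := by
  intro U K τ D hc _ hns
  let st : Setoid K := sdSetoid D
  let π : K → Quotient st := Quotient.mk st
  have hπs : Function.Surjective π := Quotient.exists_rep
  let ends' : Sym2 U → Sym2 (Quotient st) := fun e => (D.ends e).map π
  have hcut : ∀ B : Set (Quotient st), cut τ ends' B = cut τ D.ends (π ⁻¹' B) := by
    intro B
    ext e
    obtain ⟨x, y, h⟩ := ends_cases D.ends e
    have h' : ends' e = s(π x, π y) := by
      show (D.ends e).map π = _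
      rw [h, Sym2.map_mk]
    rw [mem_cut_iff h, mem_cut_iff h']
    rfl
  have hsat : ∀ A : Set K, (cut τ D.ends A).Finite → π ⁻¹' (π '' A) = A := by
    intro A hA
    ext x
    constructor
    · rintro ⟨y, hy, hyx⟩
      have := Quotient.exact hyx
      exact (this A hA).1 hy
    · intro hx
      exact ⟨x, hx, rfl⟩
  refine ⟨Quotient st, exists_tri hc
    { ends := ends'
      conn := ?_
      cut_even := ?_
      even_cut := ?_ } hns ?_⟩
  · intro B hB
    rw [hcut] at hB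
    rcases D.conn _ hB with h | h
    · left
      ext q
      obtain ⟨x, rfl⟩ := hπs q
      have : x ∉ π ⁻¹' B := by rw [h]; exact Set.notMem_empty x
      simpa using this
    · right
      ext q
      obtain ⟨x, rfl⟩ := hπs q
      have : x ∈ π ⁻¹' B := by rw [h]; trivial
      simpa using this
  · intro B hB
    rw [hcut] at hB ⊢
    exact D.cut_even _ hB
  · intro F hF hFe
    obtain ⟨A, hA⟩ := D.even_cut F hF hFe
    refine ⟨π '' A, ?_⟩
    rw [hcut, hsat A (by rw [hA]; exact hF), hA]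
  · intro x y hxy
    obtain ⟨a, rfl⟩ := hπs x
    obtain ⟨b, rfl⟩ := hπs y
    have hnot : ¬ ∀ A : Set K, (cut τ D.ends A).Finite → (a ∈ A ↔ b ∈ A) := by
      intro h
      exact hxy (Quotient.sound h)
    simp only [not_forall] at hnot
    obtain ⟨A, hA, hab⟩ := hnot
    have go : ∀ A : Set K, (cut τ D.ends A).Finite → a ∈ A → b ∉ A →
        ∃ A : Set (Quotient st), (cut τ ends' A).Finite ∧ π a ∈ A ∧ π b ∉ A := by
      intro A hA ha hb
      refine ⟨π '' A, ?_, ⟨a, ha, rfl⟩, ?_⟩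
      · rw [hcut, hsat A hA]
        exact hA
      · intro h
        apply hb
        have : b ∈ π ⁻¹' (π '' A) := h
        rwa [hsat A hA] at this
    by_cases ha : a ∈ A
    · exact go A hA ha (fun hb => hab ⟨fun _ => hb, fun _ => ha⟩)
    · refine go Aᶜ (by rwa [cut_compl]) ha (fun hb => hab ⟨fun h => absurd h ha, fun h => absurd h hb⟩)

end M2a

end H279R3
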