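import Mathlib
import Pool.Agent.H279R3.Stmts

/-!
# Task M2b (helper13) : the pairing of corners across an edge is intrinsic
-/

namespace H279R3

open SimpleGraph

section

variable {U : Type} {τ : SimpleGraph U}

lemma m2b_third (hc : IsCubic τ) (δ δ' : τ.Dart) (h : δ.fst = δ'.fst) (hne : δ ≠ δ') :
    ∃ δ'' : τ.Dart, δ.fst = δ''.fst ∧ δ ≠ δ'' ∧ δ' ≠ δ'' := by
  classical
  obtain ⟨⟨p, q⟩, hq⟩ := δ
  obtain ⟨⟨p', q'⟩, hq'⟩ := δ'
  change p = p' at h
  subst h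
  have hne' : q ≠ q' := by
    rintro rfl
    exact hne rfl
  obtain ⟨n1, n2, n3, h12, h13, h23, hN⟩ := Set.ncard_eq_three.mp (hc p)
  have key : ∀ r, τ.Adj p r ↔ r = n1 ∨ r = n2 ∨ r = n3 := by
    intro r
    have : r ∈ τ.neighborSet p ↔ r ∈ ({n1, n2, n3} : Set U) := by rw [hN]
    simpa using this
  have hex : ∃ r, τ.Adj p r ∧ q ≠ r ∧ q' ≠ r := by
    by_cases h1 : q ≠ n1 ∧ q' ≠ n1
    · exact ⟨n1, (key n1).mpr (Or.inl rfl), h1.1, h1.2⟩
    · by_cases h2 : q ≠ n2 ∧ q' ≠ n2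
      · exact ⟨n2, (key n2).mpr (Or.inr (Or.inl rfl)), h2.1, h2.2⟩
      · refine ⟨n3, (key n3).mpr (Or.inr (Or.inr rfl)), ?_, ?_⟩
        · rintro rfl
          grind
        · rintro rfl
          grind
  obtain ⟨r, hr, h1, h2⟩ := hex
  refine ⟨⟨(p, r), hr⟩, rfl, ?_, ?_⟩
  · intro h
    exact h1 (congrArg (fun x : τ.Dart => x.snd) h)
  · intro h
    exact h2 (congrArg (fun x : τ.Dart => x.snd) h)

variable {Q : Type}

lemma m2b_inter_fin (ends : Sym2 U → Sym2 Q) (A B : Set Q) (hA : (cut τ ends A).Finite)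
    (hB : (cut τ ends B).Finite) : (cut τ ends (A ∩ B)).Finite :=
  (hA.union hB).subset (cut_inter_subset ends A B)

lemma m2b_union_fin (ends : Sym2 U → Sym2 Q) (A B : Set Q) (hA : (cut τ ends A).Finite)
    (hB : (cut τ ends B).Finite) : (cut τ ends (A ∪ B)).Finite := by
  have h : A ∪ B = (Aᶜ ∩ Bᶜ)ᶜ := by
    rw [Set.compl_inter, compl_compl, compl_compl]
  rw [h, cut_compl]
  apply m2b_inter_fin
  · rwa [cut_compl]
  · rwa [cut_compl]

lemma m2b_sep (D : TriDual τ Q) (x : Q) (S : Set Q) (hS : S.Finite) (hx : x ∉ S) :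
    ∃ A : Set Q, (cut τ D.ends A).Finite ∧ x ∈ A ∧ ∀ s ∈ S, s ∉ A := by
  induction S, hS using Set.Finite.induction_on with
  | empty =>
    refine ⟨Set.univ, ?_, trivial, fun s hs => absurd hs (Set.notMem_empty s)⟩
    rw [cut_univ]
    exact Set.finite_empty
  | @insert s S hs hSf ih =>
    obtain ⟨A, hA, hxA, hSA⟩ := ih (fun h => hx (Set.mem_insert_of_mem _ h))
    obtain ⟨B, hB, hxB, hsB⟩ := D.red x s (fun h => hx (by rw [h]; exact Set.mem_insert _ _))
    refine ⟨A ∩ B, m2b_inter_fin _ _ _ hA hB, ⟨hxA, hxB⟩, ?_⟩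
    intro t ht htAB
    rcases Set.mem_insert_iff.mp ht with rfl | ht
    · exact hsB htAB.2
    · exact hSA t ht htAB.1

/-- one step of a chain of dual edges avoiding `x` and `y` -/
def M2bRel (D : TriDual τ Q) (x y : Q) (p q : Q) : Prop :=
  (∃ g ∈ τ.edgeSet, D.ends g = s(p, q)) ∧ q ≠ x ∧ q ≠ y

lemma m2b_chain (D : TriDual τ Q) (x y z w : Q) (hzx : z ≠ x) (hzy : z ≠ y)
    (h : Relation.ReflTransGen (M2bRel D x y) z w) :
    ∃ S : Set Q, S.Finite ∧ z ∈ S ∧ w ∈ S ∧ x ∉ S ∧ y ∉ S ∧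
      ∀ C : Set Q, (∀ g ∈ cut τ D.ends C, ∃ p ∈ D.ends g, p ∉ S) → (z ∈ C ↔ w ∈ C) := by
  induction h with
  | refl =>
    exact ⟨{z}, Set.finite_singleton z, rfl, rfl, fun h => hzx (Set.mem_singleton_iff.mp h).symm,
      fun h => hzy (Set.mem_singleton_iff.mp h).symm, fun C _ => Iff.rfl⟩
  | @tail b c _ hbc ih =>
    obtain ⟨S, hS, hz, hb, hx, hy, hC⟩ := ih
    obtain ⟨⟨g, hg, hge⟩, hcx, hcy⟩ := hbc
    refine ⟨insert c S, hS.insert c, Set.mem_insert_of_mem _ hz, Set.mem_insert _ _, ?_, ?_, ?_⟩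
    · intro h
      rcases Set.mem_insert_iff.mp h with h | h
      · exact hcx h.symm
      · exact hx h
    · intro h
      rcases Set.mem_insert_iff.mp h with h | h
      · exact hcy h.symm
      · exact hy h
    · intro C hcut
      have h1 : z ∈ C ↔ b ∈ C := by
        apply hC
        intro g' hg'
        obtain ⟨p, hp, hpS⟩ := hcut g' hg'
        exact ⟨p, hp, fun h => hpS (Set.mem_insert_of_mem _ h)⟩
      have h2 : g ∉ cut τ D.ends C := by
        intro hgc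
        obtain ⟨p, hp, hpS⟩ := hcut g hgc
        rw [hge, Sym2.mem_iff] at hp
        rcases hp with rfl | rfl
        · exact hpS (Set.mem_insert_of_mem _ hb)
        · exact hpS (Set.mem_insert _ _)
      rw [mem_cut_iff hge] at h2
      rw [h1]
      tauto

lemma m2b_conn (hc : IsCubic τ) (hcut : NoSmallCut τ) (D : TriDual τ Q)
    (δe δe' a b c dd : τ.Dart)
    (ha : δe.fst = a.fst) (hb : δe.fst = b.fst) (hea : δe ≠ a) (heb : δe ≠ b) (hab : a ≠ b)
    (hcc : δe'.fst = c.fst) (hdd : δe'.fst = dd.fst) (hec : δe' ≠ c) (hed : δe' ≠ dd)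
    (hcd : c ≠ dd) (h1 : D.pt b = D.pt dd) (h2 : D.pt a = D.pt c) :
    Relation.ReflTransGen (M2bRel D (D.pt b) (D.pt a)) (D.pt δe) (D.pt δe') := by
  classical
  obtain ⟨e1, e2, e3, e4⟩ := D.tri δe a b ha hb hea heb hab
  obtain ⟨f1, f2, f3, f4⟩ := D.tri δe' c dd hcc hdd hec hed hcd
  by_contra hcon
  set T : Set Q := {t | Relation.ReflTransGen (M2bRel D (D.pt b) (D.pt a)) (D.pt δe) t} with hT
  have hzT : D.pt δe ∈ T := Relation.ReflTransGen.refl
  have hwT : D.pt δe' ∉ T := hcon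
  have hTxy : ∀ t ∈ T, t ≠ D.pt b ∧ t ≠ D.pt a := by
    intro t ht
    have ht : Relation.ReflTransGen (M2bRel D (D.pt b) (D.pt a)) (D.pt δe) t := ht
    rcases Relation.ReflTransGen.cases_tail ht with h | ⟨s, -, hs⟩
    · rw [h]
      exact ⟨e3, e2⟩
    · exact ⟨hs.2.1, hs.2.2⟩
  have hstep : ∀ t ∈ T, ∀ s : Q, (∃ g ∈ τ.edgeSet, D.ends g = s(t, s)) → s ∉ T →
      s = D.pt b ∨ s = D.pt a := by
    intro t ht s hg hs
    by_contra hcs
    push Not at hcs
    exact hs (Relation.ReflTransGen.tail ht ⟨hg, hcs.1, hcs.2⟩)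
  set V1 : Set U := {p | ∃ δ : τ.Dart, δ.fst = p ∧ D.pt δ ∈ T} with hV1
  have huV : δe.fst ∈ V1 := ⟨δe, rfl, hzT⟩
  have hvV : δe'.fst ∉ V1 := by
    rintro ⟨δ, hδ, hδT⟩
    by_cases h3 : δ = δe'
    · rw [h3] at hδT
      exact hwT hδT
    · by_cases h4 : δ = c
      · rw [h4, ← h2] at hδT
        exact (hTxy _ hδT).2 rfl
      · by_cases h5 : δ = dd
        · rw [h5, ← h1] at hδT
          exact (hTxy _ hδT).1 rfl
        · -- four darts at a vertex of degree three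
          have hN := hc δe'.fst
          have hsub : ({δe'.snd, c.snd, dd.snd, δ.snd} : Finset U) ⊆
              (Set.finite_of_ncard_ne_zero (by rw [hN]; norm_num) :
                (τ.neighborSet δe'.fst).Finite).toFinset := by
            intro r hr
            rw [Set.Finite.mem_toFinset]
            simp only [Finset.mem_insert, Finset.mem_singleton] at hr
            rcases hr with rfl | rfl | rfl | rfl
            · exact δe'.adj
            · rw [mem_neighborSet, hcc]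
              exact c.adj
            · rw [mem_neighborSet, hdd]
              exact dd.adj
            · rw [mem_neighborSet, ← hδ]
              exact δ.adj
          have hcard := Finset.card_le_card hsub
          rw [← Set.ncard_eq_toFinset_card _ _, hN] at hcard
          have inj : ∀ α β : τ.Dart, α.fst = β.fst → α ≠ β → α.snd ≠ β.snd := by
            intro α β h h' h''
            exact h' (SimpleGraph.Dart.ext _ _ (Prod.ext h h''))
          rw [Finset.card_insert_of_notMem, Finset.card_insert_of_notMem,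
            Finset.card_insert_of_notMem, Finset.card_singleton] at hcard
          · omega
          · rw [Finset.mem_singleton]
            exact inj _ _ (by rw [← hdd, hδ]) (Ne.symm h5)
          · rw [Finset.mem_insert, Finset.mem_singleton]
            push Not
            exact ⟨inj _ _ (by rw [← hcc, hdd]) hcd, inj _ _ (by rw [← hcc, hδ]) (Ne.symm h4)⟩
          · rw [Finset.mem_insert, Finset.mem_insert, Finset.mem_singleton]
            push Not
            exact ⟨inj _ _ hcc hec, inj _ _ hdd hed, inj _ _ hδ.symm (Ne.symm h3)⟩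
  have hbd : bdry τ V1 ⊆ {δe.edge} := by
    rintro g ⟨hg, ⟨p, hp, hpV⟩, ⟨q, hq, hqV⟩⟩
    have hpq : p ≠ q := fun h => hqV (h ▸ hpV)
    have hgpq : g = s(p, q) := (Sym2.mem_and_mem_iff hpq).mp ⟨hp, hq⟩
    subst hgpq
    have hadj : τ.Adj p q := hg
    obtain ⟨δ, hδ, hδT⟩ := hpV
    -- the dart from p to q
    let γ : τ.Dart := ⟨(p, q), hadj⟩
    let γ' : τ.Dart := ⟨(q, p), hadj.symm⟩
    have hγ' : γ'.edge = s(p, q) := Sym2.eq_swap
    have hcor : ∀ ε : τ.Dart, ε.fst = q → D.pt ε ∉ T := fun ε hε h => hqV ⟨ε, hε, h⟩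
    -- ends of g seen from q are not in T
    have hendT : ∀ t ∈ D.ends s(p, q), t ∉ T := by
      obtain ⟨n1, n2, n3, h12, h13, h23, hN⟩ := Set.ncard_eq_three.mp (hc q)
      obtain ⟨ε1, hε1, hε1'⟩ : ∃ ε : τ.Dart, γ'.fst = ε.fst ∧ γ' ≠ ε := by
        have : ∃ r, τ.Adj q r ∧ r ≠ p := by
          by_cases h : n1 = p
          · refine ⟨n2, ?_, fun h' => h12 (h.trans h'.symm)⟩
            have : n2 ∈ τ.neighborSet q := by rw [hN]; simp
            exact this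
          · refine ⟨n1, ?_, h⟩
            have : n1 ∈ τ.neighborSet q := by rw [hN]; simp
            exact this
        obtain ⟨r, hr, hrp⟩ := this
        exact ⟨⟨(q, r), hr⟩, rfl, fun h => hrp (congrArg (fun x : τ.Dart => x.snd) h).symm⟩
      obtain ⟨ε2, hε2, hε2', hε2''⟩ := m2b_third hc γ' ε1 hε1 hε1'
      obtain ⟨g1, -, -, -⟩ := D.tri γ' ε1 ε2 hε1 hε2 hε1' hε2' hε2''
      rw [hγ'] at g1
      intro t ht
      rw [g1, Sym2.mem_iff] at ht
      rcases ht with rfl | rfl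
      · exact hcor _ hε1.symm
      · exact hcor _ hε2.symm
    by_cases hδγ : γ = δ
    · -- the corner in T is the one opposite to g
      obtain ⟨n1, n2, n3, h12, h13, h23, hN⟩ := Set.ncard_eq_three.mp (hc p)
      obtain ⟨ε1, hε1, hε1'⟩ : ∃ ε : τ.Dart, γ.fst = ε.fst ∧ γ ≠ ε := by
        have : ∃ r, τ.Adj p r ∧ r ≠ q := by
          by_cases h : n1 = q
          · refine ⟨n2, ?_, fun h' => h12 (h.trans h'.symm)⟩
            have : n2 ∈ τ.neighborSet p := by rw [hN]; simp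
            exact this
          · refine ⟨n1, ?_, h⟩
            have : n1 ∈ τ.neighborSet p := by rw [hN]; simp
            exact this
        obtain ⟨r, hr, hrp⟩ := this
        exact ⟨⟨(p, r), hr⟩, rfl, fun h => hrp (congrArg (fun x : τ.Dart => x.snd) h).symm⟩
      obtain ⟨ε2, hε2, hε2', hε2''⟩ := m2b_third hc γ ε1 hε1 hε1'
      obtain ⟨g1, g2, g3, g4⟩ := D.tri γ ε1 ε2 hε1 hε2 hε1' hε2' hε2''
      have g1 : D.ends s(p, q) = s(D.pt ε1, D.pt ε2) := g1
      obtain ⟨k1, -, -, -⟩ := D.tri ε1 γ ε2 hε1.symm (hε1.symm.trans hε2) hε1'.symm hε2'' hε2'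
      obtain ⟨k2, -, -, -⟩ := D.tri ε2 γ ε1 hε2.symm (hε2.symm.trans hε1) hε2'.symm hε2''.symm hε1'
      have hγT : D.pt γ ∈ T := by rw [hδγ]; exact hδT
      have m1 : D.pt ε1 ∉ T := hendT _ (by rw [g1]; exact Sym2.mem_mk_left _ _)
      have m2 : D.pt ε2 ∉ T := hendT _ (by rw [g1]; exact Sym2.mem_mk_right _ _)
      have j2 := hstep _ hγT (D.pt ε2) ⟨ε1.edge, ε1.edge_mem, k1⟩ m2
      have j1 := hstep _ hγT (D.pt ε1) ⟨ε2.edge, ε2.edge_mem, k2⟩ m1
      have hends : D.ends s(p, q) = D.ends δe.edge := by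
        rw [g1, e1]
        rcases j1 with j1 | j1 <;> rcases j2 with j2 | j2
        · exact absurd (j1.trans j2.symm) g4
        · rw [j1, j2]
          exact Sym2.eq_swap
        · rw [j1, j2]
        · exact absurd (j1.trans j2.symm) g4
      exact D.nopar _ hg _ δe.edge_mem hends
    · exfalso
      have hfst : γ.fst = δ.fst := hδ.symm
      obtain ⟨ε2, hε2, hε2', hε2''⟩ := m2b_third hc γ δ hfst hδγ
      obtain ⟨g1, -, -, -⟩ := D.tri γ δ ε2 hfst hε2 hδγ hε2' hε2''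
      have g1 : D.ends s(p, q) = s(D.pt δ, D.pt ε2) := g1
      exact hendT _ (by rw [g1]; exact Sym2.mem_mk_left _ _) hδT
  have h3 := hcut V1 ⟨_, huV⟩ ⟨δe'.fst, hvV⟩ ((Set.finite_singleton _).subset hbd)
  have h4 := Set.ncard_le_ncard hbd (Set.finite_singleton _)
  rw [Set.ncard_singleton] at h4
  omega

end

theorem m2b : TaskM2b := by
  intro U Q1 Q2 τ D1 D2 hc _ hcut d d' huv hd hd' hpt
  by_contra hcon
  let δe : τ.Dart := ⟨(d.fst, d'.fst), huv⟩
  let δe' : τ.Dart := ⟨(d'.fst, d.fst), huv.symm⟩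
  have hde : δe ≠ d := fun h => hd (congrArg (fun x : τ.Dart => x.snd) h).symm
  have hde' : δe' ≠ d' := fun h => hd' (congrArg (fun x : τ.Dart => x.snd) h).symm
  obtain ⟨a, ha1, ha2, ha3⟩ := m2b_third hc δe d rfl hde
  obtain ⟨c, hc1, hc2, hc3⟩ := m2b_third hc δe' d' rfl hde'
  have hedge : δe'.edge = δe.edge := Sym2.eq_swap
  have had : d.fst = a.fst := ha1
  have hcd' : d'.fst = c.fst := hc1
  -- triangles in D1
  obtain ⟨t1, t2, t3, t4⟩ := D1.tri δe d a rfl ha1 hde ha2 ha3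
  obtain ⟨s1, s2, s3, s4⟩ := D1.tri δe' d' c rfl hc1 hde' hc2 hc3
  have tA := (D1.tri a δe d had.symm had.symm ha2.symm ha3.symm hde).1
  have tD := (D1.tri d δe a rfl had hde.symm ha3 ha2).1
  have tC := (D1.tri c δe' d' hcd'.symm hcd'.symm hc2.symm hc3.symm hde').1
  have tD' := (D1.tri d' δe' c rfl hcd' hde'.symm hc3 hc2).1
  have hac : D1.pt a = D1.pt c := by
    rw [hedge, t1, hpt] at s1
    rcases Sym2.eq_iff.mp s1 with ⟨-, h⟩ | ⟨h1, h2⟩
    · exact h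
    · exact h2.trans h1
  -- triangles in D2
  obtain ⟨T1, T2, T3, T4⟩ := D2.tri δe d a rfl ha1 hde ha2 ha3
  obtain ⟨S1, S2, S3, S4⟩ := D2.tri δe' d' c rfl hc1 hde' hc2 hc3
  have TA := (D2.tri a δe d had.symm had.symm ha2.symm ha3.symm hde).1
  have TD := (D2.tri d δe a rfl had hde.symm ha3 ha2).1
  have TC := (D2.tri c δe' d' hcd'.symm hcd'.symm hc2.symm hc3.symm hde').1
  have TD' := (D2.tri d' δe' c rfl hcd' hde'.symm hc3 hc2).1
  obtain ⟨hdc, had2⟩ : D2.pt d = D2.pt c ∧ D2.pt a = D2.pt d' := by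
    rw [hedge, T1] at S1
    rcases Sym2.eq_iff.mp S1 with ⟨h, -⟩ | ⟨h1, h2⟩
    · exact absurd h hcon
    · exact ⟨h1, h2⟩
  -- the chain
  have hch := m2b_conn hc hcut D1 δe δe' a d c d' ha1 rfl ha2 hde ha3.symm hc1 rfl hc2 hde'
    hc3.symm hpt hac
  obtain ⟨S, hS, hz, hw, hx, hy, hC⟩ := m2b_chain D1 _ _ _ _ t2 t3 hch
  -- the set A
  obtain ⟨Ax, hAx, hxAx, hSAx⟩ := m2b_sep D1 _ S hS hx
  obtain ⟨Ay, hAy, hyAy, hSAy⟩ := m2b_sep D1 _ S hS hy
  set A : Set Q1 := Ax ∪ Ay with hA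
  have hAfin : (cut τ D1.ends A).Finite := m2b_union_fin _ _ _ hAx hAy
  have hxA : D1.pt d ∈ A := Or.inl hxAx
  have hyA : D1.pt a ∈ A := Or.inr hyAy
  have hSA : ∀ s ∈ S, s ∉ A := by
    rintro s hs (h | h)
    · exact hSAx s hs h
    · exact hSAy s hs h
  -- the set B
  obtain ⟨B, hBfin, hxB, hSB⟩ := m2b_sep D1 (D1.pt d) (insert (D1.pt a) S) (hS.insert _) (by
    intro h
    rcases Set.mem_insert_iff.mp h with h | h
    · exact t4 h
    · exact hx h)
  have hyB : D1.pt a ∉ B := hSB _ (Set.mem_insert _ _)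
  have hSB : ∀ s ∈ S, s ∉ B := fun s hs => hSB s (Set.mem_insert_of_mem _ hs)
  have hzA := hSA _ hz
  have hwA := hSA _ hw
  have hzB := hSB _ hz
  have hwB := hSB _ hw
  have hem : ∀ δ : τ.Dart, δ.edge ∈ τ.edgeSet := fun δ => δ.edge_mem
  -- transfer to D2, with a choice of sides
  have trans : ∀ X : Set Q1, (cut τ D1.ends X).Finite → ∃ X' : Set Q2,
      cut τ D2.ends X' = cut τ D1.ends X ∧ D2.pt d ∈ X' := by
    intro X hX
    obtain ⟨X', hX'⟩ := D2.even_cut _ hX (D1.cut_even X hX)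
    by_cases h : D2.pt d ∈ X'
    · exact ⟨X', hX', h⟩
    · exact ⟨X'ᶜ, by rw [cut_compl, hX'], h⟩
  obtain ⟨A', hA', hpA'⟩ := trans A hAfin
  obtain ⟨B', hB', hpB'⟩ := trans B hBfin
  -- memberships of the five edges
  have a1 : δe.edge ∉ cut τ D2.ends A' := by
    rw [hA', mem_cut_iff t1]
    rintro ⟨-, ⟨-, h⟩ | ⟨h, -⟩⟩
    · exact h hyA
    · exact h hxA
  have a2 : a.edge ∈ cut τ D2.ends A' := by
    rw [hA', mem_cut_iff tA]
    exact ⟨hem _, Or.inr ⟨hzA, hxA⟩⟩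
  have a3 : c.edge ∈ cut τ D2.ends A' := by
    rw [hA', mem_cut_iff tC]
    exact ⟨hem _, Or.inr ⟨hwA, by rw [← hpt]; exact hxA⟩⟩
  have b1 : δe.edge ∈ cut τ D2.ends B' := by
    rw [hB', mem_cut_iff t1]
    exact ⟨hem _, Or.inl ⟨hxB, hyB⟩⟩
  rw [mem_cut_iff T1] at a1 b1
  rw [mem_cut_iff TA] at a2
  rw [mem_cut_iff TC] at a3
  have he := hem δe
  have hqA' : D2.pt a ∈ A' := by
    by_contra h
    exact a1 ⟨he, Or.inl ⟨hpA', h⟩⟩
  have hzA' : D2.pt δe ∉ A' := by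
    rcases a2 with ⟨-, ⟨-, h⟩ | ⟨h, -⟩⟩
    · exact absurd hpA' h
    · exact h
  have hqB' : D2.pt a ∉ B' := by
    rcases b1 with ⟨-, ⟨-, h⟩ | ⟨h, -⟩⟩
    · exact h
    · exact absurd hpB' h
  have hwA' : D2.pt δe' ∉ A' := by
    rw [← had2] at a3
    rcases a3 with ⟨-, ⟨-, h⟩ | ⟨h, -⟩⟩
    · exact absurd hqA' h
    · exact h
  -- the corner
  have hEfin : (cut τ D2.ends (A' ∩ B')).Finite := by
    apply m2b_inter_fin
    · rw [hA']; exact hAfin
    · rw [hB']; exact hBfin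
  obtain ⟨C, hCe⟩ := D1.even_cut _ hEfin (D2.cut_even _ hEfin)
  have hzw : D1.pt δe ∈ C ↔ D1.pt δe' ∈ C := by
    apply hC
    intro g hg
    rw [hCe] at hg
    have hg' := cut_inter_subset D2.ends A' B' hg
    rw [hA', hB'] at hg'
    rcases hg' with hg' | hg'
    · obtain ⟨-, ⟨p, hp, hpA⟩, -⟩ := hg'
      exact ⟨p, hp, fun h => hSA p h hpA⟩
    · obtain ⟨-, ⟨p, hp, hpB⟩, -⟩ := hg'
      exact ⟨p, hp, fun h => hSB p h hpB⟩
  have c1 : δe.edge ∈ cut τ D1.ends C := by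
    rw [hCe, mem_cut_iff T1]
    exact ⟨hem _, Or.inl ⟨⟨hpA', hpB'⟩, fun h => hqB' h.2⟩⟩
  have c2 : d.edge ∉ cut τ D1.ends C := by
    rw [hCe, mem_cut_iff TD]
    rintro ⟨-, ⟨h, -⟩ | ⟨-, h⟩⟩
    · exact hzA' h.1
    · exact hqB' h.2
  have c3 : c.edge ∉ cut τ D1.ends C := by
    rw [hCe, mem_cut_iff TC]
    rintro ⟨-, ⟨h, -⟩ | ⟨-, h⟩⟩
    · exact hwA' h.1
    · rw [← had2] at h
      exact hqB' h.2
  rw [mem_cut_iff t1] at c1
  rw [mem_cut_iff tD] at c2
  rw [mem_cut_iff tC, ← hpt] at c3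
  have k2 : D1.pt δe ∈ C ↔ D1.pt a ∈ C := by
    constructor
    · intro h
      by_contra h'
      exact c2 ⟨hem d, Or.inl ⟨h, h'⟩⟩
    · intro h
      by_contra h'
      exact c2 ⟨hem d, Or.inr ⟨h', h⟩⟩
  have k3 : D1.pt δe' ∈ C ↔ D1.pt d ∈ C := by
    constructor
    · intro h
      by_contra h'
      exact c3 ⟨hem c, Or.inl ⟨h, h'⟩⟩
    · intro h
      by_contra h'
      exact c3 ⟨hem c, Or.inr ⟨h', h⟩⟩
  rcases c1 with ⟨-, ⟨h, h'⟩ | ⟨h, h'⟩⟩
  · exact h' (k2.mp (hzw.mpr (k3.mpr h)))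
  · exact h (k3.mp (hzw.mp (k2.mpr h')))

end H279R3
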