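import Pool.Agent.H279R3.Stmts

/-!
# Task M2c (helper853): a dual respected by all automorphisms
-/

set_option autoImplicit false

namespace H279R3

open SimpleGraph

namespace M2cAux

variable {U Q : Type} {τ : SimpleGraph U}

lemma darts3 (hc : IsCubic τ) (v : U) : ∃ d1 d2 d3 : τ.Dart, d1.fst = v ∧ d2.fst = v ∧ d3.fst = v ∧
    d1 ≠ d2 ∧ d1 ≠ d3 ∧ d2 ≠ d3 ∧ ∀ d : τ.Dart, d.fst = v → d = d1 ∨ d = d2 ∨ d = d3 := by
  obtain ⟨x, y, z, hxy, hxz, hyz, h⟩ := Set.ncard_eq_three.mp (hc v)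
  have hx : τ.Adj v x := by
    have : x ∈ τ.neighborSet v := by rw [h]; simp
    exact this
  have hy : τ.Adj v y := by
    have : y ∈ τ.neighborSet v := by rw [h]; simp
    exact this
  have hz : τ.Adj v z := by
    have : z ∈ τ.neighborSet v := by rw [h]; simp
    exact this
  refine ⟨⟨(v, x), hx⟩, ⟨(v, y), hy⟩, ⟨(v, z), hz⟩, rfl, rfl, rfl, ?_, ?_, ?_, ?_⟩
  · intro he
    exact hxy (congrArg (fun d : τ.Dart => d.snd) he)
  · intro he
    exact hxz (congrArg (fun d : τ.Dart => d.snd) he)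
  · intro he
    exact hyz (congrArg (fun d : τ.Dart => d.snd) he)
  · rintro ⟨⟨a, b⟩, hab⟩ hav
    change a = v at hav
    subst hav
    have hb : b ∈ τ.neighborSet a := hab
    rw [h] at hb
    rcases hb with rfl | rfl | rfl
    · exact Or.inl rfl
    · exact Or.inr (Or.inl rfl)
    · exact Or.inr (Or.inr rfl)

lemma others (hc : IsCubic τ) (δ : τ.Dart) : ∃ d' d'' : τ.Dart, d'.fst = δ.fst ∧ d''.fst = δ.fst ∧
    d' ≠ δ ∧ d'' ≠ δ ∧ d' ≠ d'' ∧ ∀ d : τ.Dart, d.fst = δ.fst → d = δ ∨ d = d' ∨ d = d'' := by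
  obtain ⟨d1, d2, d3, h1, h2, h3, h12, h13, h23, hall⟩ := darts3 hc δ.fst
  rcases hall δ rfl with h | h | h
  · subst h
    exact ⟨d2, d3, h2, h3, h12.symm, h13.symm, h23, hall⟩
  · subst h
    refine ⟨d1, d3, h1, h3, h12, h23.symm, h13, fun d hd => ?_⟩
    rcases hall d hd with h | h | h
    · exact Or.inr (Or.inl h)
    · exact Or.inl h
    · exact Or.inr (Or.inr h)
  · subst h
    refine ⟨d1, d2, h1, h2, h13, h23, h12, fun d hd => ?_⟩
    rcases hall d hd with h | h | h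
    · exact Or.inr (Or.inl h)
    · exact Or.inr (Or.inr h)
    · exact Or.inl h

/-- the corner relation -/
def R (D : TriDual τ Q) (d d' : τ.Dart) : Prop :=
  τ.Adj d.fst d'.fst ∧ d.snd ≠ d'.fst ∧ d'.snd ≠ d.fst ∧ D.pt d = D.pt d'

/-- corners modulo the pairing -/
abbrev KK (D : TriDual τ Q) : Type := Quot (R D)

/-- class of a dart -/
def mk (D : TriDual τ Q) (d : τ.Dart) : KK D := Quot.mk _ d

lemma snd_ne {d d' : τ.Dart} (h : d.fst = d'.fst) (hne : d ≠ d') : d.snd ≠ d'.snd := by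
  intro hs
  exact hne (Dart.ext _ _ (Prod.ext h hs))

lemma key (D : TriDual τ Q) (hc : IsCubic τ) (e : Sym2 U) (he : e ∈ τ.edgeSet) :
    ∃ p : Sym2 (KK D), ∀ δ : τ.Dart, δ.edge = e → ∀ d' d'' : τ.Dart, d'.fst = δ.fst →
      d''.fst = δ.fst → d' ≠ δ → d'' ≠ δ → d' ≠ d'' → p = s(mk D d', mk D d'') := by
  obtain ⟨δ0, hδ0⟩ : ∃ δ0 : τ.Dart, δ0.edge = e := by
    induction e using Sym2.ind with
    | _ a b => exact ⟨⟨(a, b), he⟩, rfl⟩
  obtain ⟨a, b, ha, hb, haδ, hbδ, hab, hall⟩ := others hc δ0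
  refine ⟨s(mk D a, mk D b), fun δ hδ d1 d2 h1 h2 h1δ h2δ h12 => ?_⟩
  rcases dart_edge_eq_iff δ δ0 |>.mp (hδ.trans hδ0.symm) with h | h
  · subst h
    rcases hall d1 h1 with h | h | h
    · exact absurd h h1δ
    · subst h
      rcases hall d2 h2 with h | h | h
      · exact absurd h h2δ
      · exact absurd h.symm h12
      · rw [h]
    · subst h
      rcases hall d2 h2 with h | h | h
      · exact absurd h h2δ
      · rw [h, Sym2.eq_swap]
      · exact absurd h.symm h12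
  · have e1 := (D.tri δ0 a b ha.symm hb.symm haδ.symm hbδ.symm hab).1
    have e2 := (D.tri δ d1 d2 h1.symm h2.symm h1δ.symm h2δ.symm h12).1
    have hfst : δ.fst = δ0.snd := by rw [h]; rfl
    have hsnd : δ.snd = δ0.fst := by rw [h]; rfl
    rw [hδ0] at e1
    rw [hδ, e1] at e2
    have hR : ∀ x y : τ.Dart, x.fst = δ0.fst → x ≠ δ0 → y.fst = δ.fst → y ≠ δ →
        D.pt x = D.pt y → mk D x = mk D y := by
      intro x y hx hxδ hy hyδ hxy
      refine Quot.sound ⟨?_, ?_, ?_, hxy⟩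
      · rw [hx, hy, hfst]
        exact δ0.adj
      · rw [hy, hfst]
        exact snd_ne hx hxδ
      · rw [hx, ← hsnd]
        exact snd_ne hy hyδ
    rcases Sym2.eq_iff.mp e2 with ⟨p1, p2⟩ | ⟨p1, p2⟩
    · rw [hR a d1 ha haδ h1 h1δ p1, hR b d2 hb hbδ h2 h2δ p2]
    · rw [hR a d2 ha haδ h2 h2δ p1, hR b d1 hb hbδ h1 h1δ p2, Sym2.eq_swap]

open Classical in
/-- the ends in the new dual -/
noncomputable def ends' (D : TriDual τ Q) (hc : IsCubic τ) (k : KK D) (e : Sym2 U) : Sym2 (KK D) :=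
  if he : e ∈ τ.edgeSet then (key D hc e he).choose else s(k, k)

lemma ends'_eq (D : TriDual τ Q) (hc : IsCubic τ) (k : KK D) (δ d' d'' : τ.Dart)
    (h1 : d'.fst = δ.fst) (h2 : d''.fst = δ.fst) (h3 : d' ≠ δ) (h4 : d'' ≠ δ) (h5 : d' ≠ d'') :
    ends' D hc k δ.edge = s(mk D d', mk D d'') := by
  unfold ends'
  rw [dif_pos δ.edge_mem]
  exact (key D hc δ.edge δ.edge_mem).choose_spec δ rfl d' d'' h1 h2 h3 h4 h5

lemma mem_cut' (D : TriDual τ Q) (hc : IsCubic τ) (k : KK D) (A : Set (KK D)) (δ d' d'' : τ.Dart)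
    (h1 : d'.fst = δ.fst) (h2 : d''.fst = δ.fst) (h3 : d' ≠ δ) (h4 : d'' ≠ δ) (h5 : d' ≠ d'') :
    δ.edge ∈ cut τ (ends' D hc k) A ↔
      ((mk D d' ∈ A ∧ mk D d'' ∉ A) ∨ (mk D d' ∉ A ∧ mk D d'' ∈ A)) := by
  rw [mem_cut_iff (ends'_eq D hc k δ d' d'' h1 h2 h3 h4 h5)]
  exact and_iff_right δ.edge_mem

lemma exists_dart {e : Sym2 U} (he : e ∈ τ.edgeSet) : ∃ δ : τ.Dart, δ.edge = e := by
  induction e using Sym2.ind with
  | _ a b => exact ⟨⟨(a, b), he⟩, rfl⟩

lemma conn' (D : TriDual τ Q) (hc : IsCubic τ) (hconn : τ.Connected) (k : KK D) (A : Set (KK D))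
    (h0 : cut τ (ends' D hc k) A = ∅) : A = ∅ ∨ A = Set.univ := by
  -- darts at the same vertex
  have same : ∀ d d' : τ.Dart, d.fst = d'.fst → (mk D d ∈ A ↔ mk D d' ∈ A) := by
    intro d d' hdd
    by_cases hne : d = d'
    · rw [hne]
    · obtain ⟨d1, d2, h1, h2, h1δ, h2δ, h12, hall⟩ := others hc d
      have hthird : ∃ δ : τ.Dart, δ.fst = d.fst ∧ δ ≠ d ∧ δ ≠ d' := by
        by_cases hh : d' = d1
        · exact ⟨d2, h2, h2δ, by rw [hh]; exact h12.symm⟩
        · exact ⟨d1, h1, h1δ, fun h => hh h.symm⟩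
      obtain ⟨δ, hδ, hδd, hδd'⟩ := hthird
      have hm := mem_cut' D hc k A δ d d' hδ.symm (by rw [hδ, hdd]) hδd.symm hδd'.symm hne
      rw [h0] at hm
      have := hm.not.mp (Set.notMem_empty _)
      tauto
  -- across an edge
  have across : ∀ u v : U, τ.Adj u v → ∃ d d' : τ.Dart, d.fst = u ∧ d'.fst = v ∧
      mk D d = mk D d' := by
    intro u v huv
    set δ : τ.Dart := ⟨(u, v), huv⟩ with hδ
    obtain ⟨a, b, ha, hb, haδ, hbδ, hab, -⟩ := others hc δ
    obtain ⟨c, d, hc1, hd1, hcδ, hdδ, hcd, -⟩ := others hc δ.symm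
    have e1 := ends'_eq D hc k δ a b ha hb haδ hbδ hab
    have e2 := ends'_eq D hc k δ.symm c d hc1 hd1 hcδ hdδ hcd
    rw [Dart.edge_symm, e1] at e2
    rcases Sym2.eq_iff.mp e2 with ⟨p1, p2⟩ | ⟨p1, p2⟩
    · exact ⟨a, c, ha, hc1, p1⟩
    · exact ⟨a, d, ha, hd1, p1⟩
  have all : ∀ d d' : τ.Dart, (mk D d ∈ A ↔ mk D d' ∈ A) := by
    have hw : ∀ {u v : U} (p : τ.Walk u v), ∀ d d' : τ.Dart, d.fst = u → d'.fst = v →
        (mk D d ∈ A ↔ mk D d' ∈ A) := by
      intro u v p
      induction p with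
      | nil =>
        intro d d' h1 h2
        exact same d d' (h1.trans h2.symm)
      | @cons a b c h p ih =>
        intro d d' h1 h2
        obtain ⟨x, y, hx, hy, hxy⟩ := across a b h
        rw [same d x (h1.trans hx.symm), hxy]
        exact ih y d' hy h2
    intro d d'
    obtain ⟨p⟩ := hconn.preconnected d.fst d'.fst
    exact hw p d d' rfl rfl
  rcases A.eq_empty_or_nonempty with h | ⟨x, hx⟩
  · exact Or.inl h
  · right
    ext y
    simp only [Set.mem_univ, iff_true]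
    induction x using Quot.ind with
    | _ dx =>
      induction y using Quot.ind with
      | _ dy => exact (all dx dy).mp hx

lemma cut_even' (D : TriDual τ Q) (hc : IsCubic τ) (k : KK D) (A : Set (KK D)) :
    EvenSet τ (cut τ (ends' D hc k) A) := by
  classical
  refine ⟨fun e he => he.1, fun v => ?_⟩
  obtain ⟨d1, d2, d3, h1, h2, h3, h12, h13, h23, hall⟩ := darts3 hc v
  have m1 := mem_cut' D hc k A d1 d2 d3 (h2.trans h1.symm) (h3.trans h1.symm) h12.symm h13.symm h23
  have m2 := mem_cut' D hc k A d2 d1 d3 (h1.trans h2.symm) (h3.trans h2.symm) h12 h23.symm h13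
  have m3 := mem_cut' D hc k A d3 d1 d2 (h1.trans h3.symm) (h2.trans h3.symm) h13 h23 h12
  have v1 : v ∈ d1.edge := by
    have := Sym2.mem_mk_left d1.fst d1.snd
    rw [h1] at this
    rw [← h1] at this ⊢
    exact this
  have v2 : v ∈ d2.edge := by
    have := Sym2.mem_mk_left d2.fst d2.snd
    rw [← h2]
    exact this
  have v3 : v ∈ d3.edge := by
    have := Sym2.mem_mk_left d3.fst d3.snd
    rw [← h3]
    exact this
  have hne : ∀ x y : τ.Dart, x.fst = v → y.fst = v → x ≠ y → x.edge ≠ y.edge := by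
    intro x y hx hy hxy he
    rcases dart_edge_eq_iff x y |>.mp he with h | h
    · exact hxy h
    · have hs : x.fst = y.snd := by rw [h]; rfl
      have := y.adj.ne
      exact this (by rw [← hs, hx, hy])
  have n12 := hne d1 d2 h1 h2 h12
  have n13 := hne d1 d3 h1 h3 h13
  have n23 := hne d2 d3 h2 h3 h23
  have hsub : ∀ e, e ∈ cut τ (ends' D hc k) A → v ∈ e → e = d1.edge ∨ e = d2.edge ∨ e = d3.edge := by
    intro e he hv
    obtain ⟨w, rfl⟩ := Sym2.mem_iff_exists.mp hv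
    have hadj : τ.Adj v w := he.1
    rcases hall ⟨(v, w), hadj⟩ rfl with h | h | h
    · exact Or.inl (by rw [← h]; rfl)
    · exact Or.inr (Or.inl (by rw [← h]; rfl))
    · exact Or.inr (Or.inr (by rw [← h]; rfl))
  set C := cut τ (ends' D hc k) A with hC
  have hset : C ∩ {e | v ∈ e} =
      (((({d1.edge, d2.edge, d3.edge} : Finset (Sym2 U)).filter (fun e => e ∈ C)) : Finset (Sym2 U)) :
        Set (Sym2 U)) := by
    ext e
    simp only [Set.mem_inter_iff, Set.mem_setOf_eq, Finset.coe_filter, Finset.mem_insert,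
      Finset.mem_singleton]
    constructor
    · rintro ⟨he, hv⟩
      exact ⟨hsub e he hv, he⟩
    · rintro ⟨rfl | rfl | rfl, he⟩
      · exact ⟨he, v1⟩
      · exact ⟨he, v2⟩
      · exact ⟨he, v3⟩
  rw [hset, Set.ncard_coe_finset, Finset.filter_insert, Finset.filter_insert,
    Finset.filter_singleton]
  by_cases x1 : mk D d1 ∈ A <;> by_cases x2 : mk D d2 ∈ A <;> by_cases x3 : mk D d3 ∈ A <;>
    simp only [x1, x2, x3, not_true, not_false_iff, and_true, and_false, true_and, false_and,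
      or_false, false_or, or_true, true_or, iff_true, iff_false] at m1 m2 m3 <;>
    simp [m1, m2, m3, n12, n13, n23, n12.symm, n13.symm, n23.symm]

lemma even_cut' (D : TriDual τ Q) (hc : IsCubic τ) (k : KK D) (F : Set (Sym2 U)) (hF : F.Finite)
    (hE : EvenSet τ F) : ∃ A : Set (KK D), cut τ (ends' D hc k) A = F := by
  obtain ⟨A, hA⟩ := D.even_cut F hF hE
  refine ⟨{x : KK D | Quot.lift (fun d => D.pt d ∈ A) (fun d d' h => by rw [h.2.2.2]) x}, ?_⟩
  ext e
  by_cases he : e ∈ τ.edgeSet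
  · obtain ⟨δ, rfl⟩ := exists_dart he
    obtain ⟨a, b, ha, hb, haδ, hbδ, hab, -⟩ := others hc δ
    rw [mem_cut' D hc k _ δ a b ha hb haδ hbδ hab, ← hA,
      mem_cut_iff (D.tri δ a b ha.symm hb.symm haδ.symm hbδ.symm hab).1]
    constructor
    · intro h
      exact ⟨he, h⟩
    · intro h
      exact h.2
  · constructor
    · intro h
      exact absurd h.1 he
    · intro h
      exact absurd (hE.1 h) he

/-- the new dual -/
noncomputable def D' (D : TriDual τ Q) (hc : IsCubic τ) (hconn : τ.Connected) (k : KK D) :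
    AbstractDual τ (KK D) where
  ends := ends' D hc k
  conn := conn' D hc hconn k
  cut_even := fun A _ => cut_even' D hc k A
  even_cut := even_cut' D hc k

/-- action on darts -/
def act (g : τ ≃g τ) (d : τ.Dart) : τ.Dart := ⟨(g d.fst, g d.snd), g.map_adj_iff.mpr d.adj⟩

lemma act_edge (g : τ ≃g τ) (d : τ.Dart) : (act g d).edge = d.edge.map g := rfl

lemma act_inj (g : τ ≃g τ) {d d' : τ.Dart} (h : act g d = act g d') : d = d' := by
  have h1 : g d.fst = g d'.fst := congrArg (fun d : τ.Dart => d.fst) h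
  have h2 : g d.snd = g d'.snd := congrArg (fun d : τ.Dart => d.snd) h
  exact Dart.ext _ _ (Prod.ext (g.injective h1) (g.injective h2))

lemma act_symm_act (g : τ ≃g τ) (d : τ.Dart) : act g.symm (act g d) = d := by
  apply Dart.ext
  exact Prod.ext (g.symm_apply_apply d.fst) (g.symm_apply_apply d.snd)

lemma act_act_symm (g : τ ≃g τ) (d : τ.Dart) : act g (act g.symm d) = d := by
  apply Dart.ext
  exact Prod.ext (g.apply_symm_apply d.fst) (g.apply_symm_apply d.snd)

lemma sym2_map_inj (g : τ ≃g τ) : Function.Injective (Sym2.map g : Sym2 U → Sym2 U) :=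
  Sym2.map.injective g.injective

lemma evenSet_preimage (g : τ ≃g τ) {F : Set (Sym2 U)} (hF : EvenSet τ F) :
    EvenSet τ ((Sym2.map g) ⁻¹' F) := by
  refine ⟨fun e he => (map_mem_edgeSet g).mp (hF.1 he), fun v => ?_⟩
  have h : ((Sym2.map g) ⁻¹' F) ∩ {e | v ∈ e} = (Sym2.map g) ⁻¹' (F ∩ {e | g v ∈ e}) := by
    ext e
    simp only [Set.mem_inter_iff, Set.mem_preimage, Set.mem_setOf_eq]
    refine and_congr_right fun _ => ?_
    rw [Sym2.mem_map]
    constructor
    · intro h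
      exact ⟨v, h, rfl⟩
    · rintro ⟨w, hw, hwv⟩
      rwa [← g.injective hwv]
  rw [h, Set.ncard_preimage_of_injective_subset_range (sym2_map_inj g)]
  · exact hF.2 (g v)
  · intro e _
    exact ⟨e.map g.symm, map_symm_map g e⟩

lemma cut_pull (g : τ ≃g τ) (ends : Sym2 U → Sym2 Q) (A : Set Q) :
    cut τ (fun e => ends (e.map g)) A = (Sym2.map g) ⁻¹' (cut τ ends A) := by
  ext e
  constructor
  · rintro ⟨h1, h2⟩
    exact ⟨(map_mem_edgeSet g).mpr h1, h2⟩
  · rintro ⟨h1, h2⟩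
    exact ⟨(map_mem_edgeSet g).mp h1, h2⟩

/-- pull back of a triangular dual -/
def pull (D : TriDual τ Q) (g : τ ≃g τ) : TriDual τ Q where
  ends := fun e => D.ends (e.map g)
  conn := by
    intro A hA
    rw [cut_pull] at hA
    apply D.conn
    rw [Set.eq_empty_iff_forall_notMem] at hA ⊢
    intro e he
    apply hA (e.map g.symm)
    rw [Set.mem_preimage, map_symm_map]
    exact he
  cut_even := by
    intro A hA
    rw [cut_pull] at hA ⊢
    apply evenSet_preimage
    apply D.cut_even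
    refine (hA.image (Sym2.map g)).subset fun e he => ⟨e.map g.symm, ?_, map_symm_map g e⟩
    rw [Set.mem_preimage, map_symm_map]
    exact he
  even_cut := by
    intro F hF hE
    obtain ⟨A, hA⟩ := D.even_cut ((Sym2.map g.symm) ⁻¹' F)
      (hF.preimage (sym2_map_inj g.symm).injOn) (evenSet_preimage g.symm hE)
    refine ⟨A, ?_⟩
    rw [cut_pull, hA]
    ext e
    rw [Set.mem_preimage, Set.mem_preimage]
    have h : (e.map g).map g.symm = e := map_symm_map g.symm e
    rw [h]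
  pt := fun d => D.pt (act g d)
  tri := by
    intro d d' d'' h1 h2 h3 h4 h5
    exact D.tri (act g d) (act g d') (act g d'') (congrArg g h1) (congrArg g h2)
      (fun h => h3 (act_inj g h)) (fun h => h4 (act_inj g h)) (fun h => h5 (act_inj g h))
  nopar := by
    intro e he f hf hef
    exact sym2_map_inj g (D.nopar _ ((map_mem_edgeSet g).mpr he) _ ((map_mem_edgeSet g).mpr hf) hef)
  red := by
    intro x y hxy
    obtain ⟨A, hA, hx, hy⟩ := D.red x y hxy
    refine ⟨A, ?_, hx, hy⟩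
    rw [cut_pull]
    exact hA.preimage (sym2_map_inj g).injOn

lemma R_act (h2b : TaskM2b) (D : TriDual τ Q) (hc : IsCubic τ) (hconn : τ.Connected)
    (hs : NoSmallCut τ) (g : τ ≃g τ) {d d' : τ.Dart} (h : R D d d') :
    R D (act g d) (act g d') := by
  obtain ⟨h1, h2, h3, h4⟩ := h
  refine ⟨g.map_adj_iff.mpr h1, fun h => h2 (g.injective h), fun h => h3 (g.injective h), ?_⟩
  exact h2b U Q Q τ D (pull D g) hc hconn hs d d' h1 h2 h3 h4

/-- action on classes -/
def kact (h2b : TaskM2b) (D : TriDual τ Q) (hc : IsCubic τ) (hconn : τ.Connected)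
    (hs : NoSmallCut τ) (g : τ ≃g τ) : KK D → KK D :=
  Quot.map (act g) fun _ _ h => R_act h2b D hc hconn hs g h

end M2cAux

open M2cAux in
theorem m2c : TaskM2c := by
  intro h2b U Q τ D hc hconn hs
  obtain ⟨v⟩ := hconn.nonempty
  obtain ⟨d1, -⟩ := darts3 hc v
  refine ⟨KK D, D' D hc hconn (mk D d1), fun g => ?_⟩
  refine ⟨⟨kact h2b D hc hconn hs g, kact h2b D hc hconn hs g.symm, ?_, ?_⟩, ?_⟩
  · intro x
    induction x using Quot.ind with
    | _ d => exact congrArg (Quot.mk _) (act_symm_act g d)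
  · intro x
    induction x using Quot.ind with
    | _ d => exact congrArg (Quot.mk _) (act_act_symm g d)
  · intro e he
    obtain ⟨δ, rfl⟩ := exists_dart he
    obtain ⟨a, b, ha, hb, haδ, hbδ, hab, -⟩ := others hc δ
    change ends' D hc (mk D d1) (δ.edge.map g) = (ends' D hc (mk D d1) δ.edge).map _
    rw [ends'_eq D hc _ δ a b ha hb haδ hbδ hab, ← act_edge,
      ends'_eq D hc _ (act g δ) (act g a) (act g b) (congrArg g ha) (congrArg g hb)
        (fun h => haδ (act_inj g h)) (fun h => hbδ (act_inj g h)) (fun h => hab (act_inj g h))]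
    rfl

end H279R3

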