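import Pool.Agent.H279R3.Stmts

/-!
# Duals pass to topological minors (helper82, task M3 of helper279)
-/

namespace H279R3

namespace M3

open SimpleGraph

section

variable {W K : Type} {H : SimpleGraph W} (D : AbstractDual H K) (U0 : Set (Sym2 W))

/-- sets of dual vertices with a finite cut inside `U0` -/
def AA (A : Set K) : Prop := (cut H D.ends A).Finite ∧ cut H D.ends A ⊆ U0

variable {D U0}

lemma AA.compl {A : Set K} (h : AA D U0 A) : AA D U0 Aᶜ := by
  unfold AA at h ⊢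
  rwa [cut_compl]

lemma AA.inter {A B : Set K} (hA : AA D U0 A) (hB : AA D U0 B) : AA D U0 (A ∩ B) :=
  ⟨(hA.1.union hB.1).subset (cut_inter_subset D.ends A B),
    (cut_inter_subset D.ends A B).trans (Set.union_subset hA.2 hB.2)⟩

variable (D U0)

/-- dual vertices that no such set separates -/
def rel : Setoid K where
  r x y := ∀ A : Set K, AA D U0 A → (x ∈ A ↔ y ∈ A)
  iseqv := ⟨fun _ _ _ => Iff.rfl, fun h A hA => (h A hA).symm,
    fun h1 h2 A hA => (h1 A hA).trans (h2 A hA)⟩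

variable {D U0}

lemma sep {x y : K} (h : ¬ (rel D U0).r x y) : ∃ B, AA D U0 B ∧ x ∈ B ∧ y ∉ B := by
  change ¬ ∀ A : Set K, AA D U0 A → (x ∈ A ↔ y ∈ A) at h
  push Not at h
  obtain ⟨A, hA, h1⟩ := h
  rcases h1 with ⟨h1, h2⟩ | ⟨h1, h2⟩
  · exact ⟨A, hA, h1, h2⟩
  · exact ⟨Aᶜ, hA.compl, h1, fun h => h h2⟩

/-- the exclusive or -/
def X (x y : K) (B : Set K) : Prop := (x ∈ B ∧ y ∉ B) ∨ (x ∉ B ∧ y ∈ B)

lemma X_swap {x y : K} {B : Set K} : X x y B ↔ X y x B := by
  unfold X; tauto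

lemma pair_aux {x y x' y' : K} (h : ∀ B, AA D U0 B → (X x y B ↔ X x' y' B)) {B : Set K}
    (hB : AA D U0 B) (hx : x ∈ B) (hy : y ∉ B) (hx' : x' ∈ B) (hy' : y' ∉ B) :
    (rel D U0).r x x' ∧ (rel D U0).r y y' := by
  constructor
  · by_contra hc
    obtain ⟨C, hC, h1, h2⟩ := sep hc
    have h3 := (h _ (hB.inter hC)).mp (Or.inl ⟨⟨hx, h1⟩, fun h => hy h.1⟩)
    rcases h3 with ⟨h4, -⟩ | ⟨-, h4⟩
    · exact h2 h4.2
    · exact hy' h4.1
  · by_contra hc
    obtain ⟨C, hC, h1, h2⟩ := sep hc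
    have h3 := (h _ (hB.compl.inter hC)).mp (Or.inr ⟨fun h => h.1 hx, ⟨hy, h1⟩⟩)
    rcases h3 with ⟨h4, -⟩ | ⟨-, h4⟩
    · exact h4.1 hx'
    · exact h2 h4.2

lemma pair {x y x' y' : K} (h : ∀ B, AA D U0 B → (X x y B ↔ X x' y' B)) {A : Set K}
    (hA : ∀ u v, (rel D U0).r u v → (u ∈ A ↔ v ∈ A)) : X x y A ↔ X x' y' A := by
  by_cases hxy : (rel D U0).r x y
  · have hxy' : (rel D U0).r x' y' := by
      by_contra hc
      obtain ⟨B, hB, h1, h2⟩ := sep hc
      have h3 := (h _ hB).mpr (Or.inl ⟨h1, h2⟩)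
      have h4 := hxy B hB
      unfold X at h3
      tauto
    have h1 := hA _ _ hxy
    have h2 := hA _ _ hxy'
    unfold X
    tauto
  · obtain ⟨B, hB, h1, h2⟩ := sep hxy
    have h3 := (h _ hB).mp (Or.inl ⟨h1, h2⟩)
    rcases h3 with ⟨h4, h5⟩ | ⟨h4, h5⟩
    · obtain ⟨h6, h7⟩ := pair_aux h hB h1 h2 h4 h5
      have h8 := hA _ _ h6
      have h9 := hA _ _ h7
      unfold X
      rw [h8, h9]
    · have h' : ∀ B, AA D U0 B → (X x y B ↔ X y' x' B) := fun B hB => (h B hB).trans X_swap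
      obtain ⟨h6, h7⟩ := pair_aux h' hB h1 h2 h5 h4
      have h8 := hA _ _ h6
      have h9 := hA _ _ h7
      rw [X_swap (x := x')]
      unfold X
      rw [h8, h9]

end

lemma main_ne {W U K : Type} [Nonempty K] (H : SimpleGraph W) (D : AbstractDual H K)
    (τ : SimpleGraph U) (P : Sym2 U → Set (Sym2 W))
    (h1 : ∀ e ∈ τ.edgeSet, (P e).Finite ∧ (P e).Nonempty ∧ P e ⊆ H.edgeSet)
    (h2 : ∀ e ∈ τ.edgeSet, ∀ e' ∈ τ.edgeSet, e ≠ e' → Disjoint (P e) (P e'))
    (h3 : ∀ F : Set (Sym2 U), F.Finite → F ⊆ τ.edgeSet →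
      (EvenSet τ F ↔ EvenSet H (⋃ e ∈ F, P e)))
    (h4 : ∀ F' : Set (Sym2 W), F'.Finite → EvenSet H F' → F' ⊆ (⋃ e ∈ τ.edgeSet, P e) →
      ∀ e ∈ τ.edgeSet, (∀ f ∈ P e, f ∉ F') ∨ P e ⊆ F') :
    ∃ K' : Type, Nonempty (AbstractDual τ K') := by
  classical
  set U0 : Set (Sym2 W) := ⋃ e ∈ τ.edgeSet, P e with hU0
  set s := rel D U0 with hs
  obtain ⟨k0⟩ := (inferInstance : Nonempty K)
  let mk : K → Quotient s := fun x => Quotient.mk s x
  have hmk : ∀ x y, mk x = mk y ↔ s.r x y := fun x y => Quotient.eq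
  have hsurj : Function.Surjective mk := Quotient.exists_rep
  let ends' : Sym2 U → Sym2 (Quotient s) := fun e =>
    if h : e ∈ τ.edgeSet then (D.ends (h1 e h).2.1.some).map mk else s(mk k0, mk k0)
  -- key: membership in a saturated cut
  have hsat : ∀ (A' : Set (Quotient s)) (u v : K), s.r u v → (u ∈ mk ⁻¹' A' ↔ v ∈ mk ⁻¹' A') := by
    intro A' u v huv
    rw [Set.mem_preimage, Set.mem_preimage, (hmk u v).mpr huv]
  have hsame : ∀ e ∈ τ.edgeSet, ∀ g ∈ P e, ∀ g' ∈ P e, ∀ A : Set K,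
      (∀ u v, s.r u v → (u ∈ A ↔ v ∈ A)) → (g ∈ cut H D.ends A ↔ g' ∈ cut H D.ends A) := by
    intro e he g hg g' hg' A hA
    obtain ⟨x, y, hxy⟩ := ends_cases D.ends g
    obtain ⟨x', y', hxy'⟩ := ends_cases D.ends g'
    have hgH : g ∈ H.edgeSet := (h1 e he).2.2 hg
    have hgH' : g' ∈ H.edgeSet := (h1 e he).2.2 hg'
    have hB : ∀ B, AA D U0 B → (X x y B ↔ X x' y' B) := by
      intro B hB
      have h5 := h4 _ hB.1 (D.cut_even B hB.1) hB.2 e he
      have e1 := mem_cut_iff (H := H) hxy B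
      have e2 := mem_cut_iff (H := H) hxy' B
      have e3 : g ∈ cut H D.ends B ↔ g' ∈ cut H D.ends B := by
        rcases h5 with h5 | h5
        · exact iff_of_false (h5 g hg) (h5 g' hg')
        · exact iff_of_true (h5 hg) (h5 hg')
      unfold X
      tauto
    have h6 := pair hB hA
    rw [mem_cut_iff hxy, mem_cut_iff hxy']
    unfold X at h6
    tauto
  have hends : ∀ e, (he : e ∈ τ.edgeSet) → ∀ A' : Set (Quotient s),
      (e ∈ cut τ ends' A' ↔ (h1 e he).2.1.some ∈ cut H D.ends (mk ⁻¹' A')) := by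
    intro e he A'
    obtain ⟨x, y, hxy⟩ := ends_cases D.ends (h1 e he).2.1.some
    have hgH : (h1 e he).2.1.some ∈ H.edgeSet := (h1 e he).2.2 (h1 e he).2.1.some_mem
    have hE : ends' e = s(mk x, mk y) := by
      change (if h : e ∈ τ.edgeSet then (D.ends (h1 e h).2.1.some).map mk else s(mk k0, mk k0)) = _
      rw [dif_pos he, hxy, Sym2.map_mk]
    rw [mem_cut_iff hE, mem_cut_iff hxy]
    simp only [Set.mem_preimage, he, hgH, true_and]
  have hkey : ∀ A' : Set (Quotient s), cut H D.ends (mk ⁻¹' A') = ⋃ e ∈ cut τ ends' A', P e := by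
    intro A'
    ext g
    simp only [Set.mem_iUnion, exists_prop]
    constructor
    · intro hg
      by_cases hgU : g ∈ U0
      · rw [hU0] at hgU
        simp only [Set.mem_iUnion, exists_prop] at hgU
        obtain ⟨e, he, hge⟩ := hgU
        refine ⟨e, ?_, hge⟩
        rw [hends e he]
        exact (hsame e he g hge _ (h1 e he).2.1.some_mem _ (hsat A')).mp hg
      · exfalso
        obtain ⟨x, y, hxy⟩ := ends_cases D.ends g
        have hgH : g ∈ H.edgeSet := hg.1
        have hr : s.r x y := by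
          intro B hB
          by_contra hc
          apply hgU
          apply hB.2
          rw [mem_cut_iff hxy]
          refine ⟨hgH, ?_⟩
          tauto
        have h5 := hsat A' x y hr
        rw [mem_cut_iff hxy] at hg
        tauto
    · rintro ⟨e, he, hge⟩
      have heτ : e ∈ τ.edgeSet := he.1
      rw [hends e heτ] at he
      exact (hsame e heτ g hge _ (h1 e heτ).2.1.some_mem _ (hsat A')).mpr he
  refine ⟨Quotient s, ⟨⟨ends', ?_, ?_, ?_⟩⟩⟩
  · intro A' hA'
    have h5 := hkey A'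
    rw [hA'] at h5
    have h6 : cut H D.ends (mk ⁻¹' A') = ∅ := by rw [h5]; simp
    rcases D.conn _ h6 with h7 | h7
    · left
      rw [Set.preimage_eq_empty_iff] at h7
      rw [hsurj.range_eq] at h7
      exact Set.disjoint_univ.mp h7
    · right
      rw [Set.eq_univ_iff_forall] at h7 ⊢
      intro z
      obtain ⟨x, rfl⟩ := hsurj z
      exact h7 x
  · intro A' hfin
    rw [h3 _ hfin (fun e he => he.1), ← hkey A']
    apply D.cut_even
    rw [hkey A']
    exact hfin.biUnion (fun e he => (h1 e he.1).1)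
  · intro F hfin hF
    have hFτ : F ⊆ τ.edgeSet := hF.1
    have h5 := (h3 F hfin hFτ).mp hF
    have h6 : (⋃ e ∈ F, P e).Finite := hfin.biUnion (fun e he => (h1 e (hFτ he)).1)
    obtain ⟨A, hA⟩ := D.even_cut _ h6 h5
    have hAA : AA D U0 A := by
      refine ⟨by rw [hA]; exact h6, ?_⟩
      rw [hA]
      exact Set.biUnion_subset_biUnion_left hFτ
    have hpre : mk ⁻¹' (mk '' A) = A := by
      apply Set.Subset.antisymm
      · rintro x ⟨y, hy, hxy⟩
        have := (hmk y x).mp hxy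
        exact (this A hAA).mp hy
      · exact Set.subset_preimage_image mk A
    refine ⟨mk '' A, ?_⟩
    have h7 := hkey (mk '' A)
    rw [hpre, hA] at h7
    have hdis : ∀ (S T : Set (Sym2 U)), S ⊆ τ.edgeSet → T ⊆ τ.edgeSet →
        (⋃ e ∈ S, P e) = (⋃ e ∈ T, P e) → S ⊆ T := by
      intro S T hS hT hST e he
      obtain ⟨f, hf⟩ := (h1 e (hS he)).2.1
      have h8 : f ∈ ⋃ e ∈ S, P e := Set.mem_biUnion he hf
      rw [hST] at h8
      simp only [Set.mem_iUnion, exists_prop] at h8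
      obtain ⟨e', he', hf'⟩ := h8
      by_cases hee : e = e'
      · rwa [hee]
      · exact absurd hf' (Set.disjoint_left.mp (h2 e (hS he) e' (hT he') hee) hf)
    exact Set.Subset.antisymm (hdis _ _ (fun e he => he.1) hFτ h7.symm)
      (hdis _ _ hFτ (fun e he => he.1) h7)

end M3

theorem m3 : TaskM3 := by
  intro W U K H D τ P h1 h2 h3 h4
  rcases isEmpty_or_nonempty K with hK | hK
  · have hno : ∀ e, e ∉ τ.edgeSet := by
      intro e he
      obtain ⟨f, hf⟩ := (h1 e he).2.1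
      obtain ⟨x, -, -⟩ := ends_cases D.ends f
      exact hK.elim x
    refine ⟨Unit, ⟨⟨fun _ => s((), ()), ?_, ?_, ?_⟩⟩⟩
    · intro A _
      by_cases h : () ∈ A
      · right
        ext x
        exact ⟨fun _ => trivial, fun _ => h⟩
      · left
        ext x
        exact ⟨fun hx => h hx, fun hx => hx.elim⟩
    · intro A _
      have : cut τ (fun _ : Sym2 U => s((), ())) A = ∅ := by
        ext e
        exact ⟨fun he => hno e he.1, fun he => he.elim⟩
      rw [this]
      exact EvenSet.empty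
    · intro F _ hF
      refine ⟨∅, ?_⟩
      ext e
      exact ⟨fun he => (hno e he.1).elim, fun he => (hno e (hF.1 he)).elim⟩
  · exact M3.main_ne H D τ P h1 h2 h3 h4

end H279R3
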