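import Mathlib
import Pool.Agent.H279R3.Stmts2

/-!
# The torso of a big class is connected and has no small cut (helper121 for helper279)
-/

namespace H279R3

open SimpleGraph

namespace NS

variable {W : Type} {H : SimpleGraph W} {b : W}

lemma mem_bdry {X : Set W} {x y : W} :
    s(x, y) ∈ bdry H X ↔ H.Adj x y ∧ ((x ∈ X ∧ y ∉ X) ∨ (x ∉ X ∧ y ∈ X)) := by
  unfold bdry
  simp only [Set.mem_setOf_eq, mem_edgeSet, Sym2.mem_iff, exists_eq_or_imp, exists_eq_left]
  tauto

lemma bdry_compl (X : Set W) : bdry H Xᶜ = bdry H X := by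
  ext e
  induction e using Sym2.ind with
  | _ x y =>
    rw [mem_bdry, mem_bdry]
    simp only [Set.mem_compl_iff, not_not]
    tauto

lemma small_compl {X : Set W} (h : Small2 H X) : Small2 H Xᶜ := by
  unfold Small2 at h ⊢
  rwa [bdry_compl]

lemma insep_symm {x y : W} (h : Insep H x y) : Insep H y x := by
  intro X hX hy
  by_contra hx
  exact h Xᶜ (small_compl hX) hx hy

lemma insep_trans {x y z : W} (h : Insep H x y) (h' : Insep H y z) : Insep H x z :=
  fun X hX hx => h' X hX (h X hX hx)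

lemma insep_refl (x : W) : Insep H x x := fun _ _ hx => hx

/-- `p` reaches the member `a` of the class of `b` without meeting other members. -/
def Rch (H : SimpleGraph W) (b p a : W) : Prop :=
  ∃ w : H.Walk p a, ∀ v ∈ w.support, Insep H b v → v = a

lemma rch_first {u v : W} (p : H.Walk u v) (hv : Insep H b v) :
    ∃ z : {y : W // Insep H b y}, Rch H b u z.1 ∧ (torso H b).Reachable z ⟨v, hv⟩ := by
  induction p with
  | nil => exact ⟨⟨_, hv⟩, ⟨Walk.nil, by simp⟩, Reachable.refl _⟩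
  | @cons u w v h p ih =>
    obtain ⟨z, ⟨q, hq⟩, hz⟩ := ih hv
    by_cases hu : Insep H b u
    · refine ⟨⟨u, hu⟩, ⟨Walk.nil, by simp⟩, ?_⟩
      by_cases huz : (⟨u, hu⟩ : {y : W // Insep H b y}) = z
      · rw [huz]
        exact hz
      · have hadj : (torso H b).Adj ⟨u, hu⟩ z := by
          refine ⟨huz, Walk.cons h q, ?_⟩
          intro x hx hbx
          rw [Walk.support_cons, List.mem_cons] at hx
          rcases hx with rfl | hx
          · left
            rfl
          · right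
            exact hq x hx hbx
        exact hadj.reachable.trans hz
    · refine ⟨z, ⟨Walk.cons h q, ?_⟩, hz⟩
      intro x hx hbx
      rw [Walk.support_cons, List.mem_cons] at hx
      rcases hx with rfl | hx
      · exact absurd hbx hu
      · exact hq x hx hbx

lemma torso_connected (H : SimpleGraph W) (b : W) : (torso H b).Connected := by
  haveI : Nonempty {y : W // Insep H b y} := ⟨⟨b, insep_refl b⟩⟩
  refine Connected.mk ?_
  intro x y
  have hxy : Insep H x.1 y.1 := insep_trans (insep_symm x.2) y.2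
  have hr : H.Reachable x.1 y.1 := by
    have h0 : bdry H {w | H.Reachable x.1 w} = ∅ := by
      rw [Set.eq_empty_iff_forall_notMem]
      intro e he
      induction e using Sym2.ind with
      | _ u v =>
        rw [mem_bdry] at he
        obtain ⟨hadj, ⟨h1, h2⟩ | ⟨h1, h2⟩⟩ := he
        · exact h2 (h1.trans hadj.reachable)
        · exact h1 (Reachable.trans h2 hadj.symm.reachable)
    exact hxy {w | H.Reachable x.1 w} ⟨by rw [h0]; exact Set.finite_empty, by rw [h0]; simp⟩
      (Reachable.refl _)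
  obtain ⟨p⟩ := hr
  obtain ⟨z, ⟨q, hq⟩, hz⟩ := rch_first p y.2
  have hxz : x = z := Subtype.ext (hq x.1 (Walk.start_mem_support q) x.2)
  rw [hxz]
  exact hz

lemma exc {p a : W} (w : H.Walk p a) (hw : ∀ v ∈ w.support, Insep H b v → v = a)
    (ha : Insep H b a) (hp : ¬ Insep H b p) :
    ∃ u, H.Adj u a ∧ ∃ w' : H.Walk p u, ∀ v ∈ w'.support, ¬ Insep H b v := by
  induction w with
  | nil => exact absurd ha hp
  | @cons p r a h w ih =>
    by_cases hr : Insep H b r
    · have : r = a := hw r (by simp) hr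
      subst this
      exact ⟨p, h, Walk.nil, by simpa using hp⟩
    · obtain ⟨u, hu, w', hw'⟩ := ih (fun v hv => hw v (by simp [hv])) ha hr
      refine ⟨u, hu, Walk.cons h w', ?_⟩
      intro v hv
      rw [Walk.support_cons, List.mem_cons] at hv
      rcases hv with rfl | hv
      · exact hp
      · exact hw' v hv

lemma fin_false (hs : SubCubic H) (hB : Big H b) {a q p p' u u' : W} {Y : Set W}
    (ha : Insep H b a) (haY : a ∈ Y)
    (hYB : ∀ y ∈ Y, Insep H b y → y = a ∨ y = q)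
    (hp : p ∈ Y) (hp' : p' ∈ Y) (hpp : p ≠ p') (hqp : H.Adj q p) (hqp' : H.Adj q p')
    (hu : u ∈ Y) (hu' : u' ∈ Y) (huu : u ≠ u') (hau : H.Adj a u) (hau' : H.Adj a u')
    (hout : ∀ y ∈ Y, ∀ z, z ∉ Y → H.Adj y z → y = a ∨ y = q) : False := by
  have c1 : ∀ (v s t : W), s ≠ t → H.Adj v s → H.Adj v t →
      ((fun z => s(v, z)) '' (H.neighborSet v \ {s, t})).Finite ∧
      ((fun z => s(v, z)) '' (H.neighborSet v \ {s, t})).ncard ≤ 1 := by
    intro v s t hst h1 h2
    have hf : (H.neighborSet v \ {s, t}).Finite := (hs v).1.subset (fun x hx => hx.1)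
    refine ⟨hf.image _, (Set.ncard_image_le hf).trans ?_⟩
    have hsub : ({s, t} : Set W) ⊆ H.neighborSet v := by
      rintro x (rfl | rfl)
      · exact h1
      · exact h2
    have h3 := Set.ncard_sdiff hsub (Set.toFinite _)
    rw [Set.ncard_pair hst] at h3
    have := (hs v).2
    omega
  have key : ∀ y ∈ Y, ∀ z, z ∉ Y → H.Adj y z →
      s(y, z) ∈ (fun z => s(a, z)) '' (H.neighborSet a \ {u, u'}) ∪
        (fun z => s(q, z)) '' (H.neighborSet q \ {p, p'}) := by
    intro y hy z hz hadj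
    rcases hout y hy z hz hadj with rfl | rfl
    · left
      refine ⟨z, ⟨hadj, ?_⟩, rfl⟩
      rintro (rfl | rfl)
      · exact hz hu
      · exact hz hu'
    · right
      refine ⟨z, ⟨hadj, ?_⟩, rfl⟩
      rintro (rfl | rfl)
      · exact hz hp
      · exact hz hp'
  have hS : bdry H Y ⊆ (fun z => s(a, z)) '' (H.neighborSet a \ {u, u'}) ∪
        (fun z => s(q, z)) '' (H.neighborSet q \ {p, p'}) := by
    intro e he
    induction e using Sym2.ind with
    | _ x y =>
      rw [mem_bdry] at he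
      obtain ⟨hadj, ⟨h1, h2⟩ | ⟨h1, h2⟩⟩ := he
      · exact key x h1 y h2 hadj
      · rw [Sym2.eq_swap]
        exact key y h2 x h1 hadj.symm
  obtain ⟨f1, n1⟩ := c1 a u u' huu hau hau'
  obtain ⟨f2, n2⟩ := c1 q p p' hpp hqp hqp'
  have hsm : Small2 H Y := by
    refine ⟨(f1.union f2).subset hS, ?_⟩
    have h1 := Set.ncard_le_ncard hS (f1.union f2)
    have h2 := Set.ncard_union_le ((fun z => s(a, z)) '' (H.neighborSet a \ {u, u'}))
      ((fun z => s(q, z)) '' (H.neighborSet q \ {p, p'}))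
    omega
  have hall : ∀ c, Insep H b c → c = a ∨ c = q := by
    intro c hc
    exact hYB c (insep_trans (insep_symm ha) hc Y hsm haY) hc
  obtain ⟨x, y, hx, hy, hxb, hyb, hxy⟩ := hB
  have h1 := hall x hx
  have h2 := hall y hy
  have h3 := hall b (insep_refl b)
  rcases h1 with rfl | rfl <;> rcases h2 with rfl | rfl <;> rcases h3 with rfl | rfl <;>
    first | exact hxb rfl | exact hyb rfl | exact hxy rfl

/-- a single excursion -/
lemma one_exc (hc : TaskCore) (hs : SubCubic H) {a q p : W} (ha : Insep H b a)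
    (hq : Insep H b q) (hqa : q ≠ a) (hqp : H.Adj q p) (hp : ¬ Insep H b p)
    (hr : Rch H b p a) :
    ∃ (u : W) (X : Set W), H.Adj a u ∧ p ∈ X ∧ u ∈ X ∧ (∀ v ∈ X, ¬ Insep H b v) ∧
      (∀ y ∈ X, ∀ z, z ∉ X → H.Adj y z → z = q ∨ z = a) ∧
      ∃ w' : H.Walk p u, ∀ v ∈ w'.support, ¬ Insep H b v := by
  obtain ⟨w, hw⟩ := hr
  obtain ⟨u, hua, w', hw'⟩ := exc w hw ha hp
  obtain ⟨X, hX, hXs, hXB⟩ := hc W H b p u w' hs hw'
  have hpX : p ∈ X := hXs p (Walk.start_mem_support w')
  have huX : u ∈ X := hXs u (Walk.end_mem_support w')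
  have hqX : q ∉ X := fun h => hXB q h hq
  have haX : a ∉ X := fun h => hXB a h ha
  have e1 : s(q, p) ∈ bdry H X := mem_bdry.mpr ⟨hqp, Or.inr ⟨hqX, hpX⟩⟩
  have e2 : s(a, u) ∈ bdry H X := mem_bdry.mpr ⟨hua.symm, Or.inr ⟨haX, huX⟩⟩
  have hne : s(q, p) ≠ s(a, u) := by
    intro h
    rw [Sym2.eq_iff] at h
    rcases h with ⟨h, -⟩ | ⟨h, -⟩
    · exact hqa h
    · exact hqX (h ▸ huX)
  have hsub : ({s(q, p), s(a, u)} : Set (Sym2 W)) ⊆ bdry H X := by
    rintro e (rfl | rfl)
    · exact e1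
    · exact e2
  have heq : ({s(q, p), s(a, u)} : Set (Sym2 W)) = bdry H X := by
    apply Set.eq_of_subset_of_ncard_le hsub _ hX.1
    rw [Set.ncard_pair hne]
    exact hX.2
  refine ⟨u, X, hua.symm, hpX, huX, hXB, ?_, w', hw'⟩
  intro y hy z hz hadj
  have hm : s(y, z) ∈ bdry H X := mem_bdry.mpr ⟨hadj, Or.inl ⟨hy, hz⟩⟩
  rw [← heq] at hm
  rcases hm with hm | hm
  · rw [Sym2.eq_iff] at hm
    rcases hm with ⟨-, h⟩ | ⟨-, h⟩
    · exact absurd (h ▸ hpX) hz
    · exact Or.inl h
  · rw [Set.mem_singleton_iff, Sym2.eq_iff] at hm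
    rcases hm with ⟨-, h⟩ | ⟨-, h⟩
    · exact absurd (h ▸ huX) hz
    · exact Or.inr h

lemma mixed (hc : TaskCore) (hs : SubCubic H) (hB : Big H b) {a q p : W} (ha : Insep H b a)
    (hq : Insep H b q) (hqa : q ≠ a) (hqp : H.Adj q p) (hp : ¬ Insep H b p)
    (hr : Rch H b p a) (hadj : H.Adj q a) : False := by
  obtain ⟨u, X, hau, hpX, huX, hXB, hXout, -⟩ := one_exc hc hs ha hq hqa hqp hp hr
  have hap : a ≠ p := by
    rintro rfl
    exact hp ha
  have hqu : q ≠ u := by
    rintro rfl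
    exact hXB _ huX hq
  refine fin_false (Y := {a, q} ∪ X) (p := a) (p' := p) (u := q) (u' := u) (q := q) hs hB ha
    (Or.inl (Or.inl rfl)) ?_ (Or.inl (Or.inl rfl)) (Or.inr hpX) hap hadj hqp
    (Or.inl (Or.inr rfl)) (Or.inr huX) hqu hadj.symm hau ?_
  · rintro y (hy | hy) hby
    · exact hy
    · exact absurd hby (hXB y hy)
  · rintro y (hy | hy) z hz hyz
    · exact hy
    · exfalso
      rcases hXout y hy z (fun h => hz (Or.inr h)) hyz with rfl | rfl
      · exact hz (Or.inl (Or.inr rfl))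
      · exact hz (Or.inl (Or.inl rfl))

lemma both (hc : TaskCore) (hs : SubCubic H) (hB : Big H b) {a q p p' : W} (ha : Insep H b a)
    (hq : Insep H b q) (hqa : q ≠ a) (hqp : H.Adj q p) (hqp' : H.Adj q p')
    (hp : ¬ Insep H b p) (hp' : ¬ Insep H b p') (hpp : p ≠ p')
    (hr : Rch H b p a) (hr' : Rch H b p' a) : False := by
  obtain ⟨u, X, hau, hpX, huX, hXB, hXout, w, hw⟩ := one_exc hc hs ha hq hqa hqp hp hr
  obtain ⟨u', X', hau', hpX', huX', hXB', hXout', w', hw'⟩ :=
    one_exc hc hs ha hq hqa hqp' hp' hr'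
  have huu : u ≠ u' := by
    rintro rfl
    have hav : ∀ v ∈ (w.append w'.reverse).support, ¬ Insep H b v := by
      intro v hv
      rw [Walk.mem_support_append_iff, Walk.support_reverse, List.mem_reverse] at hv
      rcases hv with hv | hv
      · exact hw v hv
      · exact hw' v hv
    obtain ⟨Z, hZ, hZs, hZB⟩ := hc W H b p p' _ hs hav
    have hpZ : p ∈ Z := hZs p (Walk.start_mem_support _)
    have hpZ' : p' ∈ Z := hZs p' (Walk.end_mem_support _)
    have huZ : u ∈ Z := hZs u (by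
      rw [Walk.mem_support_append_iff]
      exact Or.inl (Walk.end_mem_support _))
    have hqZ : q ∉ Z := fun h => hZB q h hq
    have haZ : a ∉ Z := fun h => hZB a h ha
    have e1 : s(q, p) ∈ bdry H Z := mem_bdry.mpr ⟨hqp, Or.inr ⟨hqZ, hpZ⟩⟩
    have e2 : s(q, p') ∈ bdry H Z := mem_bdry.mpr ⟨hqp', Or.inr ⟨hqZ, hpZ'⟩⟩
    have e3 : s(a, u) ∈ bdry H Z := mem_bdry.mpr ⟨hau, Or.inr ⟨haZ, huZ⟩⟩
    have n12 : s(q, p) ≠ s(q, p') := by
      intro h
      rw [Sym2.eq_iff] at h
      rcases h with ⟨-, h⟩ | ⟨h, -⟩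
      · exact hpp h
      · exact hqZ (h ▸ hpZ')
    have n13 : s(q, p) ≠ s(a, u) := by
      intro h
      rw [Sym2.eq_iff] at h
      rcases h with ⟨h, -⟩ | ⟨h, -⟩
      · exact hqa h
      · exact hqZ (h ▸ huZ)
    have n23 : s(q, p') ≠ s(a, u) := by
      intro h
      rw [Sym2.eq_iff] at h
      rcases h with ⟨h, -⟩ | ⟨h, -⟩
      · exact hqa h
      · exact hqZ (h ▸ huZ)
    have hsub : ({s(q, p), s(q, p'), s(a, u)} : Set (Sym2 W)) ⊆ bdry H Z := by
      rintro e (rfl | rfl | rfl)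
      · exact e1
      · exact e2
      · exact e3
    have h3 := Set.ncard_le_ncard hsub hZ.1
    have h4 : ({s(q, p), s(q, p'), s(a, u)} : Set (Sym2 W)).ncard = 3 :=
      Set.ncard_eq_three.mpr ⟨_, _, _, n12, n13, n23, rfl⟩
    have := hZ.2
    omega
  refine fin_false (Y := {a, q} ∪ (X ∪ X')) (p := p) (p' := p') (u := u) (u' := u') (q := q)
    hs hB ha (Or.inl (Or.inl rfl)) ?_ (Or.inr (Or.inl hpX)) (Or.inr (Or.inr hpX')) hpp hqp hqp'
    (Or.inr (Or.inl huX)) (Or.inr (Or.inr huX')) huu hau hau' ?_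
  · rintro y (hy | hy | hy) hby
    · exact hy
    · exact absurd hby (hXB y hy)
    · exact absurd hby (hXB' y hy)
  · rintro y (hy | hy | hy) z hz hyz
    · exact hy
    · exfalso
      rcases hXout y hy z (fun h => hz (Or.inr (Or.inl h))) hyz with rfl | rfl
      · exact hz (Or.inl (Or.inr rfl))
      · exact hz (Or.inl (Or.inl rfl))
    · exfalso
      rcases hXout' y hy z (fun h => hz (Or.inr (Or.inr h))) hyz with rfl | rfl
      · exact hz (Or.inl (Or.inr rfl))
      · exact hz (Or.inl (Or.inl rfl))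

lemma inj (hc : TaskCore) (hs : SubCubic H) (hB : Big H b) {a q p p' : W} (ha : Insep H b a)
    (hq : Insep H b q) (hqa : q ≠ a) (hqp : H.Adj q p) (hqp' : H.Adj q p')
    (hr : Rch H b p a) (hr' : Rch H b p' a) : p = p' := by
  by_contra hpp
  by_cases hp : Insep H b p
  · obtain ⟨w, hw⟩ := hr
    have hpa : p = a := hw p (Walk.start_mem_support w) hp
    subst hpa
    by_cases hp' : Insep H b p'
    · obtain ⟨w', hw'⟩ := hr'
      exact hpp (hw' p' (Walk.start_mem_support w') hp').symm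
    · exact mixed hc hs hB ha hq hqa hqp' hp' hr' hqp
  · by_cases hp' : Insep H b p'
    · obtain ⟨w', hw'⟩ := hr'
      have hpa : p' = a := hw' p' (Walk.start_mem_support w') hp'
      subst hpa
      exact mixed hc hs hB ha hq hqa hqp hp hr hqp'
    · exact both hc hs hB ha hq hqa hqp hqp' hp hp' hpp hr hr'

lemma nosmallcut (hc : TaskCore) (hs : SubCubic H) (hB : Big H b) : NoSmallCut (torso H b) := by
  intro A hA hAc hfin
  by_contra hlt
  set X : Set W := {w | ∃ a : {y : W // Insep H b y}, a ∈ A ∧ Rch H b w a.1} with hX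
  have hXB : ∀ y : {y : W // Insep H b y}, y.1 ∈ X ↔ y ∈ A := by
    intro y
    constructor
    · rintro ⟨a, ha, w, hw⟩
      have : y = a := Subtype.ext (hw y.1 (Walk.start_mem_support w) y.2)
      rw [this]
      exact ha
    · intro hy
      exact ⟨y, hy, Walk.nil, by simp⟩
  have key : ∀ p ∈ X, ∀ q, q ∉ X → H.Adj p q →
      ∃ (y a : {y : W // Insep H b y}), q = y.1 ∧ y ∉ A ∧ a ∈ A ∧ Rch H b p a.1 ∧
        s(a, y) ∈ bdry (torso H b) A := by
    rintro p ⟨a, ha, w, hw⟩ q hq hadj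
    have hqB : Insep H b q := by
      by_contra hqB
      apply hq
      refine ⟨a, ha, Walk.cons hadj.symm w, ?_⟩
      intro v hv hbv
      rw [Walk.support_cons, List.mem_cons] at hv
      rcases hv with rfl | hv
      · exact absurd hbv hqB
      · exact hw v hv hbv
    have hqA : (⟨q, hqB⟩ : {y : W // Insep H b y}) ∉ A := fun h => hq ((hXB _).mpr h)
    refine ⟨⟨q, hqB⟩, a, rfl, hqA, ha, ⟨w, hw⟩, ?_⟩
    rw [mem_bdry]
    refine ⟨?_, Or.inl ⟨ha, hqA⟩⟩
    have : (torso H b).Adj ⟨q, hqB⟩ a := by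
      refine ⟨fun h => hqA (h ▸ ha), Walk.cons hadj.symm w, ?_⟩
      intro v hv hbv
      rw [Walk.support_cons, List.mem_cons] at hv
      rcases hv with rfl | hv
      · exact Or.inl rfl
      · exact Or.inr (hw v hv hbv)
    exact this.symm
  have hex : ∀ e ∈ bdry H X, ∃ t ∈ bdry (torso H b) A,
      ∃ (p : W) (y a : {y : W // Insep H b y}), e = s(p, y.1) ∧ H.Adj y.1 p ∧ y ∉ A ∧ a ∈ A ∧
        Rch H b p a.1 ∧ t = s(a, y) := by
    intro e he
    induction e using Sym2.ind with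
    | _ x y =>
      rw [mem_bdry] at he
      obtain ⟨hadj, ⟨h1, h2⟩ | ⟨h1, h2⟩⟩ := he
      · obtain ⟨y', a, h, hy, ha, hr, ht⟩ := key x h1 y h2 hadj
        subst h
        exact ⟨_, ht, x, y', a, rfl, hadj.symm, hy, ha, hr, rfl⟩
      · obtain ⟨y', a, h, hy, ha, hr, ht⟩ := key y h2 x h1 hadj.symm
        subst h
        exact ⟨_, ht, y, y', a, Sym2.eq_swap, hadj, hy, ha, hr, rfl⟩
  classical
  set f : Sym2 W → Sym2 {y : W // Insep H b y} := fun e =>
    if h : e ∈ bdry H X then (hex e h).choose else s(⟨b, insep_refl b⟩, ⟨b, insep_refl b⟩) with hf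
  have hf1 : ∀ e (h : e ∈ bdry H X), f e = (hex e h).choose := fun e h => by
    rw [hf]
    simp only [h, dif_pos]
  have hmaps : ∀ e ∈ bdry H X, f e ∈ bdry (torso H b) A := by
    intro e he
    rw [hf1 e he]
    exact (hex e he).choose_spec.1
  have hinj : Set.InjOn f (bdry H X) := by
    intro e he e' he' hee
    obtain ⟨p, y, a, h1, h2, h3, h4, h5, h6⟩ := (hex e he).choose_spec.2
    obtain ⟨p', y', a', k1, k2, k3, k4, k5, k6⟩ := (hex e' he').choose_spec.2
    rw [← hf1 e he] at h6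
    rw [← hf1 e' he'] at k6
    rw [h6, k6, Sym2.eq_iff] at hee
    rcases hee with ⟨haa, hyy⟩ | ⟨hay, -⟩
    · subst haa hyy
      have hne : y.1 ≠ a.1 := by
        intro h
        apply h3
        rw [Subtype.ext h]
        exact h4
      have := inj hc hs hB a.2 y.2 hne h2 k2 h5 k5
      rw [h1, k1, this]
    · exact absurd (hay ▸ h4) k3
  have hXsmall : Small2 H X := by
    refine ⟨Set.Finite.of_injOn (f := f) hmaps hinj hfin, ?_⟩
    have := Set.ncard_le_ncard_of_injOn f hmaps hinj hfin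
    omega
  obtain ⟨a, ha⟩ := hA
  obtain ⟨c, hc'⟩ := hAc
  exact hc' ((hXB c).mp (insep_trans (insep_symm a.2) c.2 X hXsmall ((hXB a).mpr ha)))

end NS

/-- T_nosmall -/
theorem nosmall : TaskNoSmall := fun hc _ H b hs hB =>
  ⟨NS.torso_connected H b, NS.nosmallcut hc hs hB⟩

end H279R3
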