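import Mathlib
import Pool.Agent.H279R3.Stmts2
import Pool.Agent.H279R3.EvenSets

/-! TaskP of the H279-TW project (MP_57dfd7_co): the torso is a topological minor. -/

set_option autoImplicit false

namespace H279R3

open SimpleGraph

namespace PPAux

variable {W : Type} {H : SimpleGraph W} {β : W → Prop}

lemma split {x y : W} (p : H.Walk x y) (hp : p.IsPath)
    (hβ : ∀ v ∈ p.support, β v → v = x ∨ v = y) (hx : β x) (hy : β y) {z : W}
    (hz : z ∈ p.support) (hzβ : ¬ β z) :
    ∃ (x1 y1 : W) (q : H.Walk x1 y1), H.Adj x x1 ∧ H.Adj y1 y ∧ (∀ v ∈ q.support, ¬ β v) ∧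
      z ∈ q.support := by
  cases p with
  | nil =>
    rw [Walk.support_nil, List.mem_singleton] at hz
    subst hz
    exact absurd hx hzβ
  | @cons _ x1 _ h p' =>
    cases p' with
    | nil =>
      rw [Walk.support_cons, Walk.support_nil] at hz
      simp only [List.mem_cons, List.not_mem_nil, or_false] at hz
      rcases hz with rfl | rfl
      · exact absurd hx hzβ
      · exact absurd hy hzβ
    | @cons _ x2 _ h2 p2 =>
      obtain ⟨y1, q, h', hq⟩ := Walk.exists_cons_eq_concat h2 p2
      rw [hq] at hp hβ hz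
      rw [Walk.cons_isPath_iff, Walk.concat_isPath_iff] at hp
      obtain ⟨⟨_, hyq⟩, hxq⟩ := hp
      rw [Walk.support_cons, Walk.support_concat] at hβ hz
      rw [Walk.support_concat] at hxq
      refine ⟨x1, y1, q, h, h', ?_, ?_⟩
      · intro v hv hb
        rcases hβ v (by simp [hv]) hb with rfl | rfl
        · exact hxq (by simp [hv])
        · exact hyq hv
      · simp only [List.concat_eq_append, List.mem_cons, List.mem_append, List.not_mem_nil,
          or_false] at hz
        rcases hz with rfl | hz | rfl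
        · exact absurd hx hzβ
        · exact hz
        · exact absurd hy hzβ

lemma key (hcore : ∀ (x y : W) (p : H.Walk x y), (∀ v ∈ p.support, ¬ β v) →
      ∃ X : Set W, Small2 H X ∧ (∀ v ∈ p.support, v ∈ X) ∧ ∀ v ∈ X, ¬ β v)
    {x y x' y' : W} (p : H.Walk x y) (p' : H.Walk x' y') (hp : p.IsPath) (hp' : p'.IsPath)
    (hβ : ∀ v ∈ p.support, β v → v = x ∨ v = y) (hβ' : ∀ v ∈ p'.support, β v → v = x' ∨ v = y')
    (hx : β x) (hy : β y) (hx' : β x') (hy' : β y') (hxy : x ≠ y) (hxy' : x' ≠ y') {z : W}
    (hz : z ∈ p.support) (hz' : z ∈ p'.support) (hzβ : ¬ β z) :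
    (x = x' ∧ y = y') ∨ (x = y' ∧ y = x') := by
  classical
  obtain ⟨x1, y1, q, hx1, hy1, hq, hzq⟩ := split p hp hβ hx hy hz hzβ
  obtain ⟨x1', y1', q', hx1', hy1', hq', hzq'⟩ := split p' hp' hβ' hx' hy' hz' hzβ
  let r : H.Walk x1 y1' := ((q.append (q.dropUntil z hzq).reverse).append
    (q'.takeUntil z hzq').reverse).append q'
  have hr : ∀ v ∈ r.support, ¬ β v := by
    intro v hv
    simp only [r, Walk.mem_support_append_iff, Walk.support_reverse, List.mem_reverse] at hv
    rcases hv with ((hv | hv) | hv) | hv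
    · exact hq v hv
    · exact hq v (q.support_dropUntil_subset_support hzq hv)
    · exact hq' v (q'.support_takeUntil_subset_support hzq' hv)
    · exact hq' v hv
  obtain ⟨X, ⟨hXf, hXc⟩, hXr, hXβ⟩ := hcore _ _ r hr
  have hin : ∀ v, v ∈ q.support → v ∈ X := by
    intro v hv
    apply hXr
    simp only [r, Walk.mem_support_append_iff]
    tauto
  have hin' : ∀ v, v ∈ q'.support → v ∈ X := by
    intro v hv
    apply hXr
    simp only [r, Walk.mem_support_append_iff]
    tauto
  have hout : ∀ v, β v → v ∉ X := fun v hv h => hXβ v h hv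
  have hx1X : x1 ∈ X := hin _ q.start_mem_support
  have hy1X : y1 ∈ X := hin _ q.end_mem_support
  have hx1X' : x1' ∈ X := hin' _ q'.start_mem_support
  have hy1X' : y1' ∈ X := hin' _ q'.end_mem_support
  have hb : ∀ {a c : W}, H.Adj a c → a ∉ X → c ∈ X → s(a, c) ∈ bdry H X := by
    intro a c hac ha hc
    exact ⟨hac, ⟨c, Sym2.mem_mk_right a c, hc⟩, ⟨a, Sym2.mem_mk_left a c, ha⟩⟩
  have m1 := hb hx1 (hout x hx) hx1X
  have m2 := hb hy1.symm (hout y hy) hy1X
  have m1' := hb hx1' (hout x' hx') hx1X'
  have m2' := hb hy1'.symm (hout y' hy') hy1X'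
  have hinj : ∀ {a c a' c' : W}, a ∉ X → c ∈ X → a' ∉ X → c' ∈ X → s(a, c) = s(a', c') →
      a = a' := by
    intro a c a' c' ha hc ha' hc' h
    rw [Sym2.eq_iff] at h
    rcases h with ⟨h1, _⟩ | ⟨h1, h2⟩
    · exact h1
    · exact absurd (h1 ▸ hc') ha
  have hne : s(x, x1) ≠ s(y, y1) := fun h => hxy (hinj (hout x hx) hx1X (hout y hy) hy1X h)
  have hpair : ({s(x, x1), s(y, y1)} : Set (Sym2 W)) = bdry H X := by
    apply Set.eq_of_subset_of_ncard_le
    · rintro e (rfl | rfl)
      · exact m1
      · exact m2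
    · rw [Set.ncard_pair hne]
      exact hXc
    · exact hXf
  rw [← hpair] at m1' m2'
  have c1 : x' = x ∨ x' = y := by
    rcases m1' with h | h
    · exact Or.inl (hinj (hout x' hx') hx1X' (hout x hx) hx1X h)
    · exact Or.inr (hinj (hout x' hx') hx1X' (hout y hy) hy1X h)
  have c2 : y' = x ∨ y' = y := by
    rcases m2' with h | h
    · exact Or.inl (hinj (hout y' hy') hy1X' (hout x hx) hx1X h)
    · exact Or.inr (hinj (hout y' hy') hy1X' (hout y hy) hy1X h)
  rcases c1 with rfl | rfl <;> rcases c2 with rfl | rfl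
  · exact absurd rfl hxy'
  · exact Or.inl ⟨rfl, rfl⟩
  · exact Or.inr ⟨rfl, rfl⟩
  · exact absurd rfl hxy'

lemma trail_parity {x y : W} (p : H.Walk x y) (hp : p.IsTrail) (v : W) :
    ((({e | e ∈ p.edges} ∩ {e | v ∈ e}).ncard : ℕ) : ZMod 2) = ind2 (x = v) + ind2 (y = v) := by
  classical
  rw [ncard_list_inter _ hp.edges_nodup, ← list_sum_ind]
  exact walk_parity v p

/-- an even set which at interior vertices of a path only uses edges of the path contains all or
none of the edges of the path -/
lemma all_or_none {F' : Set (Sym2 W)} : ∀ {x y : W} (p : H.Walk x y), p.IsPath →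
    (∀ v ∈ p.support, v ≠ x → v ≠ y → Even (F' ∩ {f | v ∈ f}).ncard ∧
      ∀ f ∈ F', v ∈ f → f ∈ p.edges) →
    (∀ f ∈ p.edges, f ∉ F') ∨ (∀ f ∈ p.edges, f ∈ F') := by
  intro x y p
  induction p with
  | nil =>
    intro _ _
    left
    intro f hf
    simp at hf
  | @cons x x1 y h p' ih =>
    intro hp hF
    rw [Walk.cons_isPath_iff] at hp
    obtain ⟨hp', hx⟩ := hp
    have hne : ∀ v ∈ p'.support, v ≠ x := by
      rintro v hv rfl
      exact hx hv
    have ih' := ih hp' (by
      intro v hv h1 h2
      obtain ⟨he, hs⟩ := hF v (by rw [Walk.support_cons]; exact List.mem_cons_of_mem _ hv)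
        (hne v hv) h2
      refine ⟨he, fun f hf hvf => ?_⟩
      have := hs f hf hvf
      rw [Walk.edges_cons, List.mem_cons] at this
      rcases this with rfl | h3
      · rw [Sym2.mem_iff] at hvf
        rcases hvf with h4 | h4
        · exact absurd h4 (hne v hv)
        · exact absurd h4 h1
      · exact h3)
    cases p' with
    | nil =>
      rw [Walk.edges_cons, Walk.edges_nil]
      by_cases hm : s(x, x1) ∈ F'
      · right
        intro f hf
        rw [List.mem_singleton] at hf
        rw [hf]; exact hm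
      · left
        intro f hf
        rw [List.mem_singleton] at hf
        rw [hf]; exact hm
    | @cons _ x2 _ h2 p2 =>
      rw [Walk.cons_isPath_iff] at hp'
      have hx1y : x1 ≠ y := by
        rintro rfl
        exact hp'.2 p2.end_mem_support
      obtain ⟨he, hs⟩ := hF x1 (by simp) h.ne.symm hx1y
      have hsub : ∀ f ∈ F', x1 ∈ f → f = s(x, x1) ∨ f = s(x1, x2) := by
        intro f hf hvf
        have := hs f hf hvf
        rw [Walk.edges_cons, Walk.edges_cons, List.mem_cons, List.mem_cons] at this
        rcases this with h3 | h3 | h3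
        · exact Or.inl h3
        · exact Or.inr h3
        · exfalso
          apply hp'.2
          obtain ⟨w, rfl⟩ := Sym2.mem_iff_exists.mp hvf
          exact Walk.fst_mem_support_of_mem_edges _ h3
      have hiff : s(x, x1) ∈ F' ↔ s(x1, x2) ∈ F' := by
        constructor
        · intro h3
          by_contra h4
          have : F' ∩ {f | x1 ∈ f} = {s(x, x1)} := by
            ext f
            constructor
            · rintro ⟨h5, h6⟩
              rcases hsub f h5 h6 with h7 | h7
              · exact h7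
              · rw [h7] at h5
                exact absurd h5 h4
            · rintro rfl
              exact ⟨h3, Sym2.mem_mk_right _ _⟩
          rw [this, Set.ncard_singleton] at he
          exact absurd he (by decide)
        · intro h3
          by_contra h4
          have : F' ∩ {f | x1 ∈ f} = {s(x1, x2)} := by
            ext f
            constructor
            · rintro ⟨h5, h6⟩
              rcases hsub f h5 h6 with h7 | h7
              · rw [h7] at h5
                exact absurd h5 h4
              · exact h7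
            · rintro rfl
              exact ⟨h3, Sym2.mem_mk_left _ _⟩
          rw [this, Set.ncard_singleton] at he
          exact absurd he (by decide)
      rcases ih' with h3 | h3
      · left
        intro f hf
        rw [Walk.edges_cons, List.mem_cons] at hf
        rcases hf with rfl | hf
        · rw [hiff]
          exact h3 _ (by simp)
        · exact h3 f hf
      · right
        intro f hf
        rw [Walk.edges_cons, List.mem_cons] at hf
        rcases hf with rfl | hf
        · rw [hiff]
          exact h3 _ (by simp)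
        · exact h3 f hf

end PPAux

open PPAux in
theorem pp : TaskP := by
  classical
  intro hCore W H b hSC _
  have hcore : ∀ (x y : W) (p : H.Walk x y), (∀ v ∈ p.support, ¬ Insep H b v) →
      ∃ X : Set W, Small2 H X ∧ (∀ v ∈ p.support, v ∈ X) ∧ ∀ v ∈ X, ¬ Insep H b v :=
    fun x y p hp => hCore W H b x y p hSC hp
  have hex : ∀ e : Sym2 {y : W // Insep H b y}, ∃ S : Set (Sym2 W), e ∈ (torso H b).edgeSet →
      ∃ (x y : {y : W // Insep H b y}) (p : H.Walk x.1 y.1), e = s(x, y) ∧ x ≠ y ∧ p.IsPath ∧
        (∀ v ∈ p.support, Insep H b v → v = x.1 ∨ v = y.1) ∧ S = {f | f ∈ p.edges} := by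
    intro e
    by_cases he : e ∈ (torso H b).edgeSet
    · induction e using Sym2.ind with
      | _ x y =>
        rw [mem_edgeSet] at he
        obtain ⟨hne, p, hp⟩ := he
        exact ⟨{f | f ∈ p.bypass.edges}, fun _ => ⟨x, y, p.bypass, rfl, hne, p.bypass_isPath,
          fun v hv hi => hp v (p.support_bypass_subset_support hv) hi, rfl⟩⟩
    · exact ⟨∅, fun h => absurd h he⟩
  choose P hP using hex
  have hfin : ∀ e ∈ (torso H b).edgeSet, (P e).Finite := by
    intro e he
    obtain ⟨x, y, p, _, _, _, _, hS⟩ := hP e he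
    rw [hS]
    exact List.finite_toSet p.edges
  have hsubE : ∀ e ∈ (torso H b).edgeSet, P e ⊆ H.edgeSet := by
    intro e he
    obtain ⟨x, y, p, _, _, _, _, hS⟩ := hP e he
    rw [hS]
    exact fun f hf => p.edges_subset_edgeSet hf
  -- no common vertex outside the class
  have hkey : ∀ e ∈ (torso H b).edgeSet, ∀ e' ∈ (torso H b).edgeSet, ∀ f ∈ P e, ∀ f' ∈ P e',
      ∀ z : W, z ∈ f → z ∈ f' → ¬ Insep H b z → e = e' := by
    intro e he e' he' f hf f' hf' z hz hz' hzβ
    obtain ⟨x, y, p, hexy, hne, hp, hs, hS⟩ := hP e he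
    obtain ⟨x', y', p', hexy', hne', hp', hs', hS'⟩ := hP e' he'
    rw [hS] at hf
    rw [hS'] at hf'
    have hzp : z ∈ p.support := by
      obtain ⟨w, rfl⟩ := Sym2.mem_iff_exists.mp hz
      exact Walk.fst_mem_support_of_mem_edges _ hf
    have hzp' : z ∈ p'.support := by
      obtain ⟨w, rfl⟩ := Sym2.mem_iff_exists.mp hz'
      exact Walk.fst_mem_support_of_mem_edges _ hf'
    have h := key hcore p p' hp hp' hs hs' x.2 y.2 x'.2 y'.2 (fun h => hne (Subtype.ext h))
      (fun h => hne' (Subtype.ext h)) hzp hzp' hzβ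
    rw [hexy, hexy', Sym2.eq_iff]
    rcases h with ⟨h1, h2⟩ | ⟨h1, h2⟩
    · exact Or.inl ⟨Subtype.ext h1, Subtype.ext h2⟩
    · exact Or.inr ⟨Subtype.ext h1, Subtype.ext h2⟩
  have hdisj : ∀ e ∈ (torso H b).edgeSet, ∀ e' ∈ (torso H b).edgeSet, e ≠ e' →
      Disjoint (P e) (P e') := by
    intro e he e' he' hne
    rw [Set.disjoint_left]
    intro f hf hf'
    have hin : ∀ z ∈ f, Insep H b z := by
      intro z hz
      by_contra hzβ
      exact hne (hkey e he e' he' f hf f hf' z hz hz hzβ)
    have hform : ∀ e ∈ (torso H b).edgeSet, f ∈ P e → ∃ x y : {y : W // Insep H b y},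
        e = s(x, y) ∧ f = s(x.1, y.1) := by
      intro e he hf
      obtain ⟨x, y, p, hexy, hxy, hp, hs, hS⟩ := hP e he
      rw [hS] at hf
      have hfE : f ∈ H.edgeSet := p.edges_subset_edgeSet hf
      refine ⟨x, y, hexy, ?_⟩
      induction f using Sym2.ind with
      | _ u w =>
        have hf' : s(u, w) ∈ p.edges := hf
        have hu := hs u (Walk.fst_mem_support_of_mem_edges _ hf') (hin u (Sym2.mem_mk_left _ _))
        have hw := hs w (Walk.snd_mem_support_of_mem_edges _ hf') (hin w (Sym2.mem_mk_right _ _))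
        have huw : u ≠ w := by
          rw [mem_edgeSet] at hfE
          exact hfE.ne
        rcases hu with rfl | rfl <;> rcases hw with rfl | rfl
        · exact absurd rfl huw
        · rfl
        · exact Sym2.eq_swap
        · exact absurd rfl huw
    obtain ⟨x, y, h1, h2⟩ := hform e he hf
    obtain ⟨x', y', h1', h2'⟩ := hform e' he' hf'
    apply hne
    rw [h1, h1', Sym2.eq_iff]
    rw [h2, Sym2.eq_iff] at h2'
    rcases h2' with ⟨h3, h4⟩ | ⟨h3, h4⟩
    · exact Or.inl ⟨Subtype.ext h3, Subtype.ext h4⟩
    · exact Or.inr ⟨Subtype.ext h3, Subtype.ext h4⟩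
  refine ⟨P, ?_, hdisj, ?_, ?_⟩
  · intro e he
    refine ⟨hfin e he, ?_, hsubE e he⟩
    obtain ⟨x, y, p, _, hne, _, _, hS⟩ := hP e he
    rw [hS]
    cases h : p.edges with
    | nil =>
      exfalso
      have hl : p.length = 0 := by rw [← Walk.length_edges, h]; rfl
      exact hne (Subtype.ext (Walk.eq_of_length_eq_zero hl))
    | cons f l => exact ⟨f, by simp⟩
  · -- even sets
    intro F hF hFE
    obtain ⟨s, rfl⟩ : ∃ s : Finset (Sym2 {y : W // Insep H b y}), F = ↑s :=
      ⟨hF.toFinset, by simp⟩
    have hcard : ∀ (v : W) (t : Finset (Sym2 {y : W // Insep H b y})),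
        (∀ e ∈ t, e ∈ (torso H b).edgeSet) →
        ((⋃ e ∈ t, P e) ∩ {f | v ∈ f}).ncard = ∑ e ∈ t, (P e ∩ {f | v ∈ f}).ncard ∧
          (⋃ e ∈ t, P e).Finite := by
      intro v t
      induction t using Finset.induction_on with
      | empty => intro _; simp
      | @insert e t het ih =>
        intro ht
        obtain ⟨ih1, ih2⟩ := ih (fun e' he' => ht e' (Finset.mem_insert_of_mem he'))
        have he := ht e (Finset.mem_insert_self _ _)
        have hun : (⋃ e' ∈ insert e t, P e') = P e ∪ ⋃ e' ∈ t, P e' := by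
          ext f
          simp
        rw [hun, Finset.sum_insert het, ← ih1, Set.union_inter_distrib_right]
        refine ⟨Set.ncard_union_eq ?_ ((hfin e he).inter_of_left _) (ih2.inter_of_left _),
          (hfin e he).union ih2⟩
        rw [Set.disjoint_left]
        rintro f ⟨hf1, _⟩ ⟨hf2, _⟩
        simp only [Set.mem_iUnion] at hf2
        obtain ⟨e', he', hf2⟩ := hf2
        have hne : e ≠ e' := by
          rintro rfl
          exact het he'
        exact Set.disjoint_left.1 (hdisj e he e' (ht e' (Finset.mem_insert_of_mem he')) hne) hf1 hf2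
    have hun : (⋃ e ∈ (↑s : Set (Sym2 {y : W // Insep H b y})), P e) = ⋃ e ∈ s, P e := by
      simp
    rw [hun]
    have hs : ∀ e ∈ s, e ∈ (torso H b).edgeSet := fun e he => hFE he
    have hU : (⋃ e ∈ s, P e) ⊆ H.edgeSet := by
      intro f hf
      simp only [Set.mem_iUnion] at hf
      obtain ⟨e, he, hf⟩ := hf
      exact hsubE e (hs e he) hf
    -- parities
    have hpar1 : ∀ w : {y : W // Insep H b y},
        ((((⋃ e ∈ s, P e) ∩ {f | w.1 ∈ f}).ncard : ℕ) : ZMod 2) =
          (((↑s ∩ {e | w ∈ e} : Set (Sym2 {y : W // Insep H b y})).ncard : ℕ) : ZMod 2) := by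
      intro w
      have h1 : (↑s ∩ {e | w ∈ e} : Set (Sym2 {y : W // Insep H b y})) =
          ↑(s.filter (fun e => w ∈ e)) := by
        ext e
        simp
      rw [(hcard w.1 s hs).1, h1, Set.ncard_coe_finset, Finset.card_filter, Nat.cast_sum,
        Nat.cast_sum]
      refine Finset.sum_congr rfl fun e he => ?_
      obtain ⟨x, y, p, hexy, hne, hp, _, hS⟩ := hP e (hs e he)
      rw [hS, trail_parity p hp.isTrail]
      have hwe : w ∈ e ↔ w = x ∨ w = y := by rw [hexy, Sym2.mem_iff]
      by_cases hwx : w = x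
      · have hwy : w ≠ y := fun h => hne (hwx.symm.trans h)
        rw [ind2_pos (by rw [hwx]), ind2_neg (fun h => hwy (Subtype.ext h.symm)), if_pos
          (hwe.2 (Or.inl hwx))]
        simp
      · by_cases hwy : w = y
        · rw [ind2_neg (fun h => hwx (Subtype.ext h.symm)), ind2_pos (by rw [hwy]), if_pos
            (hwe.2 (Or.inr hwy))]
          simp
        · rw [ind2_neg (fun h => hwx (Subtype.ext h.symm)),
            ind2_neg (fun h => hwy (Subtype.ext h.symm)), if_neg (by rw [hwe]; tauto)]
          simp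
    have hpar2 : ∀ v : W, ¬ Insep H b v →
        ((((⋃ e ∈ s, P e) ∩ {f | v ∈ f}).ncard : ℕ) : ZMod 2) = 0 := by
      intro v hv
      rw [(hcard v s hs).1, Nat.cast_sum]
      refine Finset.sum_eq_zero fun e he => ?_
      obtain ⟨x, y, p, hexy, hne, hp, _, hS⟩ := hP e (hs e he)
      rw [hS, trail_parity p hp.isTrail, ind2_neg, ind2_neg, add_zero]
      · intro h
        exact hv (h ▸ y.2)
      · intro h
        exact hv (h ▸ x.2)
    constructor
    · rintro ⟨_, h⟩
      refine ⟨hU, fun v => ?_⟩
      rw [even_iff_zmod]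
      by_cases hv : Insep H b v
      · have := hpar1 ⟨v, hv⟩
        rw [this, ← even_iff_zmod]
        exact h ⟨v, hv⟩
      · exact hpar2 v hv
    · rintro ⟨_, h⟩
      refine ⟨hFE, fun w => ?_⟩
      rw [even_iff_zmod, ← hpar1 w, ← even_iff_zmod]
      exact h w.1
  · -- all or none
    intro F' hF' hev hsub e he
    obtain ⟨x, y, p, hexy, hne, hp, hs, hS⟩ := hP e he
    have h := all_or_none (F' := F') p hp (by
      intro v hv hvx hvy
      refine ⟨hev.2 v, fun f hf hvf => ?_⟩
      have hvβ : ¬ Insep H b v := by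
        intro hi
        rcases hs v hv hi with h | h
        · exact hvx h
        · exact hvy h
      have hf' := hsub hf
      simp only [Set.mem_iUnion] at hf'
      obtain ⟨e', he', hfe'⟩ := hf'
      -- some edge of p contains v
      obtain ⟨g, hg, hvg⟩ : ∃ g ∈ p.edges, v ∈ g := by
        have hnn : ¬ p.Nil := by
          intro hn
          exact hne (Subtype.ext hn.eq)
        exact (Walk.mem_support_iff_exists_mem_edges_of_not_nil hnn).1 hv
      have hg' : g ∈ P e := by rw [hS]; exact hg
      have := hkey e he e' he' g hg' f hfe' v hvg hvf hvβ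
      rw [← this, hS] at hfe'
      exact hfe')
    rw [hS]
    rcases h with h | h
    · exact Or.inl h
    · exact Or.inr h

end H279R3
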