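import Mathlib
import Pool.Agent.H279R3.Stmts2

/-!
# Task Short (helper980) for helper279, MP_57dfd7_co
-/

namespace H279R3

open SimpleGraph

namespace ShortAux

variable {W : Type} {H : SimpleGraph W}

lemma mem_bdry_of {X : Set W} {u v : W} (h : H.Adj u v) (hu : u ∈ X) (hv : v ∉ X) :
    s(u, v) ∈ bdry H X :=
  ⟨h, ⟨u, by simp, hu⟩, ⟨v, by simp, hv⟩⟩

lemma bdry_compl (X : Set W) : bdry H Xᶜ = bdry H X := by
  ext e
  constructor
  · rintro ⟨h, ⟨x, hx, hx'⟩, ⟨y, hy, hy'⟩⟩
    exact ⟨h, ⟨y, hy, not_not.1 hy'⟩, ⟨x, hx, hx'⟩⟩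
  · rintro ⟨h, ⟨x, hx, hx'⟩, ⟨y, hy, hy'⟩⟩
    exact ⟨h, ⟨y, hy, hy'⟩, ⟨x, hx, not_not.2 hx'⟩⟩

/-- a walk from inside `X` to the outside crosses the boundary -/
lemma exists_cross {X : Set W} {u v : W} (p : H.Walk u v) (hu : u ∈ X) (hv : v ∉ X) :
    ∃ e ∈ p.edges, e ∈ bdry H X := by
  induction p with
  | nil => exact absurd hu hv
  | @cons a b c h p ih =>
    by_cases hb : b ∈ X
    · obtain ⟨e, he, he'⟩ := ih hb hv
      exact ⟨e, by simp [he], he'⟩
    · exact ⟨s(a, b), by simp, mem_bdry_of h hu hb⟩

/-- parity of the number of crossings -/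
lemma cross_parity (X : Set W) {u v : W} (p : H.Walk u v) :
    (p.edges.map fun e => ind2 (e ∈ bdry H X)).sum = ind2 (u ∈ X) + ind2 (v ∈ X) := by
  induction p with
  | nil =>
    simp only [Walk.edges_nil, List.map_nil, List.sum_nil]
    exact (CharTwo.add_self_eq_zero _).symm
  | @cons a b c h p ih =>
    rw [Walk.edges_cons, List.map_cons, List.sum_cons, ih]
    have key : ind2 (s(a, b) ∈ bdry H X) = ind2 (a ∈ X) + ind2 (b ∈ X) := by
      by_cases ha : a ∈ X <;> by_cases hb : b ∈ X
      · have : s(a, b) ∉ bdry H X := by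
          rintro ⟨-, -, y, hy, hy'⟩
          rcases Sym2.mem_iff.1 hy with rfl | rfl
          · exact hy' ha
          · exact hy' hb
        rw [ind2_neg this, ind2_pos ha, ind2_pos hb]
        decide
      · rw [ind2_pos (mem_bdry_of h ha hb), ind2_pos ha, ind2_neg hb]
        decide
      · have := mem_bdry_of h.symm hb ha
        rw [Sym2.eq_swap] at this
        rw [ind2_pos this, ind2_neg ha, ind2_pos hb]
        decide
      · have : s(a, b) ∉ bdry H X := by
          rintro ⟨-, ⟨y, hy, hy'⟩, -⟩
          rcases Sym2.mem_iff.1 hy with rfl | rfl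
          · exact ha hy'
          · exact hb hy'
        rw [ind2_neg this, ind2_neg ha, ind2_neg hb]
        decide
    rw [key]
    have h2 : ind2 (b ∈ X) + ind2 (b ∈ X) = 0 := CharTwo.add_self_eq_zero _
    linear_combination h2

lemma sum_one {α : Type} (l : List α) (g : α) (hn : l.Nodup) (hg : g ∈ l) (P : α → Prop)
    (hP : P g) (hQ : ∀ e ∈ l, P e → e = g) : (l.map fun e => ind2 (P e)).sum = 1 := by
  induction l with
  | nil => simp at hg
  | cons a l ih =>
    rw [List.nodup_cons] at hn
    rw [List.map_cons, List.sum_cons]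
    rcases List.mem_cons.1 hg with rfl | hg'
    · have h0 : (l.map fun e => ind2 (P e)).sum = 0 := by
        apply List.sum_eq_zero
        intro x hx
        obtain ⟨e, he, rfl⟩ := List.mem_map.1 hx
        apply ind2_neg
        intro hPe
        have := hQ e (List.mem_cons_of_mem _ he) hPe
        rw [this] at he
        exact hn.1 he
      rw [h0, ind2_pos hP, add_zero]
    · have ha : ¬ P a := by
        intro hPa
        have := hQ a List.mem_cons_self hPa
        rw [this] at hn
        exact hn.1 hg'
      rw [ind2_neg ha, zero_add]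
      exact ih hn.2 hg' fun e he => hQ e (List.mem_cons_of_mem _ he)

end ShortAux

open ShortAux in
theorem short : TaskShort := by
  classical
  intro hcore W H b d hd hsub hsc x y hadj
  obtain ⟨hne, p0, hp0⟩ := hadj
  have hne' : x.1 ≠ y.1 := fun h => hne (Subtype.ext h)
  obtain ⟨q, hq, hqp⟩ : ∃ q : H.Walk x.1 y.1, q.IsPath ∧
      ∀ v ∈ q.support, Insep H b v → v = x.1 ∨ v = y.1 :=
    ⟨p0.bypass, p0.bypass_isPath, fun v hv => hp0 v (p0.support_bypass_subset_support hv)⟩
  have hxI : Insep H b x.1 := x.2
  have hyI : Insep H b y.1 := y.2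
  generalize x.1 = x at *
  generalize y.1 = y at *
  cases q with
  | nil => exact absurd rfl hne'
  | @cons _ z _ hxz q' =>
    cases q' with
    | nil => exact ⟨Walk.cons hxz Walk.nil, by simpa using hd⟩
    | @cons _ z2 _ hzz q2 =>
      obtain ⟨z', r, hz'y, hr⟩ := Walk.exists_cons_eq_concat hzz q2
      rw [hr] at hq hqp
      rw [Walk.cons_isPath_iff] at hq
      obtain ⟨hq1, hxs⟩ := hq
      rw [Walk.concat_isPath_iff] at hq1
      obtain ⟨hrp, hyr⟩ := hq1
      have hxr : x ∉ r.support := by
        intro h
        apply hxs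
        rw [Walk.support_concat]
        simp [h]
      have hrI : ∀ v ∈ r.support, ¬ Insep H b v := by
        intro v hv hI
        rcases hqp v (by simp [Walk.support_concat, hv]) hI with rfl | rfl
        · exact hxr hv
        · exact hyr hv
      obtain ⟨X, hX2, hrX, hXI⟩ := hcore W H b z z' r hsub hrI
      have hxX : x ∉ X := fun h => hXI x h hxI
      have hyX : y ∉ X := fun h => hXI y h hyI
      have hzX : z ∈ X := hrX z r.start_mem_support
      have hz'X : z' ∈ X := hrX z' r.end_mem_support
      have g1 : s(x, z) ∈ bdry H X := by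
        have := mem_bdry_of hxz.symm hzX hxX
        rwa [Sym2.eq_swap] at this
      have g2 : s(z', y) ∈ bdry H X := mem_bdry_of hz'y hz'X hyX
      have g12 : s(x, z) ≠ s(z', y) := by
        intro h
        have h0 : y ∈ s(x, z) := by rw [h]; simp
        rcases Sym2.mem_iff.1 h0 with h1 | h1
        · exact hne' h1.symm
        · rw [h1] at hyX; exact hyX hzX
      have hb : bdry H X = {s(x, z), s(z', y)} := by
        symm
        apply Set.eq_of_subset_of_ncard_le _ _ hX2.1
        · rintro e (rfl | rfl)
          exacts [g1, g2]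
        · rw [Set.ncard_pair g12]; exact hX2.2
      -- `s(x, z)` lies on a cycle
      have hcyc : ∃ (u : W) (c : H.Walk u u), c.IsCycle ∧ s(x, z) ∈ c.edges := by
        rw [← adj_and_reachable_delete_edges_iff_exists_cycle]
        refine ⟨hxz, ?_⟩
        by_contra hnr
        let X' : Set W := {w | (H.deleteEdges {s(x, z)}).Reachable z w}
        have hbd : bdry H X' ⊆ {s(x, z)} := by
          rintro e ⟨he, ⟨a, ha, haX⟩, ⟨c, hc, hcX⟩⟩
          by_contra hne2
          have hac : a ≠ c := fun h => hcX (h ▸ haX)
          have hee : e = s(a, c) := (Sym2.mem_and_mem_iff hac).1 ⟨ha, hc⟩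
          apply hcX
          have hA : (H.deleteEdges {s(x, z)}).Adj a c := by
            rw [deleteEdges_adj]
            refine ⟨by rw [hee] at he; exact he, ?_⟩
            rw [← hee]; exact hne2
          exact (show (H.deleteEdges {s(x, z)}).Reachable z a from haX).trans hA.reachable
        have hS : Small2 H X' := ⟨(Set.finite_singleton _).subset hbd,
          (Set.ncard_le_ncard hbd (Set.finite_singleton _)).trans (by simp)⟩
        have hS' : Small2 H X'ᶜ := by
          unfold Small2
          rw [bdry_compl]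
          exact hS
        have hxX' : x ∉ X' := fun h =>
          hnr (show (H.deleteEdges {s(x, z)}).Reachable z x from h).symm
        have hyX' : y ∈ X' := by
          show (H.deleteEdges {s(x, z)}).Reachable z y
          rw [reachable_deleteEdges_iff_exists_walk]
          refine ⟨r.concat hz'y, fun h => hxs ?_⟩
          exact Walk.fst_mem_support_of_mem_edges _ h
        by_cases hbX : b ∈ X'
        · exact hxX' (hxI X' hS hbX)
        · exact (hyI X'ᶜ hS' hbX) hyX'
      obtain ⟨u, c, hc, hcl, hg1⟩ := hsc _ hcyc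
      have hg2 : s(z', y) ∈ c.edges := by
        by_contra hg2
        have h1 := cross_parity X c
        rw [sum_one c.edges s(x, z) hc.isTrail.edges_nodup hg1 (fun e => e ∈ bdry H X) g1 ?_,
          CharTwo.add_self_eq_zero] at h1
        · exact one_ne_zero h1
        · intro e he heb
          rw [hb] at heb
          rcases heb with rfl | rfl
          · rfl
          · exact absurd he hg2
      have hxc := Walk.fst_mem_support_of_mem_edges c hg1
      have hyc := Walk.snd_mem_support_of_mem_edges c hg2
      refine ⟨(c.rotate x hxc).takeUntil y (by simpa using hyc), ?_⟩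
      exact (Walk.length_takeUntil_le_length _ _).trans (by simpa using hcl)

end H279R3
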