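import Pool.Agent.H279R3.Stmts2

set_option autoImplicit false

namespace H279R3

open SimpleGraph

theorem shortCycles_map {W : Type} {H : SimpleGraph W} (g : H ≃g H) {v : W} {c : H.Walk v v}
    (hc : c.IsCycle) {a b : W} (he : s(a, b) ∈ c.edges) :
    ∃ (v' : W) (c' : H.Walk v' v'), c'.IsCycle ∧ c'.length = c.length ∧
      s(g a, g b) ∈ c'.edges := by
  refine ⟨g v, c.map g.toHom, hc.map g.injective, Walk.length_map _ _, ?_⟩
  rw [Walk.edges_map]
  exact List.mem_map.mpr ⟨s(a, b), he, rfl⟩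

theorem shortCycles : TaskShortCycles := by
  classical
  rintro W H hsub ⟨S, hS, hq⟩
  let E0 : Set (Sym2 W) := ⋃ s ∈ S, (fun w => s(s, w)) '' (H.neighborSet s)
  have hE0 : E0.Finite := hS.biUnion (fun s _ => (hsub s).1.image _)
  have hL : ∀ e : Sym2 W, ∃ l : ℕ, (∃ (v : W) (c : H.Walk v v), c.IsCycle ∧ e ∈ c.edges) →
      ∃ (v : W) (c : H.Walk v v), c.IsCycle ∧ c.length ≤ l ∧ e ∈ c.edges := by
    intro e
    by_cases h : ∃ (v : W) (c : H.Walk v v), c.IsCycle ∧ e ∈ c.edges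
    · obtain ⟨v, c, hc, hec⟩ := h
      exact ⟨c.length, fun _ => ⟨v, c, hc, le_rfl, hec⟩⟩
    · exact ⟨0, fun h' => absurd h' h⟩
  choose L hL using hL
  obtain ⟨d, hd⟩ := (hE0.image L).bddAbove
  refine ⟨d, ?_⟩
  intro e
  induction e using Sym2.ind with
  | _ u w =>
  rintro ⟨v, c, hc, hec⟩
  obtain ⟨s, hs, g, rfl⟩ := hq u
  obtain ⟨v', c', hc', -, hec'⟩ := shortCycles_map g.symm hc hec
  have e1 : g.symm (g s) = s := g.symm_apply_apply s
  rw [e1] at hec'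
  have hadj : H.Adj s (g.symm w) := by
    have := Walk.edges_subset_edgeSet c' hec'
    rwa [mem_edgeSet] at this
  have hmem : s(s, g.symm w) ∈ E0 := by
    simp only [E0, Set.mem_iUnion]
    exact ⟨s, hs, g.symm w, hadj, rfl⟩
  have hle : L (s(s, g.symm w)) ≤ d := hd ⟨_, hmem, rfl⟩
  obtain ⟨v2, c2, hc2, hl2, he2⟩ := hL (s(s, g.symm w)) ⟨v', c', hc', hec'⟩
  obtain ⟨v3, c3, hc3, hl3, he3⟩ := shortCycles_map g hc2 he2
  have e2 : g (g.symm w) = w := g.apply_symm_apply w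
  rw [e2] at he3
  exact ⟨v3, c3, hc3, by omega, he3⟩

end H279R3
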