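import Pool.Agent.H279R3.Stmts3

/-!
# Task W1 (helper714): compactness by an ultraproduct of finite duals
-/

namespace H279R3

open SimpleGraph Filter

open Classical in
/-- indicator in `ZMod 2` -/
noncomputable def w1ind (P : Prop) : ZMod 2 := if P then 1 else 0

lemma w1ind_true {P : Prop} (h : P) : w1ind P = 1 := by unfold w1ind; rw [if_pos h]
lemma w1ind_false {P : Prop} (h : ¬ P) : w1ind P = 0 := by unfold w1ind; rw [if_neg h]
lemma w1ind_congr {P Q : Prop} (h : P ↔ Q) : w1ind P = w1ind Q := by rw [propext h]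

/-- the parity of the number of edges at `v` in a cut -/
lemma w1_card {W K : Type} {H : SimpleGraph W} {ends : Sym2 W → Sym2 K} {P Q : Sym2 W → K}
    (hPQ : ∀ e, ends e = s(P e, Q e)) (A : Set K) (v : W) (Ev : Finset (Sym2 W))
    (hEv : ∀ e, e ∈ Ev ↔ e ∈ H.edgeSet ∧ v ∈ e) :
    (((cut H ends A ∩ {e | v ∈ e}).ncard : ℕ) : ZMod 2) =
      ∑ e ∈ Ev, (w1ind (P e ∈ A) + w1ind (Q e ∈ A)) := by
  classical
  have h1 : cut H ends A ∩ {e | v ∈ e} = ((Ev.filter fun e => e ∈ cut H ends A : Finset (Sym2 W)) :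
      Set (Sym2 W)) := by
    ext e
    rw [Finset.coe_filter, Set.mem_inter_iff, Set.mem_ofPred_eq, Set.mem_ofPred_eq, hEv]
    constructor
    · rintro ⟨h, hv⟩
      exact ⟨⟨h.1, hv⟩, h⟩
    · rintro ⟨⟨-, hv⟩, h⟩
      exact ⟨h, hv⟩
  rw [h1, Set.ncard_coe_finset, Finset.card_filter, Nat.cast_sum]
  refine Finset.sum_congr rfl fun e he => ?_
  have he' := ((hEv e).1 he).1
  by_cases hp : P e ∈ A <;> by_cases hq : Q e ∈ A
  · rw [if_neg, w1ind_true hp, w1ind_true hq]
    · decide
    · rw [mem_cut_iff (hPQ e)]; tauto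
  · rw [if_pos, w1ind_true hp, w1ind_false hq]
    · simp
    · rw [mem_cut_iff (hPQ e)]; tauto
  · rw [if_pos, w1ind_false hp, w1ind_true hq]
    · simp
    · rw [mem_cut_iff (hPQ e)]; tauto
  · rw [if_neg, w1ind_false hp, w1ind_false hq]
    · simp
    · rw [mem_cut_iff (hPQ e)]; tauto

/-- the edges at a vertex -/
lemma w1_star {W : Type} (H : SimpleGraph W) (v : W) (h : (H.neighborSet v).Finite) :
    ∃ Ev : Finset (Sym2 W), ∀ e, e ∈ Ev ↔ e ∈ H.edgeSet ∧ v ∈ e := by
  have hfin : ((fun w => s(v, w)) '' H.neighborSet v).Finite := h.image _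
  refine ⟨hfin.toFinset, fun e => ?_⟩
  rw [Set.Finite.mem_toFinset]
  constructor
  · rintro ⟨w, hw, rfl⟩
    exact ⟨hw, Sym2.mem_mk_left v w⟩
  · rintro ⟨he, hv⟩
    obtain ⟨w, rfl⟩ := Sym2.mem_iff_exists.1 hv
    exact ⟨w, he, rfl⟩

theorem w1 : TaskW1 := by
  classical
  intro W H hlf hwp
  -- the finite subgraphs
  let G : Finset (Sym2 W) → SimpleGraph W := fun i => fromEdgeSet ((i : Set (Sym2 W)) ∩ H.edgeSet)
  have hG : ∀ i, (G i).edgeSet = (i : Set (Sym2 W)) ∩ H.edgeSet := by
    intro i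
    rw [edgeSet_fromEdgeSet]
    ext e
    rw [Set.mem_sdiff]
    exact ⟨fun h => h.1, fun h => ⟨h, fun hd => H.not_isDiag_of_mem_edgeSet h.2 hd⟩⟩
  have hGle : ∀ i, G i ≤ H := by
    intro i
    rw [← edgeSet_subset_edgeSet, hG]
    exact Set.inter_subset_right
  have hGfin : ∀ i, (G i).edgeSet.Finite := by
    intro i
    rw [hG]
    exact i.finite_toSet.subset Set.inter_subset_left
  choose K' hK' using fun i => hwp (G i) (hGle i) (hGfin i)
  let D : ∀ i, AbstractDual (G i) (K' i) := fun i => (hK' i).some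
  choose p q hpq using fun i e => ends_cases (D i).ends e
  let U : Ultrafilter (Finset (Sym2 W)) := Ultrafilter.of atTop
  have hU : ∀ F0 : Finset (Sym2 W), ∀ᶠ i in (U : Filter (Finset (Sym2 W))), F0 ⊆ i := fun F0 =>
    (Ultrafilter.of_le (f := (atTop : Filter (Finset (Sym2 W))))) (eventually_ge_atTop F0)
  let st : Setoid (∀ i, K' i) :=
    { r := fun x y => ∀ᶠ i in (U : Filter (Finset (Sym2 W))), x i = y i
      iseqv := ⟨fun x => Eventually.of_forall fun _ => rfl,
        fun h => h.mono fun _ h => h.symm,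
        fun h h' => (h.and h').mono fun _ h => h.1.trans h.2⟩ }
  let P : Sym2 W → Quotient st := fun e => Quotient.mk st fun i => p i e
  let Q : Sym2 W → Quotient st := fun e => Quotient.mk st fun i => q i e
  have hmk : ∀ x y : (∀ i, K' i), Quotient.mk st x = Quotient.mk st y ↔
      ∀ᶠ i in (U : Filter (Finset (Sym2 W))), x i = y i := fun x y =>
    ⟨fun h => Quotient.exact h, fun h => Quotient.sound h⟩
  refine ⟨Quotient st, fun e => s(P e, Q e), ?_, ?_⟩
  · -- cuts are even
    intro A _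
    refine ⟨fun e he => he.1, fun v => ?_⟩
    obtain ⟨Ev, hEv⟩ := w1_star H v (hlf v)
    have hsing : ∀ x : Quotient st, ∑ e ∈ Ev, (w1ind (P e = x) + w1ind (Q e = x)) = 0 := by
      intro x
      obtain ⟨f, rfl⟩ := Quotient.exists_rep x
      have hP : ∀ e, ∀ᶠ i in (U : Filter (Finset (Sym2 W))),
          (P e = Quotient.mk st f ↔ p i e = f i) := by
        intro e
        by_cases h : P e = Quotient.mk st f
        · exact ((hmk _ _).1 h).mono fun i hi => ⟨fun _ => hi, fun _ => h⟩
        · have h' := mt (hmk _ _).2 h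
          rw [← Ultrafilter.eventually_not] at h'
          exact h'.mono fun i hi => ⟨fun h2 => absurd h2 h, fun h2 => absurd h2 hi⟩
      have hQ : ∀ e, ∀ᶠ i in (U : Filter (Finset (Sym2 W))),
          (Q e = Quotient.mk st f ↔ q i e = f i) := by
        intro e
        by_cases h : Q e = Quotient.mk st f
        · exact ((hmk _ _).1 h).mono fun i hi => ⟨fun _ => hi, fun _ => h⟩
        · have h' := mt (hmk _ _).2 h
          rw [← Ultrafilter.eventually_not] at h'
          exact h'.mono fun i hi => ⟨fun h2 => absurd h2 h, fun h2 => absurd h2 hi⟩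
      have hall : ∀ᶠ i in (U : Filter (Finset (Sym2 W))), ∀ e ∈ Ev,
          (P e = Quotient.mk st f ↔ p i e = f i) ∧ (Q e = Quotient.mk st f ↔ q i e = f i) :=
        (eventually_all_finset Ev).2 fun e _ => (hP e).and (hQ e)
      obtain ⟨i, hi, hiE⟩ := (hall.and (hU Ev)).exists
      have hEvi : ∀ e, e ∈ Ev ↔ e ∈ (G i).edgeSet ∧ v ∈ e := by
        intro e
        rw [hG]
        constructor
        · intro he
          exact ⟨⟨hiE he, ((hEv e).1 he).1⟩, ((hEv e).1 he).2⟩
        · rintro ⟨⟨-, he⟩, hv⟩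
          exact (hEv e).2 ⟨he, hv⟩
      have hfinc : (cut (G i) (D i).ends {f i}).Finite :=
        (hGfin i).subset fun e he => he.1
      have heven := ((D i).cut_even {f i} hfinc).2 v
      have hcard := w1_card (H := G i) (hpq i) {f i} v Ev hEvi
      rw [(ZMod.natCast_eq_zero_iff_even).2 heven] at hcard
      rw [hcard]
      refine Finset.sum_congr rfl fun e he => ?_
      rw [w1ind_congr (hi e he).1, w1ind_congr (hi e he).2]
      rfl
    have hcard := w1_card (H := H) (ends := fun e => s(P e, Q e)) (fun _ => rfl) A v Ev hEv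
    rw [← ZMod.natCast_eq_zero_iff_even, hcard]
    let X : Finset (Quotient st) := (Ev.image P ∪ Ev.image Q).filter fun x => x ∈ A
    have hX : ∀ e ∈ Ev, w1ind (P e ∈ A) + w1ind (Q e ∈ A) =
        ∑ x ∈ X, (w1ind (P e = x) + w1ind (Q e = x)) := by
      intro e he
      have aux : ∀ y : Quotient st, y ∈ Ev.image P ∪ Ev.image Q →
          ∑ x ∈ X, w1ind (y = x) = w1ind (y ∈ A) := by
        intro y hy
        by_cases hyA : y ∈ A
        · rw [w1ind_true hyA, Finset.sum_eq_single y]
          · exact w1ind_true rfl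
          · intro x _ hx
            exact w1ind_false (Ne.symm hx)
          · intro h
            exact absurd (Finset.mem_filter.2 ⟨hy, hyA⟩) h
        · rw [w1ind_false hyA]
          refine Finset.sum_eq_zero fun x hx => w1ind_false ?_
          rintro rfl
          exact hyA (Finset.mem_filter.1 hx).2
      rw [Finset.sum_add_distrib, aux (P e)
        (Finset.mem_union_left _ (Finset.mem_image_of_mem _ he)), aux (Q e)
        (Finset.mem_union_right _ (Finset.mem_image_of_mem _ he))]
    rw [Finset.sum_congr rfl hX, Finset.sum_comm]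
    exact Finset.sum_eq_zero fun x _ => hsing x
  · -- even sets are cuts
    intro F hF hev
    have hA : ∀ i : Finset (Sym2 W), hF.toFinset ⊆ i →
        ∃ A : Set (K' i), cut (G i) (D i).ends A = F := by
      intro i hi
      refine (D i).even_cut F hF ⟨?_, hev.2⟩
      intro e he
      rw [hG]
      exact ⟨hi (hF.mem_toFinset.2 he), hev.1 he⟩
    have hA' : ∀ i : Finset (Sym2 W), ∃ A : Set (K' i), hF.toFinset ⊆ i →
        cut (G i) (D i).ends A = F := by
      intro i
      by_cases hi : hF.toFinset ⊆ i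
      · obtain ⟨A, h⟩ := hA i hi
        exact ⟨A, fun _ => h⟩
      · exact ⟨∅, fun h => absurd h hi⟩
    choose A hAF using hA'
    let B : Set (Quotient st) := {x | ∃ f, Quotient.mk st f = x ∧
      ∀ᶠ i in (U : Filter (Finset (Sym2 W))), f i ∈ A i}
    have hB : ∀ f, Quotient.mk st f ∈ B ↔ ∀ᶠ i in (U : Filter (Finset (Sym2 W))), f i ∈ A i := by
      intro f
      constructor
      · rintro ⟨g, hg, h⟩
        refine (((hmk _ _).1 hg).and h).mono fun i hi => ?_
        rw [← hi.1]; exact hi.2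
      · intro h
        exact ⟨f, rfl, h⟩
    refine ⟨B, ?_⟩
    ext e
    rw [mem_cut_iff (ends := fun e => s(P e, Q e)) (x := P e) (y := Q e) rfl]
    have key : ∀ he : e ∈ H.edgeSet, ∀ᶠ i in (U : Filter (Finset (Sym2 W))),
        (e ∈ F ↔ ((p i e ∈ A i ∧ q i e ∉ A i) ∨ (p i e ∉ A i ∧ q i e ∈ A i))) := by
      intro he
      refine ((hU hF.toFinset).and (hU {e})).mono fun i hi => ?_
      have h1 := mem_cut_iff (H := G i) (hpq i e) (A i)
      rw [hAF i hi.1] at h1
      rw [h1, hG]
      have h2 : e ∈ ((i : Set (Sym2 W)) ∩ H.edgeSet) :=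
        ⟨hi.2 (Finset.mem_singleton_self e), he⟩
      tauto
    have hPB : P e ∈ B ↔ ∀ᶠ i in (U : Filter (Finset (Sym2 W))), p i e ∈ A i := hB _
    have hQB : Q e ∈ B ↔ ∀ᶠ i in (U : Filter (Finset (Sym2 W))), q i e ∈ A i := hB _
    constructor
    · rintro ⟨he, h⟩
      have hk := key he
      rcases h with ⟨h1, h2⟩ | ⟨h1, h2⟩
      · rw [hPB] at h1
        rw [hQB, ← Ultrafilter.eventually_not] at h2
        obtain ⟨i, hi, h1i, h2i⟩ := (hk.and (h1.and h2)).exists
        exact hi.2 (Or.inl ⟨h1i, h2i⟩)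
      · rw [hQB] at h2
        rw [hPB, ← Ultrafilter.eventually_not] at h1
        obtain ⟨i, hi, h1i, h2i⟩ := (hk.and (h1.and h2)).exists
        exact hi.2 (Or.inr ⟨h1i, h2i⟩)
    · intro heF
      have he := hev.1 heF
      refine ⟨he, ?_⟩
      have hk := (key he).mono fun i hi => hi.1 heF
      by_cases h1 : P e ∈ B
      · left
        refine ⟨h1, ?_⟩
        rw [hPB] at h1
        intro h2
        rw [hQB] at h2
        obtain ⟨i, hi, h1i, h2i⟩ := (hk.and (h1.and h2)).exists
        tauto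
      · right
        refine ⟨h1, ?_⟩
        rw [hPB, ← Ultrafilter.eventually_not] at h1
        rw [hQB]
        refine (hk.and h1).mono fun i hi => ?_
        tauto

end H279R3
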