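import Pool.Agent.H279R3.Stmts3

/-!
# Connectedness of a dual can be arranged (helper504 for helper279)
-/

namespace H279R3

open SimpleGraph

section W2

variable {W K : Type} (H : SimpleGraph W) (ends : Sym2 W → Sym2 K)

/-- adjacency of dual vertices -/
def w2rel (x y : K) : Prop := ∃ e ∈ H.edgeSet, ends e = s(x, y)

/-- the base point of the component -/
noncomputable def w2base (x : K) : K :=
  (Quotient.mk (Relation.EqvGen.setoid (w2rel H ends)) x).out

lemma w2base_rel (x : K) : Relation.EqvGen (w2rel H ends) (w2base H ends x) x :=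
  Quotient.exact (s := Relation.EqvGen.setoid (w2rel H ends)) (Quotient.out_eq _)

lemma w2base_eq {x y : K} (h : Relation.EqvGen (w2rel H ends) x y) :
    w2base H ends x = w2base H ends y := by
  unfold w2base
  rw [show (Quotient.mk (Relation.EqvGen.setoid (w2rel H ends)) x) =
    Quotient.mk (Relation.EqvGen.setoid (w2rel H ends)) y from Quotient.sound h]

lemma w2base_base (x : K) : w2base H ends (w2base H ends x) = w2base H ends x :=
  w2base_eq H ends (w2base_rel H ends x)

open Classical in
/-- the map identifying all base points -/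
noncomputable def w2map (x : K) : Option {x : K // w2base H ends x ≠ x} :=
  if h : w2base H ends x ≠ x then some ⟨x, h⟩ else none

lemma w2map_some (x : {x : K // w2base H ends x ≠ x}) : w2map H ends x.1 = some x := by
  unfold w2map
  rw [dif_pos x.2]

lemma w2map_none {x : K} (h : w2base H ends x = x) : w2map H ends x = none := by
  unfold w2map
  rw [dif_neg (by simpa using h)]

lemma w2cut {K' : Type} (m : K → K') (A' : Set K') :
    cut H (fun e => (ends e).map m) A' = cut H ends (m ⁻¹' A') := by
  ext e
  unfold cut
  simp only [Set.mem_setOf_eq, Sym2.mem_map, Set.mem_preimage, exists_exists_and_eq_and]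

lemma w2_class {A : Set K} (h0 : cut H ends A = ∅) {x y : K}
    (h : Relation.EqvGen (w2rel H ends) x y) : x ∈ A ↔ y ∈ A := by
  induction h with
  | rel x y hxy =>
    obtain ⟨e, he, hxy⟩ := hxy
    have h1 : e ∉ cut H ends A := by rw [h0]; exact Set.notMem_empty e
    rw [mem_cut_iff hxy] at h1
    tauto
  | refl x => exact Iff.rfl
  | symm x y _ ih => exact ih.symm
  | trans x y z _ _ ih1 ih2 => exact ih1.trans ih2

end W2

theorem w2 : TaskW2 := by
  intro W K H ends hev hcut
  refine ⟨Option {x : K // w2base H ends x ≠ x},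
    ⟨{ ends := fun e => (ends e).map (w2map H ends), conn := ?_, cut_even := ?_,
       even_cut := ?_ }⟩⟩
  · intro A' h0
    rw [w2cut] at h0
    by_cases hn : none ∈ A'
    · right
      rw [Set.eq_univ_iff_forall]
      rintro (_ | x)
      · exact hn
      · have h1 : w2base H ends x.1 ∈ w2map H ends ⁻¹' A' := by
          rw [Set.mem_preimage, w2map_none H ends (w2base_base H ends x.1)]
          exact hn
        have h2 := (w2_class H ends h0 (w2base_rel H ends x.1)).1 h1
        rw [Set.mem_preimage, w2map_some] at h2
        exact h2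
    · left
      rw [Set.eq_empty_iff_forall_notMem]
      rintro (_ | x)
      · exact hn
      · intro hx
        have h2 : x.1 ∈ w2map H ends ⁻¹' A' := by
          rw [Set.mem_preimage, w2map_some]
          exact hx
        have h1 := (w2_class H ends h0 (w2base_rel H ends x.1)).2 h2
        rw [Set.mem_preimage, w2map_none H ends (w2base_base H ends x.1)] at h1
        exact hn h1
  · intro A' hA
    rw [w2cut] at hA ⊢
    exact hev _ hA
  · intro F hF hE
    obtain ⟨A, hA⟩ := hcut F hF hE
    refine ⟨{k | ∃ x : {x : K // w2base H ends x ≠ x}, k = some x ∧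
      ((x.1 ∈ A ∧ w2base H ends x.1 ∉ A) ∨ (x.1 ∉ A ∧ w2base H ends x.1 ∈ A))}, ?_⟩
    rw [w2cut]
    have hpre : ∀ x : K, x ∈ w2map H ends ⁻¹' {k | ∃ x : {x : K // w2base H ends x ≠ x},
        k = some x ∧ ((x.1 ∈ A ∧ w2base H ends x.1 ∉ A) ∨ (x.1 ∉ A ∧ w2base H ends x.1 ∈ A))} ↔
        ((x ∈ A ∧ w2base H ends x ∉ A) ∨ (x ∉ A ∧ w2base H ends x ∈ A)) := by
      intro x
      rw [Set.mem_preimage, Set.mem_setOf_eq]
      by_cases hx : w2base H ends x = x
      · rw [w2map_none H ends hx, hx]
        simp
      · have h1 := w2map_some H ends ⟨x, hx⟩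
        simp only at h1
        rw [h1]
        constructor
        · rintro ⟨y, hy, h2⟩
          rw [Option.some_inj] at hy
          rw [← hy] at h2
          exact h2
        · intro h2
          exact ⟨⟨x, hx⟩, rfl, h2⟩
    ext e
    rw [← hA]
    obtain ⟨x, y, hxy⟩ := ends_cases ends e
    rw [mem_cut_iff hxy, mem_cut_iff hxy, hpre, hpre]
    by_cases he : e ∈ H.edgeSet
    · have hb : w2base H ends x = w2base H ends y :=
        w2base_eq H ends (Relation.EqvGen.rel _ _ ⟨e, he, hxy⟩)
      rw [hb]
      tauto
    · simp [he]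

end H279R3
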