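import Mathlib
import Pool.Agent.H279R3.M1
import Pool.Agent.H279R3.M2a
import Pool.Agent.H279R3.M2b
import Pool.Agent.H279R3.M2c
import Pool.Agent.H279R3.M3
import Pool.Agent.H279R3.Core
import Pool.Agent.H279R3.Cubic
import Pool.Agent.H279R3.Short
import Pool.Agent.H279R3.ShortCycles
import Pool.Agent.H279R3.Dich
import Pool.Agent.H279R3.B0
import Pool.Agent.H279R3.BigT
import Pool.Agent.H279R3.NoSmall
import Pool.Agent.H279R3.PP
import Pool.Agent.H279R3.W1
import Pool.Agent.H279R3.W2
import Pool.Agent.H279R3.Final3
import Pool.Agent.H860R3.Lamp.Dual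

/-!
# Assembly: planar quasi-transitive graphs of maximum degree at most three (helper279)
-/

namespace H279R3

open SimpleGraph

/-- `Aut(G)` acts on the vertex set with finitely many orbits. -/
def QuasiTransitive {V : Type} (G : SimpleGraph V) : Prop :=
  ∃ S : Set V, S.Finite ∧ ∀ v, ∃ s ∈ S, ∃ g : G ≃g G, g s = v

/-- Planarity of all finite subgraphs, expressed by Mac Lane's criterion or by Whitney's
criterion. -/
def FinitelyPlanar {W : Type} (H : SimpleGraph W) : Prop :=
  H860R3.Lamp.MacLanePlanar H ∨ WhitneyPlanar H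

/-- A locally finite graph all of whose finite subgraphs are planar has an abstract dual. -/
theorem exists_dual_of_finitelyPlanar {W : Type} {H : SimpleGraph W}
    (hlf : ∀ v, (H.neighborSet v).Finite) (hpl : FinitelyPlanar H) :
    ∃ K : Type, Nonempty (AbstractDual H K) := by
  rcases hpl with h | h
  · exact H860R3.Lamp.exists_abstractDual h hlf
  · obtain ⟨K, ends, h1, h2⟩ := w1 W H hlf h
    exact w2 W K H ends h1 h2

/-- The cycle space of a planar quasi-transitive graph of maximum degree at most three is
generated by cycles of bounded length. -/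
theorem generated_of_finitelyPlanar {W : Type} {H : SimpleGraph W} (hcub : SubCubic H)
    (hpl : FinitelyPlanar H) (hqt : QuasiTransitive H) :
    ∃ r, CycleSpaceGeneratedBelow H r := by
  obtain ⟨K, ⟨D⟩⟩ := exists_dual_of_finitelyPlanar (fun v => (hcub v).1) hpl
  exact generated_of_planar core cubic nosmall pp short shortCycles dich b0 bigT m2a m2b m2c m3
    D hcub hqt

/-- Graphs embedding in the cubic lamplighter graph have maximum degree at most three. -/
lemma subCubic_of_hom {W : Type} {H : SimpleGraph W} (f : H →g cubicLamp)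
    (hf : Function.Injective f) : SubCubic H := by
  intro v
  obtain ⟨h1, h2⟩ := m1.1 (f v)
  have hsub : f '' (H.neighborSet v) ⊆ cubicLamp.neighborSet (f v) := by
    rintro _ ⟨w, hw, rfl⟩
    exact f.map_adj hw
  refine ⟨Set.Finite.of_finite_image (h1.subset hsub) hf.injOn, ?_⟩
  rw [← Set.ncard_image_of_injective _ hf]
  exact (Set.ncard_le_ncard hsub h1).trans h2

/-- Every planar quasi-transitive graph that embeds in the cubic lamplighter graph has bounded
treewidth. -/
theorem bounded_of_hom {W : Type} {H : SimpleGraph W} (f : H →g cubicLamp)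
    (hf : Function.Injective f) (hpl : FinitelyPlanar H) (hqt : QuasiTransitive H) :
    ∃ k, HasTreeDecomp H k := by
  obtain ⟨r, hr⟩ := generated_of_finitelyPlanar (subCubic_of_hom f hf) hpl hqt
  obtain ⟨e, he⟩ := m1.2.2.2
  exact ⟨_, hasTreeDecomp_of_generated (e.comp f) (he.comp hf) hr⟩

/-- one step to the right without switching -/
lemma cubicLamp_adj_right (S : Finset ℤ) (i : ℤ) : cubicLamp.Adj (S, i) (S, i + 1) :=
  Or.inl ⟨rfl, fun _ _ => Iff.rfl⟩

lemma cubicLamp_reach_nat (S : Finset ℤ) (i : ℤ) (n : ℕ) :
    cubicLamp.Reachable (S, i) (S, i + n) := by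
  induction n with
  | zero => simp
  | succ n ih =>
    have h := (cubicLamp_adj_right S (i + n)).reachable
    have h2 : i + (n : ℤ) + 1 = i + ((n + 1 : ℕ) : ℤ) := by push_cast; ring
    rw [h2] at h
    exact ih.trans h

lemma cubicLamp_reach_pos (S : Finset ℤ) (i j : ℤ) : cubicLamp.Reachable (S, i) (S, j) := by
  rcases le_total i j with h | h
  · have := cubicLamp_reach_nat S i (j - i).toNat
    rwa [Int.toNat_of_nonneg (by omega), add_sub_cancel] at this
  · have := cubicLamp_reach_nat S j (i - j).toNat
    rw [Int.toNat_of_nonneg (by omega), add_sub_cancel] at this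
    exact this.symm

lemma cubicLamp_reach_empty (S : Finset ℤ) : ∀ i j : ℤ, cubicLamp.Reachable (S, i) (∅, j) := by
  classical
  induction S using Finset.induction_on with
  | empty => exact cubicLamp_reach_pos ∅
  | insert n T hn ih =>
    intro i j
    have h1 : cubicLamp.Adj (insert n T, 2 * n) (T, 2 * n + 1) := by
      refine Or.inl ⟨rfl, fun m hm => ?_⟩
      have hmn : m ≠ n := fun h => hm (by rw [h])
      simp [hmn]
    exact (cubicLamp_reach_pos _ i (2 * n)).trans (h1.reachable.trans (ih (2 * n + 1) j))

/-- The cubic lamplighter graph is connected. -/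
lemma cubicLamp_connected : cubicLamp.Connected where
  preconnected := fun p q =>
    (cubicLamp_reach_empty p.1 p.2 0).trans (cubicLamp_reach_empty q.1 q.2 0).symm
  nonempty := ⟨(∅, 0)⟩

end H279R3
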