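import Mathlib
import Pool.Agent.H279R3.Final4
import Pool.Agent.H279R3.Drawing

/-!
# Planarity by straight-line drawings (helper279), MP_57dfd7_co
-/

namespace H279R3

open SimpleGraph

/-- Every subgraph with finitely many edges has a crossing-free straight-line drawing in the
plane. -/
def StraightLinePlanar {W : Type} (H : SimpleGraph W) : Prop :=
  ∀ H' : SimpleGraph W, H' ≤ H → H'.edgeSet.Finite → ∃ pos : W → ℝ × ℝ, IsStraightDrawing H' pos

/-- Planarity of all finite subgraphs: by straight-line drawings, by Mac Lane's criterion or by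
Whitney's criterion. -/
def PlanarGraph {W : Type} (H : SimpleGraph W) : Prop :=
  StraightLinePlanar H ∨ H860R3.Lamp.MacLanePlanar H ∨ WhitneyPlanar H

/-- Straight-line drawings have abstract duals. -/
theorem exists_dual_of_drawing {W : Type} {H : SimpleGraph W} (hfin : H.edgeSet.Finite)
    {pos : W → ℝ × ℝ} (hd : IsStraightDrawing H pos) :
    ∃ K : Type, Nonempty (AbstractDual H K) := by
  obtain ⟨pos', h1, h2⟩ := exists_generic hfin pos hd
  obtain ⟨S⟩ := sweep_of_drawing h1 h2
  obtain ⟨K, ends, h3, h4⟩ := S.exists_ends hfin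
  exact w2 W K H ends h3 h4

theorem StraightLinePlanar.whitney {W : Type} {H : SimpleGraph W} (h : StraightLinePlanar H) :
    WhitneyPlanar H := by
  intro H' hle hfin
  obtain ⟨pos, hpos⟩ := h H' hle hfin
  exact exists_dual_of_drawing hfin hpos

theorem PlanarGraph.finitelyPlanar {W : Type} {H : SimpleGraph W} (h : PlanarGraph H) :
    FinitelyPlanar H := by
  rcases h with h | h | h
  · exact Or.inr h.whitney
  · exact Or.inl h
  · exact Or.inr h

end H279R3
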