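import Mathlib

set_option autoImplicit false

namespace Pool.Agent.H279R3.LogConv

open Finset

/-- The part of the structure of the incidence graph of a projective plane that is used. -/
structure PlaneGraph where
  W : Type
  [fW : Fintype W]
  col : W → Bool
  Adj : W → W → Prop
  m : ℕ
  hm : 1 ≤ m
  symm : ∀ x y, Adj x y → Adj y x
  col_ne : ∀ x y, Adj x y → col x ≠ col y
  nbr : ∀ x, Nat.card {y // Adj x y} = m + 1
  common : ∀ x y, x ≠ y → col x = col y → ∃ z, Adj x z ∧ Adj y z ∧ ∀ z', Adj x z' → Adj y z' → z' = z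
  cnt : ∀ b, Nat.card {x // col x = b} = m ^ 2 + m + 1

/-- A finite bipartite pattern, as a symmetric relation on a coloured vertex set. -/
structure Pat where
  V : Type
  [fV : Fintype V]
  κ : V → Bool
  R : V → V → Prop
  symm : ∀ x y, R x y → R y x
  col_ne : ∀ x y, R x y → κ x ≠ κ y

attribute [instance] Pat.fV PlaneGraph.fW

/-- Being of exact order `m ^ e` for all planes. -/
def Good (f : PlaneGraph → ℕ) : Prop :=
  ∃ e C : ℕ, ∀ G : PlaneGraph, f G ≤ C * G.m ^ e ∧ G.m ^ e ≤ C * f G

theorem Good.one : Good (fun _ => 1) := ⟨0, 1, fun G => by simp⟩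

theorem Good.mul {f g : PlaneGraph → ℕ} (hf : Good f) (hg : Good g) :
    Good (fun G => f G * g G) := by
  obtain ⟨e, C, h⟩ := hf
  obtain ⟨e', C', h'⟩ := hg
  refine ⟨e + e', C * C', fun G => ⟨?_, ?_⟩⟩
  · calc f G * g G ≤ (C * G.m ^ e) * (C' * G.m ^ e') := Nat.mul_le_mul (h G).1 (h' G).1
      _ = _ := by ring
  · calc G.m ^ (e + e') = G.m ^ e * G.m ^ e' := pow_add _ _ _
      _ ≤ (C * f G) * (C' * g G) := Nat.mul_le_mul (h G).2 (h' G).2
      _ = _ := by ring

theorem Good.sandwich {f g : PlaneGraph → ℕ} (hg : Good g) (A : ℕ)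
    (h1 : ∀ G, f G ≤ A * g G) (h2 : ∀ G, g G ≤ A * f G) : Good f := by
  obtain ⟨e, C, h⟩ := hg
  refine ⟨e, A * C, fun G => ⟨?_, ?_⟩⟩
  · calc f G ≤ A * g G := h1 G
      _ ≤ A * (C * G.m ^ e) := Nat.mul_le_mul_left _ (h G).1
      _ = _ := by ring
  · calc G.m ^ e ≤ C * g G := (h G).2
      _ ≤ C * (A * f G) := Nat.mul_le_mul_left _ (h2 G)
      _ = _ := by ring

theorem Good.add {f g : PlaneGraph → ℕ} (hf : Good f) (hg : Good g) :
    Good (fun G => f G + g G) := by
  obtain ⟨e, C, h⟩ := hf
  obtain ⟨e', C', h'⟩ := hg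
  refine ⟨max e e', C + C', fun G => ⟨?_, ?_⟩⟩
  · have h1 : G.m ^ e ≤ G.m ^ max e e' := Nat.pow_le_pow_right G.hm (le_max_left _ _)
    have h2 : G.m ^ e' ≤ G.m ^ max e e' := Nat.pow_le_pow_right G.hm (le_max_right _ _)
    have h3 := Nat.mul_le_mul_left C h1
    have h4 := Nat.mul_le_mul_left C' h2
    have h5 := (h G).1
    have h6 := (h' G).1
    rw [add_mul]
    simp only
    omega
  · have h5 := (h G).2
    have h6 := (h' G).2
    have h7 : (C + C') * (f G + g G) = C * f G + C' * g G + (C' * f G + C * g G) := by ring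
    rcases le_total e e' with he | he
    · rw [max_eq_right he]
      simp only
      rw [h7]
      generalize C * f G = a at *
      generalize C' * g G = b at *
      generalize (C' * f G + C * g G) = d at *
      omega
    · rw [max_eq_left he]
      simp only
      rw [h7]
      generalize C * f G = a at *
      generalize C' * g G = b at *
      generalize (C' * f G + C * g G) = d at *
      omega

theorem Good.add_sum {ι : Type} {f : PlaneGraph → ℕ} (hf : Good f) (s : Finset ι)
    (g : ι → PlaneGraph → ℕ) (hg : ∀ i ∈ s, Good (g i)) :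
    Good (fun G => f G + ∑ i ∈ s, g i G) := by
  classical
  induction s using Finset.induction_on with
  | empty => simpa using hf
  | insert a s ha ih =>
    have h1 := ih (fun i hi => hg i (Finset.mem_insert_of_mem hi))
    have h2 := hg a (Finset.mem_insert_self _ _)
    have h3 := h1.add h2
    refine h3.sandwich 1 (fun G => ?_) (fun G => ?_)
    · rw [Finset.sum_insert ha]; omega
    · rw [Finset.sum_insert ha]; omega

theorem good_succ : Good (fun G => G.m + 1) := by
  refine ⟨1, 2, fun G => ⟨?_, ?_⟩⟩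
  · have := G.hm
    simp only [pow_one]
    omega
  · simp only [pow_one]
    omega

theorem Good.pow {f : PlaneGraph → ℕ} (hf : Good f) (n : ℕ) : Good (fun G => f G ^ n) := by
  induction n with
  | zero => simpa using Good.one
  | succ n ih =>
    have := ih.mul hf
    simpa [pow_succ] using this

theorem good_all : Good (fun G => G.m ^ 2 + G.m + 1) := by
  refine ⟨2, 3, fun G => ⟨?_, ?_⟩⟩
  · have := G.hm
    simp only
    nlinarith
  · simp only
    nlinarith

/-! ### The greedy ordering of a minimal separated set -/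

section Greedy

variable {V : Type} (R : V → V → Prop) (c : V)

/-- `B` together with `c` is connected, expressed by cuts. -/
def Conn (B : Finset V) : Prop :=
  ∀ J ⊆ B, J.Nonempty → ∃ x ∈ J, ∃ y, (y ∈ B ∨ y = c) ∧ y ∉ J ∧ R x y

theorem greedy [DecidableEq V] (hsymm : ∀ x y, R x y → R y x) (S : Finset V) (hcS : c ∉ S)
    (hcl : ∀ x ∈ S, ∀ y, R x y → y ∈ S ∨ y = c)
    (hmin : ∀ (z : V) (I : Finset V), I.Nonempty → I ⊆ S → I.card < S.card → z ∉ I →
      ∃ x ∈ I, ∃ y, y ∉ I ∧ y ≠ z ∧ R x y)
    (A B : Finset V) (hAB : A ∪ B = S) (hB : B.Nonempty)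
    (hconn : Conn R c B) :
    ∃ v ∈ B, (∃ y, (y ∈ A ∨ y = c) ∧ R v y) ∧ Conn R c (B.erase v) := by
  classical
  have hBS : B ⊆ S := by rw [← hAB]; exact subset_union_right
  have hcB : c ∉ B := fun h => hcS (hBS h)
  let P : ℕ → Prop := fun n => ∃ (z : V) (I : Finset V), I.card = n ∧ I.Nonempty ∧ I ⊆ B ∧ z ∉ I ∧
    (z ∈ B ∨ z = c) ∧ ∀ x ∈ I, ∀ y, (y ∈ B ∨ y = c) → R x y → y ∈ I ∨ y = z
  have hP : ∃ n, P n := by
    refine ⟨B.card, c, B, rfl, hB, Subset.refl _, hcB, Or.inr rfl, ?_⟩
    intro x _ y hy _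
    exact hy
  obtain ⟨z, I, hIn, hI, hIB, hzI, hz, hclI⟩ := Nat.find_spec hP
  have hminI : ∀ (z' : V) (J : Finset V), J.Nonempty → J ⊆ B → z' ∉ J → (z' ∈ B ∨ z' = c) →
      (∀ x ∈ J, ∀ y, (y ∈ B ∨ y = c) → R x y → y ∈ J ∨ y = z') → I.card ≤ J.card := by
    intro z' J h1 h2 h3 h4 h5
    rw [hIn]
    exact Nat.find_min' hP ⟨z', J, rfl, h1, h2, h3, h4, h5⟩
  by_cases hIS : I.card < S.card
  · obtain ⟨x, hxI, y, hyI, hyz, hxy⟩ := hmin z I hI (hIB.trans hBS) hIS hzI
    have hxB : x ∈ B := hIB hxI
    have hyA : y ∈ A := by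
      have h1 := hcl x (hBS hxB) y hxy
      have h2 : ¬ (y ∈ B ∨ y = c) := by
        intro h
        rcases hclI x hxI y h hxy with h | h
        · exact hyI h
        · exact hyz h
      rcases h1 with h1 | h1
      · rw [← hAB, mem_union] at h1
        rcases h1 with h1 | h1
        · exact h1
        · exact absurd (Or.inl h1) h2
      · exact absurd (Or.inr h1) h2
    refine ⟨x, hxB, ⟨y, Or.inl hyA, hxy⟩, ?_⟩
    intro J hJ hJne
    by_contra hcon
    push Not at hcon
    have hJB : J ⊆ B := hJ.trans (erase_subset _ _)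
    have hxJ : x ∉ J := fun h => (mem_erase.1 (hJ h)).1 rfl
    have key : ∀ a ∈ J, ∀ b, (b ∈ B ∨ b = c) → R a b → b ∈ J ∨ b = x := by
      intro a ha b hb hab
      by_contra hne
      push Not at hne
      refine hcon a ha b ?_ hne.1 hab
      rcases hb with hb | hb
      · exact Or.inl (mem_erase.2 ⟨hne.2, hb⟩)
      · exact Or.inr hb
    by_cases hzJ : z ∈ J
    · -- consider `J ∪ I`
      obtain ⟨a, ha, b, hb, hbn, hab⟩ := hconn (J ∪ I) (union_subset hJB hIB)
        (hJne.mono subset_union_left)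
      rw [mem_union, not_or] at hbn
      rcases mem_union.1 ha with ha | ha
      · rcases key a ha b hb hab with h | h
        · exact hbn.1 h
        · exact hbn.2 (h ▸ hxI)
      · rcases hclI a ha b hb hab with h | h
        · exact hbn.2 h
        · exact hbn.1 (h ▸ hzJ)
    · by_cases hJI : (J ∩ I).Nonempty
      · have h1 : I.card ≤ (J ∩ I).card := by
          refine hminI x (J ∩ I) hJI (inter_subset_left.trans hJB)
            (fun h => hxJ (mem_inter.1 h).1) (Or.inl hxB) ?_
          intro a ha b hb hab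
          rw [mem_inter] at ha
          rcases key a ha.1 b hb hab with h | h
          · rcases hclI a ha.2 b hb hab with h' | h'
            · exact Or.inl (mem_inter.2 ⟨h, h'⟩)
            · exact absurd (h' ▸ h) hzJ
          · exact Or.inr h
        have h2 : (J ∩ I).card < I.card := by
          apply card_lt_card
          refine ⟨inter_subset_right, fun h => hxJ (mem_inter.1 (h hxI)).1⟩
        omega
      · rw [not_nonempty_iff_eq_empty] at hJI
        have hdis : ∀ a, a ∈ J → a ∉ I := by
          intro a ha ha'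
          have : a ∈ J ∩ I := mem_inter.2 ⟨ha, ha'⟩
          rw [hJI] at this
          exact absurd this (notMem_empty _)
        obtain ⟨a, ha, b, hb, hbn, hab⟩ := hconn J hJB hJne
        rcases key a ha b hb hab with h | h
        · exact hbn h
        · subst h
          rcases hclI b hxI a (Or.inl (hJB ha)) (hsymm _ _ hab) with h' | h'
          · exact hdis a ha h'
          · exact hzJ (h' ▸ ha)
  · have hI2 : I = B := eq_of_subset_of_card_le hIB
      ((card_le_card hBS).trans (not_lt.1 hIS))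
    obtain ⟨x, hx, y, hy, hyB, hxy⟩ := hconn B (Subset.refl _) hB
    have hyc : y = c := hy.resolve_left hyB
    refine ⟨x, hx, ⟨y, Or.inr hyc, hxy⟩, ?_⟩
    intro J hJ hJne
    by_contra hcon
    push Not at hcon
    have hJB : J ⊆ B := hJ.trans (erase_subset _ _)
    have hxJ : x ∉ J := fun h => (mem_erase.1 (hJ h)).1 rfl
    have key : ∀ a ∈ J, ∀ b, (b ∈ B ∨ b = c) → R a b → b ∈ J ∨ b = x := by
      intro a ha b hb hab
      by_contra hne
      push Not at hne
      refine hcon a ha b ?_ hne.1 hab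
      rcases hb with hb | hb
      · exact Or.inl (mem_erase.2 ⟨hne.2, hb⟩)
      · exact Or.inr hb
    have h1 := hminI x J hJne hJB hxJ (Or.inl hx) key
    have h2 : J.card < B.card := by
      apply card_lt_card
      exact ⟨hJB, fun h => hxJ (h hx)⟩
    rw [hI2] at h1
    omega

end Greedy

end Pool.Agent.H279R3.LogConv
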