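import Mathlib
import Pool.Agent.H279R3.LogA

set_option autoImplicit false

namespace Pool.Agent.H279R3.LogConv

open Finset Classical

/-- The homomorphisms of a pattern into a plane graph. -/
noncomputable def homs (H : Pat) (G : PlaneGraph) : Finset (H.V → G.W) :=
  univ.filter (fun φ => (∀ v, G.col (φ v) = H.κ v) ∧ ∀ u v, H.R u v → G.Adj (φ u) (φ v))

noncomputable def cnt (H : Pat) (G : PlaneGraph) : ℕ := (homs H G).card

theorem mem_homs {H : Pat} {G : PlaneGraph} {φ : H.V → G.W} :
    φ ∈ homs H G ↔ (∀ v, G.col (φ v) = H.κ v) ∧ ∀ u v, H.R u v → G.Adj (φ u) (φ v) := by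
  simp [homs]

/-- neighbours as a finset -/
noncomputable def nb (G : PlaneGraph) (x : G.W) : Finset G.W := univ.filter (fun y => G.Adj x y)

theorem mem_nb {G : PlaneGraph} {x y : G.W} : y ∈ nb G x ↔ G.Adj x y := by simp [nb]

theorem card_nb (G : PlaneGraph) (x : G.W) : (nb G x).card = G.m + 1 := by
  rw [← G.nbr x, nb, Nat.card_eq_fintype_card, Fintype.card_subtype]

theorem card_col (G : PlaneGraph) (b : Bool) :
    (univ.filter (fun x => G.col x = b)).card = G.m ^ 2 + G.m + 1 := by
  rw [← G.cnt b, Nat.card_eq_fintype_card, Fintype.card_subtype]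

/-- Delete the vertices outside `p`. -/
noncomputable abbrev Pat.restrict (H : Pat) (p : H.V → Prop) : Pat where
  V := {x // p x}
  κ := fun x => H.κ x.1
  R := fun x y => H.R x.1 y.1
  symm := fun x y h => H.symm _ _ h
  col_ne := fun x y h => H.col_ne _ _ h

/-- The projection identifying `w` with `u`. -/
noncomputable def proj {V : Type} (u w : V) (hne : u ≠ w) (x : V) : {x : V // x ≠ w} :=
  if h : x = w then ⟨u, hne⟩ else ⟨x, h⟩

/-- Identify `w` with `u`. -/
noncomputable abbrev Pat.ident (H : Pat) (u w : H.V) (hne : u ≠ w) (hκ : H.κ u = H.κ w) : Pat where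
  V := {x // x ≠ w}
  κ := fun x => H.κ x.1
  R := fun a b => ∃ x y, proj u w hne x = a ∧ proj u w hne y = b ∧ H.R x y
  symm := by
    rintro a b ⟨x, y, h1, h2, h3⟩
    exact ⟨y, x, h2, h1, H.symm _ _ h3⟩
  col_ne := by
    have key : ∀ x, H.κ (proj u w hne x).1 = H.κ x := by
      intro x
      unfold proj
      split_ifs with h
      · simp only; rw [h]; exact hκ
      · rfl
    rintro a b ⟨x, y, h1, h2, h3⟩
    subst h1 h2
    show H.κ (proj u w hne x).1 ≠ H.κ (proj u w hne y).1
    rw [key, key]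
    exact H.col_ne _ _ h3

/-- Homomorphisms with `φ u = φ w`. -/
noncomputable def cntId (H : Pat) (u w : H.V) (G : PlaneGraph) : ℕ :=
  ((homs H G).filter (fun φ => φ u = φ w)).card

theorem cnt_ident (H : Pat) (u w : H.V) (hne : u ≠ w) (hκ : H.κ u = H.κ w) (G : PlaneGraph) :
    cnt (H.ident u w hne hκ) G = cntId H u w G := by
  unfold cnt cntId
  have key : ∀ x, H.κ (proj u w hne x).1 = H.κ x := by
    intro x
    unfold proj
    split_ifs with h
    · simp only; rw [h]; exact hκ
    · rfl
  apply Finset.card_bij' (fun (φ : (H.ident u w hne hκ).V → G.W) _ => fun x => φ (proj u w hne x))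
    (fun (φ : H.V → G.W) _ => fun x => φ x.1)
  · intro φ hφ
    rw [mem_homs] at hφ
    rw [mem_filter, mem_homs]
    refine ⟨⟨fun v => ?_, fun a b hab => ?_⟩, ?_⟩
    · rw [hφ.1]
      exact key v
    · exact hφ.2 _ _ ⟨a, b, rfl, rfl, hab⟩
    · have h1 : proj u w hne u = ⟨u, hne⟩ := by
        unfold proj; rw [dif_neg hne]
      have h2 : proj u w hne w = ⟨u, hne⟩ := by
        unfold proj; rw [dif_pos rfl]
      show φ (proj u w hne u) = φ (proj u w hne w)
      rw [h1, h2]
  · intro φ hφ
    rw [mem_filter, mem_homs] at hφ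
    rw [mem_homs]
    have hφp : ∀ x, φ (proj u w hne x).1 = φ x := by
      intro x
      unfold proj
      split_ifs with h
      · simp only; rw [h]; exact hφ.2
      · rfl
    refine ⟨fun v => hφ.1.1 _, ?_⟩
    rintro a b ⟨x, y, h1, h2, h3⟩
    subst h1 h2
    show G.Adj (φ (proj u w hne x).1) (φ (proj u w hne y).1)
    rw [hφp, hφp]
    exact hφ.1.2 _ _ h3
  · intro φ hφ
    funext x
    show φ (proj u w hne x.1) = φ x
    have : proj u w hne x.1 = x := by
      unfold proj
      rw [dif_neg x.2]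
    rw [this]
  · intro φ hφ
    rw [mem_filter] at hφ
    funext x
    show φ (proj u w hne x).1 = φ x
    unfold proj
    split_ifs with h
    · simp only; rw [h]; exact hφ.2
    · rfl

theorem cntId_le (H : Pat) (u w : H.V) (G : PlaneGraph) : cntId H u w G ≤ cnt H G :=
  card_le_card (filter_subset _ _)

/-! ### Extending by one vertex -/

/-- The possible images of `v` given the images of the other vertices. -/
noncomputable def ext1 (H : Pat) (v : H.V) (G : PlaneGraph)
    (ψ : (H.restrict (fun x => x ≠ v)).V → G.W) : Finset G.W :=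
  univ.filter (fun y => G.col y = H.κ v ∧ ∀ u : (H.restrict (fun x => x ≠ v)).V,
    H.R v u.1 → G.Adj y (ψ u))

theorem cnt_eq_sum (H : Pat) (v : H.V) (G : PlaneGraph) :
    cnt H G = ∑ ψ ∈ homs (H.restrict (fun x => x ≠ v)) G, (ext1 H v G ψ).card := by
  unfold cnt
  rw [Finset.card_eq_sum_card_fiberwise (f := fun (φ : H.V → G.W) =>
    (fun x : (H.restrict (fun x => x ≠ v)).V => φ x.1)) (t := homs (H.restrict (fun x => x ≠ v)) G)]
  · apply Finset.sum_congr rfl
    intro ψ hψ
    rw [mem_homs] at hψ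
    apply Finset.card_bij' (fun (φ : H.V → G.W) _ => φ v)
      (fun y _ => fun x => if h : x ≠ v then ψ ⟨x, h⟩ else y)
    · intro φ hφ
      rw [mem_filter, mem_homs] at hφ
      rw [ext1, mem_filter]
      refine ⟨mem_univ _, hφ.1.1 v, ?_⟩
      intro u hu
      rw [← hφ.2]
      exact hφ.1.2 _ _ hu
    · intro y hy
      rw [ext1, mem_filter] at hy
      rw [mem_filter, mem_homs]
      refine ⟨⟨fun x => ?_, fun a b hab => ?_⟩, ?_⟩
      · by_cases h : x ≠ v
        · simp only [dif_pos h]
          exact hψ.1 ⟨x, h⟩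
        · simp only [dif_neg h]
          rw [hy.2.1]
          push Not at h
          rw [h]
      · by_cases ha : a ≠ v
        · by_cases hb : b ≠ v
          · simp only [dif_pos ha, dif_pos hb]
            exact hψ.2 _ _ hab
          · simp only [dif_pos ha, dif_neg hb]
            push Not at hb
            subst hb
            exact G.symm _ _ (hy.2.2 ⟨a, ha⟩ (H.symm _ _ hab))
        · by_cases hb : b ≠ v
          · simp only [dif_neg ha, dif_pos hb]
            push Not at ha
            subst ha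
            exact hy.2.2 ⟨b, hb⟩ hab
          · push Not at ha hb
            subst ha hb
            exact absurd rfl (H.col_ne _ _ hab)
      · funext x
        exact dif_pos x.2
    · intro φ hφ
      rw [mem_filter] at hφ
      funext x
      by_cases h : x ≠ v
      · simp only [dif_pos h]
        rw [← hφ.2]
      · simp only [dif_neg h]
        push Not at h
        rw [h]
    · intro y hy
      simp
  · intro φ hφ
    rw [Finset.mem_coe, mem_homs] at hφ
    rw [Finset.mem_coe, mem_homs]
    exact ⟨fun x => hφ.1 x.1, fun a b hab => hφ.2 _ _ hab⟩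

theorem good_deg0 (H : Pat) (v : H.V) (hv : ∀ z, ¬ H.R v z)
    (hg : Good (cnt (H.restrict (fun x => x ≠ v)))) : Good (cnt H) := by
  have h1 : ∀ G, cnt H G = cnt (H.restrict (fun x => x ≠ v)) G * (G.m ^ 2 + G.m + 1) := by
    intro G
    rw [cnt_eq_sum H v G, Finset.sum_const_nat (m := G.m ^ 2 + G.m + 1)]
    · rfl
    · intro ψ _
      rw [← card_col G (H.κ v)]
      congr 1
      unfold ext1
      apply Finset.filter_congr
      intro y _
      constructor
      · exact fun h => h.1
      · exact fun h => ⟨h, fun u hu => absurd hu (hv _)⟩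
  have h2 := hg.mul good_all
  exact h2.sandwich 1 (fun G => by rw [h1]; omega) (fun G => by rw [h1]; omega)

theorem col_of_adj {G : PlaneGraph} {x y : G.W} {b : Bool} (h : G.Adj x y) (hx : G.col x ≠ b) :
    G.col y = b := by
  have := G.col_ne _ _ h
  revert this hx
  cases G.col x <;> cases G.col y <;> cases b <;> simp

theorem good_deg1 (H : Pat) (v u : H.V) (hvu : H.R v u) (hv : ∀ z, H.R v z → z = u)
    (hg : Good (cnt (H.restrict (fun x => x ≠ v)))) : Good (cnt H) := by
  have huv : u ≠ v := by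
    rintro rfl
    exact H.col_ne _ _ hvu rfl
  have h1 : ∀ G, cnt H G = cnt (H.restrict (fun x => x ≠ v)) G * (G.m + 1) := by
    intro G
    rw [cnt_eq_sum H v G, Finset.sum_const_nat (m := G.m + 1)]
    · rfl
    · intro ψ hψ
      rw [mem_homs] at hψ
      rw [← card_nb G (ψ ⟨u, huv⟩)]
      congr 1
      ext y
      rw [ext1, mem_filter, mem_nb]
      constructor
      · intro h
        exact G.symm _ _ (h.2.2 ⟨u, huv⟩ hvu)
      · intro h
        refine ⟨mem_univ _, ?_, ?_⟩
        · apply col_of_adj h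
          rw [hψ.1]
          exact (H.col_ne _ _ hvu).symm
        · rintro ⟨z, hz⟩ hvz
          have := hv z hvz
          subst this
          exact G.symm _ _ h
  have h2 := hg.mul good_succ
  exact h2.sandwich 1 (fun G => by rw [h1]; omega) (fun G => by rw [h1]; omega)

theorem good_deg2 (H : Pat) (v u w : H.V) (hvu : H.R v u) (hvw : H.R v w) (huw : u ≠ w)
    (hv : ∀ z, H.R v z → z = u ∨ z = w)
    (huv : u ≠ v) (hwv : w ≠ v)
    (hg : Good (cnt (H.restrict (fun x => x ≠ v))))
    (hg2 : Good (cntId (H.restrict (fun x => x ≠ v)) ⟨u, huv⟩ ⟨w, hwv⟩)) : Good (cnt H) := by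
  have hcard : ∀ (G : PlaneGraph) (ψ), ψ ∈ homs (H.restrict (fun x => x ≠ v)) G →
      (ext1 H v G ψ).card = if ψ ⟨u, huv⟩ = ψ ⟨w, hwv⟩ then G.m + 1 else 1 := by
    intro G ψ hψ
    rw [mem_homs] at hψ
    have hcu : G.col (ψ ⟨u, huv⟩) ≠ H.κ v := by
      rw [hψ.1]
      exact (H.col_ne _ _ hvu).symm
    have hcw : G.col (ψ ⟨w, hwv⟩) ≠ H.κ v := by
      rw [hψ.1]
      exact (H.col_ne _ _ hvw).symm
    have hext : ∀ y, y ∈ ext1 H v G ψ ↔ G.Adj (ψ ⟨u, huv⟩) y ∧ G.Adj (ψ ⟨w, hwv⟩) y := by
      intro y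
      rw [ext1, mem_filter]
      constructor
      · intro h
        exact ⟨G.symm _ _ (h.2.2 ⟨u, huv⟩ hvu), G.symm _ _ (h.2.2 ⟨w, hwv⟩ hvw)⟩
      · intro h
        refine ⟨mem_univ _, col_of_adj h.1 hcu, ?_⟩
        rintro ⟨z, hz⟩ hvz
        rcases hv z hvz with h' | h'
        · subst h'; exact G.symm _ _ h.1
        · subst h'; exact G.symm _ _ h.2
    split_ifs with heq
    · rw [← card_nb G (ψ ⟨u, huv⟩)]
      congr 1
      ext y
      rw [hext, mem_nb, ← heq]
      simp
    · have hcol : G.col (ψ ⟨u, huv⟩) = G.col (ψ ⟨w, hwv⟩) := by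
        revert hcu hcw
        cases G.col (ψ ⟨u, huv⟩) <;> cases G.col (ψ ⟨w, hwv⟩) <;> cases H.κ v <;> simp
      obtain ⟨z, hz1, hz2, hz3⟩ := G.common _ _ heq hcol
      rw [Finset.card_eq_one]
      refine ⟨z, ?_⟩
      ext y
      rw [hext, mem_singleton]
      constructor
      · intro h; exact hz3 y h.1 h.2
      · rintro rfl; exact ⟨hz1, hz2⟩
  have h1 : ∀ G, cnt H G = cnt (H.restrict (fun x => x ≠ v)) G
      + G.m * cntId (H.restrict (fun x => x ≠ v)) ⟨u, huv⟩ ⟨w, hwv⟩ G := by
    intro G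
    rw [cnt_eq_sum H v G, Finset.sum_congr rfl (hcard G)]
    have h3 : ∀ ψ : (H.restrict (fun x => x ≠ v)).V → G.W,
        (if ψ ⟨u, huv⟩ = ψ ⟨w, hwv⟩ then G.m + 1 else 1)
        = 1 + G.m * (if ψ ⟨u, huv⟩ = ψ ⟨w, hwv⟩ then 1 else 0) := by
      intro ψ
      split_ifs <;> omega
    simp only [h3]
    rw [Finset.sum_add_distrib, ← Finset.mul_sum, Finset.sum_const, smul_eq_mul, mul_one]
    congr 1
    rw [cntId, Finset.card_filter]
  have h2 : Good (fun G => G.m) := ⟨1, 1, fun G => by simp⟩
  have h3 := hg.add (h2.mul hg2)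
  exact h3.sandwich 1 (fun G => by rw [h1]; omega) (fun G => by rw [h1]; omega)

end Pool.Agent.H279R3.LogConv
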