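import Mathlib
import Pool.Agent.H279R3.LogB

set_option autoImplicit false

namespace Pool.Agent.H279R3.LogConv

open Finset Classical

/-- Partial injective homomorphisms of `A ∪ {c}` sending `c` to `x` (value `x` outside `A`). -/
noncomputable def X (H : Pat) (G : PlaneGraph) (c : H.V) (x : G.W) (A : Finset H.V) :
    Finset (H.V → G.W) :=
  univ.filter (fun g => (∀ v, v ∉ A → g v = x) ∧
    (∀ u v, (u ∈ A ∨ u = c) → (v ∈ A ∨ v = c) → H.R u v → G.Adj (g u) (g v)) ∧
    (∀ u v, (u ∈ A ∨ u = c) → (v ∈ A ∨ v = c) → g u = g v → u = v))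

theorem mem_X {H : Pat} {G : PlaneGraph} {c : H.V} {x : G.W} {A : Finset H.V} {g : H.V → G.W} :
    g ∈ X H G c x A ↔ (∀ v, v ∉ A → g v = x) ∧
    (∀ u v, (u ∈ A ∨ u = c) → (v ∈ A ∨ v = c) → H.R u v → G.Adj (g u) (g v)) ∧
    (∀ u v, (u ∈ A ∨ u = c) → (v ∈ A ∨ v = c) → g u = g v → u = v) := by
  simp [X]

theorem X_restr {H : Pat} {G : PlaneGraph} {c : H.V} {x : G.W} {A : Finset H.V} {v : H.V}
    (hvA : v ∉ A) (hvc : v ≠ c) {g : H.V → G.W} (hg : g ∈ X H G c x (insert v A)) :
    Function.update g v x ∈ X H G c x A := by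
  rw [mem_X] at hg ⊢
  have hup : ∀ u, (u ∈ A ∨ u = c) → Function.update g v x u = g u := by
    intro u hu
    apply Function.update_of_ne
    rintro rfl
    rcases hu with h | h
    · exact hvA h
    · exact hvc h
  have hin : ∀ u, (u ∈ A ∨ u = c) → (u ∈ insert v A ∨ u = c) := by
    intro u hu
    rcases hu with h | h
    · exact Or.inl (mem_insert_of_mem h)
    · exact Or.inr h
  refine ⟨?_, ?_, ?_⟩
  · intro u hu
    by_cases h : u = v
    · subst h; simp
    · rw [Function.update_of_ne h]
      exact hg.1 u (by simp [h, hu])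
  · intro u w hu hw huw
    rw [hup u hu, hup w hw]
    exact hg.2.1 u w (hin u hu) (hin w hw) huw
  · intro u w hu hw huw
    rw [hup u hu, hup w hw] at huw
    exact hg.2.2 u w (hin u hu) (hin w hw) huw

theorem X_step1 (H : Pat) (G : PlaneGraph) (c : H.V) (x : G.W) (A : Finset H.V) (v : H.V)
    (hvA : v ∉ A) (hvc : v ≠ c) (y : H.V) (hy : y ∈ A ∨ y = c) (hvy : H.R v y) :
    (X H G c x (insert v A)).card ≤ (G.m + 1) * (X H G c x A).card := by
  apply Finset.card_le_mul_card_image_of_maps_to (f := fun g => Function.update g v x)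
  · intro g hg
    exact X_restr hvA hvc hg
  · intro b hb
    have hyv : y ≠ v := by
      rintro rfl
      exact H.col_ne _ _ hvy rfl
    rw [← card_nb G (b y)]
    apply Finset.card_le_card_of_injOn (fun g => g v)
    · intro g hg
      rw [Finset.mem_coe, mem_filter] at hg
      rw [Finset.mem_coe, mem_nb]
      have h1 : b y = g y := by
        rw [← hg.2, Function.update_of_ne hyv]
      rw [h1]
      have h2 := (mem_X.1 hg.1).2.1 v y (Or.inl (mem_insert_self _ _))
        (hy.elim (fun h => Or.inl (mem_insert_of_mem h)) Or.inr) hvy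
      exact G.symm _ _ h2
    · intro g hg g' hg' hgg
      rw [Finset.mem_coe, mem_filter] at hg hg'
      have h1 : g = Function.update b v (g v) := by
        rw [← hg.2]; simp
      have h2 : g' = Function.update b v (g' v) := by
        rw [← hg'.2]; simp
      rw [h1, h2]
      simp only at hgg
      rw [hgg]

theorem X_step2 (H : Pat) (G : PlaneGraph) (c : H.V) (x : G.W) (A : Finset H.V) (v : H.V)
    (hvA : v ∉ A) (hvc : v ≠ c) (y z : H.V) (hy : y ∈ A ∨ y = c) (hz : z ∈ A ∨ z = c)
    (hvy : H.R v y) (hvz : H.R v z) (hyz : y ≠ z) :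
    (X H G c x (insert v A)).card ≤ (X H G c x A).card := by
  apply Finset.card_le_card_of_injOn (fun g => Function.update g v x)
  · intro g hg
    exact X_restr hvA hvc hg
  · intro g hg g' hg' hgg
    rw [Finset.mem_coe] at hg hg'
    have hyv : y ≠ v := by
      rintro rfl
      exact H.col_ne _ _ hvy rfl
    have hzv : z ≠ v := by
      rintro rfl
      exact H.col_ne _ _ hvz rfl
    have hoff : ∀ u, u ≠ v → g u = g' u := by
      intro u hu
      have := congrFun hgg u
      simpa only [Function.update_of_ne hu] using this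
    have hy' : y ∈ insert v A ∨ y = c := hy.elim (fun h => Or.inl (mem_insert_of_mem h)) Or.inr
    have hz' : z ∈ insert v A ∨ z = c := hz.elim (fun h => Or.inl (mem_insert_of_mem h)) Or.inr
    have hv' : v ∈ insert v A ∨ v = c := Or.inl (mem_insert_self _ _)
    have a1 := G.symm _ _ ((mem_X.1 hg).2.1 v y hv' hy' hvy)
    have a2 := G.symm _ _ ((mem_X.1 hg).2.1 v z hv' hz' hvz)
    have a3 := G.symm _ _ ((mem_X.1 hg').2.1 v y hv' hy' hvy)
    have a4 := G.symm _ _ ((mem_X.1 hg').2.1 v z hv' hz' hvz)
    rw [← hoff y hyv] at a3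
    rw [← hoff z hzv] at a4
    have hne : g y ≠ g z := fun h => hyz ((mem_X.1 hg).2.2 y z hy' hz' h)
    have hcol : G.col (g y) = G.col (g z) := by
      have h1 := G.col_ne _ _ a1
      have h2 := G.col_ne _ _ a2
      revert h1 h2
      cases G.col (g y) <;> cases G.col (g z) <;> cases G.col (g v) <;> simp
    obtain ⟨t, _, _, ht⟩ := G.common _ _ hne hcol
    funext u
    by_cases hu : u = v
    · subst hu
      rw [ht _ a1 a2, ht _ a3 a4]
    · exact hoff u hu

theorem two_orders (H : Pat) (c : H.V) (S : Finset H.V) (hcS : c ∉ S)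
    (hcl : ∀ x ∈ S, ∀ y, H.R x y → y ∈ S ∨ y = c)
    (hmin : ∀ (z : H.V) (I : Finset H.V), I.Nonempty → I ⊆ S → I.card < S.card → z ∉ I →
      ∃ x ∈ I, ∃ y, y ∉ I ∧ y ≠ z ∧ H.R x y)
    (hdeg : ∀ v u w : H.V, ∃ z, H.R v z ∧ z ≠ u ∧ z ≠ w) :
    ∀ (n : ℕ) (A B : Finset H.V), B.card = n → A ∪ B = S → Disjoint A B → Conn H.R c B →
    ∃ p q : ℕ, p + q ≤ n ∧ ∀ (G : PlaneGraph) (x : G.W),
      (X H G c x S).card ≤ (G.m + 1) ^ p * (X H G c x A).card ∧
      (X H G c x B).card ≤ (G.m + 1) ^ q := by
  intro n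
  induction n with
  | zero =>
    intro A B hB hAB _ _
    rw [card_eq_zero] at hB
    subst hB
    rw [union_empty] at hAB
    subst hAB
    refine ⟨0, 0, le_rfl, fun G x => ⟨by simp, ?_⟩⟩
    rw [pow_zero, card_le_one]
    intro f hf g hg
    rw [mem_X] at hf hg
    funext v
    rw [hf.1 v (notMem_empty _), hg.1 v (notMem_empty _)]
  | succ n ih =>
    intro A B hB hAB hdis hconn
    have hBne : B.Nonempty := by rw [← card_pos]; omega
    obtain ⟨v, hvB, ⟨y, hy, hvy⟩, hconn'⟩ :=
      greedy H.R c H.symm S hcS hcl hmin A B hAB hBne hconn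
    have hvA : v ∉ A := fun h => disjoint_left.1 hdis h hvB
    have hvS : v ∈ S := by rw [← hAB]; exact mem_union_right _ hvB
    have hvc : v ≠ c := fun h => hcS (h ▸ hvS)
    have hins : insert v (B.erase v) = B := insert_erase hvB
    obtain ⟨p, q, hpq, h⟩ := ih (insert v A) (B.erase v)
      (by rw [card_erase_of_mem hvB]; omega)
      (by rw [insert_union, ← union_insert, hins, hAB])
      (by
        rw [disjoint_left]
        intro a ha ha'
        rw [mem_erase] at ha'
        rcases mem_insert.1 ha with h | h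
        · exact ha'.1 h
        · exact disjoint_left.1 hdis h ha'.2)
      hconn'
    obtain ⟨a, ha, y', hy', hy'n, hvy'⟩ := hconn {v} (by simpa using hvB) (singleton_nonempty v)
    rw [mem_singleton] at ha hy'n
    subst ha
    have hy'' : y' ∈ B.erase a ∨ y' = c := by
      rcases hy' with h' | h'
      · exact Or.inl (mem_erase.2 ⟨hy'n, h'⟩)
      · exact Or.inr h'
    have haB : a ∉ B.erase a := notMem_erase a B
    obtain ⟨z, hvz, hzy, hzy'⟩ := hdeg a y y'
    have hz : (z ∈ A ∨ z = c) ∨ (z ∈ B.erase a ∨ z = c) := by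
      rcases hcl a hvS z hvz with h' | h'
      · rw [← hAB, mem_union] at h'
        rcases h' with h' | h'
        · exact Or.inl (Or.inl h')
        · refine Or.inr (Or.inl (mem_erase.2 ⟨?_, h'⟩))
          rintro rfl
          exact H.col_ne _ _ hvz rfl
      · exact Or.inl (Or.inr h')
    rcases hz with hz | hz
    · refine ⟨p, q + 1, by omega, fun G x => ⟨?_, ?_⟩⟩
      · refine ((h G x).1).trans (Nat.mul_le_mul_left _ ?_)
        exact X_step2 H G c x A a hvA hvc y z hy hz hvy hvz hzy.symm
      · rw [← hins, pow_succ, mul_comm]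
        refine (X_step1 H G c x (B.erase a) a haB hvc y' hy'' hvy').trans ?_
        exact Nat.mul_le_mul_left _ (h G x).2
    · refine ⟨p + 1, q, by omega, fun G x => ⟨?_, ?_⟩⟩
      · rw [pow_succ, mul_assoc]
        refine ((h G x).1).trans (Nat.mul_le_mul_left _ ?_)
        exact X_step1 H G c x A a hvA hvc y hy hvy
      · rw [← hins]
        refine (X_step2 H G c x (B.erase a) a haB hvc y' z hy'' hz hvy' hvz hzy'.symm).trans ?_
        exact (h G x).2

/-- Degenerate extensions: everything on `S` is mapped into a star. -/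
theorem lower (H : Pat) (c : H.V) (S : Finset H.V) (hcS : c ∉ S)
    (hcl : ∀ x ∈ S, ∀ y, H.R x y → y ∈ S ∨ y = c) (b : Bool) (G : PlaneGraph) :
    (G.m + 1) ^ ((S.filter (fun v => H.κ v ≠ b)).card) * cnt (H.restrict (fun x => x ∉ S)) G
      ≤ cnt H G := by
  set T := S.filter (fun v => H.κ v ≠ b) with hT
  have hz : ∀ ψ : (H.restrict (fun x => x ∉ S)).V → G.W,
      ∃ z, (H.κ c = b → z = ψ ⟨c, hcS⟩) ∧ (H.κ c ≠ b → G.Adj (ψ ⟨c, hcS⟩) z) := by
    intro ψ
    by_cases h : H.κ c = b
    · exact ⟨ψ ⟨c, hcS⟩, fun _ => rfl, fun h' => absurd h h'⟩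
    · have h1 : (nb G (ψ ⟨c, hcS⟩)).Nonempty := by
        rw [← card_pos, card_nb]; omega
      obtain ⟨z, hz⟩ := h1
      exact ⟨z, fun h' => absurd h' h, fun _ => mem_nb.1 hz⟩
  choose z hz1 hz2 using hz
  have hmaps : ∀ φ ∈ homs H G, (fun x : (H.restrict (fun x => x ∉ S)).V => φ x.1) ∈
      homs (H.restrict (fun x => x ∉ S)) G := by
    intro φ hφ
    rw [mem_homs] at hφ ⊢
    exact ⟨fun x => hφ.1 x.1, fun a b hab => hφ.2 _ _ hab⟩
  have hsum := Finset.card_eq_sum_card_fiberwise (s := homs H G)
    (f := fun (φ : H.V → G.W) => (fun x : (H.restrict (fun x => x ∉ S)).V => φ x.1))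
    (t := homs (H.restrict (fun x => x ∉ S)) G) hmaps
  unfold cnt
  rw [hsum, mul_comm, ← smul_eq_mul]
  apply Finset.card_nsmul_le_sum
  intro ψ hψ
  rw [mem_homs] at hψ
  have hcardT : (G.m + 1) ^ T.card =
      (Fintype.piFinset (fun _ : {v // v ∈ T} => nb G (z ψ))).card := by
    rw [Fintype.card_piFinset]
    simp [card_nb]
  rw [hcardT]
  apply Finset.card_le_card_of_injOn
    (fun t => fun v => if h : v ∈ T then t ⟨v, h⟩ else
      if h' : v ∈ S then z ψ else ψ ⟨v, h'⟩)
  · intro t ht
    rw [Finset.mem_coe, Fintype.mem_piFinset] at ht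
    simp only [mem_nb] at ht
    rw [Finset.mem_coe, mem_filter, mem_homs]
    have hTS : ∀ v, v ∈ T ↔ v ∈ S ∧ H.κ v ≠ b := by
      intro v; rw [hT, mem_filter]
    have hcT : c ∉ T := fun h => hcS ((hTS c).1 h).1
    have hcolz : G.col (z ψ) = b := by
      by_cases h : H.κ c = b
      · rw [hz1 ψ h, hψ.1]; exact h
      · apply col_of_adj (hz2 ψ h)
        rw [hψ.1]; exact h
    have v1 : ∀ v (h : v ∈ T), (if h : v ∈ T then t ⟨v, h⟩ else
      if h' : v ∈ S then z ψ else ψ ⟨v, h'⟩) = t ⟨v, h⟩ := fun v h => dif_pos h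
    have v2 : ∀ v (_ : v ∈ S) (_ : H.κ v = b), (if h : v ∈ T then t ⟨v, h⟩ else
      if h' : v ∈ S then z ψ else ψ ⟨v, h'⟩) = z ψ := by
      intro v h1 h2
      have h3 : v ∉ T := fun h => ((hTS v).1 h).2 h2
      rw [dif_neg h3, dif_pos h1]
    have v3 : ∀ v (h : v ∉ S), (if h : v ∈ T then t ⟨v, h⟩ else
      if h' : v ∈ S then z ψ else ψ ⟨v, h'⟩) = ψ ⟨v, h⟩ := by
      intro v h1
      have h3 : v ∉ T := fun h => h1 ((hTS v).1 h).1
      rw [dif_neg h3, dif_neg h1]
    refine ⟨⟨fun v => ?_, fun u v huv => ?_⟩, ?_⟩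
    · by_cases hvS : v ∈ S
      · by_cases hvb : H.κ v = b
        · simp only
          rw [v2 v hvS hvb, hcolz, hvb]
        · have hvT : v ∈ T := (hTS v).2 ⟨hvS, hvb⟩
          simp only
          rw [v1 v hvT]
          have h1 := G.col_ne _ _ (ht ⟨v, hvT⟩)
          rw [hcolz] at h1
          revert h1 hvb
          cases G.col (t ⟨v, hvT⟩) <;> cases H.κ v <;> cases b <;> simp
      · simp only
        rw [v3 v hvS, hψ.1]
    · have hκ := H.col_ne _ _ huv
      -- edges leaving `S`
      have edge : ∀ u, u ∈ S → H.R u c → G.Adj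
          (if h : u ∈ T then t ⟨u, h⟩ else if h' : u ∈ S then z ψ else ψ ⟨u, h'⟩)
          (ψ ⟨c, hcS⟩) := by
        intro u huS huc
        have hκ' := H.col_ne _ _ huc
        by_cases hub : H.κ u = b
        · rw [v2 u huS hub]
          exact G.symm _ _ (hz2 ψ (fun h => hκ' (hub.trans h.symm)))
        · rw [v1 u ((hTS u).2 ⟨huS, hub⟩)]
          have hcb : H.κ c = b := by
            revert hκ' hub
            cases H.κ u <;> cases H.κ c <;> cases b <;> simp
          have h1 := ht ⟨u, (hTS u).2 ⟨huS, hub⟩⟩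
          rw [hz1 ψ hcb] at h1
          exact G.symm _ _ h1
      by_cases huS : u ∈ S
      · by_cases hvS : v ∈ S
        · by_cases hub : H.κ u = b
          · have hvb : H.κ v ≠ b := fun h => hκ (hub.trans h.symm)
            simp only
            rw [v2 u huS hub, v1 v ((hTS v).2 ⟨hvS, hvb⟩)]
            exact ht _
          · have hvb : H.κ v = b := by
              revert hκ hub
              cases H.κ u <;> cases H.κ v <;> cases b <;> simp
            simp only
            rw [v2 v hvS hvb, v1 u ((hTS u).2 ⟨huS, hub⟩)]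
            exact G.symm _ _ (ht _)
        · have hvc : v = c := (hcl u huS v huv).resolve_left hvS
          subst hvc
          have := edge u huS huv
          simp only
          rw [v3 v hvS]
          exact this
      · by_cases hvS : v ∈ S
        · have huc : u = c := (hcl v hvS u (H.symm _ _ huv)).resolve_left huS
          subst huc
          have := edge v hvS (H.symm _ _ huv)
          simp only
          rw [v3 u huS]
          exact G.symm _ _ this
        · simp only
          rw [v3 u huS, v3 v hvS]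
          exact hψ.2 _ _ huv
    · funext x
      exact v3 x.1 x.2
  · intro t ht t' ht' htt
    funext v
    have := congrFun htt v.1
    simpa only [dif_pos v.2] using this

/-- The pairs of different vertices of `S ∪ {c}` with the same colour. -/
noncomputable def prs (H : Pat) (c : H.V) (S : Finset H.V) : Finset (H.V × H.V) :=
  ((insert c S) ×ˢ (insert c S)).filter (fun p => p.1 ≠ p.2 ∧ H.κ p.1 = H.κ p.2)

theorem upper (H : Pat) (c : H.V) (S : Finset H.V) (hcS : c ∉ S) (r : ℕ) (G : PlaneGraph)
    (hX : ∀ x : G.W, (X H G c x S).card ≤ (G.m + 1) ^ r) :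
    cnt H G ≤ (G.m + 1) ^ r * cnt (H.restrict (fun x => x ∉ S)) G +
      ∑ p ∈ prs H c S, cntId H p.1 p.2 G := by
  have hsub : homs H G ⊆ (homs H G).filter (fun φ => ∀ u ∈ insert c S, ∀ v ∈ insert c S,
      φ u = φ v → u = v) ∪ (prs H c S).biUnion
        (fun p => (homs H G).filter (fun φ => φ p.1 = φ p.2)) := by
    intro φ hφ
    by_cases h : ∀ u ∈ insert c S, ∀ v ∈ insert c S, φ u = φ v → u = v
    · exact mem_union_left _ (mem_filter.2 ⟨hφ, h⟩)
    · push Not at h
      obtain ⟨u, hu, v, hv, huv, hne⟩ := h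
      apply mem_union_right
      rw [mem_biUnion]
      refine ⟨(u, v), ?_, mem_filter.2 ⟨hφ, huv⟩⟩
      rw [prs, mem_filter, mem_product]
      rw [mem_homs] at hφ
      refine ⟨⟨hu, hv⟩, hne, ?_⟩
      rw [← hφ.1 u, ← hφ.1 v, huv]
  refine (card_le_card hsub).trans ((card_union_le _ _).trans (Nat.add_le_add ?_ card_biUnion_le))
  apply Finset.card_le_mul_card_image_of_maps_to
    (f := fun (φ : H.V → G.W) => (fun x : (H.restrict (fun x => x ∉ S)).V => φ x.1))
  · intro φ hφ
    rw [mem_filter, mem_homs] at hφ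
    rw [mem_homs]
    exact ⟨fun x => hφ.1.1 x.1, fun a b hab => hφ.1.2 _ _ hab⟩
  · intro ψ hψ
    refine le_trans ?_ (hX (ψ ⟨c, hcS⟩))
    apply Finset.card_le_card_of_injOn (fun φ => fun v => if v ∈ S then φ v else ψ ⟨c, hcS⟩)
    · intro φ hφ
      rw [Finset.mem_coe, mem_filter, mem_filter, mem_homs] at hφ
      obtain ⟨⟨⟨h1, h2⟩, h3⟩, h4⟩ := hφ
      have hval : ∀ v, (v ∈ S ∨ v = c) → (if v ∈ S then φ v else ψ ⟨c, hcS⟩) = φ v := by
        intro v hv
        by_cases hvS : v ∈ S
        · rw [if_pos hvS]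
        · rw [if_neg hvS, hv.resolve_left hvS, ← h4]
      have hins : ∀ v, (v ∈ S ∨ v = c) → v ∈ insert c S := by
        intro v hv
        rw [mem_insert]
        exact hv.symm
      rw [Finset.mem_coe, mem_X]
      refine ⟨fun v hv => if_neg hv, fun u v hu hv huv => ?_, fun u v hu hv huv => ?_⟩
      · simp only
        rw [hval u hu, hval v hv]
        exact h2 u v huv
      · simp only at huv
        rw [hval u hu, hval v hv] at huv
        exact h3 u (hins u hu) v (hins v hv) huv
    · intro φ hφ φ' hφ' h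
      rw [Finset.mem_coe, mem_filter] at hφ hφ'
      funext v
      by_cases hv : v ∈ S
      · have := congrFun h v
        simpa only [if_pos hv] using this
      · have h1 := congrFun hφ.2 ⟨v, hv⟩
        have h2 := congrFun hφ'.2 ⟨v, hv⟩
        simp only at h1 h2
        rw [h1, h2]

theorem card_ident_lt (H : Pat) (u w : H.V) (hne : u ≠ w) (hκ : H.κ u = H.κ w) :
    @Fintype.card (H.ident u w hne hκ).V (H.ident u w hne hκ).fV < @Fintype.card H.V H.fV :=
  @Fintype.card_subtype_lt _ H.fV _ (H.ident u w hne hκ).fV w (fun h => h rfl)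

theorem good_deg3 (H : Pat) (hne : Nonempty H.V)
    (hdeg : ∀ v u w : H.V, ∃ z, H.R v z ∧ z ≠ u ∧ z ≠ w)
    (ih : ∀ H' : Pat, Fintype.card H'.V < Fintype.card H.V → Good (cnt H')) : Good (cnt H) := by
  let P : ℕ → Prop := fun n => ∃ (c : H.V) (S : Finset H.V), S.card = n ∧ S.Nonempty ∧ c ∉ S ∧
    ∀ x ∈ S, ∀ y, H.R x y → y ∈ S ∨ y = c
  have hP : ∃ n, P n := by
    obtain ⟨v⟩ := hne
    obtain ⟨z, -, hz, -⟩ := hdeg v v v
    refine ⟨(univ.erase v).card, v, univ.erase v, rfl, ⟨z, by simp [hz]⟩, by simp, ?_⟩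
    intro x _ y _
    by_cases h : y = v
    · exact Or.inr h
    · exact Or.inl (by simp [h])
  obtain ⟨c, S, hSn, hS, hcS, hcl⟩ := Nat.find_spec hP
  have hmin : ∀ (z : H.V) (I : Finset H.V), I.Nonempty → I ⊆ S → I.card < S.card → z ∉ I →
      ∃ x ∈ I, ∃ y, y ∉ I ∧ y ≠ z ∧ H.R x y := by
    intro z I h1 _ h3 h4
    by_contra hcon
    push Not at hcon
    refine Nat.find_min hP (m := I.card) (by omega) ⟨z, I, rfl, h1, h4, ?_⟩
    intro x hx y hxy
    by_contra hne
    push Not at hne
    exact hcon x hx y hne.1 hne.2 hxy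
  have hconn : Conn H.R c S := by
    intro J hJ hJne
    by_cases hlt : J.card < S.card
    · obtain ⟨x, hx, y, hy, hyc, hxy⟩ := hmin c J hJne hJ hlt (fun h => hcS (hJ h))
      exact ⟨x, hx, y, hcl x (hJ hx) y hxy, hy, hxy⟩
    · have hJS : J = S := eq_of_subset_of_card_le hJ (not_lt.1 hlt)
      subst hJS
      by_contra hcon
      push Not at hcon
      have hno : ∀ x ∈ J, ∀ y, H.R x y → y ∈ J := by
        intro x hx y hxy
        rcases hcl x hx y hxy with h | h
        · exact h
        · by_contra hy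
          exact hcon x hx y (Or.inr h) hy hxy
      obtain ⟨d, hd⟩ := hJne
      by_cases hE : (J.erase d).Nonempty
      · obtain ⟨x, hx, y, hy, hyd, hxy⟩ := hmin d (J.erase d) hE (erase_subset _ _)
          (card_erase_lt_of_mem hd) (notMem_erase _ _)
        exact hy (mem_erase.2 ⟨hyd, hno x (mem_erase.1 hx).2 y hxy⟩)
      · rw [not_nonempty_iff_eq_empty] at hE
        obtain ⟨z, hdz, hz, -⟩ := hdeg d d d
        have h1 : z ∈ J.erase d := mem_erase.2 ⟨hz, hno d hd z hdz⟩
        rw [hE] at h1
        exact absurd h1 (notMem_empty _)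
  obtain ⟨p, q, hpq, h⟩ := two_orders H c S hcS hcl hmin hdeg S.card ∅ S rfl (empty_union _)
    (disjoint_empty_left _) hconn
  obtain ⟨p0, q0, hpq0, h0⟩ : ∃ p0 q0 : ℕ, p0 + q0 ≤ 0 ∧ ∀ (G : PlaneGraph) (x : G.W),
      (X H G c x ∅).card ≤ 1 ∧ True := by
    refine ⟨0, 0, le_rfl, fun G x => ⟨?_, trivial⟩⟩
    rw [card_le_one]
    intro f hf g hg
    rw [mem_X] at hf hg
    funext v
    rw [hf.1 v (notMem_empty _), hg.1 v (notMem_empty _)]
  set r := min p q with hr
  have hX : ∀ (G : PlaneGraph) (x : G.W), (X H G c x S).card ≤ (G.m + 1) ^ r := by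
    intro G x
    rcases le_total p q with hle | hle
    · rw [hr, min_eq_left hle]
      refine ((h G x).1).trans ?_
      calc (G.m + 1) ^ p * (X H G c x ∅).card ≤ (G.m + 1) ^ p * 1 :=
            Nat.mul_le_mul_left _ (h0 G x).1
        _ = _ := mul_one _
    · rw [hr, min_eq_right hle]
      exact (h G x).2
  have hsum : (S.filter (fun v => H.κ v ≠ true)).card + (S.filter (fun v => H.κ v ≠ false)).card
      = S.card := by
    have h1 : S.filter (fun v => H.κ v ≠ false) = S.filter (fun v => ¬ (H.κ v ≠ true)) := by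
      apply Finset.filter_congr
      intro v _
      cases H.κ v <;> simp
    rw [h1]
    exact Finset.card_filter_add_card_filter_not _
  obtain ⟨b, hb⟩ : ∃ b : Bool, r ≤ (S.filter (fun v => H.κ v ≠ b)).card := by
    by_contra hcon
    push Not at hcon
    have h1 := hcon true
    have h2 := hcon false
    have h3 : r ≤ p := min_le_left _ _
    have h4 : r ≤ q := min_le_right _ _
    omega
  set s := (S.filter (fun v => H.κ v ≠ b)).card with hs
  have hcardlt : @Fintype.card (H.restrict (fun x => x ∉ S)).V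
      (H.restrict (fun x => x ∉ S)).fV < Fintype.card H.V := by
    obtain ⟨d, hd⟩ := hS
    exact @Fintype.card_subtype_lt _ _ _ (H.restrict (fun x => x ∉ S)).fV d (fun h => h hd)
  have hG1 : Good (fun G => (G.m + 1) ^ s * cnt (H.restrict (fun x => x ∉ S)) G) :=
    (good_succ.pow s).mul (ih _ hcardlt)
  have hG2 : Good (fun G => (G.m + 1) ^ s * cnt (H.restrict (fun x => x ∉ S)) G +
      ∑ p ∈ prs H c S, cntId H p.1 p.2 G) := by
    apply hG1.add_sum
    intro i hi
    rw [prs, mem_filter] at hi
    have h1 : ∀ G, cnt (H.ident i.1 i.2 hi.2.1 hi.2.2) G = cntId H i.1 i.2 G :=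
      fun G => cnt_ident H i.1 i.2 hi.2.1 hi.2.2 G
    have h2 : Good (cnt (H.ident i.1 i.2 hi.2.1 hi.2.2)) := by
      apply ih
      exact Fintype.card_subtype_lt (x := i.2) (fun h => h rfl)
    exact h2.sandwich 1 (fun G => by rw [h1]; omega) (fun G => by rw [h1]; omega)
  refine hG2.sandwich (1 + (prs H c S).card) (fun G => ?_) (fun G => ?_)
  · have h1 := upper H c S hcS r G (hX G)
    have h2 : (G.m + 1) ^ r ≤ (G.m + 1) ^ s := Nat.pow_le_pow_right (by omega) hb
    have h3 := Nat.mul_le_mul_right (cnt (H.restrict (fun x => x ∉ S)) G) h2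
    have h4 : cnt H G ≤ (G.m + 1) ^ s * cnt (H.restrict (fun x => x ∉ S)) G +
      ∑ p ∈ prs H c S, cntId H p.1 p.2 G := h1.trans (Nat.add_le_add_right h3 _)
    refine h4.trans ?_
    exact Nat.le_mul_of_pos_left _ (by omega)
  · have h1 := lower H c S hcS hcl b G
    have h2 : ∑ p ∈ prs H c S, cntId H p.1 p.2 G ≤ (prs H c S).card * cnt H G := by
      rw [← smul_eq_mul]
      apply Finset.sum_le_card_nsmul
      intro i _
      exact cntId_le _ _ _ _
    rw [add_mul, one_mul]
    exact Nat.add_le_add h1 h2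

/-- The number of homomorphisms of a pattern into the incidence graph of a plane of order `m`
has exact order `m ^ e`, with `e` depending on the pattern only. -/
theorem good_cnt : ∀ (n : ℕ) (H : Pat), Fintype.card H.V = n → Good (cnt H) := by
  intro n
  induction n using Nat.strong_induction_on with
  | _ n ih =>
    intro H hn
    have ih' : ∀ H' : Pat, Fintype.card H'.V < Fintype.card H.V → Good (cnt H') :=
      fun H' h => ih _ (hn ▸ h) H' rfl
    by_cases hne : Nonempty H.V
    · by_cases hdeg : ∀ v u w : H.V, ∃ z, H.R v z ∧ z ≠ u ∧ z ≠ w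
      · exact good_deg3 H hne hdeg ih'
      · push Not at hdeg
        obtain ⟨v, u, w, h⟩ := hdeg
        have hv : ∀ z, H.R v z → z = u ∨ z = w := by
          intro z hz
          by_contra hcon
          push Not at hcon
          exact hcon.2 (h z hz hcon.1)
        have hself : ∀ a, H.R v a → a ≠ v := by
          rintro a ha rfl
          exact H.col_ne _ _ ha rfl
        have hlt : @Fintype.card (H.restrict (fun x => x ≠ v)).V
            (H.restrict (fun x => x ≠ v)).fV < Fintype.card H.V :=
          @Fintype.card_subtype_lt _ _ _ (H.restrict (fun x => x ≠ v)).fV v (fun h => h rfl)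
        have hg := ih' _ hlt
        by_cases hvu : H.R v u
        · by_cases hvw : H.R v w
          · by_cases huw : u = w
            · subst huw
              exact good_deg1 H v u hvu (fun z hz => (hv z hz).elim id id) hg
            · refine good_deg2 H v u w hvu hvw huw hv (hself u hvu) (hself w hvw) hg ?_
              have hκ : H.κ u = H.κ w := by
                have h1 := H.col_ne _ _ hvu
                have h2 := H.col_ne _ _ hvw
                revert h1 h2
                cases H.κ v <;> cases H.κ u <;> cases H.κ w <;> simp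
              have hne' : (⟨u, hself u hvu⟩ : (H.restrict (fun x => x ≠ v)).V) ≠
                  ⟨w, hself w hvw⟩ := fun h => huw (congrArg Subtype.val h)
              have h1 : ∀ G, cnt ((H.restrict (fun x => x ≠ v)).ident ⟨u, hself u hvu⟩
                  ⟨w, hself w hvw⟩ hne' hκ) G = cntId (H.restrict (fun x => x ≠ v))
                  ⟨u, hself u hvu⟩ ⟨w, hself w hvw⟩ G :=
                fun G => cnt_ident (H.restrict (fun x => x ≠ v)) ⟨u, hself u hvu⟩
                  ⟨w, hself w hvw⟩ hne' hκ G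
              have h2 : Good (cnt ((H.restrict (fun x => x ≠ v)).ident ⟨u, hself u hvu⟩
                  ⟨w, hself w hvw⟩ hne' hκ)) := by
                apply ih'
                refine lt_trans ?_ hlt
                exact card_ident_lt (H.restrict (fun x => x ≠ v)) ⟨u, hself u hvu⟩
                  ⟨w, hself w hvw⟩ hne' hκ
              exact h2.sandwich 1 (fun G => by rw [h1]; omega) (fun G => by rw [h1]; omega)
          · refine good_deg1 H v u hvu (fun z hz => ?_) hg
            rcases hv z hz with h' | h'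
            · exact h'
            · exact absurd (h' ▸ hz) hvw
        · by_cases hvw : H.R v w
          · refine good_deg1 H v w hvw (fun z hz => ?_) hg
            rcases hv z hz with h' | h'
            · exact absurd (h' ▸ hz) hvu
            · exact h'
          · refine good_deg0 H v (fun z hz => ?_) hg
            rcases hv z hz with h' | h'
            · exact hvu (h' ▸ hz)
            · exact hvw (h' ▸ hz)
    · rw [not_nonempty_iff] at hne
      have h1 : ∀ G, cnt H G = 1 := by
        intro G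
        unfold cnt
        rw [card_eq_one]
        refine ⟨fun v => (hne.false v).elim, ?_⟩
        ext φ
        rw [mem_homs, mem_singleton]
        constructor
        · intro _
          funext v
          exact (hne.false v).elim
        · intro _
          exact ⟨fun v => (hne.false v).elim, fun v => (hne.false v).elim⟩
      exact Good.one.sandwich 1 (fun G => by rw [h1]) (fun G => by rw [h1])

end Pool.Agent.H279R3.LogConv
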