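import Mathlib
import Pool.Agent.H279R3.Stmts2

/-!
# Statements of tasks, part 3 (helper279), MP_57dfd7_co
-/

namespace H279R3

open SimpleGraph

/-- Whitney planarity: every subgraph with finitely many edges has an abstract dual. -/
def WhitneyPlanar {W : Type} (H : SimpleGraph W) : Prop :=
  ∀ H' : SimpleGraph W, H' ≤ H → H'.edgeSet.Finite → ∃ K : Type, Nonempty (AbstractDual H' K)

/-- W2: connectedness of a dual can be arranged. -/
def TaskW2 : Prop :=
  ∀ (W K : Type) (H : SimpleGraph W) (ends : Sym2 W → Sym2 K),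
    (∀ A : Set K, (cut H ends A).Finite → EvenSet H (cut H ends A)) →
    (∀ F : Set (Sym2 W), F.Finite → EvenSet H F → ∃ A : Set K, cut H ends A = F) →
    ∃ K' : Type, Nonempty (AbstractDual H K')

/-- W1: compactness. -/
def TaskW1 : Prop :=
  ∀ (W : Type) (H : SimpleGraph W), (∀ v, (H.neighborSet v).Finite) → WhitneyPlanar H →
    ∃ (K : Type) (ends : Sym2 W → Sym2 K),
      (∀ A : Set K, (cut H ends A).Finite → EvenSet H (cut H ends A)) ∧
      (∀ F : Set (Sym2 W), F.Finite → EvenSet H F → ∃ A : Set K, cut H ends A = F)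

end H279R3
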